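import Pool.Agent.N321.NB.Parb
import Pool.Agent.N321.NB.Semi

set_option autoImplicit false
set_option linter.unusedSectionVars false

/-!
# Coverings of the polar set of an unbounded closed convex set

`cv n C o`: the polar set of `C` with respect to `o` is covered by `n` translates of its interior.
-/

namespace Pool.Agent.N321.MN

open scoped InnerProductSpace Topology
open Metric Module Filter Set
open Pool.Agent.H985.Sep (polar)
open Pool.Agent.N321.NB (dirs dirs' Pe)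

variable {E : Type} [NormedAddCommGroup E] [InnerProductSpace ℝ E] [FiniteDimensional ℝ E]

/-- the polar set is covered by `n` translates of its interior -/
def cv (n : ℕ) (C : Set E) (o : E) : Prop :=
  ∃ T : Finset E, T.card ≤ n ∧ polar C o ⊆ ⋃ t ∈ T, (fun x => t + x) '' interior (polar C o)

/-- some interior point is good -/
def Gd (n : ℕ) (C : Set E) : Prop := ∃ o ∈ interior C, cv n C o

/-- the recession cone -/
def Rc (C : Set E) : Set E := {d | ∀ x ∈ C, ∀ t : ℝ, 0 ≤ t → x + t • d ∈ C}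

/-- no lines -/
def LF (C : Set E) : Prop := ∀ d ∈ Rc C, -d ∈ Rc C → d = 0

/-- all faces are points -/
def Ss (C : Set E) : Prop := ∀ u x y : E, u ≠ 0 → x ∈ C → y ∈ C → (∀ z ∈ C, ⟪u, z⟫_ℝ ≤ ⟪u, x⟫_ℝ) →
  ⟪u, y⟫_ℝ = ⟪u, x⟫_ℝ → y = x

lemma cv.mono {n m : ℕ} {C : Set E} {o : E} (h : cv n C o) (hnm : n ≤ m) : cv m C o := by
  obtain ⟨T, h1, h2⟩ := h
  exact ⟨T, h1.trans hnm, h2⟩

lemma Gd.mono {n m : ℕ} {C : Set E} (h : Gd n C) (hnm : n ≤ m) : Gd m C := by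
  obtain ⟨o, h1, h2⟩ := h
  exact ⟨o, h1, h2.mono hnm⟩

lemma Rc_of_lim {C : Set E} (hC : Convex ℝ C) (hcl : IsClosed C) {ι : Type*} {l : Filter ι}
    [l.NeBot] {x : ι → E} {μ : ι → ℝ} {d : E} (hμ : Tendsto μ l (𝓝 0))
    (hμ0 : ∀ᶠ k in l, 0 ≤ μ k) (hx : ∀ᶠ k in l, x k ∈ C)
    (hlim : Tendsto (fun k => μ k • x k) l (𝓝 d)) : d ∈ Rc C := by
  intro y hy t ht
  have h1 : Tendsto (fun k => (1 - t * μ k) • y + t • (μ k • x k)) l
      (𝓝 ((1 - t * 0) • y + t • d)) :=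
    ((tendsto_const_nhds.sub (hμ.const_mul t)).smul_const y).add (hlim.const_smul t)
  rw [mul_zero, sub_zero, one_smul] at h1
  refine hcl.mem_of_tendsto h1 ?_
  have h2 : ∀ᶠ k in l, t * μ k < 1 := by
    have := hμ.const_mul t
    rw [mul_zero] at this
    exact this.eventually_lt_const one_pos
  filter_upwards [h2, hμ0, hx] with k hk1 hk2 hk3
  rw [smul_smul]
  exact hC hy hk3 (by linarith) (by positivity) (by ring)

lemma Rc_of_ray {C : Set E} (hC : Convex ℝ C) (hcl : IsClosed C) {y d : E}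
    (h : ∀ t : ℝ, 0 ≤ t → y + t • d ∈ C) : d ∈ Rc C := by
  have h0 : Tendsto (fun k : ℕ => 1 / ((k : ℝ) + 1)) atTop (𝓝 0) :=
    tendsto_one_div_add_atTop_nhds_zero_nat
  refine Rc_of_lim hC hcl (l := atTop) (x := fun k : ℕ => y + ((k : ℝ) + 1) • d)
    (μ := fun k => 1 / ((k : ℝ) + 1)) h0 (Eventually.of_forall fun k => by positivity)
    (Eventually.of_forall fun k => h _ (by positivity)) ?_
  have h1 : Tendsto (fun k : ℕ => (1 / ((k : ℝ) + 1)) • y + d) atTop (𝓝 ((0 : ℝ) • y + d)) :=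
    (h0.smul_const y).add_const d
  rw [zero_smul, zero_add] at h1
  refine h1.congr fun k => ?_
  rw [smul_add, smul_smul, one_div_mul_cancel (by positivity), one_smul]

lemma Rc_add {C : Set E} {d d' : E} (h : d ∈ Rc C) (h' : d' ∈ Rc C) : d + d' ∈ Rc C := by
  intro x hx t ht
  rw [smul_add, ← add_assoc]
  exact h' _ (h x hx t ht) t ht

lemma Rc_smul {C : Set E} {d : E} (h : d ∈ Rc C) {s : ℝ} (hs : 0 ≤ s) : s • d ∈ Rc C := by
  intro x hx t ht
  rw [smul_smul]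
  exact h x hx _ (by positivity)

lemma Rc_zero (C : Set E) : (0 : E) ∈ Rc C := by
  intro x hx t _
  simpa using hx

lemma Rc_closed {C : Set E} (hcl : IsClosed C) : IsClosed (Rc C) := by
  have : Rc C = ⋂ x ∈ C, ⋂ t : ℝ, ⋂ _ : 0 ≤ t, {d | x + t • d ∈ C} := by
    ext d
    simp [Rc]
  rw [this]
  refine isClosed_biInter fun x _ => isClosed_iInter fun t => isClosed_iInter fun _ => ?_
  exact hcl.preimage (by fun_prop : Continuous fun d : E => x + t • d)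

lemma polar_rc {C : Set E} {o v d : E} (ho : o ∈ C) (hv : v ∈ polar C o) (hd : d ∈ Rc C) :
    ⟪v, d⟫_ℝ ≤ 0 := by
  by_contra hcon
  push Not at hcon
  have h1 := hv _ (hd o ho (2 / ⟪v, d⟫_ℝ) (by positivity))
  rw [add_sub_cancel_left, real_inner_smul_right, div_mul_cancel₀ _ hcon.ne'] at h1
  norm_num at h1

/-- along an ultrafilter a sequence converges or is unbounded -/
lemma ultra {ι : Type*} (𝒰 : Ultrafilter ι) (x : ι → E) :
    (∃ a, Tendsto x 𝒰 (𝓝 a)) ∨ Tendsto (fun k => ‖x k‖) 𝒰 atTop := by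
  by_cases h : ∃ R : ℝ, ∀ᶠ k in (𝒰 : Filter ι), ‖x k‖ ≤ R
  · obtain ⟨R, hR⟩ := h
    left
    obtain ⟨a, -, ha⟩ := (isCompact_closedBall (0 : E) R).ultrafilter_le_nhds (𝒰.map x) (by
      rw [le_principal_iff]
      change ∀ᶠ k in (𝒰 : Filter ι), x k ∈ closedBall (0 : E) R
      filter_upwards [hR] with k hk
      simpa using hk)
    exact ⟨a, ha⟩
  · right
    push Not at h
    rw [Filter.tendsto_atTop]
    intro R
    filter_upwards [h R] with k hk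
    exact hk.le

/-- unit directions -/
lemma ultra_dir {ι : Type*} (𝒰 : Ultrafilter ι) (y : ι → E)
    (hy : Tendsto (fun k => ‖y k‖) 𝒰 atTop) :
    ∃ d, ‖d‖ = 1 ∧ Tendsto (fun k => ‖y k‖⁻¹ • y k) 𝒰 (𝓝 d) := by
  have h1 : ∀ᶠ k in (𝒰 : Filter ι), ‖‖y k‖⁻¹ • y k‖ = 1 := by
    filter_upwards [hy.eventually_gt_atTop 0] with k hk
    rw [norm_smul, norm_inv, norm_norm, inv_mul_cancel₀ hk.ne']
  rcases ultra 𝒰 (fun k => ‖y k‖⁻¹ • y k) with ⟨d, hd⟩ | h
  · exact ⟨d, tendsto_nhds_unique hd.norm (tendsto_const_nhds.congr' (h1.mono fun k hk => hk.symm)),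
      hd⟩
  · exfalso
    obtain ⟨k, hk1, hk2⟩ := (h1.and (h.eventually_gt_atTop 1)).exists
    linarith

/-- one covered point -/
lemma cv_point {C : Set E} (hC : Convex ℝ C) (hcl : IsClosed C) {o v w : E} (ho : o ∈ C)
    (hv : v ∈ polar C o) (h1 : ∀ x ∈ C, ⟪v, x - o⟫_ℝ = 1 → 0 < ⟪w, x - o⟫_ℝ)
    (h2 : ∀ d ∈ Rc C, d ≠ 0 → ⟪v, d⟫_ℝ = 0 → 0 < ⟪w, d⟫_ℝ) :
    ∃ ε : ℝ, 0 < ε ∧ v - ε • w ∈ interior (polar C o) := by
  by_contra hcon
  push Not at hcon
  have hex : ∀ k : ℕ, ∃ x ∈ C, 1 < ⟪v - (1 / ((k : ℝ) + 1)) • w, x - o⟫_ℝ +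
      (1 / ((k : ℝ) + 1)) ^ 2 * ‖x - o‖ := by
    intro k
    by_contra hc
    push Not at hc
    have hpos : (0 : ℝ) < 1 / ((k : ℝ) + 1) := by positivity
    refine hcon _ hpos ?_
    rw [mem_interior_iff_mem_nhds]
    refine Filter.mem_of_superset (ball_mem_nhds _ (pow_pos hpos 2)) fun u hu x hx => ?_
    rw [mem_ball, dist_eq_norm] at hu
    have h3 : ⟪u - (v - (1 / ((k : ℝ) + 1)) • w), x - o⟫_ℝ ≤
        (1 / ((k : ℝ) + 1)) ^ 2 * ‖x - o‖ :=
      (real_inner_le_norm _ _).trans (mul_le_mul_of_nonneg_right hu.le (norm_nonneg _))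
    rw [inner_sub_left] at h3
    have h4 := hc x hx
    linarith
  choose x hx hx1 using hex
  set ε : ℕ → ℝ := fun k => 1 / ((k : ℝ) + 1) with hε
  have hε0 : ∀ k, 0 < ε k := fun k => by simp only [hε]; positivity
  have hεl : Tendsto ε atTop (𝓝 0) := tendsto_one_div_add_atTop_nhds_zero_nat
  set 𝒰 : Ultrafilter ℕ := hyperfilter ℕ
  have hεU : Tendsto ε 𝒰 (𝓝 0) := hεl.mono_left Nat.hyperfilter_le_atTop
  set y : ℕ → E := fun k => x k - o with hy
  have hk1 : ∀ k, 1 < ⟪v, y k⟫_ℝ - ε k * ⟪w, y k⟫_ℝ + ε k ^ 2 * ‖y k‖ := by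
    intro k
    have := hx1 k
    rw [inner_sub_left, real_inner_smul_left] at this
    exact this
  have hk2 : ∀ k, ⟪w, y k⟫_ℝ < ε k * ‖y k‖ := by
    intro k
    have h3 := hk1 k
    have h4 : ⟪v, y k⟫_ℝ ≤ 1 := hv _ (hx k)
    have h5 : ε k * ⟪w, y k⟫_ℝ < ε k * (ε k * ‖y k‖) := by nlinarith
    exact lt_of_mul_lt_mul_left h5 (hε0 k).le
  rcases ultra 𝒰 y with ⟨a, ha⟩ | hinf
  · have haC : o + a ∈ C := by
      refine hcl.mem_of_tendsto (ha.const_add o) (Eventually.of_forall fun k => ?_)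
      simp only [hy, add_sub_cancel]
      exact hx k
    have h3 : Tendsto (fun k => ⟪v, y k⟫_ℝ - ε k * ⟪w, y k⟫_ℝ + ε k ^ 2 * ‖y k‖) 𝒰
        (𝓝 (⟪v, a⟫_ℝ - 0 * ⟪w, a⟫_ℝ + 0 ^ 2 * ‖a‖)) :=
      ((tendsto_const_nhds.inner ha).sub (hεU.mul (tendsto_const_nhds.inner ha))).add
        ((hεU.pow 2).mul ha.norm)
    have h4 : 1 ≤ ⟪v, a⟫_ℝ - 0 * ⟪w, a⟫_ℝ + 0 ^ 2 * ‖a‖ :=
      ge_of_tendsto h3 (Eventually.of_forall fun k => (hk1 k).le)
    have h5 := hv _ haC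
    rw [add_sub_cancel_left] at h5
    have h6 := h1 _ haC (by rw [add_sub_cancel_left]; linarith)
    rw [add_sub_cancel_left] at h6
    have h7 : ⟪w, a⟫_ℝ ≤ 0 * ‖a‖ :=
      le_of_tendsto_of_tendsto (tendsto_const_nhds.inner ha) (hεU.mul ha.norm)
        (Eventually.of_forall fun k => (hk2 k).le)
    linarith
  · obtain ⟨d, hd1, hd⟩ := ultra_dir 𝒰 y hinf
    have hinv : Tendsto (fun k => ‖y k‖⁻¹) 𝒰 (𝓝 0) := tendsto_inv_atTop_zero.comp hinf
    have hdR : d ∈ Rc C := by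
      refine Rc_of_lim hC hcl (l := (𝒰 : Filter ℕ)) (x := x) (μ := fun k => ‖y k‖⁻¹) hinv
        (Eventually.of_forall fun k => by positivity) (Eventually.of_forall hx) ?_
      have h3 : Tendsto (fun k => ‖y k‖⁻¹ • y k + ‖y k‖⁻¹ • o) 𝒰 (𝓝 (d + (0 : ℝ) • o)) :=
        hd.add (hinv.smul_const o)
      rw [zero_smul, add_zero] at h3
      refine h3.congr fun k => ?_
      rw [← smul_add]
      simp [hy]
    have hd0 : d ≠ 0 := by
      rintro rfl
      simp at hd1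
    have hle := polar_rc ho hv hdR
    have hpos : ∀ᶠ k in (𝒰 : Filter ℕ), 0 < ‖y k‖ := hinf.eventually_gt_atTop 0
    have h3 : ⟪w, d⟫_ℝ ≤ 0 := by
      refine le_of_tendsto_of_tendsto (tendsto_const_nhds.inner hd) hεU ?_
      filter_upwards [hpos] with k hk
      rw [real_inner_smul_right, inv_mul_le_iff₀ hk, mul_comm]
      exact (hk2 k).le
    have h4 : 0 ≤ ⟪v, d⟫_ℝ := by
      have h5 : Tendsto (fun k => ⟪v, ‖y k‖⁻¹ • y k⟫_ℝ - ε k * ⟪w, ‖y k‖⁻¹ • y k⟫_ℝ + ε k ^ 2) 𝒰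
          (𝓝 (⟪v, d⟫_ℝ - 0 * ⟪w, d⟫_ℝ + 0 ^ 2)) :=
        ((tendsto_const_nhds.inner hd).sub (hεU.mul (tendsto_const_nhds.inner hd))).add
          (hεU.pow 2)
      have h6 : 0 ≤ ⟪v, d⟫_ℝ - 0 * ⟪w, d⟫_ℝ + 0 ^ 2 := by
        refine ge_of_tendsto h5 ?_
        filter_upwards [hpos] with k hk
        have h7 := hk1 k
        rw [real_inner_smul_right, real_inner_smul_right]
        have h8 : 0 ≤ ‖y k‖⁻¹ * (⟪v, y k⟫_ℝ - ε k * ⟪w, y k⟫_ℝ + ε k ^ 2 * ‖y k‖) :=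
          mul_nonneg (by positivity) (by linarith)
        have h9 : ‖y k‖⁻¹ * (⟪v, y k⟫_ℝ - ε k * ⟪w, y k⟫_ℝ + ε k ^ 2 * ‖y k‖) =
            ‖y k‖⁻¹ * ⟪v, y k⟫_ℝ - ε k * (‖y k‖⁻¹ * ⟪w, y k⟫_ℝ) + ε k ^ 2 := by
          field_simp
        linarith
      linarith
    have := h2 d hdR hd0 (le_antisymm hle h4)
    linarith

lemma zero_mem_polar (C : Set E) (o : E) : (0 : E) ∈ polar C o := fun y _ => by simp

/-- **Coverings from directions.** -/
theorem cv_of_dirs {C : Set E} (hC : Convex ℝ C) (hcl : IsClosed C) {o : E} (ho : o ∈ interior C)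
    (W : Finset E) (hW : ∀ v ∈ polar C o, ∃ w ∈ W, (∀ x ∈ C, ⟪v, x - o⟫_ℝ = 1 → 0 < ⟪w, x - o⟫_ℝ) ∧
      ∀ d ∈ Rc C, d ≠ 0 → ⟪v, d⟫_ℝ = 0 → 0 < ⟪w, d⟫_ℝ) : cv W.card C o := by
  classical
  have hPc : IsCompact (polar C o) := Pool.Agent.H985.Sep.isCompact_polar ho
  have hPv : Convex ℝ (polar C o) := Pool.Agent.H985.Sep.convex_polar C o
  have hp : ∀ v : E, ∃ (w : E) (ε : ℝ), v ∈ polar C o → w ∈ W ∧ 0 < ε ∧
      v - ε • w ∈ interior (polar C o) := by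
    intro v
    by_cases hv : v ∈ polar C o
    · obtain ⟨w, hw, h1, h2⟩ := hW v hv
      obtain ⟨ε, hε, h3⟩ := cv_point hC hcl (interior_subset ho) hv h1 h2
      exact ⟨w, ε, fun _ => ⟨hw, hε, h3⟩⟩
    · exact ⟨0, 0, fun h => absurd h hv⟩
  choose w ε hwε using hp
  obtain ⟨S, hS, hcov⟩ := hPc.elim_nhds_subcover
    (fun v => (fun u => u - ε v • w v) ⁻¹' interior (polar C o)) (fun v hv =>
      (isOpen_interior.preimage (by fun_prop)).mem_nhds (hwε v hv).2.2)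
  obtain ⟨η, hη, hηS⟩ : ∃ η : ℝ, 0 < η ∧ ∀ v ∈ S, η < ε v := by
    have hev : ∀ᶠ η : ℝ in 𝓝[>] 0, ∀ v ∈ S, η < ε v := by
      rw [Filter.eventually_all_finset]
      intro v hv
      exact (eventually_lt_nhds (hwε v (hS v hv)).2.1).filter_mono nhdsWithin_le_nhds
    obtain ⟨η, h1, h2⟩ := (hev.and self_mem_nhdsWithin).exists
    exact ⟨η, h2, h1⟩
  refine ⟨W.image fun w => η • w, Finset.card_image_le, fun v hv => ?_⟩
  obtain ⟨s, hs, hvs⟩ := mem_iUnion₂.1 (hcov hv)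
  have hεs := (hwε s (hS s hs)).2.1
  have hlt := hηS s hs
  simp only [mem_iUnion]
  refine ⟨η • w s, Finset.mem_image_of_mem _ (hwε s (hS s hs)).1, v - η • w s, ?_, by simp⟩
  have h1 := hPv.combo_self_interior_mem_interior hv (show v - ε s • w s ∈ _ from hvs)
    (a := 1 - η / ε s) (b := η / ε s) (by rw [sub_nonneg, div_le_one hεs]; exact hlt.le)
    (by positivity) (by ring)
  have h2 : (1 - η / ε s) • v + (η / ε s) • (v - ε s • w s) = v - η • w s := by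
    rw [smul_sub, smul_smul, div_mul_cancel₀ _ hεs.ne', sub_smul, one_smul]
    abel
  rwa [h2] at h1

/-- closed convex cones without lines are pointed -/
theorem pointed [Nontrivial E] {R : Set E} (hcl : IsClosed R) (h0 : (0 : E) ∈ R)
    (hadd : ∀ x ∈ R, ∀ y ∈ R, x + y ∈ R) (hsm : ∀ x ∈ R, ∀ t : ℝ, 0 ≤ t → t • x ∈ R)
    (hline : ∀ x ∈ R, -x ∈ R → x = 0) : ∃ (e : E) (c : ℝ), ‖e‖ = 1 ∧ 0 < c ∧
      ∀ v ∈ R, c * ‖v‖ ≤ ⟪e, v⟫_ℝ := by
  classical
  have hRv : Convex ℝ R := fun x hx y hy a b ha hb _ => hadd _ (hsm x hx a ha) _ (hsm y hy b hb)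
  have hsep : ∀ v : E, ∃ e : E, (∀ x ∈ R, 0 ≤ ⟪e, x⟫_ℝ) ∧ (v ∈ R → v ≠ 0 → 0 < ⟪e, v⟫_ℝ) := by
    intro v
    by_cases hv : v ∈ R ∧ v ≠ 0
    · have hn : -v ∉ R := fun h => hv.2 (hline v hv.1 h)
      obtain ⟨f, u, h1, h2⟩ := geometric_hahn_banach_closed_point hRv hcl hn
      set g : E := (InnerProductSpace.toDual ℝ E).symm f with hg
      have hgf : ∀ x, ⟪g, x⟫_ℝ = f x := fun x => InnerProductSpace.toDual_symm_apply
      have hu : 0 < u := by simpa using h1 0 h0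
      have hle : ∀ x ∈ R, f x ≤ 0 := by
        intro x hx
        by_contra hc
        push Not at hc
        have h3 := h1 _ (hsm x hx (u / f x) (by positivity))
        rw [map_smul, smul_eq_mul, div_mul_cancel₀ _ hc.ne'] at h3
        exact lt_irrefl _ h3
      refine ⟨-g, fun x hx => ?_, fun _ _ => ?_⟩
      · rw [inner_neg_left, hgf]
        linarith [hle x hx]
      · rw [inner_neg_left, hgf]
        rw [map_neg] at h2
        linarith
    · refine ⟨0, fun x _ => by simp, fun h1 h2 => absurd ⟨h1, h2⟩ hv⟩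
  choose e he1 he2 using hsep
  set S : Set E := R ∩ sphere 0 1 with hS
  have hSc : IsCompact S := (isCompact_sphere (0 : E) 1).inter_left hcl
  have hne0 : ∀ v ∈ S, v ≠ 0 := by
    rintro v hv rfl
    have := hv.2
    simp at this
  obtain ⟨A, hA, hcov⟩ := hSc.elim_nhds_subcover (fun v => {x | 0 < ⟪e v, x⟫_ℝ}) (fun v hv =>
      (isOpen_lt continuous_const (by fun_prop)).mem_nhds (he2 v hv.1 (hne0 v hv)))
  set g : E := ∑ v ∈ A, e v with hg
  have hgS : ∀ x ∈ S, 0 < ⟪g, x⟫_ℝ := by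
    intro x hx
    obtain ⟨s, hs, hxs⟩ := mem_iUnion₂.1 (hcov hx)
    rw [hg, sum_inner]
    exact Finset.sum_pos' (fun v _ => he1 v x hx.1) ⟨s, hs, hxs⟩
  obtain ⟨c, hc, hcS⟩ : ∃ c : ℝ, 0 < c ∧ ∀ x ∈ S, c ≤ ⟪g, x⟫_ℝ := by
    rcases S.eq_empty_or_nonempty with hE | hN
    · exact ⟨1, one_pos, by simp [hE]⟩
    · obtain ⟨x, hx, hmin⟩ := hSc.exists_isMinOn hN (f := fun x => ⟪g, x⟫_ℝ) (by fun_prop)
      exact ⟨_, hgS x hx, fun y hy => hmin hy⟩
  have hgR : ∀ v ∈ R, c * ‖v‖ ≤ ⟪g, v⟫_ℝ := by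
    intro v hv
    rcases eq_or_ne v 0 with rfl | hv0
    · simp
    have hn : 0 < ‖v‖ := norm_pos_iff.2 hv0
    have h1 := hcS (‖v‖⁻¹ • v) ⟨hsm v hv _ (by positivity), by
      rw [mem_sphere_zero_iff_norm, norm_smul, norm_inv, norm_norm, inv_mul_cancel₀ hn.ne']⟩
    rw [real_inner_smul_right, inv_mul_eq_div, le_div_iff₀ hn] at h1
    exact h1
  rcases eq_or_ne g 0 with hg0 | hg0
  · obtain ⟨u, hu⟩ := exists_norm_eq E (zero_le_one' ℝ)
    refine ⟨u, 1, hu, one_pos, fun v hv => ?_⟩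
    have h1 := hgR v hv
    rw [hg0, inner_zero_left] at h1
    have h2 : ‖v‖ = 0 := by
      have := norm_nonneg v
      nlinarith
    rw [h2, norm_eq_zero.1 h2]
    simp
  · have hn : 0 < ‖g‖ := norm_pos_iff.2 hg0
    refine ⟨‖g‖⁻¹ • g, ‖g‖⁻¹ * c, ?_, by positivity, fun v hv => ?_⟩
    · rw [norm_smul, norm_inv, norm_norm, inv_mul_cancel₀ hn.ne']
    · rw [real_inner_smul_left, mul_assoc]
      exact mul_le_mul_of_nonneg_left (hgR v hv) (by positivity)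

theorem LF.pointed [Nontrivial E] {C : Set E} (hcl : IsClosed C) (hl : LF C) :
    ∃ (e : E) (c : ℝ), ‖e‖ = 1 ∧ 0 < c ∧ ∀ v ∈ Rc C, c * ‖v‖ ≤ ⟪e, v⟫_ℝ :=
  MN.pointed (Rc_closed hcl) (Rc_zero C) (fun _ h _ h' => Rc_add h h')
    (fun _ h _ ht => Rc_smul h ht) hl

/-- **All faces are points.** -/
theorem cv_strict [Nontrivial E] {C : Set E} (hC : Convex ℝ C) (hcl : IsClosed C) (hl : LF C)
    (hs : Ss C) {o : E} (ho : o ∈ interior C) : cv (finrank ℝ E + 1) C o := by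
  classical
  obtain ⟨e, c, he, hc, hec⟩ := hl.pointed hcl
  obtain ⟨W, c', hWc, hc', hWe, hW⟩ := dirs' he
  have hcard : (insert e (W.image fun w => w - e)).card ≤ finrank ℝ E + 1 :=
    (Finset.card_insert_le _ _).trans (Nat.add_le_add_right (Finset.card_image_le.trans hWc) 1)
  refine (cv_of_dirs hC hcl ho _ fun v hv => ?_).mono hcard
  by_cases hx : ∃ x ∈ C, ⟪v, x - o⟫_ℝ = 1
  · obtain ⟨x, hx, hvx⟩ := hx
    have hv0 : v ≠ 0 := by
      rintro rfl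
      simp at hvx
    have huniq : ∀ y ∈ C, ⟪v, y - o⟫_ℝ = 1 → y = x := by
      intro y hy hvy
      refine hs v x y hv0 hx hy (fun z hz => ?_) ?_
      · have h1 := hv z hz
        rw [inner_sub_right] at h1 hvx
        linarith
      · rw [inner_sub_right] at hvy hvx
        linarith
    have hrec : ∀ d ∈ Rc C, d ≠ 0 → ⟪v, d⟫_ℝ = 0 → False := by
      intro d hd hd0 hvd
      have h1 := hd x hx 1 zero_le_one
      rw [one_smul] at h1
      have h2 := huniq _ h1 (by rw [add_sub_right_comm, inner_add_right, hvx, hvd, add_zero])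
      exact hd0 (by simpa using h2)
    have hy0 : x - o ≠ 0 := by
      intro h
      rw [h] at hvx
      simp at hvx
    obtain ⟨w, hw, hwx⟩ : ∃ w ∈ insert e (W.image fun w => w - e), 0 < ⟪w, x - o⟫_ℝ := by
      rcases lt_or_ge 0 ⟪e, x - o⟫_ℝ with h1 | h1
      · exact ⟨e, Finset.mem_insert_self _ _, h1⟩
      · obtain ⟨w, hw, h2⟩ := hW (x - o)
        refine ⟨w - e, Finset.mem_insert_of_mem (Finset.mem_image_of_mem _ hw), ?_⟩
        rw [inner_sub_left]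
        rcases h1.lt_or_eq with h3 | h3
        · have : 0 ≤ c' * ‖Pe e (x - o)‖ := by positivity
          linarith
        · have h4 : Pe e (x - o) = x - o := by
            rw [Pe, h3, zero_smul, sub_zero]
          rw [h4] at h2
          have : 0 < c' * ‖x - o‖ := mul_pos hc' (norm_pos_iff.2 hy0)
          linarith
    refine ⟨w, hw, fun y hy hvy => ?_, fun d hd hd0 hvd => (hrec d hd hd0 hvd).elim⟩
    rw [huniq y hy hvy]
    exact hwx
  · push Not at hx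
    refine ⟨e, Finset.mem_insert_self _ _, fun x hxC hvx => (hx x hxC hvx).elim,
      fun d hd hd0 _ => ?_⟩
    have := hec d hd
    have h2 : 0 < c * ‖d‖ := mul_pos hc (norm_pos_iff.2 hd0)
    linarith

end Pool.Agent.N321.MN
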