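import Pool.Agent.N321.MN.A
import Pool.Agent.R753.SJ.B

set_option autoImplicit false
set_option linter.unusedSectionVars false

/-!
# Semicontinuity along ultrafilters, and affine maps
-/

namespace Pool.Agent.N321.MN

open scoped InnerProductSpace Topology
open Metric Module Filter Set
open Pool.Agent.H985.Sep (polar)
open Pool.Agent.N321.NB (dirs)

variable {E : Type} [NormedAddCommGroup E] [InnerProductSpace ℝ E] [FiniteDimensional ℝ E]

/-- local convergence along an ultrafilter -/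
structure LoU {ι : Type*} (𝒰 : Ultrafilter ι) (C : Set E) (K : ι → Set E) : Prop where
  cvx : ∀ᶠ k in (𝒰 : Filter ι), Convex ℝ (K k)
  inn : ∀ z ∈ interior C, ∀ᶠ k in (𝒰 : Filter ι), z ∈ K k
  out : ∀ (x : ι → E) (a : E), (∀ᶠ k in (𝒰 : Filter ι), x k ∈ K k) → Tendsto x 𝒰 (𝓝 a) → a ∈ C

lemma ball_of_near {K : Set E} (hK : Convex ℝ K) {W : Finset E} {c : ℝ}
    (hW : ∀ v : E, ∃ w ∈ W, c * ‖v‖ ≤ ⟪w, v⟫_ℝ) {z : E} {a η ρ : ℝ} (ha : 0 < a)
    (hη : η + ρ < a * c) (hx : ∀ w ∈ W, ∃ x ∈ K, ‖x - (z + a • w)‖ ≤ η) :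
    closedBall z ρ ⊆ K := by
  classical
  intro p hp
  rw [mem_closedBall, dist_eq_norm] at hp
  have hx' : ∀ w : E, ∃ x : E, w ∈ W → x ∈ K ∧ ‖x - (z + a • w)‖ ≤ η := by
    intro w
    by_cases hw : w ∈ W
    · obtain ⟨x, h1, h2⟩ := hx w hw
      exact ⟨x, fun _ => ⟨h1, h2⟩⟩
    · exact ⟨0, fun h => absurd h hw⟩
  choose x hxK using hx'
  have hsub : convexHull ℝ ((W.image x : Finset E) : Set E) ⊆ K := by
    refine convexHull_min ?_ hK
    intro q hq
    obtain ⟨w, hw, rfl⟩ := Finset.mem_image.1 (Finset.mem_coe.1 hq)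
    exact (hxK w hw).1
  apply hsub
  by_contra hcon
  obtain ⟨f, u, h1, h2⟩ := geometric_hahn_banach_closed_point (convex_convexHull ℝ _)
    ((Finset.finite_toSet (W.image x)).isClosed_convexHull (𝕜 := ℝ)) hcon
  set v : E := (InnerProductSpace.toDual ℝ E).symm f with hv
  have hvf : ∀ x, ⟪v, x⟫_ℝ = f x := fun x => InnerProductSpace.toDual_symm_apply
  obtain ⟨w, hw, hwv⟩ := hW v
  have h3 := h1 (x w) (subset_convexHull ℝ _ (Finset.mem_coe.2 (Finset.mem_image_of_mem _ hw)))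
  rw [← hvf] at h3 h2
  have h4 : ⟪v, p - z⟫_ℝ ≤ ‖v‖ * ρ :=
    (real_inner_le_norm _ _).trans (mul_le_mul_of_nonneg_left hp (norm_nonneg _))
  have h5 : ⟪v, (z + a • w) - x w⟫_ℝ ≤ ‖v‖ * η := by
    refine (real_inner_le_norm _ _).trans (mul_le_mul_of_nonneg_left ?_ (norm_nonneg _))
    rw [norm_sub_rev]
    exact (hxK w hw).2
  rw [inner_sub_right] at h4 h5
  rw [inner_add_right, real_inner_smul_right, real_inner_comm w v] at h5
  have h7 : a * (c * ‖v‖) ≤ a * ⟪w, v⟫_ℝ := mul_le_mul_of_nonneg_left hwv ha.le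
  have h8 : ‖v‖ * (a * c - η - ρ) < 0 := by nlinarith
  have h9 := norm_nonneg v
  nlinarith

lemma pos_dirs {C : Set E} {z : E} (hz : z ∈ interior C) (W : Finset E) :
    ∃ a : ℝ, 0 < a ∧ ∀ w ∈ W, z + a • w ∈ interior C := by
  have hev : ∀ᶠ a : ℝ in 𝓝 0, ∀ w ∈ W, z + a • w ∈ interior C := by
    rw [Filter.eventually_all_finset]
    intro w _
    have hcont : Continuous fun a : ℝ => z + a • w := by fun_prop
    have h1 : z + (0 : ℝ) • w ∈ interior C := by rwa [zero_smul, add_zero]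
    exact hcont.continuousAt.eventually (isOpen_interior.mem_nhds h1)
  obtain ⟨a, h1, h2⟩ := ((hev.filter_mono (nhdsWithin_le_nhds (s := Set.Ioi 0))).and
    self_mem_nhdsWithin).exists
  exact ⟨a, h2, h1⟩

lemma LoU.ball {ι : Type*} {𝒰 : Ultrafilter ι} {C : Set E} {K : ι → Set E} (h : LoU 𝒰 C K) {z : E}
    (hz : z ∈ interior C) : ∃ r : ℝ, 0 < r ∧ ∀ᶠ k in (𝒰 : Filter ι), closedBall z r ⊆ K k := by
  obtain ⟨W, c, -, hc, hW⟩ := dirs E
  obtain ⟨a, ha, haW⟩ := pos_dirs hz W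
  have hev : ∀ᶠ k in (𝒰 : Filter ι), ∀ w ∈ W, z + a • w ∈ K k := by
    rw [Filter.eventually_all_finset]
    exact fun w hw => h.inn _ (haW w hw)
  refine ⟨a * c / 2, by positivity, ?_⟩
  filter_upwards [hev, h.cvx] with k hk hkc
  exact ball_of_near hkc hW ha (η := 0) (by linarith [mul_pos ha hc])
    fun w hw => ⟨_, hk w hw, by simp⟩

/-- the limit set -/
def ulim {ι : Type*} (𝒰 : Ultrafilter ι) (K : ι → Set E) : Set E :=
  {z | ∀ ε : ℝ, 0 < ε → ∀ᶠ k in (𝒰 : Filter ι), ∃ x ∈ K k, ‖x - z‖ < ε}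

lemma ulim_closed {ι : Type*} (𝒰 : Ultrafilter ι) (K : ι → Set E) : IsClosed (ulim 𝒰 K) := by
  rw [← closure_subset_iff_isClosed]
  intro z hz ε hε
  obtain ⟨z', hz', hd⟩ := Metric.mem_closure_iff.1 hz (ε / 2) (by positivity)
  rw [dist_eq_norm] at hd
  filter_upwards [hz' (ε / 2) (by positivity)] with k hk
  obtain ⟨x, hx, hxz⟩ := hk
  refine ⟨x, hx, ?_⟩
  calc ‖x - z‖ = ‖(x - z') - (z - z')‖ := by congr 1; abel
    _ ≤ ‖x - z'‖ + ‖z - z'‖ := norm_sub_le _ _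
    _ < ε := by linarith

lemma ulim_convex {ι : Type*} {𝒰 : Ultrafilter ι} {K : ι → Set E}
    (hK : ∀ᶠ k in (𝒰 : Filter ι), Convex ℝ (K k)) : Convex ℝ (ulim 𝒰 K) := by
  intro z hz z' hz' a b ha hb hab ε hε
  filter_upwards [hK, hz ε hε, hz' ε hε] with k hk h1 h2
  obtain ⟨x, hx, hxz⟩ := h1
  obtain ⟨x', hx', hxz'⟩ := h2
  refine ⟨a • x + b • x', hk hx hx' ha hb hab, ?_⟩
  have h3 : a • x + b • x' - (a • z + b • z') = a • (x - z) + b • (x' - z') := by
    rw [smul_sub, smul_sub]; abel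
  rw [h3]
  have h4 : ‖a • (x - z) + b • (x' - z')‖ ≤ a * ‖x - z‖ + b * ‖x' - z'‖ := by
    refine (norm_add_le _ _).trans ?_
    rw [norm_smul, norm_smul, Real.norm_eq_abs, Real.norm_eq_abs, abs_of_nonneg ha,
      abs_of_nonneg hb]
  have h5 : a * ‖x - z‖ + b * ‖x' - z'‖ < ε := by
    rcases ha.lt_or_eq with ha' | ha'
    · have h6 : a * ‖x - z‖ < a * ε := mul_lt_mul_of_pos_left hxz ha'
      have h7 : b * ‖x' - z'‖ ≤ b * ε := mul_le_mul_of_nonneg_left hxz'.le hb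
      have h8 : a * ε + b * ε = ε := by rw [← add_mul, hab, one_mul]
      linarith
    · have hb1 : b = 1 := by linarith
      rw [← ha', hb1]
      linarith
  linarith

lemma ulim_lo {ι : Type*} {𝒰 : Ultrafilter ι} {K : ι → Set E}
    (hK : ∀ᶠ k in (𝒰 : Filter ι), Convex ℝ (K k)) : LoU 𝒰 (ulim 𝒰 K) K := by
  refine ⟨hK, fun z hz => ?_, fun x a hx hxa ε hε => ?_⟩
  · obtain ⟨W, c, -, hc, hW⟩ := dirs E
    obtain ⟨a, ha, haW⟩ := pos_dirs hz W
    have hev : ∀ᶠ k in (𝒰 : Filter ι), ∀ w ∈ W, ∃ x ∈ K k, ‖x - (z + a • w)‖ < a * c / 2 := by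
      rw [Filter.eventually_all_finset]
      exact fun w hw => interior_subset (haW w hw) _ (by positivity)
    filter_upwards [hev, hK] with k hk hkc
    refine ball_of_near hkc hW ha (η := a * c / 2) (ρ := 0) (by linarith [mul_pos ha hc])
      (fun w hw => ?_) (mem_closedBall_self le_rfl)
    obtain ⟨x, h1, h2⟩ := hk w hw
    exact ⟨x, h1, h2.le⟩
  · filter_upwards [hx, Metric.tendsto_nhds.1 hxa ε hε] with k h1 h2
    exact ⟨x k, h1, by rwa [dist_eq_norm] at h2⟩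

/-- inner approximation of the polar sets -/
lemma LoU.inner_polar {ι : Type*} {𝒰 : Ultrafilter ι} {C : Set E} {K : ι → Set E}
    (h : LoU 𝒰 C K) {o : E} (h0 : o ∈ interior C) {p : E} (hp : p ∈ interior (polar C o)) :
    ∃ r : ℝ, 0 < r ∧ ∀ᶠ k in (𝒰 : Filter ι), ∀ v : E, ‖v - p‖ < r → v ∈ polar (K k) o := by
  obtain ⟨r, hr, hrC⟩ := Metric.nhds_basis_closedBall.mem_iff.1 (mem_interior_iff_mem_nhds.1 hp)
  have hC : ∀ x ∈ C, ⟪p, x - o⟫_ℝ + r * ‖x - o‖ ≤ 1 := by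
    intro x hx
    rcases eq_or_ne (x - o) 0 with h0 | hx0
    · rw [h0]; simp
    have hn : 0 < ‖x - o‖ := norm_pos_iff.2 hx0
    have h1 : p + (r / ‖x - o‖) • (x - o) ∈ closedBall p r := by
      rw [mem_closedBall, dist_eq_norm, add_sub_cancel_left, norm_smul, Real.norm_eq_abs,
        abs_of_pos (by positivity), div_mul_cancel₀ _ hn.ne']
    have h2 := hrC h1 x hx
    rw [inner_add_left, real_inner_smul_left, real_inner_self_eq_norm_sq] at h2
    have h3 : r / ‖x - o‖ * ‖x - o‖ ^ 2 = r * ‖x - o‖ := by field_simp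
    linarith
  refine ⟨r / 2, by positivity, ?_⟩
  by_contra hcon
  rw [← Ultrafilter.eventually_not] at hcon
  have hx : ∀ k, ∃ x : E, (¬ ∀ v : E, ‖v - p‖ < r / 2 → v ∈ polar (K k) o) → x ∈ K k ∧
      1 < ⟪p, x - o⟫_ℝ + r / 2 * ‖x - o‖ := by
    intro k
    by_cases hk : ∀ v : E, ‖v - p‖ < r / 2 → v ∈ polar (K k) o
    · exact ⟨0, fun h => absurd hk h⟩
    · have h1 := hk
      push Not at h1
      obtain ⟨v, hv, hvK⟩ := h1
      simp only [polar, mem_setOf_eq, not_forall] at hvK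
      obtain ⟨x, hx, hvx⟩ := hvK
      rw [not_le] at hvx
      refine ⟨x, fun _ => ⟨hx, hvx.trans_le ?_⟩⟩
      have h2 : ⟪v - p, x - o⟫_ℝ ≤ ‖v - p‖ * ‖x - o‖ := real_inner_le_norm _ _
      rw [inner_sub_left] at h2
      have h3 : ‖v - p‖ * ‖x - o‖ ≤ r / 2 * ‖x - o‖ :=
        mul_le_mul_of_nonneg_right hv.le (norm_nonneg _)
      linarith
  choose x hxk using hx
  have hxK : ∀ᶠ k in (𝒰 : Filter ι), x k ∈ K k := hcon.mono fun k hk => (hxk k hk).1
  have hx1 : ∀ᶠ k in (𝒰 : Filter ι), 1 < ⟪p, x k - o⟫_ℝ + r / 2 * ‖x k - o‖ :=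
    hcon.mono fun k hk => (hxk k hk).2
  rcases ultra 𝒰 (fun k => x k - o) with ⟨a, ha⟩ | hinf
  · have haC : o + a ∈ C := by
      refine h.out x _ hxK ?_
      have := ha.const_add o
      simpa using this
    have h1 : Tendsto (fun k => ⟪p, x k - o⟫_ℝ + r / 2 * ‖x k - o‖) 𝒰
        (𝓝 (⟪p, a⟫_ℝ + r / 2 * ‖a‖)) := (tendsto_const_nhds.inner ha).add (ha.norm.const_mul _)
    have h2 : 1 ≤ ⟪p, a⟫_ℝ + r / 2 * ‖a‖ := ge_of_tendsto h1 (hx1.mono fun k hk => hk.le)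
    have h3 := hC _ haC
    rw [add_sub_cancel_left] at h3
    have h4 := norm_nonneg a
    have h5 : ‖a‖ = 0 := by nlinarith
    rw [norm_eq_zero.1 h5, inner_zero_right, norm_zero] at h2
    norm_num at h2
  · obtain ⟨d, hd1, hd⟩ := ultra_dir 𝒰 _ hinf
    have hinv : Tendsto (fun k => ‖x k - o‖⁻¹) 𝒰 (𝓝 0) := tendsto_inv_atTop_zero.comp hinf
    have hdC : ∀ s : ℝ, 0 ≤ s → o + s • d ∈ C := by
      intro s hs
      refine h.out (fun k => (1 - s * ‖x k - o‖⁻¹) • o + (s * ‖x k - o‖⁻¹) • x k) _ ?_ ?_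
      · filter_upwards [h.cvx, h.inn o h0, hxK, hinf.eventually_gt_atTop (s + 1)] with k h1 h2 h3 h4
        have hpos : 0 < ‖x k - o‖ := by linarith
        refine h1 h2 h3 ?_ (by positivity) (by ring)
        rw [sub_nonneg, ← div_eq_mul_inv, div_le_one hpos]
        linarith
      · have h1 := (hd.const_smul s).const_add o
        refine h1.congr fun k => ?_
        rw [smul_smul, smul_sub, sub_smul, one_smul]
        abel
    have h1 : Tendsto (fun k => ⟪p, ‖x k - o‖⁻¹ • (x k - o)⟫_ℝ) 𝒰 (𝓝 ⟪p, d⟫_ℝ) :=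
      tendsto_const_nhds.inner hd
    have h2 : -(r / 2) ≤ ⟪p, d⟫_ℝ := by
      refine ge_of_tendsto h1 ?_
      filter_upwards [hinf.eventually_gt_atTop 0, hx1] with k hk h3
      rw [real_inner_smul_right, inv_mul_eq_div, le_div_iff₀ hk]
      linarith
    have h3 : ∀ s : ℝ, 0 ≤ s → s * (⟪p, d⟫_ℝ + r) ≤ 1 := by
      intro s hs
      have h4 := hC _ (hdC s hs)
      rw [add_sub_cancel_left, real_inner_smul_right, norm_smul, hd1, Real.norm_eq_abs,
        abs_of_nonneg hs, mul_one] at h4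
      linarith
    have h4 := h3 (4 / r) (by positivity)
    have h5 : 4 / r * (r / 2) ≤ 4 / r * (⟪p, d⟫_ℝ + r) :=
      mul_le_mul_of_nonneg_left (by linarith) (by positivity)
    have h6 : 4 / r * (r / 2) = 2 := by field_simp; norm_num
    linarith

/-- **Semicontinuity.** -/
theorem semiU {ι : Type*} {𝒰 : Ultrafilter ι} {C : Set E} {K : ι → Set E} (hCv : Convex ℝ C)
    (h : LoU 𝒰 C K) {o : E} (h0 : o ∈ interior C) {n : ℕ} (hT : cv n C o) :
    ∀ᶠ k in (𝒰 : Filter ι), o ∈ interior (K k) ∧ cv n (K k) o := by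
  classical
  obtain ⟨T, hTc, hT⟩ := hT
  obtain ⟨r, hr, hball⟩ := h.ball h0
  have h0i : ∀ᶠ k in (𝒰 : Filter ι), o ∈ interior (K k) := hball.mono fun k hk =>
    mem_interior_iff_mem_nhds.2 (Filter.mem_of_superset (closedBall_mem_nhds _ hr) hk)
  by_contra hcon
  rw [← Ultrafilter.eventually_not] at hcon
  have hv : ∀ k, ∃ v : E, ¬ cv n (K k) o → v ∈ polar (K k) o ∧
      ∀ t ∈ T, v - t ∉ interior (polar (K k) o) := by
    intro k
    by_cases hk : cv n (K k) o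
    · exact ⟨0, fun h => absurd hk h⟩
    · by_contra hcon2
      push Not at hcon2
      refine hk ⟨T, hTc, fun v hv => ?_⟩
      obtain ⟨t, ht, hvt⟩ := (hcon2 v).2 hv
      simp only [mem_iUnion]
      exact ⟨t, ht, v - t, hvt, by simp⟩
  choose v hvk using hv
  have hnc : ∀ᶠ k in (𝒰 : Filter ι), ¬ cv n (K k) o := by
    filter_upwards [hcon, h0i] with k h1 h2 h3
    exact h1 ⟨h2, h3⟩
  have hvK : ∀ᶠ k in (𝒰 : Filter ι), v k ∈ polar (K k) o := hnc.mono fun k hk => (hvk k hk).1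
  have hvb : ∀ᶠ k in (𝒰 : Filter ι), ‖v k‖ ≤ 1 / r := by
    filter_upwards [hvK, hball] with k h1 h2
    exact Pool.Agent.H985.Sep.norm_le_of_mem_polar hr h2 _ h1
  obtain ⟨vi, hlv⟩ : ∃ a, Tendsto v 𝒰 (𝓝 a) := by
    rcases ultra 𝒰 v with h1 | h1
    · exact h1
    · obtain ⟨k, h2, h3⟩ := (hvb.and (h1.eventually_gt_atTop (1 / r))).exists
      linarith
  have hvi : vi ∈ polar C o := by
    have h1 : ∀ z ∈ interior C, ⟪vi, z - o⟫_ℝ ≤ 1 := by
      intro z hz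
      refine le_of_tendsto (hlv.inner tendsto_const_nhds) ?_
      filter_upwards [h.inn z hz, hvK] with k h2 h3
      exact h3 z h2
    intro z hz
    have hcl : z ∈ closure (interior C) := by
      rw [hCv.closure_interior_eq_closure_of_nonempty_interior ⟨o, h0⟩]
      exact subset_closure hz
    exact closure_minimal (t := {z | ⟪vi, z - o⟫_ℝ ≤ 1}) h1
      (isClosed_le (by fun_prop) continuous_const) hcl
  obtain ⟨t, ht, p, hp, hpt⟩ : ∃ t ∈ T, ∃ p ∈ interior (polar C o), t + p = vi := by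
    have := hT hvi
    simp only [mem_iUnion] at this
    obtain ⟨t, ht, p, hp, hpt⟩ := this
    exact ⟨t, ht, p, hp, hpt⟩
  obtain ⟨ρ, hρ, hev⟩ := h.inner_polar h0 hp
  have hlt : Tendsto (fun k => v k - t) 𝒰 (𝓝 p) := by
    have := hlv.sub_const t
    rw [← hpt, add_sub_cancel_left] at this
    exact this
  obtain ⟨k, ⟨hk1, hk2⟩, hk3⟩ := ((hev.and (Metric.tendsto_nhds.1 hlt (ρ / 2)
    (by positivity))).and hnc).exists
  refine (hvk k hk3).2 t ht ?_
  rw [mem_interior_iff_mem_nhds]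
  refine Filter.mem_of_superset (ball_mem_nhds _ (show 0 < ρ / 2 by positivity)) fun v' hv' => ?_
  refine hk1 v' ?_
  rw [dist_eq_norm] at hk2
  rw [mem_ball, dist_eq_norm] at hv'
  calc ‖v' - p‖ = ‖(v' - (v k - t)) + ((v k - t) - p)‖ := by congr 1; abel
    _ ≤ ‖v' - (v k - t)‖ + ‖(v k - t) - p‖ := norm_add_le _ _
    _ < ρ := by linarith

section affine

variable {E' : Type} [NormedAddCommGroup E'] [InnerProductSpace ℝ E'] [FiniteDimensional ℝ E']

/-- the preimage under an affine map -/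
def pre (C : Set E) (o : E) (A : E' ≃ₗ[ℝ] E) : Set E' := {z | o + A z ∈ C}

/-- the adjoint as an equivalence -/
noncomputable def adj (A : E' ≃ₗ[ℝ] E) : E ≃ₗ[ℝ] E' :=
  LinearEquiv.ofLinear (LinearMap.adjoint (A : E' →ₗ[ℝ] E))
    (LinearMap.adjoint (A.symm : E →ₗ[ℝ] E'))
    (by rw [← LinearMap.adjoint_comp, LinearEquiv.symm_comp, LinearMap.adjoint_id])
    (by rw [← LinearMap.adjoint_comp, LinearEquiv.comp_symm, LinearMap.adjoint_id])

lemma adj_inner (A : E' ≃ₗ[ℝ] E) (v : E) (z : E') : ⟪adj A v, z⟫_ℝ = ⟪v, A z⟫_ℝ :=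
  LinearMap.adjoint_inner_left (A : E' →ₗ[ℝ] E) z v

lemma pre_polar (C : Set E) (o : E) (A : E' ≃ₗ[ℝ] E) (p : E') :
    (adj A).toContinuousLinearEquiv '' polar C (o + A p) = polar (pre C o A) p := by
  ext u
  constructor
  · rintro ⟨v, hv, rfl⟩ z hz
    have h1 := hv _ hz
    change ⟪adj A v, z - p⟫_ℝ ≤ 1
    rw [adj_inner, map_sub]
    rwa [add_sub_add_left_eq_sub] at h1
  · intro hu
    refine ⟨(adj A).symm u, fun x hx => ?_, by simp⟩
    have h1 := hu (A.symm (x - o)) (by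
      change o + A (A.symm (x - o)) ∈ C
      rw [A.apply_symm_apply, add_sub_cancel]
      exact hx)
    have h2 := adj_inner A ((adj A).symm u) (A.symm (x - o) - p)
    rw [LinearEquiv.apply_symm_apply] at h2
    rw [h2, map_sub, A.apply_symm_apply] at h1
    rwa [← sub_sub]

lemma cv_pre {C : Set E} {o : E} {A : E' ≃ₗ[ℝ] E} {p : E'} {n : ℕ} (h : cv n (pre C o A) p) :
    cv n C (o + A p) := by
  refine Pool.Agent.R753.SJ.cover_equiv (adj A).toContinuousLinearEquiv _ n ?_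
  rw [pre_polar]
  exact h

lemma pre_interior (C : Set E) (o : E) (A : E' ≃ₗ[ℝ] E) :
    interior (pre C o A) = {z | o + A z ∈ interior C} := by
  have h : pre C o A = (A.toContinuousLinearEquiv.toHomeomorph.trans (Homeomorph.addLeft o)) ⁻¹' C :=
    rfl
  rw [h, ← Homeomorph.preimage_interior]
  rfl

lemma pre_convex {C : Set E} (hC : Convex ℝ C) (o : E) (A : E' ≃ₗ[ℝ] E) :
    Convex ℝ (pre C o A) := by
  intro x hx y hy a b ha hb hab
  have h := hC hx hy ha hb hab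
  change o + A (a • x + b • y) ∈ C
  have h2 : o + A (a • x + b • y) = a • (o + A x) + b • (o + A y) := by
    rw [map_add, map_smul, map_smul, smul_add, smul_add]
    have : a • o + b • o = o := by rw [← add_smul, hab, one_smul]
    nth_rewrite 1 [← this]
    abel
  rwa [h2]

lemma pre_closed {C : Set E} (hC : IsClosed C) (o : E) (A : E' ≃ₗ[ℝ] E) :
    IsClosed (pre C o A) := by
  have : Continuous fun z => o + A z :=
    continuous_const.add A.toContinuousLinearEquiv.continuous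
  exact hC.preimage this

lemma Gd_pre {C : Set E} {o : E} {A : E' ≃ₗ[ℝ] E} {n : ℕ} (h : Gd n (pre C o A)) : Gd n C := by
  obtain ⟨p, hp, hcv⟩ := h
  rw [pre_interior] at hp
  exact ⟨_, hp, cv_pre hcv⟩

lemma pre_rc {C : Set E} {o : E} {A : E' ≃ₗ[ℝ] E} {d : E'} (hd : d ∈ Rc (pre C o A)) :
    A d ∈ Rc C := by
  intro x hx t ht
  have h1 := hd (A.symm (x - o)) (by
    change o + A (A.symm (x - o)) ∈ C
    rw [A.apply_symm_apply, add_sub_cancel]
    exact hx) t ht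
  change o + A (A.symm (x - o) + t • d) ∈ C at h1
  rwa [map_add, A.apply_symm_apply, map_smul, ← add_assoc, add_sub_cancel] at h1

lemma pre_lf {C : Set E} (hl : LF C) (o : E) (A : E' ≃ₗ[ℝ] E) : LF (pre C o A) := by
  intro d h1 h2
  have h3 := hl (A d) (pre_rc h1) (by rw [← map_neg]; exact pre_rc h2)
  exact A.map_eq_zero_iff.1 h3

/-- **Zooming.** -/
theorem Gd_lim {ι : Type*} {𝒰 : Ultrafilter ι} {C : Set E'} {K : Set E} {n : ℕ} (hC : Convex ℝ C)
    (hG : Gd n C) (o : ι → E) (A : ι → E' ≃ₗ[ℝ] E)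
    (h : LoU 𝒰 C (fun k => pre K (o k) (A k))) : Gd n K := by
  obtain ⟨p, hp, hcv⟩ := hG
  obtain ⟨k, h1, h2⟩ := (semiU hC h hp hcv).exists
  exact Gd_pre ⟨p, h1, h2⟩

end affine

end Pool.Agent.N321.MN
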