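import Pool.Agent.N321.MN.B

set_option autoImplicit false
set_option linter.unusedSectionVars false

/-!
# Pyramids, cylinders and cones
-/

namespace Pool.Agent.N321.MN

open scoped InnerProductSpace Topology
open Metric Module Filter Set
open Pool.Agent.H985.Sep (polar)
open Pool.Agent.N321.NB (Pe Pe_perp inner_orth)

variable {E : Type} [NormedAddCommGroup E] [InnerProductSpace ℝ E] [FiniteDimensional ℝ E]
variable {V : Type} [NormedAddCommGroup V] [InnerProductSpace ℝ V] [FiniteDimensional ℝ V]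

/-- **Pyramids.** -/
lemma pyr {P : Set V} (hP : Convex ℝ P) (hPc : IsCompact P) (h0 : (0 : V) ∈ interior P)
    {T : Finset V} {n : ℕ} (hT : T.card ≤ n) (hcov : P ⊆ ⋃ t ∈ T, (fun x => t + x) '' interior P)
    (π : E →L[ℝ] V) (b : V) (a : E →L[ℝ] ℝ) (c : ℝ)
    (hsurj : ∀ (x : V) (r : ℝ), ∃ v, π v = x ∧ a v = r) {Q : Set E}
    (hQ : ∀ v, v ∈ Q ↔ 0 ≤ a v + c ∧ gauge P (π v + b) + (a v + c) ≤ 1) :
    ∃ T' : Finset E, T'.card ≤ n + 1 ∧ Q ⊆ ⋃ t ∈ T', (fun x => t + x) '' interior Q := by
  classical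
  have hP0 : P ∈ 𝓝 (0 : V) := mem_interior_iff_mem_nhds.1 h0
  have habs : Absorbent ℝ P := absorbent_nhds_zero hP0
  have hgc : Continuous (gauge P) := continuous_gauge hP hP0
  -- the interior
  have hint : ∀ v, 0 < a v + c → gauge P (π v + b) + (a v + c) < 1 → v ∈ interior Q := by
    intro v h1 h2
    rw [mem_interior]
    refine ⟨{v | 0 < a v + c} ∩ {v | gauge P (π v + b) + (a v + c) < 1}, ?_,
      (isOpen_lt continuous_const (by fun_prop)).inter (isOpen_lt (by fun_prop)
        continuous_const), ⟨h1, h2⟩⟩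
    rintro u ⟨h3, h4⟩
    exact (hQ u).2 ⟨le_of_lt h3, le_of_lt h4⟩
  -- uniform gap
  have hTn : T.Nonempty := by
    obtain ⟨t, ht, -⟩ := mem_iUnion₂.1 (hcov (interior_subset h0))
    exact ⟨t, ht⟩
  obtain ⟨δ, hδ, hδ1, hgap⟩ : ∃ δ : ℝ, 0 < δ ∧ δ ≤ 1 ∧ ∀ u ∈ P, ∃ t ∈ T,
      gauge P (u - t) ≤ 1 - δ := by
    obtain ⟨u₀, hu₀, hmax⟩ := hPc.exists_isMaxOn ⟨0, interior_subset h0⟩
      (f := fun u => T.inf' hTn fun t => gauge P (u - t))
      (Continuous.continuousOn (Continuous.finset_inf'_apply hTn fun t _ => by fun_prop))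
    have hlt : (T.inf' hTn fun t => gauge P (u₀ - t)) < 1 := by
      obtain ⟨t, ht, x, hx, hxt⟩ := mem_iUnion₂.1 (hcov hu₀)
      rw [Finset.inf'_lt_iff]
      refine ⟨t, ht, ?_⟩
      have : u₀ - t = x := by rw [← hxt]; simp
      rw [this]
      exact (gauge_lt_one_iff_mem_interior hP hP0).2 hx
    have hge : 0 ≤ T.inf' hTn fun t => gauge P (u₀ - t) := by
      rw [Finset.le_inf'_iff]
      exact fun t _ => gauge_nonneg _
    refine ⟨1 - T.inf' hTn fun t => gauge P (u₀ - t), by linarith, by linarith, fun u hu => ?_⟩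
    obtain ⟨t, ht, h1⟩ := T.exists_mem_eq_inf' hTn fun t => gauge P (u - t)
    refine ⟨t, ht, ?_⟩
    have h2 : (T.inf' hTn fun t => gauge P (u - t)) ≤ T.inf' hTn fun t => gauge P (u₀ - t) :=
      hmax hu
    rw [h1] at h2
    linarith
  choose τ hτ1 hτ2 using hsurj
  refine ⟨insert (τ 0 (1 / 4)) (T.image fun t => τ ((1 / 2 : ℝ) • t) (-(δ / 4))),
    (Finset.card_insert_le _ _).trans (Nat.add_le_add_right (Finset.card_image_le.trans hT) 1),
    fun v hv => ?_⟩
  obtain ⟨h1, h2⟩ := (hQ v).1 hv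
  have hg0 : 0 ≤ gauge P (π v + b) := gauge_nonneg _
  simp only [mem_iUnion]
  rcases le_or_gt (a v + c) (1 / 2) with h3 | h3
  · -- the base part
    set α := a v + c with hα
    have hα1 : 0 < 1 - α := by linarith
    have hu : (1 - α)⁻¹ • (π v + b) ∈ P := by
      have h4 : gauge P ((1 - α)⁻¹ • (π v + b)) ≤ 1 := by
        rw [gauge_smul_of_nonneg (by positivity), smul_eq_mul, inv_mul_le_iff₀ hα1]
        linarith
      have h5 := (gauge_le_one_iff_mem_closure hP hP0).1 h4
      rwa [hPc.isClosed.closure_eq] at h5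
    obtain ⟨t, ht, hgt⟩ := hgap _ hu
    refine ⟨τ ((1 / 2 : ℝ) • t) (-(δ / 4)), Finset.mem_insert_of_mem
      (Finset.mem_image_of_mem _ ht), v - τ ((1 / 2 : ℝ) • t) (-(δ / 4)), ?_, by simp⟩
    apply hint
    · rw [map_sub, hτ2]
      linarith
    · rw [map_sub, map_sub, hτ1, hτ2]
      have hs0 : 0 < 1 / 2 / (1 - α) := by positivity
      have hs1 : 1 / 2 / (1 - α) ≤ 1 := by
        rw [div_le_one hα1]
        linarith
      set s : ℝ := 1 / 2 / (1 - α) with hs
      set u : V := (1 - α)⁻¹ • (π v + b) with hu'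
      have h4 : π v - (1 / 2 : ℝ) • t + b = (1 - α) • ((1 - s) • u + s • (u - t)) := by
        have h5 : (1 - α) • u = π v + b := by
          rw [hu', smul_smul, mul_inv_cancel₀ hα1.ne', one_smul]
        have h6 : (1 - α) * s = 1 / 2 := by rw [hs]; field_simp
        have h7 : (1 - s) • u + s • (u - t) = u - s • t := by
          rw [sub_smul, one_smul, smul_sub]
          abel
        rw [h7, smul_sub, h5, smul_smul, h6]
        abel
      have h5 : gauge P (π v - (1 / 2 : ℝ) • t + b) ≤ (1 - α) * (1 - s * δ) := by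
        rw [h4, gauge_smul_of_nonneg hα1.le, smul_eq_mul]
        refine mul_le_mul_of_nonneg_left ?_ hα1.le
        refine (gauge_add_le hP habs _ _).trans ?_
        rw [gauge_smul_of_nonneg (by linarith), gauge_smul_of_nonneg hs0.le, smul_eq_mul,
          smul_eq_mul]
        have h6 : gauge P u ≤ 1 := gauge_le_one_of_mem hu
        have h7 : (1 - s) * gauge P u ≤ (1 - s) * 1 := mul_le_mul_of_nonneg_left h6 (by linarith)
        have h8 : s * gauge P (u - t) ≤ s * (1 - δ) := mul_le_mul_of_nonneg_left hgt hs0.le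
        linarith
      have h6 : (1 - α) * (1 - s * δ) = (1 - α) - δ / 2 := by
        rw [hs]; field_simp
      have h7 : a v - -(δ / 4) + c = α + δ / 4 := by rw [hα]; ring
      rw [h7]
      linarith
  · refine ⟨τ 0 (1 / 4), Finset.mem_insert_self _ _, v - τ 0 (1 / 4), ?_, by simp⟩
    apply hint
    · rw [map_sub, hτ2]
      linarith
    · rw [map_sub, map_sub, hτ1, hτ2, sub_zero]
      linarith

/-- **Pyramids over a polar set.** -/
theorem cv_pyr {F : Set V} (hF : (0 : V) ∈ interior F) {n : ℕ} (hcv : cv n F 0)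
    (π : E →L[ℝ] V) (a : E →L[ℝ] ℝ) (c : ℝ)
    (hsurj : ∀ (x : V) (r : ℝ), ∃ v, π v = x ∧ a v = r) {C : Set E} {o : E}
    (hQ : ∀ v, v ∈ polar C o ↔ 0 ≤ a v + c ∧ ∀ l ∈ F, ⟪π v, l⟫_ℝ ≤ 1 - (a v + c)) :
    cv (n + 1) C o := by
  classical
  obtain ⟨T, hT, hcov⟩ := hcv
  have hPc : IsCompact (polar F 0) := Pool.Agent.H985.Sep.isCompact_polar hF
  have hPv : Convex ℝ (polar F 0) := Pool.Agent.H985.Sep.convex_polar F 0
  obtain ⟨p, hp⟩ : ∃ p, p ∈ interior (polar F 0) := by
    obtain ⟨t, -, x, hx, -⟩ := mem_iUnion₂.1 (hcov (zero_mem_polar F 0))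
    exact ⟨x, hx⟩
  set P : Set V := (Homeomorph.addLeft p) ⁻¹' polar F 0 with hPdef
  have hPm : ∀ x, x ∈ P ↔ p + x ∈ polar F 0 := fun x => Iff.rfl
  have hPi : ∀ x, x ∈ interior P ↔ p + x ∈ interior (polar F 0) := by
    intro x
    rw [hPdef, ← Homeomorph.preimage_interior]
    rfl
  have h0 : (0 : V) ∈ interior P := by
    rw [hPi, add_zero]
    exact hp
  have hP0 : P ∈ 𝓝 (0 : V) := mem_interior_iff_mem_nhds.1 h0
  have hPv' : Convex ℝ P := by
    intro x hx y hy α β hα hβ hab
    rw [hPm] at hx hy ⊢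
    have h1 := hPv hx hy hα hβ hab
    have h2 : p + (α • x + β • y) = α • (p + x) + β • (p + y) := by
      rw [smul_add, smul_add]
      have : α • p + β • p = p := by rw [← add_smul, hab, one_smul]
      nth_rewrite 1 [← this]
      abel
    rwa [h2]
  have hPc' : IsCompact P := by
    rw [hPdef]
    exact (Homeomorph.addLeft p).isCompact_preimage.2 hPc
  have hlin : ∀ v, (π + a.smulRight p) v + -((1 - c) • p) = π v - (1 - (a v + c)) • p := by
    intro v
    simp only [ContinuousLinearMap.add_apply, ContinuousLinearMap.smulRight_apply]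
    rw [sub_smul, sub_smul, add_smul]
    abel
  refine pyr (Q := polar C o) hPv' hPc' h0 hT (fun x hx => ?_) (π + a.smulRight p)
    (-((1 - c) • p)) a c (fun x r => ?_) fun v => ?_
  · have h1 := hcov ((hPm x).1 hx)
    simp only [mem_iUnion] at h1 ⊢
    obtain ⟨t, ht, y, hy, hxy⟩ := h1
    refine ⟨t, ht, y - p, ?_, ?_⟩
    · rw [hPi, add_sub_cancel]
      exact hy
    · simp only at hxy ⊢
      rw [← add_sub_assoc, hxy, add_sub_cancel_left]
  · obtain ⟨v, h1, h2⟩ := hsurj (x - r • p) r
    exact ⟨v, by simp [h1, h2], h2⟩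
  · rw [hQ, hlin]
    constructor
    · rintro ⟨h1, h2⟩
      refine ⟨h1, ?_⟩
      have h3 : a v + c ≤ 1 := by
        have := h2 0 (interior_subset hF)
        rw [inner_zero_right] at this
        linarith
      rcases h3.lt_or_eq with h4 | h4
      · have hα1 : 0 < 1 - (a v + c) := by linarith
        have h5 : (1 - (a v + c))⁻¹ • (π v) - p ∈ P := by
          rw [hPm, add_sub_cancel]
          intro l hl
          rw [sub_zero, real_inner_smul_left, inv_mul_le_iff₀ hα1, mul_one]
          exact h2 l hl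
        have h6 : π v - (1 - (a v + c)) • p =
            (1 - (a v + c)) • ((1 - (a v + c))⁻¹ • (π v) - p) := by
          rw [smul_sub, smul_smul, mul_inv_cancel₀ hα1.ne', one_smul]
        rw [h6, gauge_smul_of_nonneg hα1.le, smul_eq_mul]
        have h7 := mul_le_mul_of_nonneg_left (gauge_le_one_of_mem h5) hα1.le
        linarith
      · have h5 : π v = 0 := by
          by_contra h6
          obtain ⟨y, hy, hy0⟩ := Pool.Agent.R753.SJ.exists_pos hF h6
          have h7 := h2 y hy
          rw [sub_zero] at hy0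
          linarith
        rw [h5, h4]
        simp
    · rintro ⟨h1, h2⟩
      refine ⟨h1, fun l hl => ?_⟩
      have hg0 : 0 ≤ gauge P (π v - (1 - (a v + c)) • p) := gauge_nonneg _
      have h3 : a v + c ≤ 1 := by linarith
      rcases h3.lt_or_eq with h4 | h4
      · have hα1 : 0 < 1 - (a v + c) := by linarith
        have h5 : (1 - (a v + c))⁻¹ • (π v - (1 - (a v + c)) • p) ∈ P := by
          have h6 : gauge P ((1 - (a v + c))⁻¹ • (π v - (1 - (a v + c)) • p)) ≤ 1 := by
            rw [gauge_smul_of_nonneg (by positivity), smul_eq_mul, inv_mul_le_iff₀ hα1]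
            linarith
          have h7 := (gauge_le_one_iff_mem_closure hPv' hP0).1 h6
          rwa [hPc'.isClosed.closure_eq] at h7
        rw [hPm, smul_sub, smul_smul, inv_mul_cancel₀ hα1.ne', one_smul, add_sub_cancel] at h5
        have h6 := h5 l hl
        rw [sub_zero, real_inner_smul_left, inv_mul_le_iff₀ hα1, mul_one] at h6
        exact h6
      · rw [h4] at h2 ⊢
        rw [sub_self, zero_smul, sub_zero] at h2
        have h5 : gauge P (π v) = 0 := le_antisymm (by linarith) (gauge_nonneg _)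
        have h6 : π v = 0 :=
          (gauge_eq_zero (absorbent_nhds_zero hP0) (NormedSpace.isVonNBounded_of_isBounded ℝ
            hPc'.isBounded)).1 h5
        rw [h6, inner_zero_left, sub_self]

/-- the hyperplane orthogonal to `e` -/
noncomputable abbrev Hp (e : E) : Submodule ℝ E := (Submodule.span ℝ {e})ᗮ

/-- the projection to the hyperplane -/
noncomputable def prj (e : E) : E →L[ℝ] Hp e := (Hp e).orthogonalProjection

lemma prj_coe {e : E} (he : ‖e‖ = 1) (v : E) : (prj e v : E) = v - ⟪e, v⟫_ℝ • e := by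
  rw [prj, Submodule.coe_orthogonalProjection_apply, Submodule.starProjection_orthogonal_val,
    Submodule.starProjection_unit_singleton ℝ he]

lemma prj_inner (e : E) (v : E) (l : Hp e) : ⟪prj e v, l⟫_ℝ = ⟪v, (l : E)⟫_ℝ := by
  rw [Submodule.coe_inner]
  exact Submodule.inner_orthogonalProjection_eq_of_mem_right l v

lemma prj_self {e : E} (l : Hp e) : prj e (l : E) = l :=
  Submodule.orthogonalProjection_mem_subspace_eq_self l

lemma prj_e {e : E} (he : ‖e‖ = 1) : prj e e = 0 := by
  apply Subtype.ext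
  rw [prj_coe he, real_inner_self_eq_norm_sq, he]
  simp

lemma prj_add_smul {e : E} (he : ‖e‖ = 1) (v : E) : (prj e v : E) + ⟪e, v⟫_ℝ • e = v := by
  rw [prj_coe he, sub_add_cancel]

/-- a half-infinite cylinder -/
def Cyl (e : E) (F : Set (Hp e)) : Set E := {z | -1 ≤ ⟪e, z⟫_ℝ ∧ prj e z ∈ F}

lemma Cyl_convex {e : E} {F : Set (Hp e)} (hF : Convex ℝ F) : Convex ℝ (Cyl e F) := by
  rintro x ⟨hx1, hx2⟩ y ⟨hy1, hy2⟩ a b ha hb hab
  refine ⟨?_, ?_⟩
  · rw [inner_add_right, real_inner_smul_right, real_inner_smul_right]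
    nlinarith
  · rw [map_add, map_smul, map_smul]
    exact hF hx2 hy2 ha hb hab

lemma Cyl_interior {e : E} (he : ‖e‖ = 1) {F : Set (Hp e)} {z : E} (hz : z ∈ interior (Cyl e F)) :
    -1 < ⟪e, z⟫_ℝ ∧ prj e z ∈ interior F := by
  constructor
  · by_contra hcon
    push Not at hcon
    have he0 : -e ≠ 0 := by
      rw [neg_ne_zero]
      rintro rfl
      simp at he
    refine Pool.Agent.N321.NB.not_int_of_max (u := -e) he0 (fun x hx => ?_) hz
    rw [inner_neg_left, inner_neg_left]
    have := hx.1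
    linarith
  · have hc : Continuous fun l : Hp e => (l : E) + ⟪e, z⟫_ℝ • e := by fun_prop
    rw [mem_interior]
    refine ⟨(fun l : Hp e => (l : E) + ⟪e, z⟫_ℝ • e) ⁻¹' interior (Cyl e F), ?_,
      isOpen_interior.preimage hc, ?_⟩
    · intro l hl
      have h1 := (interior_subset (s := Cyl e F) hl).2
      rwa [map_add, map_smul, prj_e he, smul_zero, add_zero, prj_self] at h1
    · rw [mem_preimage, prj_add_smul he]
      exact hz

lemma Cyl_zero {e : E} {F : Set (Hp e)} (h0 : (0 : Hp e) ∈ interior F) :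
    (0 : E) ∈ interior (Cyl e F) := by
  rw [mem_interior]
  refine ⟨{z | -1 < ⟪e, z⟫_ℝ} ∩ (prj e) ⁻¹' interior F, ?_,
    (isOpen_lt continuous_const (by fun_prop)).inter
      (isOpen_interior.preimage (prj e).continuous), ?_, ?_⟩
  · rintro z ⟨h1, h2⟩
    exact ⟨le_of_lt h1, interior_subset (s := F) h2⟩
  · simp
  · simpa using h0

/-- **Cylinders.** -/
theorem cv_cyl {e : E} (he : ‖e‖ = 1) {F : Set (Hp e)} (h0 : (0 : Hp e) ∈ interior F) {n : ℕ}
    (hcv : cv n F 0) : cv (n + 1) (Cyl e F) 0 := by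
  have hee : ⟪e, e⟫_ℝ = 1 := by rw [real_inner_self_eq_norm_sq, he, one_pow]
  refine cv_pyr h0 hcv (prj e) (-(innerSL ℝ e)) 0 (fun x r => ?_) fun v => ?_
  · refine ⟨(x : E) - r • e, ?_, ?_⟩
    · rw [map_sub, map_smul, prj_e he, smul_zero, sub_zero, prj_self]
    · rw [ContinuousLinearMap.neg_apply, innerSL_apply_apply, inner_sub_right, inner_orth,
        real_inner_smul_right, hee]
      ring
  · rw [ContinuousLinearMap.neg_apply, innerSL_apply_apply, add_zero]
    constructor
    · intro hv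
      have h1 : ∀ l ∈ F, ∀ s : ℝ, -1 ≤ s → ⟪v, (l : E)⟫_ℝ + s * ⟪e, v⟫_ℝ ≤ 1 := by
        intro l hl s hs
        have h2 := hv ((l : E) + s • e) ⟨by
          rw [inner_add_right, inner_orth, real_inner_smul_right, hee]
          linarith, by
          rwa [map_add, map_smul, prj_e he, smul_zero, add_zero, prj_self]⟩
        rwa [sub_zero, inner_add_right, real_inner_smul_right, real_inner_comm e v] at h2
      constructor
      · by_contra hcon
        push Not at hcon
        have hpos : 0 < ⟪e, v⟫_ℝ := by linarith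
        have h2 := h1 0 (interior_subset h0) (2 / ⟪e, v⟫_ℝ) (by
          have : 0 < 2 / ⟪e, v⟫_ℝ := by positivity
          linarith)
        rw [div_mul_cancel₀ _ hpos.ne'] at h2
        have h3 : ⟪v, ((0 : Hp e) : E)⟫_ℝ = 0 := by simp
        linarith
      · intro l hl
        have := h1 l hl (-1) le_rfl
        rw [prj_inner]
        linarith
    · rintro ⟨h1, h2⟩ z ⟨hz1, hz2⟩
      have h3 := h2 _ hz2
      rw [prj_inner] at h3
      rw [sub_zero, ← prj_add_smul he z, inner_add_right, real_inner_smul_right,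
        real_inner_comm e v]
      nlinarith

/-- **Cones.** -/
theorem cv_cone {e : E} (he : ‖e‖ = 1) {T : Set E} (hsm : ∀ z ∈ T, ∀ s : ℝ, 0 ≤ s → s • z ∈ T)
    (hpos : ∀ z ∈ T, z ≠ 0 → 0 < ⟪e, z⟫_ℝ) {w : E} (hw : w ∈ T) (hκ : 0 < ⟪e, w⟫_ℝ)
    {F : Set (Hp e)} (hF : ∀ l : Hp e, l ∈ F ↔ w + (l : E) ∈ T) (h0 : (0 : Hp e) ∈ interior F)
    {n : ℕ} (hcv : cv n F 0) : cv (n + 1) {z | w + z ∈ T} 0 := by
  have hee : ⟪e, e⟫_ℝ = 1 := by rw [real_inner_self_eq_norm_sq, he, one_pow]
  refine cv_pyr h0 hcv (prj e) (innerSL ℝ w) 1 (fun x r => ?_) fun v => ?_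
  · refine ⟨(x : E) + ((r - ⟪w, (x : E)⟫_ℝ) / ⟪e, w⟫_ℝ) • e, ?_, ?_⟩
    · rw [map_add, map_smul, prj_e he, smul_zero, add_zero, prj_self]
    · rw [innerSL_apply_apply, inner_add_right, real_inner_smul_right, real_inner_comm e w,
        div_mul_cancel₀ _ hκ.ne']
      ring
  · rw [innerSL_apply_apply]
    constructor
    · intro hv
      constructor
      · have h1 := hv (-w) (by
          change w + -w ∈ T
          have := hsm w hw 0 le_rfl
          rwa [zero_smul, ← add_neg_cancel w] at this)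
        rw [sub_zero, inner_neg_right, real_inner_comm w v] at h1
        linarith
      · intro l hl
        rw [prj_inner]
        have hl' := (hF l).1 hl
        have h1 : ∀ s : ℝ, 0 ≤ s → s * ⟪v, w + (l : E)⟫_ℝ - ⟪v, w⟫_ℝ ≤ 1 := by
          intro s hs
          have h2 := hv (s • (w + (l : E)) - w) (by
            change w + (s • (w + (l : E)) - w) ∈ T
            rw [add_sub_cancel]
            exact hsm _ hl' s hs)
          rwa [sub_zero, inner_sub_right, real_inner_smul_right] at h2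
        have h3 : ⟪v, w + (l : E)⟫_ℝ ≤ 0 := by
          by_contra hcon
          push Not at hcon
          have h4 := h1 ((2 + |⟪v, w⟫_ℝ|) / ⟪v, w + (l : E)⟫_ℝ) (by positivity)
          rw [div_mul_cancel₀ _ hcon.ne'] at h4
          have := le_abs_self ⟪v, w⟫_ℝ
          linarith
        rw [inner_add_right] at h3
        rw [real_inner_comm v w]
        linarith
    · rintro ⟨h1, h2⟩ z hz
      rw [sub_zero]
      have hz' : w + z ∈ T := hz
      have h3 : ⟪v, w + z⟫_ℝ ≤ 0 := by
        rcases eq_or_ne (w + z) 0 with h4 | h4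
        · rw [h4, inner_zero_right]
        have h5 := hpos _ hz' h4
        set s : ℝ := ⟪e, w⟫_ℝ / ⟪e, w + z⟫_ℝ with hs
        have hs0 : 0 < s := by positivity
        have hm : s • (w + z) - w ∈ Hp e := by
          rw [Submodule.mem_orthogonal_singleton_iff_inner_right, inner_sub_right,
            real_inner_smul_right, hs, div_mul_cancel₀ _ h5.ne', sub_self]
        have h6 := h2 ⟨s • (w + z) - w, hm⟩ ((hF _).2 (by
          change w + (s • (w + z) - w) ∈ T
          rw [add_sub_cancel]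
          exact hsm _ hz' s hs0.le))
        rw [prj_inner] at h6
        change ⟪v, s • (w + z) - w⟫_ℝ ≤ _ at h6
        rw [inner_sub_right, real_inner_smul_right, real_inner_comm v w] at h6
        have h7 : s * ⟪v, w + z⟫_ℝ ≤ 0 := by linarith
        by_contra hcon
        push Not at hcon
        have := mul_pos hs0 hcon
        linarith
      rw [inner_add_right] at h3
      rw [real_inner_comm v w] at h1
      linarith

/-- shifting -/
lemma polar_shift (F : Set V) (o : V) : polar {l | o + l ∈ F} 0 = polar F o := by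
  ext v
  constructor
  · intro h x hx
    have := h (x - o) (by
      change o + (x - o) ∈ F
      rwa [add_sub_cancel])
    rwa [sub_zero] at this
  · intro h l hl
    have := h _ hl
    rwa [add_sub_cancel_left, ← sub_zero l] at this

lemma cv_shift {F : Set V} {o : V} {n : ℕ} : cv n {l | o + l ∈ F} 0 ↔ cv n F o := by
  unfold cv
  rw [polar_shift]

lemma shift_interior (F : Set V) (o : V) {z : V} :
    z ∈ interior {l | o + l ∈ F} ↔ o + z ∈ interior F := by
  have : {l | o + l ∈ F} = (Homeomorph.addLeft o) ⁻¹' F := rfl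
  rw [this, ← Homeomorph.preimage_interior]
  rfl

end Pool.Agent.N321.MN
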