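import Pool.Agent.N321.MN.C

set_option autoImplicit false
set_option linter.unusedSectionVars false

/-!
# Zooming at facets, along recession directions and at vertices
-/

namespace Pool.Agent.N321.MN

open scoped InnerProductSpace Topology
open Metric Module Filter Set
open Pool.Agent.H985.Sep (polar)
open Pool.Agent.N321.NB (inner_orth Tc Pn Tc_convex Tc_smul Tc_zero Tc_pointed Tc_int ray_mem)

variable {E : Type} [NormedAddCommGroup E] [InnerProductSpace ℝ E] [FiniteDimensional ℝ E]
variable {V : Type} [NormedAddCommGroup V] [InnerProductSpace ℝ V] [FiniteDimensional ℝ V]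

/-- scaling by `t` in the direction `e` -/
noncomputable def scl (e : E) (t : ℝ) : E →ₗ[ℝ] E :=
  LinearMap.id + (t - 1) • ((innerₛₗ ℝ e : E →ₗ[ℝ] ℝ).smulRight e)

lemma scl_apply (e : E) (t : ℝ) (z : E) : scl e t z = z + ((t - 1) * ⟪e, z⟫_ℝ) • e := by
  simp [scl, smul_smul]

lemma scl_comp {e : E} (he : ‖e‖ = 1) (t s : ℝ) (z : E) : scl e t (scl e s z) = scl e (t * s) z := by
  have hee : ⟪e, e⟫_ℝ = 1 := by rw [real_inner_self_eq_norm_sq, he, one_pow]
  rw [scl_apply, scl_apply, scl_apply, inner_add_right, real_inner_smul_right, hee, add_assoc,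
    ← add_smul]
  congr 2
  ring

/-- scaling as an equivalence -/
noncomputable def sc {e : E} (he : ‖e‖ = 1) {t : ℝ} (ht : t ≠ 0) : E ≃ₗ[ℝ] E :=
  LinearEquiv.ofLinear (scl e t) (scl e t⁻¹)
    (by
      ext z
      rw [LinearMap.comp_apply, scl_comp he, mul_inv_cancel₀ ht, scl_apply]
      simp)
    (by
      ext z
      rw [LinearMap.comp_apply, scl_comp he, inv_mul_cancel₀ ht, scl_apply]
      simp)

lemma sc_apply {e : E} (he : ‖e‖ = 1) {t : ℝ} (ht : t ≠ 0) (z : E) :
    sc he ht z = (prj e z : E) + (t * ⟪e, z⟫_ℝ) • e := by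
  change scl e t z = _
  rw [scl_apply, prj_coe he, sub_mul, one_mul, sub_smul]
  abel

/-- the sequence -/
noncomputable def tk (k : ℕ) : ℝ := 1 / ((k : ℝ) + 1)

lemma tk_pos (k : ℕ) : 0 < tk k := by unfold tk; positivity

lemma tk_lim : Tendsto tk (hyperfilter ℕ : Filter ℕ) (𝓝 0) :=
  tendsto_one_div_add_atTop_nhds_zero_nat.mono_left Nat.hyperfilter_le_atTop

lemma tk_inv_lim : Tendsto (fun k => (tk k)⁻¹) (hyperfilter ℕ : Filter ℕ) atTop := by
  have h : Tendsto (fun k : ℕ => (k : ℝ) + 1) atTop atTop :=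
    tendsto_atTop_add_const_right _ _ tendsto_natCast_atTop_atTop
  refine (h.mono_left Nat.hyperfilter_le_atTop).congr fun k => ?_
  simp [tk]

lemma Fconv {e : E} {C : Set E} (hC : Convex ℝ C) {q : E} {F : Set (Hp e)}
    (hF : ∀ l : Hp e, l ∈ F ↔ q + (l : E) ∈ C) : Convex ℝ F := by
  intro x hx y hy a b ha hb hab
  rw [hF] at hx hy ⊢
  have h := hC hx hy ha hb hab
  have h2 : q + ((a • x + b • y : Hp e) : E) = a • (q + (x : E)) + b • (q + (y : E)) := by
    rw [smul_add, smul_add, Submodule.coe_add, Submodule.coe_smul, Submodule.coe_smul]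
    have : a • q + b • q = q := by rw [← add_smul, hab, one_smul]
    nth_rewrite 1 [← this]
    abel
  rwa [h2]

/-- zooming at a facet -/
lemma facet_lo {e : E} (he : ‖e‖ = 1) {C : Set E} (hC : Convex ℝ C) (hcl : IsClosed C) {q : E}
    (hpos : ∀ x ∈ C, 0 ≤ ⟪e, x - q⟫_ℝ) (hint : (interior C).Nonempty) {F : Set (Hp e)}
    (hF : ∀ l : Hp e, l ∈ F ↔ q + (l : E) ∈ C) :
    LoU (hyperfilter ℕ) (Cyl e F) (fun k => pre C (q + tk k • e) (sc he (tk_pos k).ne')) := by
  have hee : ⟪e, e⟫_ℝ = 1 := by rw [real_inner_self_eq_norm_sq, he, one_pow]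
  refine ⟨Eventually.of_forall fun k => pre_convex hC _ _, fun z hz => ?_, fun x a hx hxa => ?_⟩
  · obtain ⟨h1, h2⟩ := Cyl_interior he hz
    obtain ⟨p, hp⟩ := hint
    have hpC := interior_subset hp
    -- the height of `p`
    have hh : 0 < ⟪e, p - q⟫_ℝ := by
      rcases (hpos p hpC).lt_or_eq with h | h
      · exact h
      · exfalso
        refine Pool.Agent.N321.NB.not_int_of_max (u := -e) (by
          rw [neg_ne_zero]; rintro rfl; simp at he) (fun x hx => ?_) hp
        have h3 := hpos x hx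
        rw [inner_sub_right] at h3 h
        rw [inner_neg_left, inner_neg_left]
        linarith
    set H := ⟪e, p - q⟫_ℝ with hH
    set l₀ : Hp e := prj e (p - q) - prj e z with hl₀
    -- the parameters
    set lam : ℕ → ℝ := fun k => tk k * (1 + ⟪e, z⟫_ℝ) / H with hlam
    have hlam0 : ∀ k, 0 < lam k := fun k => by
      have := tk_pos k
      have h4 : 0 < 1 + ⟪e, z⟫_ℝ := by linarith
      simp only [hlam]
      positivity
    have hlaml : Tendsto lam (hyperfilter ℕ : Filter ℕ) (𝓝 0) := by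
      have h := (tk_lim.mul_const (1 + ⟪e, z⟫_ℝ)).div_const H
      rw [zero_mul, zero_div] at h
      exact h
    have hml : Tendsto (fun k => prj e z - (lam k / (1 - lam k)) • l₀)
        (hyperfilter ℕ : Filter ℕ) (𝓝 (prj e z - (0 / (1 - 0) : ℝ) • l₀)) :=
      tendsto_const_nhds.sub ((hlaml.div (tendsto_const_nhds.sub hlaml) (by norm_num)).smul_const l₀)
    rw [zero_div, zero_smul, sub_zero] at hml
    filter_upwards [hml.eventually (isOpen_interior.mem_nhds h2),
      hlaml.eventually_lt_const one_pos] with k hk1 hk2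
    have hk3 := (hF _).1 (interior_subset hk1)
    have h3 : 0 < 1 - lam k := by linarith
    have h4 := hC hk3 hpC h3.le (hlam0 k).le (by ring)
    change q + tk k • e + sc he _ z ∈ C
    have h5 : p = q + ((prj e z : E) + (l₀ : E)) + H • e := by
      have := prj_add_smul he (p - q)
      rw [hl₀, Submodule.coe_sub, add_sub_cancel, add_assoc, hH, this, add_sub_cancel]
    have h6 : q + tk k • e + sc he (tk_pos k).ne' z =
        (1 - lam k) • (q + ((prj e z - (lam k / (1 - lam k)) • l₀ : Hp e) : E)) + lam k • p := by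
      have h7 : (1 - lam k) * (lam k / (1 - lam k)) = lam k := by field_simp
      have h8 : lam k * H = tk k * (1 + ⟪e, z⟫_ℝ) := by
        simp only [hlam]; field_simp
      nth_rewrite 1 [h5]
      rw [sc_apply, Submodule.coe_sub, Submodule.coe_smul, smul_add (1 - lam k), smul_sub,
        smul_smul, h7, smul_add (lam k), smul_smul (lam k) H, h8, smul_add (lam k),
        smul_add (lam k), sub_smul, sub_smul, one_smul, one_smul, mul_add, mul_one, add_smul]
      abel
    rw [h6]
    exact h4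
  · have hk : ∀ k, q + tk k • e + sc he (tk_pos k).ne' (x k) =
        q + (prj e (x k) : E) + (tk k * (1 + ⟪e, x k⟫_ℝ)) • e := by
      intro k
      rw [sc_apply, mul_add, mul_one, add_smul]
      abel
    constructor
    · have h1 : ∀ᶠ k in (hyperfilter ℕ : Filter ℕ), -1 ≤ ⟪e, x k⟫_ℝ := by
        filter_upwards [hx] with k hxk
        have h2 : q + tk k • e + sc he (tk_pos k).ne' (x k) ∈ C := hxk
        rw [hk] at h2
        have h3 := hpos _ h2
        rw [add_assoc, add_sub_cancel_left, inner_add_right, inner_orth, real_inner_smul_right,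
          hee, zero_add, mul_one] at h3
        have h4 := nonneg_of_mul_nonneg_right h3 (tk_pos k)
        linarith
      exact ge_of_tendsto (tendsto_const_nhds.inner hxa) h1
    · rw [hF]
      have h1 : Tendsto (fun k => q + (prj e (x k) : E) + (tk k * (1 + ⟪e, x k⟫_ℝ)) • e)
          (hyperfilter ℕ : Filter ℕ) (𝓝 (q + (prj e a : E) + (0 * (1 + ⟪e, a⟫_ℝ)) • e)) := by
        have h2 : Tendsto (fun k => (prj e (x k) : E)) (hyperfilter ℕ : Filter ℕ)
            (𝓝 (prj e a : E)) :=
          (continuous_subtype_val.tendsto _).comp (((prj e).continuous.tendsto a).comp hxa)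
        exact (h2.const_add q).add
          ((tk_lim.mul ((tendsto_const_nhds.inner hxa).const_add 1)).smul_const e)
      rw [zero_mul, zero_smul, add_zero] at h1
      refine hcl.mem_of_tendsto h1 ?_
      filter_upwards [hx] with k hxk
      rw [← hk]
      exact hxk

/-- **Zooming at a facet.** -/
theorem facet {e : E} (he : ‖e‖ = 1) {C : Set E} (hC : Convex ℝ C) (hcl : IsClosed C) {q : E}
    (hpos : ∀ x ∈ C, 0 ≤ ⟪e, x - q⟫_ℝ) (hint : (interior C).Nonempty) {F : Set (Hp e)}
    (hF : ∀ l : Hp e, l ∈ F ↔ q + (l : E) ∈ C) (h0 : (0 : Hp e) ∈ interior F) {n : ℕ}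
    (hcv : cv n F 0) : Gd (n + 1) C :=
  Gd_lim (𝒰 := hyperfilter ℕ) (C := Cyl e F) (Cyl_convex (Fconv hC hF))
    ⟨0, Cyl_zero h0, cv_cyl he h0 hcv⟩ (fun k => q + tk k • e) (fun k => sc he (tk_pos k).ne')
    (facet_lo he hC hcl hpos hint hF)

lemma shift_conv {F : Set E} (hF : Convex ℝ F) (o : E) : Convex ℝ {l | o + l ∈ F} := by
  intro x hx y hy a b ha hb hab
  have h := hF hx hy ha hb hab
  have h2 : o + (a • x + b • y) = a • (o + x) + b • (o + y) := by
    rw [smul_add, smul_add]
    have : a • o + b • o = o := by rw [← add_smul, hab, one_smul]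
    nth_rewrite 1 [← this]
    abel
  rw [mem_setOf_eq, h2]
  exact h

/-- zooming along a recession direction -/
lemma up_lo {e : E} (he : ‖e‖ = 1) {C : Set E} (hC : Convex ℝ C) (hcl : IsClosed C)
    (hint : (interior C).Nonempty) (hlf : LF C) (heR : e ∈ Rc C) (q : Hp e) :
    LoU (hyperfilter ℕ) (Cyl e {l | q + l ∈ closure (prj e '' C)})
      (fun k => pre C ((q : E) + (tk k)⁻¹ • e) (sc he (inv_pos.2 (tk_pos k)).ne')) := by
  have hee : ⟪e, e⟫_ℝ = 1 := by rw [real_inner_self_eq_norm_sq, he, one_pow]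
  set D : Set (Hp e) := closure (prj e '' C) with hD
  have hDc : Convex ℝ (prj e '' C) := hC.linear_image (prj e).toLinearMap
  set F : Set (Hp e) := {l | q + l ∈ D} with hF
  have hsurj : Function.Surjective (prj e) := fun l => ⟨l, prj_self l⟩
  have hopen : (interior (prj e '' C)).Nonempty := by
    obtain ⟨p, hp⟩ := hint
    refine ⟨prj e p, ?_⟩
    rw [mem_interior]
    exact ⟨prj e '' interior C, image_mono interior_subset,
      (prj e).isOpenMap hsurj _ isOpen_interior, mem_image_of_mem _ hp⟩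
  have hDi : interior D ⊆ prj e '' C := by
    rw [hD, hDc.interior_closure_eq_interior_of_nonempty_interior hopen]
    exact interior_subset
  refine ⟨Eventually.of_forall fun k => pre_convex hC _ _, fun z hz => ?_, fun x a hx hxa => ?_⟩
  · obtain ⟨h1, h2⟩ := Cyl_interior he hz
    rw [hF, shift_interior] at h2
    obtain ⟨p, hp, hpq⟩ := hDi h2
    have h3 : 0 < 1 + ⟪e, z⟫_ℝ := by linarith
    have h4 : Tendsto (fun k => (tk k)⁻¹ * (1 + ⟪e, z⟫_ℝ)) (hyperfilter ℕ : Filter ℕ) atTop :=
      tk_inv_lim.atTop_mul_const h3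
    filter_upwards [h4.eventually_ge_atTop ⟪e, p⟫_ℝ] with k hk
    change (q : E) + (tk k)⁻¹ • e + sc he _ z ∈ C
    have h5 := heR p hp ((tk k)⁻¹ * (1 + ⟪e, z⟫_ℝ) - ⟪e, p⟫_ℝ) (by linarith)
    have h6 : (q : E) + (tk k)⁻¹ • e + sc he (inv_pos.2 (tk_pos k)).ne' z =
        p + ((tk k)⁻¹ * (1 + ⟪e, z⟫_ℝ) - ⟪e, p⟫_ℝ) • e := by
      have h7 : p = (q : E) + (prj e z : E) + ⟪e, p⟫_ℝ • e := by
        rw [← Submodule.coe_add, ← hpq, prj_add_smul he]
      nth_rewrite 1 [h7]
      rw [sc_apply, sub_smul, mul_add, mul_one, add_smul]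
      abel
    rw [h6]
    exact h5
  · have hk : ∀ k, (q : E) + (tk k)⁻¹ • e + sc he (inv_pos.2 (tk_pos k)).ne' (x k) =
        q + (prj e (x k) : E) + ((tk k)⁻¹ * (1 + ⟪e, x k⟫_ℝ)) • e := by
      intro k
      rw [sc_apply, mul_add, mul_one, add_smul]
      abel
    have hxC : ∀ᶠ k in (hyperfilter ℕ : Filter ℕ),
        q + (prj e (x k) : E) + ((tk k)⁻¹ * (1 + ⟪e, x k⟫_ℝ)) • e ∈ C := by
      filter_upwards [hx] with k hxk
      rw [← hk]
      exact hxk
    have hpl : Tendsto (fun k => prj e (x k)) (hyperfilter ℕ : Filter ℕ) (𝓝 (prj e a)) :=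
      ((prj e).continuous.tendsto a).comp hxa
    constructor
    · by_contra hcon
      push Not at hcon
      have h1 : (1 + ⟪e, a⟫_ℝ) • e ∈ Rc C := by
        refine Rc_of_lim hC hcl (l := (hyperfilter ℕ : Filter ℕ)) (μ := tk) tk_lim
          (Eventually.of_forall fun k => (tk_pos k).le) hxC ?_
        have h2 : Tendsto (fun k => tk k • (q + (prj e (x k) : E)) + (1 + ⟪e, x k⟫_ℝ) • e)
            (hyperfilter ℕ : Filter ℕ)
            (𝓝 ((0 : ℝ) • (q + (prj e a : E)) + (1 + ⟪e, a⟫_ℝ) • e)) := by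
          have h3 : Tendsto (fun k => (prj e (x k) : E)) (hyperfilter ℕ : Filter ℕ)
            (𝓝 (prj e a : E)) := (continuous_subtype_val.tendsto _).comp hpl
          exact (tk_lim.smul (h3.const_add (q : E))).add
            (((tendsto_const_nhds.inner hxa).const_add 1).smul_const e)
        rw [zero_smul, zero_add] at h2
        refine h2.congr fun k => ?_
        have := (tk_pos k).ne'
        rw [smul_add (tk k) ((q : E) + (prj e (x k) : E)), smul_smul, ← mul_assoc,
          mul_inv_cancel₀ this, one_mul]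
      have h2 : -e ∈ Rc C := by
        have h3 := Rc_smul h1 (s := -(1 + ⟪e, a⟫_ℝ)⁻¹) (by
          rw [neg_nonneg, inv_nonpos]
          linarith)
        rwa [smul_smul, neg_mul, inv_mul_cancel₀ (by linarith : (1 + ⟪e, a⟫_ℝ) < 0).ne, neg_smul, one_smul] at h3
      have h3 := hlf e heR h2
      rw [h3] at he
      simp at he
    · change q + prj e a ∈ D
      refine isClosed_closure.mem_of_tendsto (hpl.const_add q) ?_
      filter_upwards [hxC] with k hxk
      refine subset_closure ⟨_, hxk, ?_⟩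
      rw [map_add, map_add, map_smul, prj_e he, smul_zero, add_zero, prj_self, prj_self]

/-- **Zooming along a recession direction.** -/
theorem up {e : E} (he : ‖e‖ = 1) {C : Set E} (hC : Convex ℝ C) (hcl : IsClosed C)
    (hint : (interior C).Nonempty) (hlf : LF C) (heR : e ∈ Rc C) {n : ℕ}
    (hG : Gd n (closure (prj e '' C))) : Gd (n + 1) C := by
  obtain ⟨q, hq, hcv⟩ := hG
  have hDc : Convex ℝ (prj e '' C) := hC.linear_image (prj e).toLinearMap
  have h0 : (0 : Hp e) ∈ interior {l | q + l ∈ closure (prj e '' C)} := by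
    rw [shift_interior, add_zero]
    exact hq
  exact Gd_lim (𝒰 := hyperfilter ℕ) (Cyl_convex (shift_conv hDc.closure q))
    ⟨0, Cyl_zero h0, cv_cyl he h0 (cv_shift.2 hcv)⟩ _ _ (up_lo he hC hcl hint hlf heR q)

/-- **Zooming at a vertex.** -/
theorem vert {e : E} (he : ‖e‖ = 1) {C : Set E} (hC : Convex ℝ C)
    (hint : (interior C).Nonempty) {y : E} (hy : y ∈ C) {c : ℝ} (hc : 0 < c)
    (hcone : ∀ x ∈ C, c * ‖x - y‖ ≤ ⟪e, x - y⟫_ℝ) {w : E} (hw : w ∈ interior (Tc C y)) {n : ℕ}
    (hcv : cv n {l : Hp e | w + (l : E) ∈ Tc C y} 0) : Gd (n + 1) C := by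
  set T := Tc C y with hT
  have hTc : Convex ℝ T := Tc_convex hC hy
  have hsm : ∀ z ∈ T, ∀ s : ℝ, 0 ≤ s → s • z ∈ T := by
    intro z hz s hs
    rcases hs.lt_or_eq with h | h
    · exact Tc_smul hz h
    · rw [← h, zero_smul]
      exact Tc_zero hy
  have hpos : ∀ z ∈ T, z ≠ 0 → 0 < ⟪e, z⟫_ℝ := by
    intro z hz hz0
    have h1 := Tc_pointed hcone hz
    have h2 : 0 < c * ‖z‖ := mul_pos hc (norm_pos_iff.2 hz0)
    linarith
  have hw0 : w ≠ 0 := by
    rintro rfl
    refine Pool.Agent.N321.NB.not_int_of_max (u := -e) (by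
      rw [neg_ne_zero]; rintro rfl; simp at he) (fun x hx => ?_) hw
    have h1 := Tc_pointed hcone hx
    have h2 : 0 ≤ c * ‖x‖ := by positivity
    rw [inner_neg_left, inner_zero_right]
    linarith
  have h0 : (0 : Hp e) ∈ interior {l : Hp e | w + (l : E) ∈ T} := by
    have hcont : Continuous fun l : Hp e => w + (l : E) := by fun_prop
    rw [mem_interior]
    refine ⟨(fun l : Hp e => w + (l : E)) ⁻¹' interior T, fun l hl => ?_,
      isOpen_interior.preimage hcont, ?_⟩
    · exact interior_subset (s := T) hl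
    · simpa using hw
  have hcv' := cv_cone he hsm hpos (interior_subset hw) (hpos w (interior_subset hw) hw0)
    (F := {l : Hp e | w + (l : E) ∈ T}) (fun l => Iff.rfl) h0 hcv
  have hCc : Convex ℝ {z | w + z ∈ T} := by
    intro x hx y hy a b ha hb hab
    have h := hTc hx hy ha hb hab
    have h2 : w + (a • x + b • y) = a • (w + x) + b • (w + y) := by
      rw [smul_add, smul_add]
      have : a • w + b • w = w := by rw [← add_smul, hab, one_smul]
      nth_rewrite 1 [← this]
      abel
    change w + (a • x + b • y) ∈ T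
    rwa [h2]
  have hk : ∀ k z, y + tk k • w + LinearEquiv.smulOfNeZero ℝ E (tk k) (tk_pos k).ne' z =
      y + tk k • (w + z) := by
    intro k z
    rw [LinearEquiv.smulOfNeZero_apply, smul_add, add_assoc]
  refine Gd_lim (𝒰 := hyperfilter ℕ) (C := {z | w + z ∈ T}) hCc ⟨0, by
      rw [shift_interior, add_zero]; exact hw, hcv'⟩ (fun k => y + tk k • w)
    (fun k => LinearEquiv.smulOfNeZero ℝ E (tk k) (tk_pos k).ne')
    ⟨Eventually.of_forall fun k => pre_convex hC _ _, fun z hz => ?_, fun x a hx hxa => ?_⟩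
  · rw [shift_interior, hT, Tc_int hC hy hint] at hz
    obtain ⟨s, hs, h⟩ := hz
    filter_upwards [tk_lim.eventually_lt_const hs] with k hk1
    change y + tk k • w + LinearEquiv.smulOfNeZero ℝ E (tk k) (tk_pos k).ne' z ∈ C
    rw [hk]
    exact ray_mem hC hy (tk_pos k).le hk1.le (interior_subset h)
  · change w + a ∈ T
    refine isClosed_closure.mem_of_tendsto (hxa.const_add w) ?_
    filter_upwards [hx] with k hxk
    refine subset_closure ⟨tk k, tk_pos k, ?_⟩
    rw [← hk]
    exact hxk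

end Pool.Agent.N321.MN
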