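import Pool.Agent.N321.MN.U5

set_option autoImplicit false
set_option linter.unusedSectionVars false

/-!
# Boundary points with a normal cone of codimension one: the limit sets
-/

namespace Pool.Agent.N321.MN

open scoped InnerProductSpace Topology
open Metric Module Filter Set
open Pool.Agent.H985.Sep (polar)
open Pool.Agent.N321.NB (inner_orth)

variable {E : Type} [NormedAddCommGroup E] [InnerProductSpace ℝ E] [FiniteDimensional ℝ E]

/-- the structure of the limit set: `a` is the direction in which the boundary is smooth, `e` is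
positive on the cone orthogonal to `a` -/
structure DV (C : Set E) (a e : E) (c : ℝ) : Prop where
  a1 : ‖a‖ = 1
  e1 : ‖e‖ = 1
  ae : ⟪a, e⟫_ℝ = 0
  c0 : 0 < c
  cvx : Convex ℝ C
  cl : IsClosed C
  pr : ∀ x ∈ C, x - ⟪a, x⟫_ℝ • a ∈ C
  sc : ∀ z ∈ C, ⟪a, z⟫_ℝ = 0 → ∀ s : ℝ, 0 ≤ s → s • z ∈ C
  pt : ∀ z ∈ C, ⟪a, z⟫_ℝ = 0 → c * ‖z‖ ≤ ⟪e, z⟫_ℝ
  rc : ∀ d ∈ Rc C, ⟪a, d⟫_ℝ = 0
  nv : ∀ v : E, (∀ x ∈ C, ⟪v, x⟫_ℝ ≤ 0) → ⟪v, a⟫_ℝ = 0

/-- the orthogonal complement of `a` and `e` -/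
noncomputable abbrev MM (a e : E) : Submodule ℝ E := (Submodule.span ℝ {a, e})ᗮ

lemma mem_MM {a e x : E} : x ∈ MM a e ↔ ⟪a, x⟫_ℝ = 0 ∧ ⟪e, x⟫_ℝ = 0 := by
  rw [Submodule.mem_orthogonal]
  constructor
  · intro h
    exact ⟨h a (Submodule.subset_span (by simp)), h e (Submodule.subset_span (by simp))⟩
  · rintro ⟨h1, h2⟩ u hu
    rw [Submodule.mem_span_pair] at hu
    obtain ⟨s, t, rfl⟩ := hu
    rw [inner_add_left, real_inner_smul_left, real_inner_smul_left, h1, h2]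
    ring

variable {C : Set E} {a e : E} {c : ℝ}

lemma DV.aa (h : DV C a e c) : ⟪a, a⟫_ℝ = 1 := by
  rw [real_inner_self_eq_norm_sq, h.a1, one_pow]

lemma DV.prz (h : DV C a e c) (x : E) : ⟪a, x - ⟪a, x⟫_ℝ • a⟫_ℝ = 0 := by
  rw [inner_sub_right, real_inner_smul_right, h.aa, mul_one, sub_self]

lemma DV.pre_ (h : DV C a e c) (x : E) : ⟪e, x - ⟪a, x⟫_ℝ • a⟫_ℝ = ⟪e, x⟫_ℝ := by
  rw [inner_sub_right, real_inner_smul_right, real_inner_comm a e, h.ae, mul_zero, sub_zero]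

lemma DV.zero (h : DV C a e c) {x : E} (hx : x ∈ C) : (0 : E) ∈ C := by
  have := h.sc _ (h.pr x hx) (h.prz x) 0 le_rfl
  rwa [zero_smul] at this

lemma DV.enn (h : DV C a e c) {x : E} (hx : x ∈ C) :
    c * ‖x - ⟪a, x⟫_ℝ • a‖ ≤ ⟪e, x⟫_ℝ := by
  have := h.pt _ (h.pr x hx) (h.prz x)
  rwa [h.pre_] at this

lemma DV.enn0 (h : DV C a e c) {x : E} (hx : x ∈ C) : 0 ≤ ⟪e, x⟫_ℝ :=
  (mul_nonneg h.c0.le (norm_nonneg _)).trans (h.enn hx)

lemma DV.rcC (h : DV C a e c) {x d : E} (hx : x ∈ C) (hd : d ∈ Rc C) : d ∈ C := by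
  have := hd 0 (h.zero hx) 1 zero_le_one
  rwa [zero_add, one_smul] at this

lemma DV.rce (h : DV C a e c) {x d : E} (hx : x ∈ C) (hd : d ∈ Rc C) : c * ‖d‖ ≤ ⟪e, d⟫_ℝ :=
  h.pt d (h.rcC hx hd) (h.rc d hd)

lemma DV.bound (h : DV C a e c) {x : E} (hx : x ∈ C) :
    ‖x‖ ≤ |⟪a, x⟫_ℝ| + ⟪e, x⟫_ℝ / c := by
  have h1 : x = (x - ⟪a, x⟫_ℝ • a) + ⟪a, x⟫_ℝ • a := by abel
  have h2 : ‖x‖ ≤ ‖x - ⟪a, x⟫_ℝ • a‖ + ‖⟪a, x⟫_ℝ • a‖ := by
    nth_rewrite 1 [h1]
    exact norm_add_le _ _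
  rw [norm_smul, h.a1, mul_one, Real.norm_eq_abs] at h2
  have h3 : ‖x - ⟪a, x⟫_ℝ • a‖ ≤ ⟪e, x⟫_ℝ / c := by
    rw [le_div_iff₀ h.c0, mul_comm]
    exact h.enn hx
  linarith

/-- **`n + 2` translates.** -/
theorem DV.cvn (h : DV C a e c) {w : E} (hw : w ∈ interior C) (hwa : ⟪a, w⟫_ℝ = 0) {n : ℕ}
    (hcv : cv n {l : MM a e | w + (l : E) ∈ C} 0) : cv (n + 2) C w := by
  classical
  by_contra hcon
  have hwC := interior_subset hw
  have h0C := h.zero hwC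
  have hea : ⟪e, a⟫_ℝ = 0 := by rw [real_inner_comm]; exact h.ae
  have hw0 : w ≠ 0 := by
    rintro rfl
    have he0 : e ≠ 0 := by
      rintro rfl
      have := h.e1
      simp at this
    refine Pool.Agent.N321.NB.not_int_of_max (u := -e) (neg_ne_zero.2 he0) (fun x hx => ?_) hw
    rw [inner_neg_left, inner_zero_right]
    linarith [h.enn0 hx]
  set κ : ℝ := ⟪e, w⟫_ℝ with hκ
  have hκ0 : 0 < κ := lt_of_lt_of_le (mul_pos h.c0 (norm_pos_iff.2 hw0)) (h.pt w hwC hwa)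
  set F : Set (MM a e) := {l : MM a e | w + (l : E) ∈ C} with hF
  have hFm : ∀ l : MM a e, ⟪a, (l : E)⟫_ℝ = 0 ∧ ⟪e, (l : E)⟫_ℝ = 0 := fun l => mem_MM.1 l.2
  have hFc : IsCompact F := by
    refine Metric.isCompact_of_isClosed_isBounded
      (h.cl.preimage (by fun_prop : Continuous fun l : MM a e => w + (l : E))) ?_
    refine (isBounded_iff_forall_norm_le).2 ⟨κ / c + ‖w‖, fun l hl => ?_⟩
    have h1 := h.pt _ hl (by rw [inner_add_right, hwa, (hFm l).1, add_zero])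
    rw [inner_add_right, (hFm l).2, add_zero] at h1
    have h2 : ‖w + (l : E)‖ ≤ κ / c := by
      rw [le_div_iff₀ h.c0, mul_comm]
      exact h1
    have h3 := norm_sub_le (w + (l : E)) w
    rw [add_sub_cancel_left] at h3
    change ‖(l : E)‖ ≤ _
    linarith
  have hF0 : (0 : MM a e) ∈ interior F := by
    rw [mem_interior]
    have hcont : Continuous fun l : MM a e => w + (l : E) := by fun_prop
    refine ⟨(fun l : MM a e => w + (l : E)) ⁻¹' interior C, fun l hl => ?_,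
      isOpen_interior.preimage hcont, ?_⟩
    · exact interior_subset (s := C) hl
    · simpa using hw
  obtain ⟨T, hT, hcov⟩ := hcv
  obtain ⟨δ, hδ, hδF⟩ := unif hFc hF0 hcov
  -- the directions
  set b : MM a e → E := fun t => (t : E) - (δ / (2 * κ) + ⟪(t : E), w⟫_ℝ / κ) • e with hb
  have hee : ⟪e, e⟫_ℝ = 1 := by rw [real_inner_self_eq_norm_sq, h.e1, one_pow]
  have hba : ∀ t, ⟪b t, a⟫_ℝ = 0 := by
    intro t
    simp only [hb]
    rw [inner_sub_left, real_inner_smul_left, hea, mul_zero, sub_zero, real_inner_comm]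
    exact (hFm t).1
  have hbw : ∀ t, ⟪b t, w⟫_ℝ = -(δ / 2) := by
    intro t
    simp only [hb]
    rw [inner_sub_left, real_inner_smul_left, ← hκ]
    field_simp
    ring
  have hbl : ∀ t l : MM a e, ⟪b t, w + (l : E)⟫_ℝ = ⟪t, l⟫_ℝ - δ / 2 := by
    intro t l
    rw [inner_add_right, hbw]
    simp only [hb]
    rw [inner_sub_left, real_inner_smul_left, (hFm l).2, mul_zero, sub_zero]
    rw [Submodule.coe_inner]
    ring
  set W : ℕ → Finset E := fun k => insert (a + tk k • e) (insert (-a + tk k • e) (T.image b))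
    with hW
  have hcard : ∀ k, (W k).card ≤ n + 2 := fun k =>
    (Finset.card_insert_le _ _).trans (Nat.succ_le_succ ((Finset.card_insert_le _ _).trans
      (Nat.succ_le_succ (Finset.card_image_le.trans hT))))
  have hneg : ∀ k, ¬ ∀ v ∈ polar C w, ∃ w' ∈ W k,
      (∀ x ∈ C, ⟪v, x - w⟫_ℝ = 1 → 0 < ⟪w', x - w⟫_ℝ) ∧
      ∀ d ∈ Rc C, d ≠ 0 → ⟪v, d⟫_ℝ = 0 → 0 < ⟪w', d⟫_ℝ := fun k hW' =>
    hcon ((cv_of_dirs h.cvx h.cl hw _ hW').mono (hcard k))
  push Not at hneg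
  choose v hv hbad using hneg
  -- the points near `a = 0`
  have hA : ∀ k, ∀ σ : ℝ, (σ = 1 ∨ σ = -1) → ∃ x ∈ C, ⟪v k, x - w⟫_ℝ = 1 ∧
      σ * ⟪a, x⟫_ℝ + tk k * (⟪e, x⟫_ℝ - κ) ≤ 0 := by
    intro k σ hσ
    by_contra hc
    push Not at hc
    have hmem : σ • a + tk k • e ∈ W k := by
      rcases hσ with rfl | rfl
      · rw [one_smul]
        exact Finset.mem_insert_self _ _
      · rw [neg_one_smul]
        exact Finset.mem_insert_of_mem (Finset.mem_insert_self _ _)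
    obtain ⟨d, hd, hd0, -, hd1⟩ := hbad k _ hmem (fun x hx hvx => by
      rw [inner_add_left, real_inner_smul_left, real_inner_smul_left, inner_sub_right,
        inner_sub_right, hwa, sub_zero]
      exact hc x hx hvx)
    rw [inner_add_left, real_inner_smul_left, real_inner_smul_left, h.rc d hd, mul_zero,
      zero_add] at hd1
    have h1 := h.rce hwC hd
    have h2 : 0 < c * ‖d‖ := mul_pos h.c0 (norm_pos_iff.2 hd0)
    have h3 : 0 < tk k * ⟪e, d⟫_ℝ := mul_pos (tk_pos k) (by linarith)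
    linarith
  have htk1 : ∀ k, tk k ≤ 1 := by
    intro k
    rw [tk, div_le_one (by positivity)]
    have : (0 : ℝ) ≤ k := Nat.cast_nonneg k
    linarith
  have hnear : ∀ k, ∃ x ∈ C, ⟪v k, x - w⟫_ℝ = 1 ∧ |⟪a, x⟫_ℝ| ≤ tk k * κ ∧ ⟪e, x⟫_ℝ ≤ κ := by
    intro k
    obtain ⟨x, hx, hvx, h1⟩ := hA k 1 (Or.inl rfl)
    obtain ⟨y, hy, hvy, h2⟩ := hA k (-1) (Or.inr rfl)
    have htk := tk_pos k
    have hex := h.enn0 hx
    have hey := h.enn0 hy
    rcases lt_or_ge 0 ⟪a, x⟫_ℝ with h3 | h3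
    · refine ⟨x, hx, hvx, ?_, ?_⟩
      · rw [abs_of_pos h3]
        nlinarith
      · by_contra h4
        push Not at h4
        have := mul_pos htk (sub_pos.2 h4)
        linarith
    rcases lt_or_ge ⟪a, y⟫_ℝ 0 with h4 | h4
    · refine ⟨y, hy, hvy, ?_, ?_⟩
      · rw [abs_of_neg h4]
        nlinarith
      · by_contra h5
        push Not at h5
        have := mul_pos htk (sub_pos.2 h5)
        linarith
    -- crossing
    obtain ⟨z, hz, hza, hvz⟩ : ∃ z ∈ C, ⟪a, z⟫_ℝ = 0 ∧ ⟪v k, z - w⟫_ℝ = 1 := by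
      rcases eq_or_lt_of_le h3 with h5 | h5
      · exact ⟨x, hx, h5, hvx⟩
      · have hden : 0 < ⟪a, y⟫_ℝ - ⟪a, x⟫_ℝ := by linarith
        set α := ⟪a, y⟫_ℝ / (⟪a, y⟫_ℝ - ⟪a, x⟫_ℝ) with hα
        set β := -⟪a, x⟫_ℝ / (⟪a, y⟫_ℝ - ⟪a, x⟫_ℝ) with hβ
        have hα0 : 0 ≤ α := div_nonneg h4 hden.le
        have hβ0 : 0 ≤ β := div_nonneg (by linarith) hden.le
        have hαβ : α + β = 1 := by
          rw [hα, hβ, ← add_div, div_eq_one_iff_eq hden.ne']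
          ring
        refine ⟨α • x + β • y, h.cvx hx hy hα0 hβ0 hαβ, ?_, ?_⟩
        · rw [inner_add_right, real_inner_smul_right, real_inner_smul_right, hα, hβ]
          field_simp
          ring
        · have e1 : α • x + β • y - w = α • (x - w) + β • (y - w) := by
            rw [smul_sub, smul_sub]
            have : α • w + β • w = w := by rw [← add_smul, hαβ, one_smul]
            nth_rewrite 1 [← this]
            abel
          rw [e1, inner_add_right, real_inner_smul_right, real_inner_smul_right, hvx, hvy]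
          linarith
    refine ⟨0, h0C, ?_, ?_, ?_⟩
    · have h5 := hv k _ (h.sc z hz hza 2 (by norm_num))
      have h6 := hv k 0 h0C
      rw [inner_sub_right] at hvz h5 h6 ⊢
      rw [real_inner_smul_right] at h5
      rw [inner_zero_right] at h6 ⊢
      linarith
    · rw [inner_zero_right, abs_zero]
      positivity
    · rw [inner_zero_right]
      exact hκ0.le
  choose x hx hvx hxa hxe using hnear
  obtain ⟨r, hr, hrC⟩ := Pool.Agent.H985.Sep.exists_ball hw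
  obtain ⟨vi, hvl⟩ := ultra_lim v fun k =>
    Pool.Agent.H985.Sep.norm_le_of_mem_polar hr hrC _ (hv k)
  obtain ⟨xi, hxl⟩ := ultra_lim (R := κ + κ / c) x fun k => by
    refine (h.bound (hx k)).trans ?_
    have h1 : tk k * κ ≤ 1 * κ := mul_le_mul_of_nonneg_right (htk1 k) hκ0.le
    have h2 : ⟪e, x k⟫_ℝ / c ≤ κ / c := div_le_div_of_nonneg_right (hxe k) h.c0.le
    linarith [hxa k]
  have hvi : vi ∈ polar C w :=
    (Pool.Agent.H985.Sep.isClosed_polar C _).mem_of_tendsto hvl (Eventually.of_forall hv)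
  have hxi : xi ∈ C := h.cl.mem_of_tendsto hxl (Eventually.of_forall hx)
  have hlim1 : ∀ {y : ℕ → E} {y₀ : E}, Tendsto y (hyperfilter ℕ : Filter ℕ) (𝓝 y₀) →
      (∀ᶠ k in (hyperfilter ℕ : Filter ℕ), ⟪v k, y k - w⟫_ℝ = 1) → ⟪vi, y₀ - w⟫_ℝ = 1 := by
    intro y y₀ hy hvy
    exact tendsto_nhds_unique (hvl.inner (hy.sub_const w))
      (tendsto_const_nhds.congr' (hvy.mono fun k hk => hk.symm))
  have hvxi := hlim1 hxl (Eventually.of_forall hvx)
  have hxia : ⟪a, xi⟫_ℝ = 0 := by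
    have h1 : |⟪a, xi⟫_ℝ| ≤ 0 := by
      refine le_of_tendsto_of_tendsto ((tendsto_const_nhds.inner hxl).abs)
        (b := (hyperfilter ℕ : Filter ℕ)) ?_ (Eventually.of_forall hxa)
      have := tk_lim.mul_const κ
      rwa [zero_mul] at this
    exact abs_eq_zero.1 (le_antisymm h1 (abs_nonneg _))
  have hvw : ⟪vi, w⟫_ℝ = -1 := by
    have h5 := hvi _ (h.sc xi hxi hxia 2 (by norm_num))
    have h6 := hvi 0 h0C
    rw [inner_sub_right] at hvxi h5 h6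
    rw [real_inner_smul_right] at h5
    rw [inner_zero_right] at h6
    linarith
  have hnorm : ∀ y ∈ C, ⟪vi, y⟫_ℝ ≤ 0 := by
    intro y hy
    have := hvi y hy
    rw [inner_sub_right, hvw] at this
    linarith
  have hva := h.nv vi hnorm
  obtain ⟨t, ht, htF⟩ := hδF ((MM a e).orthogonalProjection vi) (fun l hl => by
    rw [sub_zero, Submodule.coe_inner]
    have h1 : ⟪(((MM a e).orthogonalProjection vi : MM a e) : E), (l : E)⟫_ℝ = ⟪vi, (l : E)⟫_ℝ := by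
      rw [← Submodule.coe_inner]
      exact Submodule.inner_orthogonalProjection_eq_of_mem_right l vi
    rw [h1]
    have h2 := hnorm _ hl
    rw [inner_add_right, hvw] at h2
    linarith)
  have htF' : ∀ l : MM a e, l ∈ F → ⟪vi, (l : E)⟫_ℝ = 1 → δ ≤ ⟪t, l⟫_ℝ := by
    intro l hl h1
    refine htF l hl ?_
    rw [← h1]
    exact Submodule.inner_orthogonalProjection_eq_of_mem_right l vi
  -- positivity on the face of the cone
  have hpos : ∀ z ∈ C, ⟪a, z⟫_ℝ = 0 → ⟪vi, z⟫_ℝ = 0 → z ≠ 0 → 0 < ⟪b t, z⟫_ℝ := by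
    intro z hz hza hvz hz0
    have hez : 0 < ⟪e, z⟫_ℝ := lt_of_lt_of_le (mul_pos h.c0 (norm_pos_iff.2 hz0)) (h.pt z hz hza)
    set s : ℝ := ⟪e, z⟫_ℝ / κ with hs
    have hs0 : 0 < s := div_pos hez hκ0
    have hl : s⁻¹ • z - w ∈ MM a e := by
      rw [mem_MM]
      constructor
      · rw [inner_sub_right, real_inner_smul_right, hza, hwa, mul_zero, sub_zero]
      · rw [inner_sub_right, real_inner_smul_right, hs, inv_div, div_mul_cancel₀ _ hez.ne', ← hκ,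
          sub_self]
    have hlF : (⟨s⁻¹ • z - w, hl⟩ : MM a e) ∈ F := by
      change w + (s⁻¹ • z - w) ∈ C
      rw [add_sub_cancel]
      exact h.sc z hz hza _ (by positivity)
    have h1 := htF' _ hlF (by
      change ⟪vi, s⁻¹ • z - w⟫_ℝ = 1
      rw [inner_sub_right, real_inner_smul_right, hvz, hvw]
      ring)
    have h2 := hbl t ⟨s⁻¹ • z - w, hl⟩
    have h3 : w + ((⟨s⁻¹ • z - w, hl⟩ : MM a e) : E) = s⁻¹ • z := add_sub_cancel _ _
    rw [h3, real_inner_smul_right] at h2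
    have h4 : 0 < s⁻¹ * ⟪b t, z⟫_ℝ := by rw [h2]; linarith
    exact (mul_pos_iff_of_pos_left (by positivity : 0 < s⁻¹)).1 h4
  have hposp : ∀ z ∈ C, ⟪vi, z⟫_ℝ = 0 → 0 < ⟪b t, z - w⟫_ℝ := by
    intro z hz hvz
    have h1 : ⟪b t, z⟫_ℝ = ⟪b t, z - ⟪a, z⟫_ℝ • a⟫_ℝ := by
      rw [inner_sub_right, real_inner_smul_right, hba, mul_zero, sub_zero]
    have h2 : ⟪vi, z - ⟪a, z⟫_ℝ • a⟫_ℝ = 0 := by
      rw [inner_sub_right, real_inner_smul_right, hva, mul_zero, sub_zero, hvz]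
    have h3 : 0 ≤ ⟪b t, z⟫_ℝ := by
      rw [h1]
      by_cases h4 : z - ⟪a, z⟫_ℝ • a = 0
      · rw [h4, inner_zero_right]
      · exact (hpos _ (h.pr z hz) (h.prz z) h2 h4).le
    rw [inner_sub_right, hbw]
    linarith
  have hbW : ∀ k, b t ∈ W k := fun k => Finset.mem_insert_of_mem (Finset.mem_insert_of_mem
    (Finset.mem_image_of_mem _ ht))
  have hbad' : ∀ k, (∃ y ∈ C, ⟪v k, y - w⟫_ℝ = 1 ∧ ⟪b t, y - w⟫_ℝ ≤ 0) ∨
      ∃ d ∈ Rc C, d ≠ 0 ∧ ⟪v k, d⟫_ℝ = 0 ∧ ⟪b t, d⟫_ℝ ≤ 0 := by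
    intro k
    by_cases hc : ∃ y ∈ C, ⟪v k, y - w⟫_ℝ = 1 ∧ ⟪b t, y - w⟫_ℝ ≤ 0
    · exact Or.inl hc
    · push Not at hc
      obtain ⟨d, h1, h2, h3, h4⟩ := hbad k _ (hbW k) hc
      exact Or.inr ⟨d, h1, h2, h3, h4⟩
  have hfin : ∀ d ∈ Rc C, d ≠ 0 → ⟪vi, d⟫_ℝ = 0 → ⟪b t, d⟫_ℝ ≤ 0 → False := by
    intro d hd hd0 h1 h2
    have := hpos d (h.rcC hwC hd) (h.rc d hd) h1 hd0
    linarith
  rcases Ultrafilter.eventually_or.1 (Eventually.of_forall hbad' :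
      ∀ᶠ k in (hyperfilter ℕ : Filter ℕ), _) with hl | hr'
  · have hch : ∀ k, ∃ y : E, (∃ y ∈ C, ⟪v k, y - w⟫_ℝ = 1 ∧ ⟪b t, y - w⟫_ℝ ≤ 0) →
        y ∈ C ∧ ⟪v k, y - w⟫_ℝ = 1 ∧ ⟪b t, y - w⟫_ℝ ≤ 0 := by
      intro k
      by_cases hc : ∃ y ∈ C, ⟪v k, y - w⟫_ℝ = 1 ∧ ⟪b t, y - w⟫_ℝ ≤ 0
      · obtain ⟨y, hy⟩ := hc
        exact ⟨y, fun _ => hy⟩
      · exact ⟨0, fun h => absurd h hc⟩
    choose y hy using hch
    have hy' : ∀ᶠ k in (hyperfilter ℕ : Filter ℕ), y k ∈ C ∧ ⟪v k, y k - w⟫_ℝ = 1 ∧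
        ⟪b t, y k - w⟫_ℝ ≤ 0 := hl.mono fun k hk => hy k hk
    rcases ultra (hyperfilter ℕ) (fun k => y k - w) with ⟨y₁, hy₁⟩ | hinf
    · have hyl : Tendsto y (hyperfilter ℕ : Filter ℕ) (𝓝 (y₁ + w)) := by
        have := hy₁.add_const w
        simpa using this
      have hyC : y₁ + w ∈ C := h.cl.mem_of_tendsto hyl (hy'.mono fun k hk => hk.1)
      have h1 := hlim1 hyl (hy'.mono fun k hk => hk.2.1)
      have h2 : ⟪b t, y₁ + w - w⟫_ℝ ≤ 0 :=
        le_of_tendsto (tendsto_const_nhds.inner (hyl.sub_const w)) (hy'.mono fun k hk => hk.2.2)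
      have h3 := hposp _ hyC (by
        rw [inner_sub_right, hvw] at h1
        linarith)
      linarith
    · obtain ⟨d, hd1, hd⟩ := ultra_dir (hyperfilter ℕ) _ hinf
      have hinv : Tendsto (fun k => ‖y k - w‖⁻¹) (hyperfilter ℕ : Filter ℕ) (𝓝 0) :=
        tendsto_inv_atTop_zero.comp hinf
      have hdR : d ∈ Rc C := by
        refine Rc_of_lim h.cvx h.cl (l := (hyperfilter ℕ : Filter ℕ)) (x := y)
          (μ := fun k => ‖y k - w‖⁻¹) hinv
          (Eventually.of_forall fun k => by positivity) (hy'.mono fun k hk => hk.1) ?_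
        have h3 : Tendsto (fun k => ‖y k - w‖⁻¹ • (y k - w) + ‖y k - w‖⁻¹ • w)
            (hyperfilter ℕ : Filter ℕ) (𝓝 (d + (0 : ℝ) • w)) := hd.add (hinv.smul_const _)
        rw [zero_smul, add_zero] at h3
        refine h3.congr fun k => ?_
        rw [← smul_add, sub_add_cancel]
      refine hfin d hdR (by rintro rfl; simp at hd1) ?_ ?_
      · have h5 : Tendsto (fun k => ⟪v k, ‖y k - w‖⁻¹ • (y k - w)⟫_ℝ)
            (hyperfilter ℕ : Filter ℕ) (𝓝 ⟪vi, d⟫_ℝ) := hvl.inner hd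
        refine tendsto_nhds_unique h5 (hinv.congr' (hy'.mono fun k hk => ?_))
        change ‖y k - w‖⁻¹ = ⟪v k, ‖y k - w‖⁻¹ • (y k - w)⟫_ℝ
        rw [real_inner_smul_right, hk.2.1, mul_one]
      · refine le_of_tendsto (tendsto_const_nhds.inner hd) (hy'.mono fun k hk => ?_)
        rw [real_inner_smul_right]
        exact mul_nonpos_of_nonneg_of_nonpos (by positivity) hk.2.2
  · have hch : ∀ k, ∃ d : E, (∃ d ∈ Rc C, d ≠ 0 ∧ ⟪v k, d⟫_ℝ = 0 ∧ ⟪b t, d⟫_ℝ ≤ 0) →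
        d ∈ Rc C ∧ ‖d‖ = 1 ∧ ⟪v k, d⟫_ℝ = 0 ∧ ⟪b t, d⟫_ℝ ≤ 0 := by
      intro k
      by_cases hc : ∃ d ∈ Rc C, d ≠ 0 ∧ ⟪v k, d⟫_ℝ = 0 ∧ ⟪b t, d⟫_ℝ ≤ 0
      · obtain ⟨d, hd, hd0, h1, h2⟩ := hc
        have hn : 0 < ‖d‖ := norm_pos_iff.2 hd0
        refine ⟨‖d‖⁻¹ • d, fun _ => ⟨Rc_smul hd (by positivity), ?_, ?_, ?_⟩⟩
        · rw [norm_smul, norm_inv, norm_norm, inv_mul_cancel₀ hn.ne']
        · rw [real_inner_smul_right, h1, mul_zero]
        · rw [real_inner_smul_right]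
          exact mul_nonpos_of_nonneg_of_nonpos (by positivity) h2
      · exact ⟨0, fun h => absurd h hc⟩
    choose d hd using hch
    have hd' : ∀ᶠ k in (hyperfilter ℕ : Filter ℕ), d k ∈ Rc C ∧ ‖d k‖ = 1 ∧ ⟪v k, d k⟫_ℝ = 0 ∧
        ⟪b t, d k⟫_ℝ ≤ 0 := hr'.mono fun k hk => hd k hk
    rcases ultra (hyperfilter ℕ) d with ⟨d₁, hd₁⟩ | hinf
    · refine hfin d₁ ((Rc_closed h.cl).mem_of_tendsto hd₁ (hd'.mono fun k hk => hk.1)) ?_ ?_ ?_
      · rintro rfl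
        have h1 : Tendsto (fun k => ‖d k‖) (hyperfilter ℕ : Filter ℕ) (𝓝 ‖(0 : E)‖) := hd₁.norm
        have h2 := tendsto_nhds_unique h1 (tendsto_const_nhds.congr'
          (hd'.mono fun k hk => hk.2.1.symm))
        simp at h2
      · exact tendsto_nhds_unique (hvl.inner hd₁) (tendsto_const_nhds.congr'
          (hd'.mono fun k hk => hk.2.2.1.symm))
      · exact le_of_tendsto (tendsto_const_nhds.inner hd₁) (hd'.mono fun k hk => hk.2.2.2)
    · obtain ⟨k, hk1, hk2⟩ := (hd'.and (hinf.eventually_gt_atTop 1)).exists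
      rw [hk1.2.1] at hk2
      exact lt_irrefl _ hk2

end Pool.Agent.N321.MN
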