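import Pool.Agent.N321.MN.D1

set_option autoImplicit false
set_option linter.unusedSectionVars false

/-!
# Cones in dimension four, and good points of the limit sets
-/

namespace Pool.Agent.N321.MN

open scoped InnerProductSpace Topology
open Metric Module Filter Set
open Pool.Agent.H985.Sep (polar)
open Pool.Agent.N321.NB (inner_orth Tc Tc_convex Tc_smul Tc_zero Tc_int)

variable {E : Type} [NormedAddCommGroup E] [InnerProductSpace ℝ E] [FiniteDimensional ℝ E]

/-- **Vertices in dimension four.** -/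
theorem Gd_vertex_four (hd : finrank ℝ E = 4) {C : Set E} (hC : Convex ℝ C)
    (hint : (interior C).Nonempty) {y : E} (hy : y ∈ C)
    (hl : ∀ d : E, d ∈ Tc C y → -d ∈ Tc C y → d = 0) : Gd 5 C := by
  have : Nontrivial E := Module.nontrivial_of_finrank_pos (R := ℝ) (by omega)
  set T := Tc C y with hT
  have hTc : Convex ℝ T := Tc_convex hC hy
  have hTcl : IsClosed T := isClosed_closure
  have hsm : ∀ z ∈ T, ∀ s : ℝ, 0 ≤ s → s • z ∈ T := by
    intro z hz s hs
    rcases hs.lt_or_eq with h | h
    · exact Tc_smul hz h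
    · rw [← h, zero_smul]
      exact Tc_zero hy
  have hadd : ∀ z ∈ T, ∀ z' ∈ T, z + z' ∈ T := by
    intro z hz z' hz'
    have h1 := hsm _ (hTc hz hz' (a := 1 / 2) (b := 1 / 2) (by norm_num) (by norm_num)
      (by norm_num)) 2 (by norm_num)
    rwa [smul_add, smul_smul, smul_smul, mul_one_div_cancel two_ne_zero, one_smul, one_smul] at h1
  obtain ⟨e, c, he, hc, hpt⟩ := pointed hTcl (Tc_zero hy) hadd hsm hl
  have he0 : e ≠ 0 := by rintro h; rw [h] at he; simp at he
  have hcone : ∀ x ∈ C, c * ‖x - y‖ ≤ ⟪e, x - y⟫_ℝ := fun x hx => hpt _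
    (subset_closure ⟨1, one_pos, by rw [one_smul, add_sub_cancel]; exact hx⟩)
  obtain ⟨p, hp⟩ := hint
  have hw : p - y ∈ interior T := by
    rw [hT, Tc_int hC hy ⟨p, hp⟩]
    exact ⟨1, one_pos, by rw [one_smul, add_sub_cancel]; exact hp⟩
  set w := p - y with hwdef
  have hf : finrank ℝ (Hp e) = 3 := by
    have := Hp_finrank he0
    omega
  have hwT := interior_subset hw
  have hG : (G 4 (Fc e w T)).Nonempty := by
    refine Gd_three_closed hf (Fc_convex hTc) (Fc_closed hTcl) ?_ ?_
    · intro d h1 h2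
      have h3 : ∀ d : Hp e, d ∈ Rc (Fc e w T) → (d : E) ∈ T := by
        intro d hd'
        have h4 := Fc_rc hTc hTcl hwT hd'
        have h5 := h4 0 (Tc_zero hy) 1 zero_le_one
        simpa using h5
      have := hl _ (h3 d h1) (h3 (-d) h2)
      exact_mod_cast this
    · have hcont : Continuous fun l : Hp e => w + (l : E) := by fun_prop
      refine ⟨0, mem_interior.2 ⟨(fun l : Hp e => w + (l : E)) ⁻¹' interior T, fun l hl => ?_,
        isOpen_interior.preimage hcont, ?_⟩⟩
      · exact interior_subset (s := T) hl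
      · simpa using hw
  obtain ⟨o, ho, hcv⟩ := hG
  have ho' : w + (o : E) ∈ interior T := by
    have h1 : ∃ s : ℝ, 0 < s ∧ o + s • o ∈ Fc e w T := by
      have hcont : Continuous fun s : ℝ => o + s • o := by fun_prop
      have h2 : o + (0 : ℝ) • o ∈ interior (Fc e w T) := by rwa [zero_smul, add_zero]
      obtain ⟨s, hs, hs1⟩ := (((hcont.continuousAt.eventually
        (isOpen_interior.mem_nhds h2)).filter_mono (nhdsWithin_le_nhds (s := Set.Ioi 0))).and
        self_mem_nhdsWithin).exists
      exact ⟨s, hs1, interior_subset hs⟩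
    obtain ⟨s, hs, h2⟩ := h1
    have h3 := hTc.combo_self_interior_mem_interior (x := w + ((o + s • o : Hp e) : E)) h2 hw
      (a := 1 / (1 + s)) (b := s / (1 + s)) (by positivity) (by positivity) (by field_simp)
    have h4 : (1 / (1 + s)) • (w + ((o + s • o : Hp e) : E)) + (s / (1 + s)) • w = w + (o : E) := by
      have h5 : 1 / (1 + s) + s / (1 + s) = 1 := by field_simp
      have h6 : ((o + s • o : Hp e) : E) = (1 + s) • (o : E) := by
        rw [Submodule.coe_add, Submodule.coe_smul, add_smul, one_smul]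
      have h7 : 1 / (1 + s) * (1 + s) = 1 := by field_simp
      rw [h6, smul_add, smul_smul, h7, one_smul, add_right_comm, ← add_smul, h5, one_smul]
    rwa [h4] at h3
  have hcv' : cv 4 {l : Hp e | w + (o : E) + (l : E) ∈ T} 0 := by
    have h1 := cv_shift.2 hcv
    have h2 : {l : Hp e | w + (o : E) + (l : E) ∈ T} = {l | o + l ∈ Fc e w T} := by
      ext l
      change w + (o : E) + (l : E) ∈ T ↔ w + ((o + l : Hp e) : E) ∈ T
      rw [Submodule.coe_add, add_assoc]
    rwa [h2]
  exact vert he hC ⟨p, hp⟩ hy hc hcone ho' hcv'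

lemma Rc_convex (C : Set E) : Convex ℝ (Rc C) := by
  intro x hx y hy a b ha hb _
  exact Rc_add (Rc_smul hx ha) (Rc_smul hy hb)

/-- **Sets with a large recession cone in dimension four.** -/
theorem Gd_rec_four (hd : finrank ℝ E = 4) {C : Set E} (hC : Convex ℝ C) (hcl : IsClosed C)
    (hl : LF C) (hne : C.Nonempty) (hR : (interior (Rc C)).Nonempty) : Gd 5 C := by
  have hRc := Rc_convex C
  have hRcl := Rc_closed hcl
  have hTR : Tc (Rc C) 0 ⊆ Rc C := by
    refine closure_minimal ?_ hRcl
    rintro v ⟨s, hs, hv⟩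
    rw [zero_add] at hv
    have := Rc_smul hv (s := s⁻¹) (by positivity)
    rwa [smul_smul, inv_mul_cancel₀ hs.ne', one_smul] at this
  have hG := Gd_vertex_four hd hRc hR (Rc_zero C) fun d h1 h2 => hl d (hTR h1) (hTR h2)
  obtain ⟨x₀, hx₀⟩ := hne
  have hinv : ∀ k, (tk k)⁻¹ ≠ 0 := fun k => inv_ne_zero (tk_pos k).ne'
  refine Gd_lim (𝒰 := hyperfilter ℕ) hRc hG (fun _ => 0)
    (fun k => LinearEquiv.smulOfNeZero ℝ E _ (hinv k))
    ⟨Eventually.of_forall fun k => pre_convex hC _ _, fun z hz => ?_, fun x z hx hxz => ?_⟩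
  · have h1 : Tendsto (fun k => z - tk k • x₀) (hyperfilter ℕ : Filter ℕ)
        (𝓝 (z - (0 : ℝ) • x₀)) := tendsto_const_nhds.sub (tk_lim.smul_const x₀)
    rw [zero_smul, sub_zero] at h1
    filter_upwards [h1.eventually (isOpen_interior.mem_nhds hz)] with k hk
    change 0 + LinearEquiv.smulOfNeZero ℝ E _ (hinv k) z ∈ C
    rw [zero_add, LinearEquiv.smulOfNeZero_apply]
    have h2 := interior_subset hk x₀ hx₀ (tk k)⁻¹ (inv_nonneg.2 (tk_pos k).le)
    rwa [smul_sub, smul_smul, inv_mul_cancel₀ (tk_pos k).ne', one_smul, add_sub_cancel] at h2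
  · refine Rc_of_lim hC hcl (l := (hyperfilter ℕ : Filter ℕ)) (x := fun k => (tk k)⁻¹ • x k)
      (μ := tk) tk_lim (Eventually.of_forall fun k => (tk_pos k).le) ?_ ?_
    · filter_upwards [hx] with k hk
      have hk' : 0 + LinearEquiv.smulOfNeZero ℝ E _ (hinv k) (x k) ∈ C := hk
      rwa [zero_add, LinearEquiv.smulOfNeZero_apply] at hk'
    · refine hxz.congr fun k => ?_
      rw [smul_smul, mul_inv_cancel₀ (tk_pos k).ne', one_smul]

lemma finrank_MM' {a e : E} (ha : ‖a‖ = 1) (he : ‖e‖ = 1) (hae : ⟪a, e⟫_ℝ = 0) :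
    finrank ℝ (MM a e) + 2 = finrank ℝ E := by
  have h1 : finrank ℝ (Submodule.span ℝ {a, e}) = 2 := by
    have hli : LinearIndependent ℝ ![a, e] := by
      rw [LinearIndependent.pair_iff]
      intro s t hst
      have h2 : ⟪a, s • a + t • e⟫_ℝ = 0 := by rw [hst, inner_zero_right]
      have h3 : ⟪e, s • a + t • e⟫_ℝ = 0 := by rw [hst, inner_zero_right]
      rw [inner_add_right, real_inner_smul_right, real_inner_smul_right,
        real_inner_self_eq_norm_sq, ha, hae] at h2
      rw [inner_add_right, real_inner_smul_right, real_inner_smul_right,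
        real_inner_self_eq_norm_sq, he, real_inner_comm a e, hae] at h3
      constructor <;> linarith
    have h2 := finrank_span_eq_card hli
    rw [Matrix.range_cons, Matrix.range_cons, Matrix.range_empty, Set.union_empty,
      Set.singleton_union] at h2
    simpa using h2
  have h2 : finrank ℝ (Submodule.span ℝ {a, e}) + finrank ℝ (MM a e) = finrank ℝ E :=
    Submodule.finrank_add_finrank_orthogonal (Submodule.span ℝ {a, e})
  rw [h1] at h2
  omega

/-- **Good points of the limit sets.** -/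
theorem DV.good {C : Set E} {a e : E} {c : ℝ} (h : DV C a e c) (hd : finrank ℝ E = 4) {r : E}
    (hr : r ∈ interior C) (hra : ⟪a, r⟫_ℝ = 0) : Gd 5 C := by
  have hM := finrank_MM' h.a1 h.e1 h.ae
  have hM2 : finrank ℝ (MM a e) = 2 := by omega
  set S : Set (MM a e) := {l : MM a e | r + (l : E) ∈ C} with hS
  have hSc : Convex ℝ S := sub_convex h.cvx r _
  have hcont : Continuous fun l : MM a e => r + (l : E) := by fun_prop
  have hScl : IsClosed S := h.cl.preimage hcont
  have hFm : ∀ l : MM a e, ⟪a, (l : E)⟫_ℝ = 0 ∧ ⟪e, (l : E)⟫_ℝ = 0 := fun l => mem_MM.1 l.2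
  have hSk : IsCompact S := by
    refine Metric.isCompact_of_isClosed_isBounded hScl ?_
    refine (isBounded_iff_forall_norm_le).2 ⟨⟪e, r⟫_ℝ / c + ‖r‖, fun l hl => ?_⟩
    have h1 := h.pt _ hl (by rw [inner_add_right, hra, (hFm l).1, add_zero])
    rw [inner_add_right, (hFm l).2, add_zero] at h1
    have h2 : ‖r + (l : E)‖ ≤ ⟪e, r⟫_ℝ / c := by
      rw [le_div_iff₀ h.c0, mul_comm]
      exact h1
    have h3 := norm_sub_le (r + (l : E)) r
    rw [add_sub_cancel_left] at h3
    change ‖(l : E)‖ ≤ _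
    linarith
  have h0 : (0 : MM a e) ∈ interior S := by
    rw [mem_interior]
    refine ⟨(fun l : MM a e => r + (l : E)) ⁻¹' interior C, fun l hl => ?_,
      isOpen_interior.preimage hcont, ?_⟩
    · exact interior_subset (s := C) hl
    · simpa using hr
  obtain ⟨o, ho, hcv⟩ := Gd_plane hM2 hSc hScl ⟨0, h0⟩ (LF_of_compact hSk ⟨0, interior_subset h0⟩)
  have ho' : r + (o : E) ∈ interior C := by
    have h1 : ∃ s : ℝ, 0 < s ∧ o + s • o ∈ S := by
      have hcont : Continuous fun s : ℝ => o + s • o := by fun_prop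
      have h2 : o + (0 : ℝ) • o ∈ interior S := by rwa [zero_smul, add_zero]
      obtain ⟨s, hs, hs1⟩ := (((hcont.continuousAt.eventually
        (isOpen_interior.mem_nhds h2)).filter_mono (nhdsWithin_le_nhds (s := Set.Ioi 0))).and
        self_mem_nhdsWithin).exists
      exact ⟨s, hs1, interior_subset hs⟩
    obtain ⟨s, hs, h2⟩ := h1
    have h3 := h.cvx.combo_self_interior_mem_interior (x := r + ((o + s • o : MM a e) : E)) h2 hr
      (a := 1 / (1 + s)) (b := s / (1 + s)) (by positivity) (by positivity) (by field_simp)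
    have h4 : (1 / (1 + s)) • (r + ((o + s • o : MM a e) : E)) + (s / (1 + s)) • r =
        r + (o : E) := by
      have h5 : 1 / (1 + s) + s / (1 + s) = 1 := by field_simp
      have h6 : ((o + s • o : MM a e) : E) = (1 + s) • (o : E) := by
        rw [Submodule.coe_add, Submodule.coe_smul, add_smul, one_smul]
      have h7 : 1 / (1 + s) * (1 + s) = 1 := by field_simp
      rw [h6, smul_add, smul_smul, h7, one_smul, add_right_comm, ← add_smul, h5, one_smul]
    rwa [h4] at h3
  have hcv' : cv 3 {l : MM a e | r + (o : E) + (l : E) ∈ C} 0 := by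
    have h1 := cv_shift.2 hcv
    have h2 : {l : MM a e | r + (o : E) + (l : E) ∈ C} = {l | o + l ∈ S} := by
      ext l
      change r + (o : E) + (l : E) ∈ C ↔ r + ((o + l : MM a e) : E) ∈ C
      rw [Submodule.coe_add, add_assoc]
    rwa [h2]
  exact ⟨_, ho', h.cvn ho' (by rw [inner_add_right, hra, (hFm o).1, add_zero]) hcv'⟩

end Pool.Agent.N321.MN
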