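import Pool.Agent.N321.MN.D2

set_option autoImplicit false
set_option linter.unusedSectionVars false

/-!
# Zooming at a boundary point with a normal cone of codimension one
-/

namespace Pool.Agent.N321.MN

open scoped InnerProductSpace Topology
open Metric Module Filter Set
open Pool.Agent.H985.Sep (polar)
open Pool.Agent.N321.NB (inner_orth Tc Tc_convex Tc_smul Tc_zero Tc_int ray_mem)

variable {E : Type} [NormedAddCommGroup E] [InnerProductSpace ℝ E] [FiniteDimensional ℝ E]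

/-- a slice -/
lemma sliceE {K : Set E} (hKc : IsCompact K) {q a : E} (ha : ‖a‖ = 1) (hq : q ∈ interior K) :
    ∃ m M : ℝ, m < 0 ∧ 0 < M ∧ q + m • a ∈ K ∧ q + M • a ∈ K ∧
      ∀ η : ℝ, q + η • a ∈ K → m ≤ η ∧ η ≤ M := by
  have hcont : Continuous fun η : ℝ => q + η • a := by fun_prop
  set S : Set ℝ := (fun η : ℝ => q + η • a) ⁻¹' K with hS
  have hSc : IsCompact S := by
    refine Metric.isCompact_of_isClosed_isBounded (hKc.isClosed.preimage hcont) ?_
    obtain ⟨R, hR⟩ := hKc.isBounded.exists_norm_le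
    refine (isBounded_iff_forall_norm_le).2 ⟨R + ‖q‖, fun η hη => ?_⟩
    have h1 := hR _ hη
    have h2 := norm_sub_le (q + η • a) q
    rw [add_sub_cancel_left, norm_smul, ha, mul_one] at h2
    linarith
  have hS0 : (0 : ℝ) ∈ interior S := by
    rw [mem_interior]
    refine ⟨(fun η : ℝ => q + η • a) ⁻¹' interior K, fun η hη => ?_,
      isOpen_interior.preimage hcont, by simpa using hq⟩
    exact interior_subset (s := K) hη
  have hSn : S.Nonempty := ⟨0, interior_subset hS0⟩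
  obtain ⟨M, hMS, hM⟩ := hSc.exists_isGreatest hSn
  obtain ⟨m, hmS, hm⟩ := hSc.exists_isLeast hSn
  obtain ⟨ε, hε, hεS⟩ := Metric.nhds_basis_closedBall.mem_iff.1 (mem_interior_iff_mem_nhds.1 hS0)
  have h1 : ε ∈ S := hεS (by rw [mem_closedBall, dist_zero_right, Real.norm_eq_abs,
    abs_of_pos hε])
  have h2 : -ε ∈ S := hεS (by rw [mem_closedBall, dist_zero_right, Real.norm_eq_abs, abs_neg,
    abs_of_pos hε])
  exact ⟨m, M, by linarith [hm h2], by linarith [hM h1], hmS, hMS, fun η hη => ⟨hm hη, hM hη⟩⟩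

/-- the maps `t` on the complement of `a` and `β` on `a` -/
noncomputable def dgl (a : E) (β t : ℝ) : E →ₗ[ℝ] E :=
  t • LinearMap.id + (β - t) • ((innerₛₗ ℝ a : E →ₗ[ℝ] ℝ).smulRight a)

lemma dgl_apply (a : E) (β t : ℝ) (z : E) : dgl a β t z = t • z + ((β - t) * ⟪a, z⟫_ℝ) • a := by
  simp [dgl, smul_smul]

lemma dgl_comp {a : E} (ha : ‖a‖ = 1) (β t β' t' : ℝ) (z : E) :
    dgl a β t (dgl a β' t' z) = dgl a (β * β') (t * t') z := by
  have haa : ⟪a, a⟫_ℝ = 1 := by rw [real_inner_self_eq_norm_sq, ha, one_pow]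
  rw [dgl_apply, dgl_apply, dgl_apply, inner_add_right, real_inner_smul_right,
    real_inner_smul_right, haa]
  module

/-- the equivalence -/
noncomputable def dge {a : E} (ha : ‖a‖ = 1) {β t : ℝ} (hβ : β ≠ 0) (ht : t ≠ 0) : E ≃ₗ[ℝ] E :=
  LinearEquiv.ofLinear (dgl a β t) (dgl a β⁻¹ t⁻¹)
    (by
      ext z
      rw [LinearMap.comp_apply, dgl_comp ha, mul_inv_cancel₀ hβ, mul_inv_cancel₀ ht, dgl_apply]
      simp)
    (by
      ext z
      rw [LinearMap.comp_apply, dgl_comp ha, inv_mul_cancel₀ hβ, inv_mul_cancel₀ ht, dgl_apply]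
      simp)

lemma dge_apply {a : E} (ha : ‖a‖ = 1) {β t : ℝ} (hβ : β ≠ 0) (ht : t ≠ 0) (z : E) :
    dge ha hβ ht z = t • (z - ⟪a, z⟫_ℝ • a) + (β * ⟪a, z⟫_ℝ) • a := by
  change dgl a β t z = _
  rw [dgl_apply]
  module

/-- **Zooming at a point with a normal cone of codimension one.** -/
theorem smooth_dir (hd : finrank ℝ E = 4) {K : Set E} (hK : Convex ℝ K) (hKc : IsCompact K)
    (hint : (interior K).Nonempty) {y a e : E} {c : ℝ} (hy : y ∈ K) (ha : ‖a‖ = 1)
    (he : ‖e‖ = 1) (hae : ⟪a, e⟫_ℝ = 0) (hc : 0 < c)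
    (hpt : ∀ x ∈ K, c * ‖(x - y) - ⟪a, x - y⟫_ℝ • a‖ ≤ ⟪e, x - y⟫_ℝ)
    (hnv : ∀ v : E, (∀ x ∈ K, ⟪v, x - y⟫_ℝ ≤ 0) → ⟪v, a⟫_ℝ = 0) : Gd 5 K := by
  have haa : ⟪a, a⟫_ℝ = 1 := by rw [real_inner_self_eq_norm_sq, ha, one_pow]
  have ha0 : a ≠ 0 := by rintro rfl; simp at ha
  set T := Tc K y with hT
  have hTc : Convex ℝ T := Tc_convex hK hy
  have hTcl : IsClosed T := isClosed_closure
  have hT0 : (0 : E) ∈ T := Tc_zero hy
  have hsm : ∀ z ∈ T, ∀ s : ℝ, 0 ≤ s → s • z ∈ T := by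
    intro z hz s hs
    rcases hs.lt_or_eq with h | h
    · exact Tc_smul hz h
    · rw [← h, zero_smul]
      exact hT0
  have hadd : ∀ z ∈ T, ∀ z' ∈ T, z + z' ∈ T := by
    intro z hz z' hz'
    have h1 := hsm _ (hTc hz hz' (a := 1 / 2) (b := 1 / 2) (by norm_num) (by norm_num)
      (by norm_num)) 2 (by norm_num)
    rwa [smul_add, smul_smul, smul_smul, mul_one_div_cancel two_ne_zero, one_smul, one_smul] at h1
  have hKT : ∀ x ∈ K, x - y ∈ T := fun x hx =>
    subset_closure ⟨1, one_pos, by rw [one_smul, add_sub_cancel]; exact hx⟩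
  have hTpt : ∀ z ∈ T, c * ‖z - ⟪a, z⟫_ℝ • a‖ ≤ ⟪e, z⟫_ℝ := by
    intro z hz
    refine closure_minimal (t := {z | c * ‖z - ⟪a, z⟫_ℝ • a‖ ≤ ⟪e, z⟫_ℝ}) ?_
      (isClosed_le (by fun_prop) (by fun_prop)) hz
    rintro z ⟨s, hs, hz⟩
    have h1 := hpt _ hz
    rw [add_sub_cancel_left, real_inner_smul_right, real_inner_smul_right] at h1
    have h2 : s • z - (s * ⟪a, z⟫_ℝ) • a = s • (z - ⟪a, z⟫_ℝ • a) := by module
    rw [h2, norm_smul, Real.norm_eq_abs, abs_of_pos hs] at h1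
    rw [mem_setOf_eq]
    have h3 : s * (c * ‖z - ⟪a, z⟫_ℝ • a‖) ≤ s * ⟪e, z⟫_ℝ := by linarith
    exact le_of_mul_le_mul_left h3 hs
  have hσT : ∀ b : E, (∀ v : E, ⟪v, a⟫_ℝ = 0 → ⟪v, b⟫_ℝ = 0) → b ∈ T := by
    intro b hb
    by_contra hbT
    obtain ⟨f, u, hf1, hf2⟩ := geometric_hahn_banach_closed_point hTc hTcl hbT
    set v : E := (InnerProductSpace.toDual ℝ E).symm f with hv
    have hvf : ∀ x, ⟪v, x⟫_ℝ = f x := fun x => InnerProductSpace.toDual_symm_apply
    have hu0 : 0 < u := by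
      have := hf1 0 hT0
      rwa [map_zero] at this
    have h1 := hb v (hnv v fun x hx => by
      by_contra hcon
      push Not at hcon
      have h2 := hf1 _ (hsm _ (hKT x hx) (u / ⟪v, x - y⟫_ℝ) (by positivity))
      rw [map_smul, ← hvf, smul_eq_mul, div_mul_cancel₀ _ hcon.ne'] at h2
      exact lt_irrefl _ h2)
    rw [hvf] at h1
    linarith
  have hsa : ∀ s : ℝ, s • a ∈ T := fun s => hσT _ fun v hv => by
    rw [real_inner_smul_right, hv, mul_zero]
  have hTa : ∀ z ∈ T, ∀ s : ℝ, z + s • a ∈ T := fun z hz s => hadd z hz _ (hsa s)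
  -- the inner direction
  obtain ⟨p, hp⟩ := hint
  have hpT : p - y ∈ interior T := by
    rw [hT, Tc_int hK hy ⟨p, hp⟩]
    exact ⟨1, one_pos, by rw [one_smul, add_sub_cancel]; exact hp⟩
  set r : E := p - y - ⟪a, p - y⟫_ℝ • a with hr
  have hra : ⟪a, r⟫_ℝ = 0 := by
    rw [hr, inner_sub_right, real_inner_smul_right, haa, mul_one, sub_self]
  have hrT : r ∈ interior T := by
    have h1 := int_add_rc (C := T) hpT (d := (-⟪a, p - y⟫_ℝ) • a) (fun x hx t _ => by
      rw [smul_smul]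
      exact hTa x hx _) zero_le_one
    rw [one_smul, neg_smul, ← sub_eq_add_neg] at h1
    exact h1
  obtain ⟨h, hh, hhK⟩ := (Tc_int hK hy ⟨p, hp⟩).1 hrT
  set t : ℕ → ℝ := fun k => h * tk k with ht
  have ht0 : ∀ k, 0 < t k := fun k => mul_pos hh (tk_pos k)
  have hth : ∀ k, t k ≤ h := by
    intro k
    have : tk k ≤ 1 := by
      rw [tk, div_le_one (by positivity)]
      have : (0 : ℝ) ≤ k := Nat.cast_nonneg k
      linarith
    simp only [ht]
    nlinarith
  have htl : Tendsto t (hyperfilter ℕ : Filter ℕ) (𝓝 0) := by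
    have := tk_lim.const_mul h
    rwa [mul_zero] at this
  have hti : ∀ k, y + t k • r ∈ interior K := by
    intro k
    have h1 := hK.combo_self_interior_mem_interior hy hhK (a := 1 - t k / h) (b := t k / h) (by
      rw [sub_nonneg, div_le_one hh]; exact hth k) (div_pos (ht0 k) hh) (by ring)
    have h2 : (1 - t k / h) • y + (t k / h) • (y + h • r) = y + t k • r := by
      rw [smul_add, smul_smul, div_mul_cancel₀ _ hh.ne']
      module
    rwa [h2] at h1
  choose m M hm0 hM0 hmK hMK hmM using fun k => sliceE hKc ha (hti k)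
  set β : ℕ → ℝ := fun k => (M k - m k) / 2 with hβ
  set γ : ℕ → ℝ := fun k => (M k + m k) / 2 with hγ
  have hβ0 : ∀ k, 0 < β k := fun k => by
    have := hm0 k
    have := hM0 k
    simp only [hβ]
    linarith
  have hγβ : ∀ k, γ k + β k = M k := fun k => by simp only [hγ, hβ]; ring
  have hγβ' : ∀ k, γ k - β k = m k := fun k => by simp only [hγ, hβ]; ring
  set κ' : ℕ → ℝ := fun k => γ k / β k with hκ'
  have hκ1 : ∀ k, |κ' k| ≤ 1 := by
    intro k
    have h1 := hm0 k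
    have h2 := hM0 k
    have h3 := hγβ k
    have h4 := hγβ' k
    simp only [hκ']
    rw [abs_div, abs_of_pos (hβ0 k), div_le_one (hβ0 k), abs_le]
    constructor <;> linarith
  obtain ⟨κ, hκ⟩ := ultra_real κ' hκ1
  have hκβ : ∀ k, β k * κ' k = γ k := fun k => by
    simp only [hκ']
    exact mul_div_cancel₀ _ (hβ0 k).ne'
  -- the zooms
  set o : ℕ → E := fun k => y + t k • r + γ k • a with ho
  set A : ℕ → E ≃ₗ[ℝ] E := fun k => dge ha (hβ0 k).ne' (ht0 k).ne' with hA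
  set Kk : ℕ → Set E := fun k => pre K (o k) (A k) with hKk
  have hok : ∀ (k : ℕ) (z : E), o k + A k z =
      y + t k • (r + (z - ⟪a, z⟫_ℝ • a)) + (γ k + β k * ⟪a, z⟫_ℝ) • a := by
    intro k z
    simp only [ho, hA]
    rw [dge_apply]
    module
  have hmem : ∀ (k : ℕ) (z : E), z ∈ Kk k ↔
      y + t k • (r + (z - ⟪a, z⟫_ℝ • a)) + (γ k + β k * ⟪a, z⟫_ℝ) • a ∈ K := by
    intro k z
    change o k + A k z ∈ K ↔ _
    rw [hok]
  set C₀ : Set E := ulim (hyperfilter ℕ) Kk with hC₀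
  have hcv : ∀ᶠ k in (hyperfilter ℕ : Filter ℕ), Convex ℝ (Kk k) :=
    Eventually.of_forall fun k => pre_convex hK _ _
  have hlo : LoU (hyperfilter ℕ) C₀ Kk := ulim_lo hcv
  have hCv : Convex ℝ C₀ := ulim_convex hcv
  have hCcl : IsClosed C₀ := ulim_closed _ _
  have haC : a ∈ C₀ := hlo.out (fun _ => a) _ (Eventually.of_forall fun k => by
    rw [hmem, haa, one_smul, sub_self, add_zero, mul_one, hγβ]
    exact hMK k) tendsto_const_nhds
  have haC' : -a ∈ C₀ := hlo.out (fun _ => -a) _ (Eventually.of_forall fun k => by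
    rw [hmem, inner_neg_right, haa, neg_one_smul, sub_self, add_zero, mul_neg_one,
      ← sub_eq_add_neg, hγβ']
    exact hmK k) tendsto_const_nhds
  have hzC : ∀ z ∈ T, ⟪a, z⟫_ℝ = 0 → -r - κ • a + z ∈ C₀ := by
    have h1 : ∀ z ∈ interior T, ⟪a, z⟫_ℝ = 0 → -r - κ • a + z ∈ C₀ := by
      intro z hz hza
      obtain ⟨s, hs, hsK⟩ := (Tc_int hK hy ⟨p, hp⟩).1 hz
      refine hlo.out (fun k => -r - κ' k • a + z) _ ?_
        ((tendsto_const_nhds.sub (hκ.smul_const a)).add_const z)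
      filter_upwards [htl.eventually_lt_const hs] with k hk
      rw [hmem]
      have h2 : ⟪a, -r - κ' k • a + z⟫_ℝ = -κ' k := by
        rw [inner_add_right, inner_sub_right, inner_neg_right, real_inner_smul_right, hra, hza,
          haa]
        ring
      rw [h2, mul_neg, hκβ, add_neg_cancel, zero_smul, add_zero]
      have h3 : r + (-r - κ' k • a + z - (-κ' k) • a) = z := by module
      rw [h3]
      exact ray_mem hK hy (ht0 k).le hk.le (interior_subset hsK)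
    intro z hz hza
    have hcont : Continuous fun s : ℝ => -r - κ • a + ((1 - s) • z + s • r) := by fun_prop
    have h2 := (hcont.tendsto 0).mono_left (nhdsWithin_le_nhds (s := Set.Ioi 0))
    rw [sub_zero, one_smul, zero_smul, add_zero] at h2
    refine hCcl.mem_of_tendsto h2 ?_
    have hev : ∀ᶠ s : ℝ in 𝓝[>] 0, s < 1 :=
      (eventually_lt_nhds (show (0 : ℝ) < 1 by norm_num)).filter_mono nhdsWithin_le_nhds
    filter_upwards [hev, self_mem_nhdsWithin] with s hs1 hs0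
    refine h1 _ (hTc.combo_self_interior_mem_interior hz hrT (by linarith) hs0 (by ring)) ?_
    rw [inner_add_right, real_inner_smul_right, real_inner_smul_right, hza, hra]
    ring
  have hCT : ∀ x ∈ C₀, r + (x - ⟪a, x⟫_ℝ • a) ∈ T := by
    intro x hx
    obtain ⟨x', hx', hxl⟩ := ulim_seq tk_lim (K := Kk) (fun k => ⟨a, by
      rw [hmem, haa, one_smul, sub_self, add_zero, mul_one, hγβ]
      exact hMK k⟩) hx
    have hcont : Continuous fun x : E => r + (x - ⟪a, x⟫_ℝ • a) := by fun_prop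
    refine hTcl.mem_of_tendsto ((hcont.tendsto x).comp hxl) (Eventually.of_forall fun k => ?_)
    have h1 := hKT _ ((hmem k _).1 (hx' k))
    have h2 := hTa _ h1 (-(γ k + β k * ⟪a, x' k⟫_ℝ))
    have h3 : y + t k • (r + (x' k - ⟪a, x' k⟫_ℝ • a)) + (γ k + β k * ⟪a, x' k⟫_ℝ) • a - y +
        (-(γ k + β k * ⟪a, x' k⟫_ℝ)) • a = t k • (r + (x' k - ⟪a, x' k⟫_ℝ • a)) := by module
    rw [h3] at h2
    have h4 := hsm _ h2 (t k)⁻¹ (inv_nonneg.2 (ht0 k).le)
    rwa [smul_smul, inv_mul_cancel₀ (ht0 k).ne', one_smul] at h4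
  have h0i : (0 : E) ∈ interior C₀ := by
    refine int_of_sep hCv (fun u hu => ?_) ⟨_, haC⟩
    rcases lt_trichotomy ⟪a, u⟫_ℝ 0 with h1 | h1 | h1
    · exact ⟨_, haC', by rw [inner_neg_left]; linarith⟩
    · obtain ⟨ε, hε, h2⟩ := pos_dirs hrT {u}
      have h3 := interior_subset (h2 u (Finset.mem_singleton_self u))
      refine ⟨_, hzC _ h3 (by rw [inner_add_right, real_inner_smul_right, hra, h1]; ring), ?_⟩
      have h4 : -r - κ • a + (r + ε • u) = ε • u - κ • a := by module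
      rw [h4, inner_sub_left, real_inner_smul_left, real_inner_smul_left, h1,
        real_inner_self_eq_norm_sq]
      have : 0 < ‖u‖ := norm_pos_iff.2 hu
      have : 0 < ε * ‖u‖ ^ 2 := by positivity
      linarith
    · exact ⟨_, haC, h1⟩
  have hnb : ∀ σ : ℝ, (σ = 1 ∨ σ = -1) → σ • a ∉ Rc C₀ := by
    intro σ hσ hd
    have h1 := int_add_rc h0i hd (t := 2) (by norm_num)
    obtain ⟨k, hk⟩ := (hlo.inn _ h1).exists
    rw [hmem, zero_add, real_inner_smul_right, real_inner_smul_right, haa] at hk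
    have h5 : (2 : ℝ) • σ • a - (2 * (σ * 1)) • a = 0 := by module
    rw [h5, add_zero] at hk
    have h2 := hmM k _ hk
    have h3 := hγβ k
    have h3' := hγβ' k
    have h4 := hβ0 k
    rcases hσ with rfl | rfl
    · linarith [h2.2]
    · linarith [h2.1]
  -- recentring
  set C : Set E := {w | (-r - κ • a) + w ∈ C₀} with hC
  have hC1 : Convex ℝ C := shift_convex hCv _
  have hC2 : IsClosed C := shift_closed hCcl _
  have hTC : ∀ z ∈ T, ⟪a, z⟫_ℝ = 0 → z ∈ C := hzC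
  have h0C : (0 : E) ∈ C := hTC 0 hT0 (inner_zero_right a)
  have hCT' : ∀ x ∈ C, x - ⟪a, x⟫_ℝ • a ∈ T := by
    intro x hx
    have h1 := hCT _ hx
    have h2 : ⟪a, -r - κ • a + x⟫_ℝ = -κ + ⟪a, x⟫_ℝ := by
      rw [inner_add_right, inner_sub_right, inner_neg_right, real_inner_smul_right, hra, haa]
      ring
    rw [h2] at h1
    have h3 : r + (-r - κ • a + x - (-κ + ⟪a, x⟫_ℝ) • a) = x - ⟪a, x⟫_ℝ • a := by module
    rwa [h3] at h1
  have hprz : ∀ x : E, ⟪a, x - ⟪a, x⟫_ℝ • a⟫_ℝ = 0 := fun x => by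
    rw [inner_sub_right, real_inner_smul_right, haa, mul_one, sub_self]
  have hCi : (interior C).Nonempty := by
    refine ⟨r + κ • a, ?_⟩
    rw [hC, shift_interior]
    have : -r - κ • a + (r + κ • a) = 0 := by module
    rw [this]
    exact h0i
  have hRC : ∀ d ∈ Rc C, d ∈ Rc C₀ := by
    intro d hd x hx s hs
    have h1 := hd (x - (-r - κ • a)) (by
      change -r - κ • a + (x - (-r - κ • a)) ∈ C₀
      rwa [add_sub_cancel]) s hs
    have h2 : -r - κ • a + (x - (-r - κ • a) + s • d) ∈ C₀ := h1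
    rwa [← add_assoc, add_sub_cancel] at h2
  have hRcC : ∀ d ∈ Rc C, d ∈ C := fun d hd => by
    have := hd 0 h0C 1 zero_le_one
    rwa [zero_add, one_smul] at this
  have hTpt0 : ∀ z ∈ T, ⟪a, z⟫_ℝ = 0 → c * ‖z‖ ≤ ⟪e, z⟫_ℝ := by
    intro z hz hza
    have := hTpt z hz
    rwa [hza, zero_smul, sub_zero] at this
  have hTzero : ∀ z : E, z - ⟪a, z⟫_ℝ • a ∈ T → -z - ⟪a, -z⟫_ℝ • a ∈ T →
      z = ⟪a, z⟫_ℝ • a := by
    intro z h1 h2
    have h3 := hTpt0 _ h1 (hprz z)
    have h4 := hTpt0 _ h2 (hprz (-z))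
    have h5 : -z - ⟪a, -z⟫_ℝ • a = -(z - ⟪a, z⟫_ℝ • a) := by
      rw [inner_neg_right]
      module
    rw [h5, norm_neg, inner_neg_right] at h4
    have h6 : c * ‖z - ⟪a, z⟫_ℝ • a‖ ≤ 0 := by linarith
    have h7 : ‖z - ⟪a, z⟫_ℝ • a‖ = 0 := by
      have h8 := norm_nonneg (z - ⟪a, z⟫_ℝ • a)
      nlinarith
    exact sub_eq_zero.1 (norm_eq_zero.1 h7)
  have hLF : LF C := by
    intro d h1 h2
    have h3 := hTzero d (hCT' d (hRcC d h1)) (hCT' (-d) (hRcC (-d) h2))
    by_contra hd0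
    have h4 : ⟪a, d⟫_ℝ ≠ 0 := by
      intro h4
      rw [h4, zero_smul] at h3
      exact hd0 h3
    have h5 : 0 < |⟪a, d⟫_ℝ| := abs_pos.2 h4
    have h6 := Rc_smul (hRC d h1) (s := |⟪a, d⟫_ℝ|⁻¹) (by positivity)
    rw [h3, smul_smul] at h6
    have h7 : ⟪a, ⟪a, d⟫_ℝ • a⟫_ℝ = ⟪a, d⟫_ℝ := by rw [real_inner_smul_right, haa, mul_one]
    rw [h7] at h6
    refine hnb (|⟪a, d⟫_ℝ|⁻¹ * ⟪a, d⟫_ℝ) ?_ h6
    rcases lt_or_gt_of_ne h4 with h8 | h8
    · right
      rw [abs_of_neg h8, inv_neg, neg_mul, inv_mul_cancel₀ h4]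
    · left
      rw [abs_of_pos h8, inv_mul_cancel₀ h4]
  have hfin : Gd 5 C → Gd 5 K := by
    rintro ⟨q, hq1, hq2⟩
    have h1 : -r - κ • a + q ∈ G 5 C₀ := G_shift.1 ⟨hq1, hq2⟩
    exact Gd_lim (𝒰 := hyperfilter ℕ) hCv ⟨_, h1.1, h1.2⟩ o A hlo
  have hTR : ∀ z ∈ T, ⟪a, z⟫_ℝ = 0 → z ∈ Rc C := by
    intro z hz hza
    refine Rc_of_ray hC1 hC2 (y := 0) fun s hs => ?_
    rw [zero_add]
    exact hTC _ (hsm z hz s hs) (by rw [real_inner_smul_right, hza, mul_zero])
  by_cases hrc : ∀ d ∈ Rc C, ⟪a, d⟫_ℝ = 0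
  swap
  · push Not at hrc
    obtain ⟨d, hdR, hda⟩ := hrc
    refine hfin (Gd_rec_four hd hC1 hC2 hLF ⟨0, h0C⟩ ?_)
    refine int_of_perp (Rc_convex C) (Rc_zero C) fun v hv => ?_
    obtain ⟨ε, hε, h2⟩ := pos_dirs hrT {v - ⟪a, v⟫_ℝ • a}
    have h3 := interior_subset (h2 _ (Finset.mem_singleton_self _))
    have h4 := hv _ (hTR _ h3 (by rw [inner_add_right, real_inner_smul_right, hra, hprz]; ring))
    have h5 := hv _ (hTR r (interior_subset hrT) hra)
    rw [inner_add_right, h5, zero_add, real_inner_smul_right] at h4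
    have h6 : ⟪v, v - ⟪a, v⟫_ℝ • a⟫_ℝ = 0 := (mul_eq_zero.1 h4).resolve_left hε.ne'
    have h7 : ⟪v - ⟪a, v⟫_ℝ • a, v - ⟪a, v⟫_ℝ • a⟫_ℝ = 0 := by
      rw [inner_sub_left, h6, real_inner_smul_left, hprz]
      ring
    have h8 : v = ⟪a, v⟫_ℝ • a := sub_eq_zero.1 (inner_self_eq_zero.1 h7)
    have h9 := hv d hdR
    rw [h8, real_inner_smul_left] at h9
    rw [h8, (mul_eq_zero.1 h9).resolve_right hda, zero_smul]
  by_cases hnvC : ∀ v : E, (∀ x ∈ C, ⟪v, x⟫_ℝ ≤ 0) → ⟪v, a⟫_ℝ = 0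
  swap
  · push Not at hnvC
    obtain ⟨v, hv, hva⟩ := hnvC
    refine hfin (Gd_vertex_four hd hC1 hCi h0C fun d h1 h2 => ?_)
    have hTcC : ∀ d ∈ Tc C 0, ⟪v, d⟫_ℝ ≤ 0 ∧ d - ⟪a, d⟫_ℝ • a ∈ T := by
      intro d hd
      refine closure_minimal (t := {d | ⟪v, d⟫_ℝ ≤ 0 ∧ d - ⟪a, d⟫_ℝ • a ∈ T}) ?_ ?_ hd
      · rintro z ⟨s, hs, hz⟩
        rw [zero_add] at hz
        constructor
        · have h3 := hv _ hz
          rw [real_inner_smul_right] at h3
          exact nonpos_of_mul_nonpos_right h3 hs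
        · have h3 := hsm _ (hCT' _ hz) s⁻¹ (by positivity)
          have h4 : s⁻¹ • (s • z - ⟪a, s • z⟫_ℝ • a) = z - ⟪a, z⟫_ℝ • a := by
            rw [real_inner_smul_right, smul_sub, smul_smul, smul_smul, ← mul_assoc,
              inv_mul_cancel₀ hs.ne', one_smul, one_mul]
          rwa [h4] at h3
      · exact (isClosed_le (by fun_prop : Continuous fun d : E => ⟪v, d⟫_ℝ)
          continuous_const).inter
          (hTcl.preimage (by fun_prop : Continuous fun d : E => d - ⟪a, d⟫_ℝ • a))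
    obtain ⟨h3, h4⟩ := hTcC d h1
    obtain ⟨h5, h6⟩ := hTcC (-d) h2
    have h7 := hTzero d h4 h6
    rw [inner_neg_right] at h5
    have h8 : ⟪v, d⟫_ℝ = 0 := by linarith
    rw [h7, real_inner_smul_right] at h8
    rw [h7, (mul_eq_zero.1 h8).resolve_right hva, zero_smul]
  have hDV : DV C a e c := by
    refine ⟨ha, he, hae, hc, hC1, hC2, fun x hx => hTC _ (hCT' x hx) (hprz x), ?_, ?_, hrc, hnvC⟩
    · intro z hz hza s hs
      have h1 := hCT' z hz
      rw [hza, zero_smul, sub_zero] at h1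
      exact hTC _ (hsm z h1 s hs) (by rw [real_inner_smul_right, hza, mul_zero])
    · intro z hz hza
      have h1 := hCT' z hz
      rw [hza, zero_smul, sub_zero] at h1
      exact hTpt0 z h1 hza
  refine hfin (hDV.good hd (r := r) ?_ hra)
  -- `r` is an interior point
  by_contra hri
  obtain ⟨f, hf⟩ := geometric_hahn_banach_open_point hC1.interior isOpen_interior hri
  set v : E := (InnerProductSpace.toDual ℝ E).symm f with hvdef
  have hvf : ∀ x, ⟪v, x⟫_ℝ = f x := fun x => InnerProductSpace.toDual_symm_apply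
  have hle : ∀ x ∈ C, ⟪v, x⟫_ℝ ≤ ⟪v, r⟫_ℝ := by
    intro x hx
    have hxc : x ∈ closure (interior C) := by
      rw [hC1.closure_interior_eq_closure_of_nonempty_interior hCi]
      exact subset_closure hx
    refine closure_minimal (t := {x | ⟪v, x⟫_ℝ ≤ ⟪v, r⟫_ℝ}) (fun z hz => ?_)
      (isClosed_le (by fun_prop) continuous_const) hxc
    have := hf z hz
    rw [← hvf, ← hvf] at this
    exact this.le
  have hv0 : v ≠ 0 := by
    intro h0
    obtain ⟨q, hq⟩ := hCi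
    have := hf q hq
    rw [← hvf, ← hvf, h0, inner_zero_left, inner_zero_left] at this
    exact lt_irrefl _ this
  have hrTm := interior_subset hrT
  have hvr : ⟪v, r⟫_ℝ = 0 := by
    have h1 := hle 0 h0C
    have h2 := hle _ (hTC _ (hsm r hrTm 2 (by norm_num)) (by
      rw [real_inner_smul_right, hra, mul_zero]))
    rw [inner_zero_right] at h1
    rw [real_inner_smul_right] at h2
    linarith
  have hva := hnvC v fun x hx => by
    have := hle x hx
    linarith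
  obtain ⟨ε, hε, h2⟩ := pos_dirs hrT {v}
  have h3 := interior_subset (h2 _ (Finset.mem_singleton_self _))
  have h4 := hle _ (hTC _ h3 (by
    rw [inner_add_right, real_inner_smul_right, hra, real_inner_comm v a, hva]
    ring))
  rw [inner_add_right, hvr, real_inner_smul_right, real_inner_self_eq_norm_sq] at h4
  have h5 : 0 < ‖v‖ := norm_pos_iff.2 hv0
  have h6 : 0 < ε * ‖v‖ ^ 2 := by positivity
  linarith

end Pool.Agent.N321.MN
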