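import Pool.Agent.N321.MN.U4

set_option autoImplicit false
set_option linter.unusedSectionVars false

/-!
# Exposed faces
-/

namespace Pool.Agent.N321.MN

open scoped InnerProductSpace Topology
open Metric Module Filter Set
open Pool.Agent.H985.Sep (polar)
open Pool.Agent.N321.NB (inner_orth)

variable {E : Type} [NormedAddCommGroup E] [InnerProductSpace ℝ E] [FiniteDimensional ℝ E]
variable {V : Type} [NormedAddCommGroup V] [InnerProductSpace ℝ V] [FiniteDimensional ℝ V]

/-- a parametrised slice -/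
def sl (K : Set E) (p : E) (A : V →ₗ[ℝ] E) : Set V := {v | p + A v ∈ K}

lemma sl_convex {K : Set E} (hK : Convex ℝ K) (p : E) (A : V →ₗ[ℝ] E) : Convex ℝ (sl K p A) := by
  intro l hl m hm a b ha hb hab
  have h := hK hl hm ha hb hab
  have h2 : p + A (a • l + b • m) = a • (p + A l) + b • (p + A m) := by
    rw [smul_add, smul_add, map_add, map_smul, map_smul]
    have : a • p + b • p = p := by rw [← add_smul, hab, one_smul]
    nth_rewrite 1 [← this]
    abel
  change p + A (a • l + b • m) ∈ K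
  rwa [h2]

lemma sl_compact {K : Set E} (hKc : IsCompact K) (p : E) {A : V →ₗ[ℝ] E}
    (hA : Function.Injective A) : IsCompact (sl K p A) := by
  have h1 : Topology.IsClosedEmbedding A := LinearMap.isClosedEmbedding_of_injective (LinearMap.ker_eq_bot.2 hA)
  have h2 : Topology.IsClosedEmbedding fun v : V => p + A v :=
    (Homeomorph.addLeft p).isClosedEmbedding.comp h1
  exact h2.isCompact_preimage hKc

lemma sl_image {K : Set E} {p : E} (hp : p ∈ K) {A : V →ₗ[ℝ] E}
    (hr : LinearMap.range A = vectorSpan ℝ K) {F : Set E} (hFK : F ⊆ K) :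
    (fun v : V => p + A v) '' sl F p A = F := by
  ext x
  constructor
  · rintro ⟨v, hv, rfl⟩
    exact hv
  · intro hx
    have h1 : x - p ∈ LinearMap.range A := by
      rw [hr]
      exact vsub_mem_vectorSpan ℝ (hFK hx) hp
    obtain ⟨v, hv⟩ := h1
    refine ⟨v, ?_, ?_⟩
    · change p + A v ∈ F
      rwa [hv, add_sub_cancel]
    · change p + A v = x
      rw [hv, add_sub_cancel]

lemma sl_span {K : Set E} {p : E} (hp : p ∈ K) {A : V →ₗ[ℝ] E}
    (hr : LinearMap.range A = vectorSpan ℝ K) {F : Set E} (hFK : F ⊆ K) :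
    (vectorSpan ℝ (sl F p A)).map A = vectorSpan ℝ F := by
  set f : V →ᵃ[ℝ] E := A.toAffineMap + AffineMap.const ℝ V p with hf
  have h1 : f.linear = A := by simp [hf]
  have h2 : f '' sl F p A = F := by
    have : (f : V → E) = fun v => p + A v := by
      funext v
      simp [hf, add_comm]
    rw [this]
    exact sl_image hp hr hFK
  have h3 := f.vectorSpan_image_eq_submodule_map (s := sl F p A)
  rw [h1, h2] at h3
  exact h3

lemma sl_finrank {K : Set E} {p : E} (hp : p ∈ K) {A : V →ₗ[ℝ] E} (hA : Function.Injective A)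
    (hr : LinearMap.range A = vectorSpan ℝ K) {F : Set E} (hFK : F ⊆ K) :
    finrank ℝ (vectorSpan ℝ (sl F p A)) = finrank ℝ (vectorSpan ℝ F) := by
  rw [← sl_span hp hr hFK]
  exact (LinearEquiv.finrank_eq (Submodule.equivMapOfInjective A hA _))

lemma finrank_dom {A : V →ₗ[ℝ] E} (hA : Function.Injective A) {K : Set E}
    (hr : LinearMap.range A = vectorSpan ℝ K) : finrank ℝ V = finrank ℝ (vectorSpan ℝ K) := by
  rw [← hr, LinearMap.finrank_range_of_inj hA]

lemma sl_int {K : Set E} (hK : Convex ℝ K) {p : E} (hp : p ∈ K) {A : V →ₗ[ℝ] E}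
    (hA : Function.Injective A) (hr : LinearMap.range A = vectorSpan ℝ K) :
    (interior (sl K p A)).Nonempty := by
  have hne : (sl K p A).Nonempty := ⟨0, by
    change p + A 0 ∈ K
    rwa [map_zero, add_zero]⟩
  rw [(sl_convex hK p A).interior_nonempty_iff_affineSpan_eq_top,
    AffineSubspace.affineSpan_eq_top_iff_vectorSpan_eq_top_of_nonempty ℝ V V hne]
  have h1 := sl_span hp hr (Subset.refl K)
  rw [← hr, LinearMap.range_eq_map] at h1
  exact Submodule.map_injective_of_injective hA h1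

/-- the faces -/
lemma exposed_normal {K F : Set E} (hF : IsExposed ℝ K F) (hne : F.Nonempty) :
    ∃ u : E, F = {x | x ∈ K ∧ ∀ y ∈ K, ⟪u, y⟫_ℝ ≤ ⟪u, x⟫_ℝ} := by
  obtain ⟨l, hl⟩ := hF hne
  refine ⟨(InnerProductSpace.toDual ℝ E).symm l, ?_⟩
  rw [hl]
  ext x
  simp only [InnerProductSpace.toDual_symm_apply]

lemma perp_span {F : Set E} {u : E} {c : ℝ} (h : ∀ x ∈ F, ⟪u, x⟫_ℝ = c) :
    ∀ l ∈ vectorSpan ℝ F, ⟪u, l⟫_ℝ = 0 := by
  intro l hl
  rw [vectorSpan_def] at hl
  induction hl using Submodule.span_induction with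
  | mem x hx =>
    obtain ⟨a, ha, b, hb, rfl⟩ := Set.mem_vsub.1 hx
    rw [vsub_eq_sub, inner_sub_right, h a ha, h b hb, sub_self]
  | zero => exact inner_zero_right _
  | add x y _ _ hx hy => rw [inner_add_right, hx, hy, add_zero]
  | smul s x _ hx => rw [real_inner_smul_right, hx, mul_zero]

lemma face_const {K F : Set E} {u : E} (hF : F = {x | x ∈ K ∧ ∀ y ∈ K, ⟪u, y⟫_ℝ ≤ ⟪u, x⟫_ℝ})
    {y : E} (hy : y ∈ F) : ∀ x ∈ F, ⟪u, x⟫_ℝ = ⟪u, y⟫_ℝ := by
  intro x hx
  rw [hF] at hx hy
  exact le_antisymm (hy.2 x hx.1) (hx.2 y hy.1)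

lemma sl_exposed {K F : Set E} (hF : IsExposed ℝ K F) {p : E} {A : V →ₗ[ℝ] E}
    (hr : LinearMap.range A = vectorSpan ℝ K) (hp : p ∈ K) :
    IsExposed ℝ (sl K p A) (sl F p A) := by
  intro hne
  obtain ⟨v, hv⟩ := hne
  obtain ⟨l, hl⟩ := hF ⟨_, hv⟩
  refine ⟨l.comp (LinearMap.toContinuousLinearMap A), ?_⟩
  have himg := sl_image hp hr (Subset.refl K)
  ext x
  constructor
  · intro hx
    have hx' : p + A x ∈ F := hx
    rw [hl] at hx'
    refine ⟨hx'.1, fun y hy => ?_⟩
    have := hx'.2 _ hy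
    rw [map_add, map_add] at this
    change l (A y) ≤ l (A x)
    linarith
  · rintro ⟨h1, h2⟩
    change p + A x ∈ F
    rw [hl]
    refine ⟨h1, fun y hy => ?_⟩
    rw [← himg] at hy
    obtain ⟨w, hw, rfl⟩ := hy
    have := h2 w hw
    change l (A w) ≤ l (A x) at this
    change l (p + A w) ≤ l (p + A x)
    rw [map_add, map_add]
    linarith

/-- the least number is attained somewhere, relative to the affine hull -/
def Gs (K : Set E) : Prop := ∀ (V : Type) [NormedAddCommGroup V] [InnerProductSpace ℝ V]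
  [FiniteDimensional ℝ V] (A : V →ₗ[ℝ] E), Function.Injective A →
    LinearMap.range A = vectorSpan ℝ K → ∀ p ∈ K, (G (finrank ℝ V + 1) (sl K p A)).Nonempty

lemma Gd_zero (hd : finrank ℝ E = 0) {C : Set E} (hne : C.Nonempty) : (G 1 C).Nonempty := by
  have : Subsingleton E := Module.finrank_zero_iff.1 hd
  have h : ∀ S : Set E, S.Nonempty → S = univ := fun S hS => Subsingleton.eq_univ_of_nonempty hS
  have h2 : polar C 0 = univ := h _ ⟨0, zero_mem_polar C 0⟩
  refine ⟨0, ?_, {0}, by simp, ?_⟩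
  · rw [h C hne, interior_univ]
    exact mem_univ _
  · rw [h2, interior_univ]
    intro x _
    simp

lemma Gs_low {K : Set E} (hK : Convex ℝ K) (hKc : IsCompact K)
    (h : finrank ℝ (vectorSpan ℝ K) ≤ 3) : Gs K := by
  intro V _ _ _ A hA hr p hp
  have h1 := finrank_dom hA hr
  have h2 := sl_convex hK p A
  have h3 := sl_compact hKc p hA
  have h4 := sl_int hK hp hA hr
  have h5 := LF_of_compact h3 (h4.mono interior_subset)
  rw [← h1] at h
  interval_cases hV : finrank ℝ V
  · exact Gd_zero hV (h4.mono interior_subset)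
  · exact Gd_line hV h2 h3.isClosed h4 h5
  · exact Gd_plane hV h2 h3.isClosed h4 h5
  · exact Gd_three hV h2 h3 h4

lemma Gs_round {K : Set E} (hK : Convex ℝ K) (hKc : IsCompact K)
    (h : ∀ F : Set E, IsExposed ℝ K F → F ≠ K → F.Subsingleton) : Gs K := by
  intro V _ _ _ A hA hr p hp
  have h2 := sl_convex hK p A
  have h3 := sl_compact hKc p hA
  have h4 := sl_int hK hp hA hr
  have h5 := LF_of_compact h3 (h4.mono interior_subset)
  rcases Nat.eq_zero_or_pos (finrank ℝ V) with hV | hV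
  · rw [hV]
    exact Gd_zero hV (h4.mono interior_subset)
  have : Nontrivial V := Module.nontrivial_of_finrank_pos hV
  obtain ⟨o, ho⟩ := h4
  refine ⟨o, ho, cv_strict h2 h3.isClosed h5 ?_ ho⟩
  intro u x y hu hx hy hmax hyx
  -- a functional on `E`
  obtain ⟨g, hg⟩ := LinearMap.exists_leftInverse_of_injective A (LinearMap.ker_eq_bot.2 hA)
  have hgA : ∀ v, g (A v) = v := fun v => LinearMap.congr_fun hg v
  set l : E →L[ℝ] ℝ := (innerSL ℝ u).comp (LinearMap.toContinuousLinearMap g) with hl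
  have hlA : ∀ v, l (p + A v) = l p + ⟪u, v⟫_ℝ := by
    intro v
    rw [map_add]
    congr 1
    change ⟪u, g (A v)⟫_ℝ = _
    rw [hgA]
  set F : Set E := {z | z ∈ K ∧ ∀ w ∈ K, l w ≤ l z} with hF
  have himg := sl_image hp hr (Subset.refl K)
  have hFx : ∀ z ∈ sl K p A, (∀ w ∈ sl K p A, ⟪u, w⟫_ℝ ≤ ⟪u, z⟫_ℝ) → p + A z ∈ F := by
    intro z hz hzm
    refine ⟨hz, fun w hw => ?_⟩
    rw [← himg] at hw
    obtain ⟨w', hw', rfl⟩ := hw
    change l (p + A w') ≤ _
    rw [hlA, hlA]
    linarith [hzm w' hw']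
  have hsub := h F (fun _ => ⟨l, rfl⟩) (fun hFK => hu ?_)
  · have h6 := hsub (hFx x hx hmax) (hFx y hy (fun w hw => by rw [hyx]; exact hmax w hw))
    exact (hA (add_left_cancel h6)).symm
  · -- constant on the interior
    by_contra hu0
    refine Pool.Agent.N321.NB.not_int_of_max hu0 (fun z hz => ?_) ho
    have h7 : p + A o ∈ F := by
      rw [hFK]
      exact interior_subset (s := sl K p A) ho
    have h8 := h7.2 _ hz
    rw [hlA, hlA] at h8
    linarith

/-- **Facets.** -/
lemma facet_body {K F : Set E} (hK : Convex ℝ K) (hKc : IsCompact K)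
    (hint : (interior K).Nonempty) (hF : IsExposed ℝ K F) (hne : F.Nonempty)
    (hd : finrank ℝ (vectorSpan ℝ F) + 1 = finrank ℝ E) (hG : Gs F) :
    (G (finrank ℝ E + 1) K).Nonempty := by
  obtain ⟨u, hu⟩ := exposed_normal hF hne
  obtain ⟨p, hp⟩ := hne
  have hpK : p ∈ K := by rw [hu] at hp; exact hp.1
  have hmax : ∀ z ∈ K, ⟪u, z⟫_ℝ ≤ ⟪u, p⟫_ℝ := by rw [hu] at hp; exact hp.2
  have hu0 : u ≠ 0 := by
    rintro rfl
    have h1 : F = K := by
      rw [hu]
      ext x
      simp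
    have h2 : vectorSpan ℝ F = ⊤ := by
      rw [h1, ← AffineSubspace.affineSpan_eq_top_iff_vectorSpan_eq_top_of_nonempty ℝ E E ⟨p, hpK⟩,
        ← hK.interior_nonempty_iff_affineSpan_eq_top]
      exact hint
    rw [h2, finrank_top] at hd
    omega
  have hn : 0 < ‖u‖ := norm_pos_iff.2 hu0
  set e : E := -(‖u‖⁻¹ • u) with he
  have he1 : ‖e‖ = 1 := by
    rw [he, norm_neg, norm_smul, norm_inv, norm_norm, inv_mul_cancel₀ hn.ne']
  have he0 : e ≠ 0 := by rintro h; rw [h] at he1; simp at he1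
  have hei : ∀ z, ⟪e, z⟫_ℝ = -(‖u‖⁻¹ * ⟪u, z⟫_ℝ) := by
    intro z
    rw [he, inner_neg_left, real_inner_smul_left]
  have hle : vectorSpan ℝ F ≤ Hp e := by
    intro l hl
    rw [Submodule.mem_orthogonal_singleton_iff_inner_right, hei,
      perp_span (face_const hu hp) l hl, mul_zero, neg_zero]
  have hHp := Hp_finrank he0
  have heq : vectorSpan ℝ F = Hp e := Submodule.eq_of_le_of_finrank_eq hle (by omega)
  have hsl : sl F p (Hp e).subtype = Fc e p K := by
    ext l
    change p + (l : E) ∈ F ↔ p + (l : E) ∈ K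
    constructor
    · intro h
      rw [hu] at h
      exact h.1
    · intro h
      rw [hu]
      refine ⟨h, fun y hy => ?_⟩
      have h1 : ⟪u, (l : E)⟫_ℝ = 0 := by
        have h2 := hei (l : E)
        rw [inner_orth] at h2
        have h3 : ‖u‖⁻¹ * ⟪u, (l : E)⟫_ℝ = 0 := by linarith
        exact (mul_eq_zero.1 h3).resolve_left (inv_ne_zero hn.ne')
      rw [inner_add_right, h1, add_zero]
      exact hmax y hy
  obtain ⟨o, ho⟩ := hG (Hp e) (Hp e).subtype (Submodule.subtype_injective _)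
    (by rw [Submodule.range_subtype, heq]) p hp
  rw [hsl, hHp] at ho
  have h1 := facet_G he1 hK hKc.isClosed (x := p) (fun z hz => by
    rw [hei, inner_sub_right]
    have h2 := hmax z hz
    have h3 : 0 ≤ ‖u‖⁻¹ * (⟪u, p⟫_ℝ - ⟪u, z⟫_ℝ) := mul_nonneg (by positivity) (by linarith)
    linarith) hint ho
  exact closure_nonempty_iff.1 ⟨_, h1⟩

/-- **Two-dimensional faces in dimension four.** -/
lemma plane_body (h4 : finrank ℝ E = 4) {K F : Set E} (hK : Convex ℝ K) (hKc : IsCompact K)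
    (hint : (interior K).Nonempty) (hF : IsExposed ℝ K F)
    (hd : finrank ℝ (vectorSpan ℝ F) = 2) {y : E} (hy : y ∈ F) : y ∈ closure (G 5 K) := by
  obtain ⟨u, hu⟩ := exposed_normal hF ⟨y, hy⟩
  have hyK : y ∈ K := by rw [hu] at hy; exact hy.1
  have hmax : ∀ z ∈ K, ⟪u, z⟫_ℝ ≤ ⟪u, y⟫_ℝ := by rw [hu] at hy; exact hy.2
  have hFv : Convex ℝ F := hF.convex hK
  have hu0 : u ≠ 0 := by
    rintro rfl
    have h1 : F = K := by
      rw [hu]
      ext x
      simp
    have h2 : vectorSpan ℝ F = ⊤ := by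
      rw [h1, ← AffineSubspace.affineSpan_eq_top_iff_vectorSpan_eq_top_of_nonempty ℝ E E ⟨y, hyK⟩,
        ← hK.interior_nonempty_iff_affineSpan_eq_top]
      exact hint
    rw [h2, finrank_top] at hd
    omega
  have huL := perp_span (face_const hu hy)
  have hFK : ∀ x ∈ K, ⟪u, x⟫_ℝ = ⟪u, y⟫_ℝ → x ∈ F := by
    intro x hx h
    rw [hu]
    exact ⟨hx, fun z hz => by rw [h]; exact hmax z hz⟩
  refine near_face_two h4 hK hKc hint hu0 hyK hmax hd huL
    (fun z hz h => vsub_mem_vectorSpan ℝ (hFK z hz h) hy) ?_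
  have h1 := sl_int hFv hy (A := (vectorSpan ℝ F).subtype) (Submodule.subtype_injective _)
    (Submodule.range_subtype _)
  have h2 : sl F y (vectorSpan ℝ F).subtype = {l : vectorSpan ℝ F | y + (l : E) ∈ K} := by
    ext l
    change y + (l : E) ∈ F ↔ y + (l : E) ∈ K
    refine ⟨fun h => hF.subset h, fun h => hFK _ h ?_⟩
    rw [inner_add_right, huL _ l.2, add_zero]
  rwa [h2] at h1

/-- **Three-dimensional faces in dimension four.** -/
lemma solid_body (h4 : finrank ℝ E = 4) {K F : Set E} (hK : Convex ℝ K) (hKc : IsCompact K)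
    (hint : (interior K).Nonempty) (hF : IsExposed ℝ K F)
    (hd : finrank ℝ (vectorSpan ℝ F) = 3) {y : E} (hy : y ∈ F) (hyi : y ∉ intrinsicInterior ℝ F) :
    y ∈ closure (G 5 K) := by
  obtain ⟨u, hu⟩ := exposed_normal hF ⟨y, hy⟩
  have hyK : y ∈ K := by rw [hu] at hy; exact hy.1
  have hmax : ∀ z ∈ K, ⟪u, z⟫_ℝ ≤ ⟪u, y⟫_ℝ := by rw [hu] at hy; exact hy.2
  have hFv : Convex ℝ F := hF.convex hK
  have hu0 : u ≠ 0 := by
    rintro rfl
    have h1 : F = K := by
      rw [hu]
      ext x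
      simp
    have h2 : vectorSpan ℝ F = ⊤ := by
      rw [h1, ← AffineSubspace.affineSpan_eq_top_iff_vectorSpan_eq_top_of_nonempty ℝ E E ⟨y, hyK⟩,
        ← hK.interior_nonempty_iff_affineSpan_eq_top]
      exact hint
    rw [h2, finrank_top] at hd
    omega
  have hn : 0 < ‖u‖ := norm_pos_iff.2 hu0
  set e : E := -(‖u‖⁻¹ • u) with he
  have he1 : ‖e‖ = 1 := by
    rw [he, norm_neg, norm_smul, norm_inv, norm_norm, inv_mul_cancel₀ hn.ne']
  have he0 : e ≠ 0 := by rintro h; rw [h] at he1; simp at he1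
  have hei : ∀ z, ⟪e, z⟫_ℝ = -(‖u‖⁻¹ * ⟪u, z⟫_ℝ) := by
    intro z
    rw [he, inner_neg_left, real_inner_smul_left]
  have hle : vectorSpan ℝ F ≤ Hp e := by
    intro l hl
    rw [Submodule.mem_orthogonal_singleton_iff_inner_right, hei,
      perp_span (face_const hu hy) l hl, mul_zero, neg_zero]
  have hHp := Hp_finrank he0
  have heq : vectorSpan ℝ F = Hp e := Submodule.eq_of_le_of_finrank_eq hle (by omega)
  have hsl : sl F y (Hp e).subtype = Fc e y K := by
    ext l
    change y + (l : E) ∈ F ↔ y + (l : E) ∈ K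
    constructor
    · intro h
      rw [hu] at h
      exact h.1
    · intro h
      rw [hu]
      refine ⟨h, fun z hz => ?_⟩
      have h1 : ⟪u, (l : E)⟫_ℝ = 0 := by
        have h2 := hei (l : E)
        rw [inner_orth] at h2
        have h3 : ‖u‖⁻¹ * ⟪u, (l : E)⟫_ℝ = 0 := by linarith
        exact (mul_eq_zero.1 h3).resolve_left (inv_ne_zero hn.ne')
      rw [inner_add_right, h1, add_zero]
      exact hmax z hz
  refine near_face_three h4 hK hKc hint he1 hyK (fun z hz => ?_) ?_ ?_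
  · rw [hei, inner_sub_right]
    have h2 := hmax z hz
    have h3 : 0 ≤ ‖u‖⁻¹ * (⟪u, y⟫_ℝ - ⟪u, z⟫_ℝ) := mul_nonneg (by positivity) (by linarith)
    linarith
  · rw [← hsl]
    exact sl_int hFv hy (Submodule.subtype_injective _) (by rw [Submodule.range_subtype, heq])
  · intro h0
    rw [← hsl] at h0
    apply hyi
    rw [mem_intrinsicInterior]
    have hya : y ∈ affineSpan ℝ F := subset_affineSpan ℝ F hy
    refine ⟨⟨y, hya⟩, ?_, rfl⟩
    have hmem : ∀ x : affineSpan ℝ F, (x : E) - y ∈ Hp e := by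
      intro x
      rw [← heq, ← direction_affineSpan]
      exact AffineSubspace.vsub_mem_direction x.2 hya
    let ψ : affineSpan ℝ F → Hp e := fun x => ⟨(x : E) - y, hmem x⟩
    have hψ : Continuous ψ := by
      refine Continuous.subtype_mk ?_ _
      fun_prop
    rw [mem_interior]
    refine ⟨ψ ⁻¹' interior (sl F y (Hp e).subtype), fun x hx => ?_, isOpen_interior.preimage hψ, ?_⟩
    · have h5 : y + ((x : E) - y) ∈ F := interior_subset (s := sl F y (Hp e).subtype) hx
      rw [add_sub_cancel] at h5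
      exact h5
    · have h6 : ψ ⟨y, hya⟩ = 0 := Subtype.ext (sub_self y)
      rw [mem_preimage, h6]
      exact h0

lemma Gs_sl {K F : Set E} {p : E} (hp : p ∈ K) {A : V →ₗ[ℝ] E} (hA : Function.Injective A)
    (hr : LinearMap.range A = vectorSpan ℝ K) (hFK : F ⊆ K) (hG : Gs F) : Gs (sl F p A) := by
  intro W _ _ _ B hB hrB q hq
  have h1 := hG W (A.comp B) (by
    rw [LinearMap.coe_comp]
    exact hA.comp hB) (by
    rw [LinearMap.range_comp, hrB, sl_span hp hr hFK]) (p + A q) hq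
  have h2 : sl F (p + A q) (A.comp B) = sl (sl F p A) q B := by
    ext w
    change p + A q + A (B w) ∈ F ↔ p + A (q + B w) ∈ F
    rw [map_add, add_assoc]
  rwa [h2] at h1

lemma Gs_facet {K F : Set E} (hK : Convex ℝ K) (hKc : IsCompact K) (hF : IsExposed ℝ K F)
    (hne : F.Nonempty) (hd : finrank ℝ (vectorSpan ℝ F) + 1 = finrank ℝ (vectorSpan ℝ K))
    (hG : Gs F) : Gs K := by
  intro V _ _ _ A hA hr p hp
  have hFK := hF.subset
  refine facet_body (sl_convex hK p A) (sl_compact hKc p hA) (sl_int hK hp hA hr)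
    (sl_exposed hF hr hp) ?_ ?_ (Gs_sl hp hA hr hFK hG)
  · obtain ⟨x, hx⟩ := hne
    rw [← sl_image hp hr hFK] at hx
    obtain ⟨v, hv, -⟩ := hx
    exact ⟨v, hv⟩
  · rw [sl_finrank hp hA hr hFK, finrank_dom hA hr, hd]

lemma Gs_plane {K F : Set E} (hK : Convex ℝ K) (hKc : IsCompact K)
    (h4 : finrank ℝ (vectorSpan ℝ K) = 4) (hF : IsExposed ℝ K F)
    (hd : finrank ℝ (vectorSpan ℝ F) = 2) : Gs K := by
  intro V _ _ _ A hA hr p hp
  have hFK := hF.subset
  have hne : F.Nonempty := by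
    by_contra hcon
    rw [not_nonempty_iff_eq_empty] at hcon
    rw [hcon, vectorSpan_empty, finrank_bot] at hd
    omega
  obtain ⟨x, hx⟩ := hne
  rw [← sl_image hp hr hFK] at hx
  obtain ⟨v, hv, -⟩ := hx
  have hV : finrank ℝ V = 4 := by rw [finrank_dom hA hr, h4]
  have h1 := plane_body hV (sl_convex hK p A) (sl_compact hKc p hA) (sl_int hK hp hA hr)
    (sl_exposed hF hr hp) (by rw [sl_finrank hp hA hr hFK, hd]) hv
  rw [hV]
  exact closure_nonempty_iff.1 ⟨_, h1⟩

/-- the conclusion for bodies -/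
lemma Gs.body {K : Set E} (hG : Gs K) (hK : Convex ℝ K) (hint : (interior K).Nonempty) :
    (G (finrank ℝ E + 1) K).Nonempty := by
  have hne : K.Nonempty := hint.mono interior_subset
  obtain ⟨p, hp⟩ := hne
  have h2 : vectorSpan ℝ K = ⊤ := by
    rw [← AffineSubspace.affineSpan_eq_top_iff_vectorSpan_eq_top_of_nonempty ℝ E E ⟨p, hp⟩,
      ← hK.interior_nonempty_iff_affineSpan_eq_top]
    exact hint
  obtain ⟨o, ho⟩ := hG E LinearMap.id Function.injective_id (by rw [LinearMap.range_id, h2]) p hp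
  exact ⟨_, G_shift.1 ho⟩

end Pool.Agent.N321.MN
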