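import Pool.Agent.N321.MN.D3
import Pool.Agent.N321.MN.U5

set_option autoImplicit false
set_option linter.unusedSectionVars false

/-!
# Boundary points with a large normal cone in dimension four
-/

namespace Pool.Agent.N321.MN

open scoped InnerProductSpace Topology
open Metric Module Filter Set
open Pool.Agent.H985.Sep (polar)
open Pool.Agent.N321.NB (inner_orth Tc Tc_convex Tc_smul Tc_zero Tc_int)

variable {E : Type} [NormedAddCommGroup E] [InnerProductSpace ℝ E] [FiniteDimensional ℝ E]
variable {V : Type} [NormedAddCommGroup V] [InnerProductSpace ℝ V] [FiniteDimensional ℝ V]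

/-- the normal cone -/
def nc (K : Set E) (y : E) : Set E := {v | ∀ x ∈ K, ⟪v, x - y⟫_ℝ ≤ 0}

lemma nc_ball (K : Set E) (y : E) (hS : 0 < finrank ℝ (Submodule.span ℝ (nc K y))) :
    ∃ v₀ ∈ Submodule.span ℝ (nc K y), v₀ ≠ 0 ∧ ∃ ρ : ℝ, 0 < ρ ∧
      ∀ u ∈ Submodule.span ℝ (nc K y), ‖u‖ ≤ ρ → v₀ + u ∈ nc K y := by
  set S := Submodule.span ℝ (nc K y) with hSd
  have hnt : Nontrivial S := Module.nontrivial_of_finrank_pos (R := ℝ) hS
  set N' : Set S := (fun s : S => (s : E)) ⁻¹' nc K y with hN'
  have hconv : Convex ℝ N' := by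
    intro v hv w hw a b ha hb _ x hx
    have h1 := hv x hx
    have h2 := hw x hx
    change ⟪(a • v + b • w : E), x - y⟫_ℝ ≤ 0
    rw [inner_add_left, real_inner_smul_left, real_inner_smul_left]
    nlinarith [mul_nonneg ha (neg_nonneg.2 h1), mul_nonneg hb (neg_nonneg.2 h2)]
  have h0 : (0 : S) ∈ N' := by
    intro x _
    change ⟪(0 : E), x - y⟫_ℝ ≤ 0
    rw [inner_zero_left]
  have hint : (interior N').Nonempty := by
    rw [hconv.interior_nonempty_iff_affineSpan_eq_top,
      AffineSubspace.affineSpan_eq_top_iff_vectorSpan_eq_top_of_nonempty ℝ S S ⟨0, h0⟩]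
    rw [eq_top_iff, ← Submodule.span_span_coe_preimage (R := ℝ) (s := nc K y), Submodule.span_le]
    intro v hv
    have h1 := vsub_mem_vectorSpan ℝ (s := N') hv h0
    rwa [vsub_eq_sub, sub_zero] at h1
  obtain ⟨w, hw, hw0⟩ := (dense_compl_singleton (0 : S)).inter_open_nonempty _ isOpen_interior hint
  obtain ⟨ρ, hρ, hball⟩ := Metric.nhds_basis_closedBall.mem_iff.1 (isOpen_interior.mem_nhds hw)
  refine ⟨w, w.2, fun h => hw0 (by exact_mod_cast h), ρ, hρ, fun u hu hun => ?_⟩
  have h1 : w + (⟨u, hu⟩ : S) ∈ closedBall w ρ := by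
    rw [mem_closedBall, dist_eq_norm, add_sub_cancel_left]
    exact hun
  have h2 : (w + (⟨u, hu⟩ : S)) ∈ N' := interior_subset (hball h1)
  exact h2

/-- **Large normal cones in dimension four.** -/
theorem normal_four (hd : finrank ℝ E = 4) {K : Set E} (hK : Convex ℝ K) (hKc : IsCompact K)
    (hint : (interior K).Nonempty) {y : E} (hy : y ∈ K)
    (hN : 3 ≤ finrank ℝ (Submodule.span ℝ (nc K y))) : Gd 5 K := by
  set S := Submodule.span ℝ (nc K y) with hS
  have hle : finrank ℝ S ≤ 4 := by
    rw [← hd]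
    exact Submodule.finrank_le S
  rcases (show finrank ℝ S = 3 ∨ finrank ℝ S = 4 by omega) with h3 | h4
  · have hperp : finrank ℝ (Sᗮ : Submodule ℝ E) = 1 := by
      have := Submodule.finrank_add_finrank_orthogonal S
      omega
    have hnt : Nontrivial (Sᗮ : Submodule ℝ E) :=
      Module.nontrivial_of_finrank_pos (R := ℝ) (by omega)
    obtain ⟨a', ha'⟩ := exists_ne (0 : (Sᗮ : Submodule ℝ E))
    have ha'' : (a' : E) ≠ 0 := fun h => ha' (by exact_mod_cast h)
    have hna : 0 < ‖(a' : E)‖ := norm_pos_iff.2 ha''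
    set a : E := ‖(a' : E)‖⁻¹ • (a' : E) with ha
    have ha1 : ‖a‖ = 1 := by
      rw [ha, norm_smul, norm_inv, norm_norm, inv_mul_cancel₀ hna.ne']
    have haS : a ∈ (Sᗮ : Submodule ℝ E) := Submodule.smul_mem _ _ a'.2
    have haa : ⟪a, a⟫_ℝ = 1 := by rw [real_inner_self_eq_norm_sq, ha1, one_pow]
    have ha0 : a ≠ 0 := by rintro h; rw [h] at ha1; simp at ha1
    have hperp1 : finrank ℝ (Submodule.span ℝ {a} : Submodule ℝ E) = 1 := finrank_span_singleton ha0
    have hspan : (Submodule.span ℝ {a} : Submodule ℝ E) = Sᗮ :=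
      Submodule.eq_of_le_of_finrank_eq
        (Submodule.span_le.2 (Set.singleton_subset_iff.2 haS)) (by rw [hperp1, hperp])
    have hSa : ∀ z : E, ⟪a, z⟫_ℝ = 0 → z ∈ S := by
      intro z hz
      rw [← Submodule.orthogonal_orthogonal S, ← hspan, Submodule.mem_orthogonal_singleton_iff_inner_right]
      exact hz
    obtain ⟨v₀, hv₀S, hv₀, ρ, hρ, hball⟩ := nc_ball K y (by rw [← hS]; omega)
    rw [← hS] at hball hv₀S
    have hnv : 0 < ‖v₀‖ := norm_pos_iff.2 hv₀
    set e : E := -(‖v₀‖⁻¹ • v₀) with he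
    have he1 : ‖e‖ = 1 := by
      rw [he, norm_neg, norm_smul, norm_inv, norm_norm, inv_mul_cancel₀ hnv.ne']
    have hei : ∀ z, ⟪e, z⟫_ℝ = -(‖v₀‖⁻¹ * ⟪v₀, z⟫_ℝ) := by
      intro z
      rw [he, inner_neg_left, real_inner_smul_left]
    have haS' : ∀ z ∈ S, ⟪a, z⟫_ℝ = 0 := fun z hz => by
      rw [real_inner_comm]
      exact (Submodule.mem_orthogonal S a).1 haS z hz
    have hae : ⟪a, e⟫_ℝ = 0 := haS' e (S.neg_mem (S.smul_mem _ hv₀S))
    refine smooth_dir hd hK hKc hint hy ha1 he1 hae (c := ρ / ‖v₀‖) (by positivity) ?_ ?_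
    · intro x hx
      set d := x - y with hdd
      set d' := d - ⟪a, d⟫_ℝ • a with hd'
      have hd'S : d' ∈ S := hSa _ (by
        rw [hd', inner_sub_right, real_inner_smul_right, haa, mul_one, sub_self])
      have hinner : ∀ u ∈ S, ⟪u, d⟫_ℝ = ⟪u, d'⟫_ℝ := by
        intro u hu
        rw [hd', inner_sub_right (x := u) (y := d), real_inner_smul_right, real_inner_comm a u,
          haS' u hu, mul_zero, sub_zero]
      rcases eq_or_ne d' 0 with h0 | h0
      · rw [h0, norm_zero, mul_zero, hei, hinner v₀ hv₀S, h0, inner_zero_right, mul_zero, neg_zero]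
      · have hdn : 0 < ‖d'‖ := norm_pos_iff.2 h0
        have h1 := hball ((ρ / ‖d'‖) • d') (S.smul_mem _ hd'S) (by
          rw [norm_smul, Real.norm_of_nonneg (by positivity), div_mul_cancel₀ _ hdn.ne'])
        have h2 : ⟪v₀ + (ρ / ‖d'‖) • d', d⟫_ℝ ≤ 0 := h1 x hx
        rw [inner_add_left, real_inner_smul_left, hinner d' hd'S,
          real_inner_self_eq_norm_sq] at h2
        have h3 : ρ / ‖d'‖ * ‖d'‖ ^ 2 = ρ * ‖d'‖ := by
          field_simp
        rw [h3] at h2
        rw [hei]
        have h4 : ρ / ‖v₀‖ * ‖d'‖ = ‖v₀‖⁻¹ * (ρ * ‖d'‖) := by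
          field_simp
        rw [h4, ← mul_neg]
        exact mul_le_mul_of_nonneg_left (by linarith) (by positivity)
    · intro v hv
      rw [real_inner_comm]
      exact haS' v (Submodule.subset_span hv)
  · have htop : S = ⊤ := Submodule.eq_top_of_finrank_eq (by rw [h4, hd])
    refine Gd_vertex_four hd hK hint hy fun d h1 h2 => ?_
    have hT : ∀ z ∈ Tc K y, ∀ v ∈ nc K y, ⟪v, z⟫_ℝ ≤ 0 := by
      intro z hz v hv
      refine closure_minimal (t := {z | ⟪v, z⟫_ℝ ≤ 0}) ?_
        (isClosed_le (by fun_prop) (by fun_prop)) hz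
      rintro z ⟨s, hs, hz⟩
      have h1 := hv _ hz
      rw [add_sub_cancel_left, real_inner_smul_right] at h1
      by_contra hcon
      have := mul_pos hs (not_le.1 hcon)
      linarith
    have hz : ∀ v ∈ S, ⟪v, d⟫_ℝ = 0 := by
      intro v hv
      rw [hS] at hv
      induction hv using Submodule.span_induction with
      | mem x hx =>
        have h3 := hT d h1 x hx
        have h4 := hT _ h2 x hx
        rw [inner_neg_right] at h4
        linarith
      | zero => exact inner_zero_left _
      | add x y _ _ hx hy => rw [inner_add_left, hx, hy, add_zero]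
      | smul s x _ hx => rw [real_inner_smul_left, hx, mul_zero]
    exact inner_self_eq_zero.1 (hz d (by rw [htop]; exact Submodule.mem_top))

lemma Gs_corner {K : Set E} (hK : Convex ℝ K) (hKc : IsCompact K)
    (h4 : finrank ℝ (vectorSpan ℝ K) = 4) {y : E} (hy : y ∈ K)
    (hN : finrank ℝ E ≤ finrank ℝ (Submodule.span ℝ (nc K y)) + 1) : Gs K := by
  intro V _ _ _ A hA hr p hp
  have hV : finrank ℝ V = 4 := by rw [finrank_dom hA hr, h4]
  have himg := sl_image hp hr (Subset.refl K)
  have hy' := hy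
  rw [← himg] at hy'
  obtain ⟨v, hv, hvy⟩ := hy'
  change p + A v = y at hvy
  have h1 : 3 ≤ finrank ℝ (Submodule.span ℝ (nc (sl K p A) v)) := by
    have h2 : (Submodule.span ℝ (nc K y)).map (LinearMap.adjoint A) ≤
        Submodule.span ℝ (nc (sl K p A) v) := by
      rw [Submodule.map_span, Submodule.span_le]
      rintro _ ⟨n, hn, rfl⟩
      refine Submodule.subset_span fun x hx => ?_
      rw [LinearMap.adjoint_inner_left, map_sub]
      have h3 := hn _ hx
      rw [← hvy, add_sub_add_left_eq_sub] at h3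
      exact h3
    have h3 := Submodule.finrank_mono h2
    have h4' : finrank ℝ (LinearMap.ker (LinearMap.adjoint A)) + 4 = finrank ℝ E := by
      have h5 := LinearMap.finrank_range_add_finrank_ker (LinearMap.adjoint A)
      have h6 : LinearMap.range (LinearMap.adjoint A) = ⊤ := by
        rw [← Submodule.orthogonal_eq_bot_iff, LinearMap.orthogonal_range,
          LinearMap.adjoint_adjoint]
        exact LinearMap.ker_eq_bot.2 hA
      rw [h6, finrank_top, hV] at h5
      omega
    have h7 : finrank ℝ (Submodule.span ℝ (nc K y)) ≤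
        finrank ℝ ((Submodule.span ℝ (nc K y)).map (LinearMap.adjoint A)) +
          finrank ℝ (LinearMap.ker (LinearMap.adjoint A)) := by
      set S := Submodule.span ℝ (nc K y) with hS
      set f := (LinearMap.adjoint A).domRestrict S with hf
      have h8 := LinearMap.finrank_range_add_finrank_ker f
      have h9 : LinearMap.range f = S.map (LinearMap.adjoint A) := by
        rw [hf, LinearMap.range_domRestrict]
      have h10 : finrank ℝ (LinearMap.ker f) ≤ finrank ℝ (LinearMap.ker (LinearMap.adjoint A)) := by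
        have h11 : Function.Injective ((S.subtype.comp (LinearMap.ker f).subtype)) :=
          (Submodule.subtype_injective _).comp (Submodule.subtype_injective _)
        have h12 : LinearMap.range (S.subtype.comp (LinearMap.ker f).subtype) ≤
            LinearMap.ker (LinearMap.adjoint A) := by
          rintro _ ⟨w, rfl⟩
          exact w.2
        rw [← LinearMap.finrank_range_of_inj h11]
        exact Submodule.finrank_mono h12
      rw [h9] at h8
      omega
    omega
  obtain ⟨o, ho⟩ := normal_four hV (sl_convex hK p A) (sl_compact hKc p hA) (sl_int hK hp hA hr)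
    hv h1
  rw [hV]
  exact ⟨o, ho⟩

end Pool.Agent.N321.MN
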