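import Pool.Agent.N321.MN.G

set_option autoImplicit false
set_option linter.unusedSectionVars false

/-!
# The limit set of a zoom at a segment
-/

namespace Pool.Agent.N321.MN

open scoped InnerProductSpace Topology
open Metric Module Filter Set
open Pool.Agent.H985.Sep (polar)
open Pool.Agent.N321.NB (inner_orth Tc Pn)

/-- the space -/
abbrev E3 : Type := EuclideanSpace ℝ (Fin 3)

/-- a point -/
noncomputable def pt (x y z : ℝ) : E3 := !₂[x, y, z]

@[simp] lemma pt0 (x y z : ℝ) : (pt x y z) 0 = x := by simp [pt]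
@[simp] lemma pt1 (x y z : ℝ) : (pt x y z) 1 = y := by simp [pt]
@[simp] lemma pt2 (x y z : ℝ) : (pt x y z) 2 = z := by simp [pt]

lemma inner3 (u v : E3) : ⟪u, v⟫_ℝ = u 0 * v 0 + u 1 * v 1 + u 2 * v 2 := by
  rw [PiLp.inner_apply, Fin.sum_univ_three]
  simp only [RCLike.inner_apply, conj_trivial]
  ring

lemma ext3 {u v : E3} (h0 : u 0 = v 0) (h1 : u 1 = v 1) (h2 : u 2 = v 2) : u = v := by
  ext i
  fin_cases i
  · exact h0
  · exact h1
  · exact h2

@[simp] lemma add3 (u v : E3) (i : Fin 3) : (u + v) i = u i + v i := rfl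
@[simp] lemma sub3 (u v : E3) (i : Fin 3) : (u - v) i = u i - v i := rfl
@[simp] lemma smul3 (a : ℝ) (v : E3) (i : Fin 3) : (a • v) i = a * v i := rfl
@[simp] lemma neg3 (v : E3) (i : Fin 3) : (-v) i = -(v i) := rfl
@[simp] lemma zero3 (i : Fin 3) : (0 : E3) i = 0 := rfl

lemma cont3 (i : Fin 3) : Continuous fun p : E3 => p i := by fun_prop

lemma finrank3 : finrank ℝ E3 = 3 := by simp

lemma norm3_sq (v : E3) : ‖v‖ ^ 2 = v 0 ^ 2 + v 1 ^ 2 + v 2 ^ 2 := by
  rw [← real_inner_self_eq_norm_sq, inner3]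
  ring

lemma norm3_le (v : E3) : ‖v‖ ≤ |v 0| + |v 1| + |v 2| := by
  have h := norm3_sq v
  have h0 := abs_nonneg (v 0)
  have h1 := abs_nonneg (v 1)
  have h2 := abs_nonneg (v 2)
  refine le_of_sq_le_sq ?_ (by positivity) |> fun h => h
  rw [h, ← sq_abs (v 0), ← sq_abs (v 1), ← sq_abs (v 2)]
  nlinarith [mul_nonneg h0 h1, mul_nonneg h0 h2, mul_nonneg h1 h2]

lemma pt_ne {x y z x' y' z' : ℝ} (h : x ≠ x' ∨ y ≠ y' ∨ z ≠ z') : pt x y z ≠ pt x' y' z' := by
  intro he
  have h0 := congrArg (fun p : E3 => p 0) he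
  have h1 := congrArg (fun p : E3 => p 1) he
  have h2 := congrArg (fun p : E3 => p 2) he
  simp only [pt0, pt1, pt2] at h0 h1 h2
  rcases h with h | h | h <;> contradiction

/-- the structure of the limit set -/
structure PP (C : Set E3) (L : ℝ) : Prop where
  cvx : Convex ℝ C
  cl : IsClosed C
  Lpos : 0 < L
  bx : ∀ p ∈ C, |p 0| ≤ L
  bz : ∀ p ∈ C, 0 ≤ p 2
  mp : pt L 0 0 ∈ C
  mn : pt (-L) 0 0 ∈ C
  mz : ∀ Z : ℝ, 0 ≤ Z → pt 0 0 Z ∈ C
  int : (interior C).Nonempty
  nb : ¬ (pt 0 1 0 ∈ Rc C ∧ pt 0 (-1) 0 ∈ Rc C)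

variable {C : Set E3} {L : ℝ}

lemma PP.rc0 (h : PP C L) {d : E3} (hd : d ∈ Rc C) : d 0 = 0 := by
  have h1 := h.bx _ (hd _ h.mp 1 zero_le_one)
  have h2 := h.bx _ (hd _ h.mn 1 zero_le_one)
  simp only [add3, smul3, pt0, one_mul, abs_le] at h1 h2
  linarith [h1.2, h2.1]

lemma PP.rc2 (h : PP C L) {d : E3} (hd : d ∈ Rc C) : 0 ≤ d 2 := by
  have h1 := h.bz _ (hd _ h.mp 1 zero_le_one)
  simpa using h1

lemma PP.lf (h : PP C L) : LF C := by
  intro d h1 h2
  have h3 := h.rc0 h1
  have h4 := h.rc2 h1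
  have h5 := h.rc2 h2
  rw [neg3] at h5
  have h6 : d 2 = 0 := by linarith
  by_contra hd
  have h7 : d 1 ≠ 0 := by
    intro h7
    exact hd (ext3 (by simpa using h3) (by simpa using h7) (by simpa using h6))
  have hpos : 0 < |d 1| := abs_pos.2 h7
  have h8 : ∀ s : ℝ, |s| * |d 1| = 1 → pt 0 (s * d 1) 0 ∈ Rc C := by
    intro s _
    rcases le_total 0 s with hs | hs
    · convert Rc_smul h1 hs using 1
      exact ext3 (by simp [h3]) (by simp) (by simp [h6])
    · convert Rc_smul h2 (neg_nonneg.2 hs) using 1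
      exact ext3 (by simp [h3]) (by simp) (by simp [h6])
  refine h.nb ⟨?_, ?_⟩
  · have := h8 (d 1)⁻¹ (by rw [abs_inv, inv_mul_cancel₀ hpos.ne'])
    rwa [inv_mul_cancel₀ h7] at this
  · have := h8 (-(d 1)⁻¹) (by rw [abs_neg, abs_inv, inv_mul_cancel₀ hpos.ne'])
    rwa [neg_mul, inv_mul_cancel₀ h7] at this

lemma PP.gR (h : PP C L) : pt 0 0 1 ∈ Rc C := by
  refine Rc_of_ray h.cvx h.cl (y := pt 0 0 0) fun t ht => ?_
  convert h.mz t ht using 1
  exact ext3 (by simp) (by simp) (by simp)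

lemma PP.strip (h : PP C L) {s ζ : ℝ} (hs : |s| ≤ L) (hζ : 0 ≤ ζ) : pt s 0 ζ ∈ C := by
  have hL := h.Lpos
  rw [abs_le] at hs
  have h1 := h.cvx h.mp h.mn (a := (L + s) / (2 * L)) (b := (L - s) / (2 * L))
    (div_nonneg (by linarith) (by linarith)) (div_nonneg (by linarith) (by linarith))
    (by field_simp; ring)
  have h2 := h.gR _ h1 ζ hζ
  convert h2 using 1
  refine ext3 ?_ (by simp) (by simp)
  simp only [add3, smul3, pt0]
  field_simp
  ring

/-- the final situation -/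
structure Fi (C : Set E3) (L : ℝ) : Prop extends PP C L where
  vp : ∀ v : E3, (∀ x ∈ C, ⟪v, x⟫_ℝ ≤ ⟪v, pt L 0 0⟫_ℝ) → v 1 = 0
  vn : ∀ v : E3, (∀ x ∈ C, ⟪v, x⟫_ℝ ≤ ⟪v, pt (-L) 0 0⟫_ℝ) → v 1 = 0
  bp : ∀ p ∈ C, p 0 = L → p 1 = 0
  bnn : ∀ p ∈ C, p 0 = -L → p 1 = 0
  zz : ∀ p ∈ C, p 2 = 0 → p 1 = 0
  gi : pt 0 0 1 ∈ interior C
  c2 : ∀ v ∈ polar C (pt 0 0 1), v 2 = 0 → v 1 = 0

lemma Tc_normal {y v d : E3} (hv : ∀ x ∈ C, ⟪v, x⟫_ℝ ≤ ⟪v, y⟫_ℝ) (hd : d ∈ Tc C y) :
    ⟪v, d⟫_ℝ ≤ 0 := by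
  have hcl : IsClosed {d : E3 | ⟪v, d⟫_ℝ ≤ 0} := isClosed_le (by fun_prop) continuous_const
  refine closure_minimal ?_ hcl hd
  rintro d ⟨s, hs, hsd⟩
  have h1 := hv _ hsd
  rw [inner_add_right, real_inner_smul_right] at h1
  have h2 : s * ⟪v, d⟫_ℝ ≤ 0 := by linarith
  by_contra hcon
  have h3 : 0 < ⟪v, d⟫_ℝ := not_le.1 hcon
  have := mul_pos hs h3
  linarith

lemma PP.fi (h : PP C L) (hG : ¬ Gd 4 C) : Fi C L := by
  have hL := h.Lpos
  have hFl : ¬ Fl C := fun hF => hG (Gd_face finrank3 h.cvx h.cl h.int h.lf hF)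
  have hg1 : ‖pt 0 0 1‖ = 1 := by
    have := norm3_sq (pt 0 0 1)
    simp only [pt0, pt1, pt2] at this
    have h2 := norm_nonneg (pt 0 0 1)
    nlinarith
  -- the vertices
  have hvert : ∀ y ∈ C, (∀ x ∈ C, 0 ≤ x 2 - y 2) → ∀ σ : ℝ, σ ≠ 0 →
      (∀ x ∈ C, σ * (x 0 - y 0) ≤ 0) →
      ∀ v : E3, (∀ x ∈ C, ⟪v, x⟫_ℝ ≤ ⟪v, y⟫_ℝ) → v 1 = 0 := by
    intro y hy hy2 σ hσ hy0 v hv
    have hnl : ¬ ∀ d : E3, d ∈ Tc C y → -d ∈ Tc C y → d = 0 :=
      fun hl => hG (Gd_vertex finrank3 h.cvx h.int hy hl)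
    push Not at hnl
    obtain ⟨d, hd1, hd2, hd0⟩ := hnl
    have hT2 : ∀ d ∈ Tc C y, 0 ≤ d 2 := by
      intro d hd
      have := Tc_normal (v := pt 0 0 (-1)) (y := y) (fun x hx => by
        have := hy2 x hx
        rw [inner3, inner3]
        simp only [pt0, pt1, pt2]
        linarith) hd
      rw [inner3] at this
      simp only [pt0, pt1, pt2] at this
      linarith
    have hT0 : ∀ d ∈ Tc C y, σ * d 0 ≤ 0 := by
      intro d hd
      have := Tc_normal (v := pt σ 0 0) (y := y) (fun x hx => by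
        have := hy0 x hx
        rw [inner3, inner3]
        simp only [pt0, pt1, pt2]
        linarith) hd
      rw [inner3] at this
      simp only [pt0, pt1, pt2] at this
      linarith
    have h1 : d 2 = 0 := by
      have h2 := hT2 d hd1
      have h3 := hT2 _ hd2
      rw [neg3] at h3
      linarith
    have h2 : d 0 = 0 := by
      have h2 := hT0 d hd1
      have h3 := hT0 _ hd2
      rw [neg3] at h3
      have h4 : σ * d 0 = 0 := by linarith
      exact (mul_eq_zero.1 h4).resolve_left hσ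
    have h3 : d 1 ≠ 0 := by
      intro h3
      exact hd0 (ext3 (by simpa using h2) (by simpa using h3) (by simpa using h1))
    have h4 := Tc_normal hv hd1
    have h5 := Tc_normal hv hd2
    rw [inner_neg_right] at h5
    have h6 : ⟪v, d⟫_ℝ = 0 := by linarith
    rw [inner3, h1, h2] at h6
    simp only [mul_zero, zero_add, add_zero] at h6
    exact (mul_eq_zero.1 h6).resolve_right h3
  refine { h with vp := ?_, vn := ?_, bp := ?_, bnn := ?_, zz := ?_, gi := ?_, c2 := ?_ }
  · refine hvert _ h.mp (fun x hx => by simpa using h.bz x hx) 1 one_ne_zero fun x hx => ?_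
    have := (abs_le.1 (h.bx x hx)).2
    simp only [pt0]
    linarith
  · refine hvert _ h.mn (fun x hx => by simpa using h.bz x hx) (-1) (by norm_num) fun x hx => ?_
    have := (abs_le.1 (h.bx x hx)).1
    simp only [pt0]
    linarith
  · intro p hp hp0
    by_contra hp1
    refine hFl ⟨pt 1 0 0, pt L 0 0, pt L 0 1, p, ?_, h.mp, h.strip (by rw [abs_of_pos hL])
      zero_le_one, hp, fun q hq => ?_, ?_, ?_, pt_ne (by simp), fun s hs => ?_⟩
    · intro h0
      have := congrArg (fun p : E3 => p 0) h0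
      simp at this
    · have := (abs_le.1 (h.bx q hq)).2
      rw [inner3, inner3]
      simp only [pt0, pt1, pt2]
      linarith
    · rw [inner3, inner3]
      simp
    · rw [inner3, inner3]
      simp [hp0]
    · have := congrArg (fun p : E3 => p 1) hs
      simp only [sub3, smul3, pt1] at this
      apply hp1
      linarith
  · intro p hp hp0
    by_contra hp1
    refine hFl ⟨pt (-1) 0 0, pt (-L) 0 0, pt (-L) 0 1, p, ?_, h.mn, h.strip (by
      rw [abs_neg, abs_of_pos hL]) zero_le_one, hp, fun q hq => ?_, ?_, ?_, pt_ne (by simp),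
      fun s hs => ?_⟩
    · intro h0
      have := congrArg (fun p : E3 => p 0) h0
      simp at this
    · have := (abs_le.1 (h.bx q hq)).1
      rw [inner3, inner3]
      simp only [pt0, pt1, pt2]
      linarith
    · rw [inner3, inner3]
      simp
    · rw [inner3, inner3]
      simp [hp0]
    · have := congrArg (fun p : E3 => p 1) hs
      simp only [sub3, smul3, pt1] at this
      apply hp1
      linarith
  · intro p hp hp2
    by_contra hp1
    refine hFl ⟨pt 0 0 (-1), pt L 0 0, pt (-L) 0 0, p, ?_, h.mp, h.mn, hp, fun q hq => ?_, ?_, ?_,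
      pt_ne (by left; intro hh; linarith), fun s hs => ?_⟩
    · intro h0
      have := congrArg (fun p : E3 => p 2) h0
      simp at this
    · have := h.bz q hq
      rw [inner3, inner3]
      simp only [pt0, pt1, pt2]
      linarith
    · rw [inner3, inner3]
      simp
    · rw [inner3, inner3]
      simp [hp2]
    · have := congrArg (fun p : E3 => p 1) hs
      simp only [sub3, smul3, pt1] at this
      apply hp1
      linarith
  · by_contra hgi
    obtain ⟨f, hf⟩ := geometric_hahn_banach_open_point h.cvx.interior isOpen_interior hgi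
    set v : E3 := (InnerProductSpace.toDual ℝ E3).symm f with hv
    have hvf : ∀ x, ⟪v, x⟫_ℝ = f x := fun x => InnerProductSpace.toDual_symm_apply
    have hv0 : v ≠ 0 := by
      intro h0
      obtain ⟨p, hp⟩ := h.int
      have := hf p hp
      rw [← hvf, ← hvf, h0, inner_zero_left, inner_zero_left] at this
      exact lt_irrefl _ this
    have hle : ∀ x ∈ C, ⟪v, x⟫_ℝ ≤ ⟪v, pt 0 0 1⟫_ℝ := by
      intro x hx
      have hxc : x ∈ closure (interior C) := by
        rw [h.cvx.closure_interior_eq_closure_of_nonempty_interior h.int]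
        exact subset_closure hx
      refine closure_minimal (t := {x | ⟪v, x⟫_ℝ ≤ ⟪v, pt 0 0 1⟫_ℝ}) (fun z hz => ?_)
        (isClosed_le (by fun_prop) continuous_const) hxc
      have := hf z hz
      rw [← hvf, ← hvf] at this
      exact this.le
    have hs : ∀ s ζ : ℝ, |s| ≤ L → 0 ≤ ζ → v 0 * s + v 2 * ζ ≤ v 2 := by
      intro s ζ h1 h2
      have h3 := hle _ (h.strip h1 h2)
      rw [inner3, inner3] at h3
      simp only [pt0, pt1, pt2] at h3
      linarith
    have h1 := hs L 1 (by rw [abs_of_pos hL]) zero_le_one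
    have h2 := hs (-L) 1 (by rw [abs_neg, abs_of_pos hL]) zero_le_one
    have h3 := hs 0 0 (by simpa using hL.le) le_rfl
    have h4 := hs 0 2 (by simpa using hL.le) (by norm_num)
    have h5 : v 2 = 0 := by linarith
    have h6 : v 0 = 0 := by
      have : v 0 * L = 0 := by linarith
      exact (mul_eq_zero.1 this).resolve_right hL.ne'
    refine hFl ⟨v, pt L 0 0, pt (-L) 0 0, pt L 0 1, hv0, h.mp, h.mn,
      h.strip (by rw [abs_of_pos hL]) zero_le_one, fun q hq => ?_, ?_, ?_,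
      pt_ne (by left; intro hh; linarith), fun s hs => ?_⟩
    · have := hle q hq
      rw [inner3 v (pt 0 0 1)] at this
      rw [inner3 v (pt L 0 0)]
      simp only [pt0, pt1, pt2, h5, h6] at this ⊢
      linarith
    · rw [inner3, inner3]
      simp [h6]
    · rw [inner3, inner3]
      simp [h5]
    · have := congrArg (fun p : E3 => p 2) hs
      simp at this
  · intro v hv hv2
    have hnl : ¬ LF (closure (prj (pt 0 0 1) '' C)) := fun hl =>
      hG (Gd_up finrank3 h.cvx h.cl h.int h.lf hg1 h.gR hl)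
    unfold LF at hnl
    push Not at hnl
    obtain ⟨d, hd1, hd2, hd0⟩ := hnl
    set D := closure (prj (pt 0 0 1) '' C) with hD
    have hpc : ∀ x : E3, ((prj (pt 0 0 1) x : Hp (pt 0 0 1)) : E3) = pt (x 0) (x 1) 0 := by
      intro x
      rw [prj_coe hg1, inner3]
      exact ext3 (by simp) (by simp) (by simp)
    have hm : prj (pt 0 0 1) (pt 0 0 0) ∈ D :=
      subset_closure ⟨_, h.mz 0 le_rfl, rfl⟩
    have h1 : ∀ l ∈ D, |(l : E3) 0| ≤ L := by
      intro l hl
      refine closure_minimal (t := {l : Hp (pt 0 0 1) | |(l : E3) 0| ≤ L}) ?_ ?_ hl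
      · rintro _ ⟨x, hx, rfl⟩
        change |((prj (pt 0 0 1) x : Hp (pt 0 0 1)) : E3) 0| ≤ L
        rw [hpc, pt0]
        exact h.bx x hx
      · exact isClosed_le ((cont3 0).comp continuous_subtype_val).abs continuous_const
    have h2 : ∀ l ∈ D, ⟪v, (l : E3)⟫_ℝ ≤ 1 := by
      intro l hl
      refine closure_minimal (t := {l : Hp (pt 0 0 1) | ⟪v, (l : E3)⟫_ℝ ≤ 1}) ?_ ?_ hl
      · rintro _ ⟨x, hx, rfl⟩
        change ⟪v, ((prj (pt 0 0 1) x : Hp (pt 0 0 1)) : E3)⟫_ℝ ≤ 1
        have h3 := hv x hx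
        rw [inner3] at h3
        rw [hpc, inner3]
        simp only [pt0, pt1, pt2, sub3, hv2] at h3 ⊢
        linarith
      · exact isClosed_le (by fun_prop) continuous_const
    -- the direction
    have hk : ∀ d : Hp (pt 0 0 1), d ∈ Rc D → (∀ t : ℝ, 0 ≤ t → |t * (d : E3) 0| ≤ L) ∧
        ∀ t : ℝ, 0 ≤ t → t * ⟪v, (d : E3)⟫_ℝ ≤ 1 := by
      intro d hd
      refine ⟨fun t ht => ?_, fun t ht => ?_⟩
      · have h3 := h1 _ (hd _ hm t ht)
        rw [Submodule.coe_add, Submodule.coe_smul, hpc, add3, smul3, pt0, pt0, zero_add] at h3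
        exact h3
      · have h3 := h2 _ (hd _ hm t ht)
        rw [Submodule.coe_add, Submodule.coe_smul, hpc, inner_add_right,
          real_inner_smul_right] at h3
        have h4 : ⟪v, pt ((pt 0 0 0) 0) ((pt 0 0 0) 1) 0⟫_ℝ = 0 := by
          rw [inner3]; simp
        linarith
    have hd00 : (d : E3) 0 = 0 := by
      by_contra hne
      have h3 := (hk d hd1).1 ((L + 1) / |(d : E3) 0|) (by positivity)
      rw [abs_mul, abs_of_pos (by positivity : 0 < (L + 1) / |(d : E3) 0|),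
        div_mul_cancel₀ _ (abs_pos.2 hne).ne'] at h3
      linarith
    have hd02 : (d : E3) 2 = 0 := by
      have h3 : ⟪pt 0 0 1, (d : E3)⟫_ℝ = 0 := inner_orth d
      rw [inner3] at h3
      simpa using h3
    have hd01 : (d : E3) 1 ≠ 0 := by
      intro h3
      apply hd0
      apply Subtype.ext
      exact ext3 (by simpa using hd00) (by simpa using h3) (by simpa using hd02)
    have hle : ∀ d : Hp (pt 0 0 1), d ∈ Rc D → ⟪v, (d : E3)⟫_ℝ ≤ 0 := by
      intro d hd
      by_contra hcon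
      push Not at hcon
      have h3 := (hk d hd).2 (2 / ⟪v, (d : E3)⟫_ℝ) (by positivity)
      rw [div_mul_cancel₀ _ hcon.ne'] at h3
      norm_num at h3
    have h3 := hle d hd1
    have h4 := hle (-d) hd2
    rw [Submodule.coe_neg, inner_neg_right] at h4
    have h5 : ⟪v, (d : E3)⟫_ℝ = 0 := by linarith
    rw [inner3, hd00, hd02] at h5
    simp only [mul_zero, zero_add, add_zero] at h5
    exact (mul_eq_zero.1 h5).resolve_right hd01

end Pool.Agent.N321.MN
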