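import Pool.Agent.N321.MN.D

set_option autoImplicit false
set_option linter.unusedSectionVars false

/-!
# Dimensions one and two, and two-dimensional faces in dimension three
-/

namespace Pool.Agent.N321.MN

open scoped InnerProductSpace Topology
open Metric Module Filter Set
open Pool.Agent.H985.Sep (polar)
open Pool.Agent.N321.NB (inner_orth)

variable {E : Type} [NormedAddCommGroup E] [InnerProductSpace ℝ E] [FiniteDimensional ℝ E]

lemma int_of_span {F : Set E} (hF : Convex ℝ F) (h0 : (0 : E) ∈ F)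
    (hs : Submodule.span ℝ F = ⊤) : (interior F).Nonempty := by
  rw [hF.interior_nonempty_iff_affineSpan_eq_top,
    AffineSubspace.affineSpan_eq_top_iff_vectorSpan_eq_top_of_nonempty ℝ E E ⟨0, h0⟩]
  rw [eq_top_iff, ← hs, Submodule.span_le]
  intro x hx
  have := vsub_mem_vectorSpan ℝ hx h0
  simpa using this

lemma Hp_finrank {e : E} (he : e ≠ 0) : finrank ℝ (Hp e) + 1 = finrank ℝ E := by
  have h2 := Submodule.finrank_add_finrank_orthogonal (Submodule.span ℝ {e})
  rw [finrank_span_singleton he] at h2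
  change finrank ℝ (Submodule.span ℝ {e})ᗮ + 1 = _
  omega

/-- the face in its own hyperplane -/
def Fc (e x : E) (C : Set E) : Set (Hp e) := {l | x + (l : E) ∈ C}

lemma Fc_convex {e x : E} {C : Set E} (hC : Convex ℝ C) : Convex ℝ (Fc e x C) := by
  intro l hl m hm a b ha hb hab
  have h := hC hl hm ha hb hab
  have h2 : x + ((a • l + b • m : Hp e) : E) = a • (x + (l : E)) + b • (x + (m : E)) := by
    rw [smul_add, smul_add, Submodule.coe_add, Submodule.coe_smul, Submodule.coe_smul]
    have : a • x + b • x = x := by rw [← add_smul, hab, one_smul]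
    nth_rewrite 1 [← this]
    abel
  change x + ((a • l + b • m : Hp e) : E) ∈ C
  rwa [h2]

lemma Fc_closed {e x : E} {C : Set E} (hC : IsClosed C) : IsClosed (Fc e x C) :=
  hC.preimage (by fun_prop : Continuous fun l : Hp e => x + (l : E))

lemma Fc_rc {e x : E} {C : Set E} (hC : Convex ℝ C) (hcl : IsClosed C) (hx : x ∈ C) {d : Hp e}
    (hd : d ∈ Rc (Fc e x C)) : (d : E) ∈ Rc C := by
  refine Rc_of_ray hC hcl (y := x) fun t ht => ?_
  have h1 := hd 0 (by change x + ((0 : Hp e) : E) ∈ C; simpa using hx) t ht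
  change x + ((0 + t • d : Hp e) : E) ∈ C at h1
  rwa [zero_add, Submodule.coe_smul] at h1

lemma Fc_lf {e x : E} {C : Set E} (hC : Convex ℝ C) (hcl : IsClosed C) (hx : x ∈ C)
    (hl : LF C) : LF (Fc e x C) := by
  intro d h1 h2
  have h3 := hl _ (Fc_rc hC hcl hx h1) (Fc_rc hC hcl hx h2)
  exact_mod_cast h3

/-- **Good points from a facet.** -/
theorem facet_Gd {e : E} (he : ‖e‖ = 1) {C : Set E} (hC : Convex ℝ C) (hcl : IsClosed C) {x : E}
    (hpos : ∀ z ∈ C, 0 ≤ ⟪e, z - x⟫_ℝ) (hint : (interior C).Nonempty) {n : ℕ}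
    (hG : Gd n (Fc e x C)) : Gd (n + 1) C := by
  obtain ⟨o, ho, hcv⟩ := hG
  refine facet he hC hcl (q := x + (o : E)) (fun z hz => ?_) hint (F := {l | o + l ∈ Fc e x C})
    (fun l => ?_) ?_ (cv_shift.2 hcv)
  · have h1 := hpos z hz
    rw [← sub_sub, inner_sub_right, inner_orth, sub_zero]
    exact h1
  · change x + ((o + l : Hp e) : E) ∈ C ↔ _
    rw [Submodule.coe_add, add_assoc]
  · rw [shift_interior, add_zero]
    exact ho

/-- dimension one -/
theorem Gd_line (hd : finrank ℝ E = 1) {C : Set E} (hC : Convex ℝ C) (hcl : IsClosed C)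
    (hint : (interior C).Nonempty) (hl : LF C) : Gd 2 C := by
  have : Nontrivial E := Module.nontrivial_of_finrank_pos (R := ℝ) (by omega)
  obtain ⟨o, ho⟩ := hint
  refine ⟨o, ho, ?_⟩
  have hs : Ss C := by
    intro u x y hu _ _ _ hxy
    obtain ⟨s, hs⟩ := (finrank_eq_one_iff_of_nonzero' u hu).1 hd (y - x)
    have h1 : ⟪u, y - x⟫_ℝ = 0 := by rw [inner_sub_right, hxy, sub_self]
    rw [← hs, real_inner_smul_right, real_inner_self_eq_norm_sq] at h1
    have h2 : 0 < ‖u‖ ^ 2 := by
      have := norm_pos_iff.2 hu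
      positivity
    have h3 : s = 0 := by
      rcases mul_eq_zero.1 h1 with h | h
      · exact h
      · exact absurd h h2.ne'
    rw [h3, zero_smul] at hs
    exact (sub_eq_zero.1 hs.symm)
  have := cv_strict hC hcl hl hs ho
  rwa [hd] at this

/-- dimension two -/
theorem Gd_plane (hd : finrank ℝ E = 2) {C : Set E} (hC : Convex ℝ C) (hcl : IsClosed C)
    (hint : (interior C).Nonempty) (hl : LF C) : Gd 3 C := by
  have : Nontrivial E := Module.nontrivial_of_finrank_pos (R := ℝ) (by omega)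
  by_cases hs : Ss C
  · obtain ⟨o, ho⟩ := hint
    refine ⟨o, ho, ?_⟩
    have := cv_strict hC hcl hl hs ho
    rwa [hd] at this
  · unfold Ss at hs
    push Not at hs
    obtain ⟨u, x, y, hu, hx, hy, hmax, hxy, hne⟩ := hs
    have hn : 0 < ‖u‖ := norm_pos_iff.2 hu
    set e : E := -(‖u‖⁻¹ • u) with he
    have he1 : ‖e‖ = 1 := by
      rw [he, norm_neg, norm_smul, norm_inv, norm_norm, inv_mul_cancel₀ hn.ne']
    have he0 : e ≠ 0 := by rintro h; rw [h] at he1; simp at he1
    have hei : ∀ z, ⟪e, z - x⟫_ℝ = ‖u‖⁻¹ * (⟪u, x⟫_ℝ - ⟪u, z⟫_ℝ) := by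
      intro z
      rw [he, inner_neg_left, real_inner_smul_left, inner_sub_right]
      ring
    refine facet_Gd he1 hC hcl (x := x) (fun z hz => ?_) hint ?_
    · rw [hei]
      have := hmax z hz
      have h3 : 0 ≤ ⟪u, x⟫_ℝ - ⟪u, z⟫_ℝ := by linarith
      positivity
    · have hf : finrank ℝ (Hp e) = 1 := by
        have := Hp_finrank he0
        omega
      refine Gd_line hf (Fc_convex hC) (Fc_closed hcl) ?_ (Fc_lf hC hcl hx hl)
      have hm : y - x ∈ Hp e := by
        rw [Submodule.mem_orthogonal_singleton_iff_inner_right, hei, hxy, sub_self, mul_zero]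
      have h0 : (0 : Hp e) ∈ Fc e x C := by
        change x + ((0 : Hp e) : E) ∈ C
        simpa using hx
      refine int_of_span (Fc_convex hC) h0 ?_
      have hne' : (⟨y - x, hm⟩ : Hp e) ≠ 0 := by
        intro h
        exact hne (sub_eq_zero.1 (Subtype.ext_iff.1 h))
      rw [eq_top_iff]
      rintro v -
      obtain ⟨s, hs⟩ := (finrank_eq_one_iff_of_nonzero' _ hne').1 hf v
      rw [← hs]
      refine Submodule.smul_mem _ _ (Submodule.subset_span ?_)
      change x + (y - x) ∈ C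
      rwa [add_sub_cancel]

/-- a two-dimensional face -/
def Fl (C : Set E) : Prop := ∃ u x y z : E, u ≠ 0 ∧ x ∈ C ∧ y ∈ C ∧ z ∈ C ∧
  (∀ p ∈ C, ⟪u, p⟫_ℝ ≤ ⟪u, x⟫_ℝ) ∧ ⟪u, y⟫_ℝ = ⟪u, x⟫_ℝ ∧ ⟪u, z⟫_ℝ = ⟪u, x⟫_ℝ ∧ y ≠ x ∧
  ∀ s : ℝ, z - x ≠ s • (y - x)

/-- **Two-dimensional faces in dimension three.** -/
theorem Gd_face (hd : finrank ℝ E = 3) {C : Set E} (hC : Convex ℝ C) (hcl : IsClosed C)
    (hint : (interior C).Nonempty) (hl : LF C) (hF : Fl C) : Gd 4 C := by
  obtain ⟨u, x, y, z, hu, hx, hy, hz, hmax, hxy, hxz, hne, hns⟩ := hF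
  have hn : 0 < ‖u‖ := norm_pos_iff.2 hu
  set e : E := -(‖u‖⁻¹ • u) with he
  have he1 : ‖e‖ = 1 := by
    rw [he, norm_neg, norm_smul, norm_inv, norm_norm, inv_mul_cancel₀ hn.ne']
  have he0 : e ≠ 0 := by rintro h; rw [h] at he1; simp at he1
  have hei : ∀ z, ⟪e, z - x⟫_ℝ = ‖u‖⁻¹ * (⟪u, x⟫_ℝ - ⟪u, z⟫_ℝ) := by
    intro z
    rw [he, inner_neg_left, real_inner_smul_left, inner_sub_right]
    ring
  refine facet_Gd he1 hC hcl (x := x) (fun z hz => ?_) hint ?_
  · rw [hei]
    have := hmax z hz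
    have h3 : 0 ≤ ⟪u, x⟫_ℝ - ⟪u, z⟫_ℝ := by linarith
    positivity
  · have hf : finrank ℝ (Hp e) = 2 := by
      have := Hp_finrank he0
      omega
    refine Gd_plane hf (Fc_convex hC) (Fc_closed hcl) ?_ (Fc_lf hC hcl hx hl)
    have hmy : y - x ∈ Hp e := by
      rw [Submodule.mem_orthogonal_singleton_iff_inner_right, hei, hxy, sub_self, mul_zero]
    have hmz : z - x ∈ Hp e := by
      rw [Submodule.mem_orthogonal_singleton_iff_inner_right, hei, hxz, sub_self, mul_zero]
    have h0 : (0 : Hp e) ∈ Fc e x C := by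
      change x + ((0 : Hp e) : E) ∈ C
      simpa using hx
    refine int_of_span (Fc_convex hC) h0 ?_
    have hli : LinearIndependent ℝ ![(⟨y - x, hmy⟩ : Hp e), ⟨z - x, hmz⟩] := by
      rw [LinearIndependent.pair_iff]
      intro s t hst
      have h1 : s • (y - x) + t • (z - x) = 0 := by
        have := Subtype.ext_iff.1 hst
        simpa using this
      rcases eq_or_ne t 0 with ht | ht
      · rw [ht, zero_smul, add_zero, smul_eq_zero] at h1
        rcases h1 with h1 | h1
        · exact ⟨h1, ht⟩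
        · exact absurd (sub_eq_zero.1 h1) hne
      · exfalso
        apply hns (-(t⁻¹ * s))
        have h2 : t • (z - x) = -(s • (y - x)) := by
          rw [eq_neg_iff_add_eq_zero, add_comm]
          exact h1
        calc z - x = t⁻¹ • (t • (z - x)) := by rw [smul_smul, inv_mul_cancel₀ ht, one_smul]
          _ = (-(t⁻¹ * s)) • (y - x) := by rw [h2, smul_neg, smul_smul, neg_smul]
    have hsp := hli.span_eq_top_of_card_eq_finrank (by rw [hf]; simp)
    rw [eq_top_iff, ← hsp]
    refine Submodule.span_mono ?_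
    rintro v ⟨i, rfl⟩
    fin_cases i
    · change x + (y - x) ∈ C
      rwa [add_sub_cancel]
    · change x + (z - x) ∈ C
      rwa [add_sub_cancel]

/-- **Vertices.** -/
theorem Gd_vertex (hd : finrank ℝ E = 3) {C : Set E} (hC : Convex ℝ C)
    (hint : (interior C).Nonempty) {y : E} (hy : y ∈ C)
    (hl : ∀ d : E, d ∈ Pool.Agent.N321.NB.Tc C y → -d ∈ Pool.Agent.N321.NB.Tc C y → d = 0) :
    Gd 4 C := by
  have : Nontrivial E := Module.nontrivial_of_finrank_pos (R := ℝ) (by omega)
  set T := Pool.Agent.N321.NB.Tc C y with hT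
  have hTc : Convex ℝ T := Pool.Agent.N321.NB.Tc_convex hC hy
  have hTcl : IsClosed T := isClosed_closure
  have hsm : ∀ z ∈ T, ∀ s : ℝ, 0 ≤ s → s • z ∈ T := by
    intro z hz s hs
    rcases hs.lt_or_eq with h | h
    · exact Pool.Agent.N321.NB.Tc_smul hz h
    · rw [← h, zero_smul]
      exact Pool.Agent.N321.NB.Tc_zero hy
  have hadd : ∀ z ∈ T, ∀ z' ∈ T, z + z' ∈ T := by
    intro z hz z' hz'
    have h1 := hsm _ (hTc hz hz' (a := 1 / 2) (b := 1 / 2) (by norm_num) (by norm_num)
      (by norm_num)) 2 (by norm_num)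
    rwa [smul_add, smul_smul, smul_smul, mul_one_div_cancel two_ne_zero, one_smul, one_smul] at h1
  obtain ⟨e, c, he, hc, hpt⟩ := pointed hTcl (Pool.Agent.N321.NB.Tc_zero hy) hadd hsm hl
  have he0 : e ≠ 0 := by rintro h; rw [h] at he; simp at he
  have hcone : ∀ x ∈ C, c * ‖x - y‖ ≤ ⟪e, x - y⟫_ℝ := fun x hx => hpt _
    (subset_closure ⟨1, one_pos, by rw [one_smul, add_sub_cancel]; exact hx⟩)
  obtain ⟨p, hp⟩ := hint
  have hw : p - y ∈ interior T := by
    rw [hT, Pool.Agent.N321.NB.Tc_int hC hy ⟨p, hp⟩]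
    exact ⟨1, one_pos, by rw [one_smul, add_sub_cancel]; exact hp⟩
  set w := p - y with hwdef
  have hf : finrank ℝ (Hp e) = 2 := by
    have := Hp_finrank he0
    omega
  have hwT := interior_subset hw
  have hG : Gd 3 (Fc e w T) := by
    refine Gd_plane hf (Fc_convex hTc) (Fc_closed hTcl) ?_ ?_
    · have hcont : Continuous fun l : Hp e => w + (l : E) := by fun_prop
      refine ⟨0, mem_interior.2 ⟨(fun l : Hp e => w + (l : E)) ⁻¹' interior T, fun l hl => ?_,
        isOpen_interior.preimage hcont, ?_⟩⟩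
      · exact interior_subset (s := T) hl
      · simpa using hw
    · intro d h1 h2
      have h3 : ∀ d : Hp e, d ∈ Rc (Fc e w T) → (d : E) ∈ T := by
        intro d hd'
        have h4 := Fc_rc hTc hTcl hwT hd'
        have h5 := h4 0 (Pool.Agent.N321.NB.Tc_zero hy) 1 zero_le_one
        simpa using h5
      have := hl _ (h3 d h1) (h3 (-d) h2)
      exact_mod_cast this
  obtain ⟨o, ho, hcv⟩ := hG
  have ho' : w + (o : E) ∈ interior T := by
    -- the section point is interior
    have h1 : ∃ s : ℝ, 0 < s ∧ o + s • o ∈ Fc e w T := by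
      have hcont : Continuous fun s : ℝ => o + s • o := by fun_prop
      have h2 : o + (0 : ℝ) • o ∈ interior (Fc e w T) := by rwa [zero_smul, add_zero]
      obtain ⟨s, hs, hs1⟩ := (((hcont.continuousAt.eventually
        (isOpen_interior.mem_nhds h2)).filter_mono (nhdsWithin_le_nhds (s := Set.Ioi 0))).and
        self_mem_nhdsWithin).exists
      exact ⟨s, hs1, interior_subset hs⟩
    obtain ⟨s, hs, h2⟩ := h1
    have h3 := hTc.combo_self_interior_mem_interior (x := w + ((o + s • o : Hp e) : E)) h2 hw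
      (a := 1 / (1 + s)) (b := s / (1 + s)) (by positivity) (by positivity) (by field_simp)
    have h4 : (1 / (1 + s)) • (w + ((o + s • o : Hp e) : E)) + (s / (1 + s)) • w = w + (o : E) := by
      have h5 : 1 / (1 + s) + s / (1 + s) = 1 := by field_simp
      have h6 : ((o + s • o : Hp e) : E) = (1 + s) • (o : E) := by
        rw [Submodule.coe_add, Submodule.coe_smul, add_smul, one_smul]
      have h7 : 1 / (1 + s) * (1 + s) = 1 := by field_simp
      rw [h6, smul_add, smul_smul, h7, one_smul, add_right_comm, ← add_smul, h5, one_smul]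
    rwa [h4] at h3
  have hcv' : cv 3 {l : Hp e | w + (o : E) + (l : E) ∈ T} 0 := by
    have h1 := cv_shift.2 hcv
    have h2 : {l : Hp e | w + (o : E) + (l : E) ∈ T} = {l | o + l ∈ Fc e w T} := by
      ext l
      change w + (o : E) + (l : E) ∈ T ↔ w + ((o + l : Hp e) : E) ∈ T
      rw [Submodule.coe_add, add_assoc]
    rwa [h2]
  exact vert he hC ⟨p, hp⟩ hy hc hcone ho' hcv'

/-- **Recession directions.** -/
theorem Gd_up (hd : finrank ℝ E = 3) {C : Set E} (hC : Convex ℝ C) (hcl : IsClosed C)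
    (hint : (interior C).Nonempty) (hlf : LF C) {e : E} (he : ‖e‖ = 1) (heR : e ∈ Rc C)
    (hl : LF (closure (prj e '' C))) : Gd 4 C := by
  have he0 : e ≠ 0 := by rintro h; rw [h] at he; simp at he
  have hf : finrank ℝ (Hp e) = 2 := by
    have := Hp_finrank he0
    omega
  have hDc : Convex ℝ (prj e '' C) := hC.linear_image (prj e).toLinearMap
  refine up he hC hcl hint hlf heR (Gd_plane hf hDc.closure isClosed_closure ?_ hl)
  have hsurj : Function.Surjective (prj e) := fun l => ⟨l, prj_self l⟩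
  obtain ⟨p, hp⟩ := hint
  refine ⟨prj e p, ?_⟩
  rw [mem_interior]
  exact ⟨prj e '' interior C, (image_mono interior_subset).trans subset_closure,
    (prj e).isOpenMap hsurj _ isOpen_interior, mem_image_of_mem _ hp⟩

end Pool.Agent.N321.MN
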