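import Pool.Agent.N321.MN.F

set_option autoImplicit false
set_option linter.unusedSectionVars false

/-!
# Four directions in the final situation
-/

namespace Pool.Agent.N321.MN

open scoped InnerProductSpace Topology
open Metric Module Filter Set
open Pool.Agent.H985.Sep (polar)

variable {C : Set E3} {L : ℝ}

/-- the value at `x` -/
lemma val3 (v x : E3) : ⟪v, x - pt 0 0 1⟫_ℝ = v 0 * x 0 + v 1 * x 1 + v 2 * (x 2 - 1) := by
  rw [inner3]
  simp only [sub3, pt0, pt1, pt2, sub_zero]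

lemma Fi.rc (h : Fi C L) {d : E3} (hd : d ∈ Rc C) : d 0 = 0 ∧ d 1 = 0 ∧ 0 ≤ d 2 := by
  refine ⟨h.rc0 hd, ?_, h.rc2 hd⟩
  have h1 := hd _ h.mp 1 zero_le_one
  have h2 := h.bp _ h1 (by simp [h.rc0 hd])
  simpa using h2

/-- faces through the plane -/
lemma Fi.s1 (h : Fi C L) {v x : E3} (hv : v ∈ polar C (pt 0 0 1)) (hv2 : v 2 < 0) (hx : x ∈ C)
    (hvx : ⟪v, x - pt 0 0 1⟫_ℝ = 1) (hx1 : x 1 = 0) :
    ∀ y ∈ C, ⟪v, y - pt 0 0 1⟫_ℝ = 1 → y 1 = 0 ∧ y 2 = 0 := by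
  have hL := h.Lpos
  rw [val3, hx1] at hvx
  have hs : ∀ s ζ : ℝ, |s| ≤ L → 0 ≤ ζ → v 0 * s + v 2 * (ζ - 1) ≤ 1 := by
    intro s ζ h1 h2
    have h3 := hv _ (h.strip h1 h2)
    rw [val3] at h3
    simpa using h3
  have hx0 := h.bx x hx
  have hx2 := h.bz x hx
  have h1 := hs (x 0) 0 hx0 le_rfl
  have h2 : x 2 = 0 := by
    have h3 : 0 ≤ v 2 * x 2 := by linarith
    nlinarith
  rw [h2] at hvx
  have hle : ∀ q ∈ C, ⟪v, q⟫_ℝ ≤ v 0 * x 0 := by
    intro q hq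
    have h3 := hv q hq
    rw [val3] at h3
    rw [inner3]
    linarith
  have hp := hs L 0 (by rw [abs_of_pos hL]) le_rfl
  have hn := hs (-L) 0 (by rw [abs_neg, abs_of_pos hL]) le_rfl
  rw [abs_le] at hx0
  have key : v 1 = 0 ∧ v 0 * x 0 = |v 0| * L := by
    rcases lt_trichotomy (v 0) 0 with h3 | h3 | h3
    · have h4 : x 0 = -L := by
        have : v 0 * (x 0 + L) ≥ 0 := by nlinarith
        nlinarith
      refine ⟨h.vn v fun q hq => ?_, by rw [h4, abs_of_neg h3]; ring⟩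
      have := hle q hq
      rw [inner3 v (pt (-L) 0 0)]
      simp only [pt0, pt1, pt2]
      rw [h4] at this
      linarith
    · refine ⟨h.vp v fun q hq => ?_, by rw [h3]; simp⟩
      have := hle q hq
      rw [inner3 v (pt L 0 0)]
      simp only [pt0, pt1, pt2]
      rw [h3] at this ⊢
      linarith
    · have h4 : x 0 = L := by
        have : v 0 * (x 0 - L) ≥ 0 := by nlinarith
        nlinarith
      refine ⟨h.vp v fun q hq => ?_, by rw [h4, abs_of_pos h3]⟩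
      have := hle q hq
      rw [inner3 v (pt L 0 0)]
      simp only [pt0, pt1, pt2]
      rw [h4] at this
      linarith
  intro y hy hvy
  rw [val3, key.1] at hvy
  have hy0 := h.bx y hy
  have hy2 := h.bz y hy
  have h3 : v 0 * y 0 ≤ |v 0| * L := by
    calc v 0 * y 0 ≤ |v 0 * y 0| := le_abs_self _
      _ = |v 0| * |y 0| := abs_mul _ _
      _ ≤ |v 0| * L := mul_le_mul_of_nonneg_left hy0 (abs_nonneg _)
  have h4 : 0 ≤ v 2 * y 2 := by
    have := key.2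
    linarith
  have h5 : y 2 = 0 := by nlinarith
  exact ⟨h.zz y hy h5, h5⟩

/-- the bad situation for one `k` -/
lemma Fi.bad (h : Fi C L) (hcon : ¬ cv 4 C (pt 0 0 1)) {k : ℝ} (hk : 0 < k) :
    ∃ v ∈ polar C (pt 0 0 1), ∃ x₁ x₂ x₃ : E3,
      (x₁ ∈ C ∧ ⟪v, x₁ - pt 0 0 1⟫_ℝ = 1 ∧ x₁ 1 < 0 ∧ 1 - k * x₁ 1 ≤ x₁ 2) ∧
      (x₂ ∈ C ∧ ⟪v, x₂ - pt 0 0 1⟫_ℝ = 1 ∧ x₂ 1 < 0 ∧ x₂ 0 + L / 2 * (x₂ 2 - 1) ≤ k * x₂ 1) ∧
      (x₃ ∈ C ∧ ⟪v, x₃ - pt 0 0 1⟫_ℝ = 1 ∧ x₃ 1 < 0 ∧ -(x₃ 0) + L / 2 * (x₃ 2 - 1) ≤ k * x₃ 1) := by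
  classical
  have hL := h.Lpos
  set w₁ : E3 := pt 0 (-k) (-1) with hw₁
  set w₂ : E3 := pt 1 (-k) (L / 2) with hw₂
  set w₃ : E3 := pt (-1) (-k) (L / 2) with hw₃
  set w₄ : E3 := pt 0 1 0 with hw₄
  have hcard : ({w₁, w₂, w₃, w₄} : Finset E3).card ≤ 4 := Finset.card_le_four
  have hneg : ¬ ∀ v ∈ polar C (pt 0 0 1), ∃ w ∈ ({w₁, w₂, w₃, w₄} : Finset E3),
      (∀ x ∈ C, ⟪v, x - pt 0 0 1⟫_ℝ = 1 → 0 < ⟪w, x - pt 0 0 1⟫_ℝ) ∧
      ∀ d ∈ Rc C, d ≠ 0 → ⟪v, d⟫_ℝ = 0 → 0 < ⟪w, d⟫_ℝ := fun hW =>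
    hcon ((cv_of_dirs h.cvx h.cl h.gi _ hW).mono hcard)
  push Not at hneg
  obtain ⟨v, hv, hbad⟩ := hneg
  have hv2 : v 2 ≤ 0 := by
    have := polar_rc (interior_subset h.gi) hv h.gR
    rw [inner3] at this
    simpa using this
  have hs : ∀ s ζ : ℝ, |s| ≤ L → 0 ≤ ζ → v 0 * s + v 2 * (ζ - 1) ≤ 1 := by
    intro s ζ h1 h2
    have h3 := hv _ (h.strip h1 h2)
    rw [val3] at h3
    simpa using h3
  have hp := hs L 1 (by rw [abs_of_pos hL]) zero_le_one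
  have hn := hs (-L) 1 (by rw [abs_neg, abs_of_pos hL]) zero_le_one
  -- recession directions
  have hrec : ∀ w : E3, 0 < w 2 → ∀ d ∈ Rc C, d ≠ 0 → ⟪v, d⟫_ℝ = 0 → 0 < ⟪w, d⟫_ℝ := by
    intro w hw d hd hd0 _
    obtain ⟨h1, h2, h3⟩ := h.rc hd
    have h4 : d 2 ≠ 0 := fun h4 => hd0 (ext3 (by simpa using h1) (by simpa using h2)
      (by simpa using h4))
    have h5 : 0 < d 2 := lt_of_le_of_ne h3 (Ne.symm h4)
    rw [inner3, h1, h2]
    have := mul_pos hw h5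
    linarith
  rcases hv2.lt_or_eq with hv2' | hv2'
  swap
  · -- vertical hyperplanes
    exfalso
    have hv1 := h.c2 v hv hv2'
    rcases le_total 0 (v 0) with h0 | h0
    · obtain ⟨d, hd, hd0, hvd, hwd⟩ := hbad w₂ (by simp) (fun x hx hvx => by
        rw [val3, hv1, hv2'] at hvx
        have hx0 := abs_le.1 (h.bx x hx)
        have hx2 := h.bz x hx
        have h6 : x 0 = L := by
          have h7 : v 0 * (x 0 - L) ≥ 0 := by linarith
          have h8 : v 0 ≠ 0 := by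
            intro h8
            rw [h8] at hvx
            linarith
          have h9 : 0 < v 0 := lt_of_le_of_ne h0 (Ne.symm h8)
          nlinarith
        have h7 := h.bp x hx h6
        rw [val3, h6, h7, hw₂]
        simp only [pt0, pt1, pt2]
        nlinarith)
      exact absurd (hrec w₂ (by rw [hw₂]; simp only [pt2]; positivity) d hd hd0 hvd)
        (not_lt.2 hwd)
    · obtain ⟨d, hd, hd0, hvd, hwd⟩ := hbad w₃ (by simp) (fun x hx hvx => by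
        rw [val3, hv1, hv2'] at hvx
        have hx0 := abs_le.1 (h.bx x hx)
        have hx2 := h.bz x hx
        have h8 : v 0 ≠ 0 := by
          intro h8
          rw [h8] at hvx
          linarith
        have h9 : v 0 < 0 := lt_of_le_of_ne h0 h8
        have h6 : x 0 = -L := by
          have h7 : v 0 * (x 0 + L) ≥ 0 := by linarith
          nlinarith
        have h7 : x 1 = 0 ∨ x 1 ≠ 0 := em _
        have h10 : x 1 = 0 := h.bnn x hx h6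
        rw [val3, h6, h10, hw₃]
        simp only [pt0, pt1, pt2]
        nlinarith)
      exact absurd (hrec w₃ (by rw [hw₃]; simp only [pt2]; positivity) d hd hd0 hvd)
        (not_lt.2 hwd)
  · -- no recession direction is orthogonal to `v`
    have hnr : ∀ d ∈ Rc C, d ≠ 0 → ⟪v, d⟫_ℝ = 0 → False := by
      intro d hd hd0 hvd
      obtain ⟨h1, h2, h3⟩ := h.rc hd
      rw [inner3, h1, h2] at hvd
      have h4 : v 2 * d 2 = 0 := by linarith
      have h5 : d 2 = 0 := (mul_eq_zero.1 h4).resolve_left hv2'.ne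
      exact hd0 (ext3 (by simpa using h1) (by simpa using h2) (by simpa using h5))
    have hex : ∀ w ∈ ({w₁, w₂, w₃, w₄} : Finset E3), ∃ x ∈ C, ⟪v, x - pt 0 0 1⟫_ℝ = 1 ∧
        ⟪w, x - pt 0 0 1⟫_ℝ ≤ 0 := by
      intro w hw
      by_contra hc
      push Not at hc
      obtain ⟨d, hd, hd0, hvd, -⟩ := hbad w hw hc
      exact hnr d hd hd0 hvd
    obtain ⟨x₁, hx₁, hv₁, hk₁⟩ := hex w₁ (by simp)
    obtain ⟨x₂, hx₂, hv₂, hk₂⟩ := hex w₂ (by simp)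
    obtain ⟨x₃, hx₃, hv₃, hk₃⟩ := hex w₃ (by simp)
    obtain ⟨x₄, hx₄, hv₄, hk₄⟩ := hex w₄ (by simp)
    rw [val3, hw₁] at hk₁
    rw [val3, hw₂] at hk₂
    rw [val3, hw₃] at hk₃
    rw [val3, hw₄] at hk₄
    simp only [pt0, pt1, pt2] at hk₁ hk₂ hk₃ hk₄
    -- the face avoids the plane
    have hav : ∀ x ∈ C, ⟪v, x - pt 0 0 1⟫_ℝ = 1 → x 1 ≠ 0 := by
      intro x hx hvx hx1
      obtain ⟨h1, h2⟩ := h.s1 hv hv2' hx hvx hx1 x₁ hx₁ hv₁
      rw [h1, h2] at hk₁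
      linarith
    have hneg4 : x₄ 1 < 0 := by
      have h1 := hav x₄ hx₄ hv₄
      have h2 : x₄ 1 ≤ 0 := by linarith
      exact lt_of_le_of_ne h2 h1
    have hall : ∀ x ∈ C, ⟪v, x - pt 0 0 1⟫_ℝ = 1 → x 1 < 0 := by
      intro x hx hvx
      by_contra hc
      push Not at hc
      have h1 : 0 < x 1 := lt_of_le_of_ne hc (Ne.symm (hav x hx hvx))
      have hden : 0 < x 1 - x₄ 1 := by linarith
      have h2 := h.cvx hx hx₄ (a := -(x₄ 1) / (x 1 - x₄ 1)) (b := x 1 / (x 1 - x₄ 1))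
        (div_nonneg (by linarith) hden.le) (div_nonneg h1.le hden.le) (by
          rw [← add_div, div_eq_one_iff_eq hden.ne']
          ring)
      refine hav _ h2 ?_ ?_
      · rw [val3] at hvx hv₄
        rw [val3]
        simp only [add3, smul3]
        have e1 : -(x₄ 1) / (x 1 - x₄ 1) + x 1 / (x 1 - x₄ 1) = 1 := by
          rw [← add_div, div_eq_one_iff_eq hden.ne']
          ring
        calc v 0 * (-(x₄ 1) / (x 1 - x₄ 1) * x 0 + x 1 / (x 1 - x₄ 1) * x₄ 0) +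
            v 1 * (-(x₄ 1) / (x 1 - x₄ 1) * x 1 + x 1 / (x 1 - x₄ 1) * x₄ 1) +
            v 2 * (-(x₄ 1) / (x 1 - x₄ 1) * x 2 + x 1 / (x 1 - x₄ 1) * x₄ 2 - 1)
            = -(x₄ 1) / (x 1 - x₄ 1) * (v 0 * x 0 + v 1 * x 1 + v 2 * (x 2 - 1)) +
              x 1 / (x 1 - x₄ 1) * (v 0 * x₄ 0 + v 1 * x₄ 1 + v 2 * (x₄ 2 - 1)) +
              v 2 * (-(x₄ 1) / (x 1 - x₄ 1) + x 1 / (x 1 - x₄ 1) - 1) := by ring
          _ = 1 := by rw [hvx, hv₄, e1]; linarith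
      · simp only [add3, smul3]
        field_simp
        ring
    refine ⟨v, hv, x₁, x₂, x₃, ⟨hx₁, hv₁, hall x₁ hx₁ hv₁, by linarith⟩,
      ⟨hx₂, hv₂, hall x₂ hx₂ hv₂, by linarith⟩, ⟨hx₃, hv₃, hall x₃ hx₃ hv₃, by linarith⟩⟩

end Pool.Agent.N321.MN
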