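import Pool.Agent.N321.MN.H

set_option autoImplicit false
set_option linter.unusedSectionVars false

/-!
# The final situation
-/

namespace Pool.Agent.N321.MN

open scoped InnerProductSpace Topology
open Metric Module Filter Set
open Pool.Agent.H985.Sep (polar)

variable {C : Set E3} {L : ℝ}

lemma ultra_bdd {ι : Type*} (𝒰 : Ultrafilter ι) (x : ι → E3) {R : ℝ}
    (h : ∀ᶠ k in (𝒰 : Filter ι), ‖x k‖ ≤ R) : ∃ a, Tendsto x 𝒰 (𝓝 a) := by
  rcases ultra 𝒰 x with h1 | h1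
  · exact h1
  · obtain ⟨k, h2, h3⟩ := (h.and (h1.eventually_gt_atTop R)).exists
    linarith

lemma Fi.lim (h : Fi C L) {v : ℕ → E3} {vi : E3}
    (hvl : Tendsto v (hyperfilter ℕ : Filter ℕ) (𝓝 vi)) {x : ℕ → E3} {σ : ℝ} (hσ : |σ| = 1)
    (hx : ∀ k, x k ∈ C ∧ ⟪v k, x k - pt 0 0 1⟫_ℝ = 1 ∧ x k 1 < 0 ∧
      σ * x k 0 + L / 2 * (x k 2 - 1) ≤ ((k : ℝ) + 1) * x k 1) :
    ∃ X ∈ C, ⟪vi, X - pt 0 0 1⟫_ℝ = 1 ∧ σ * X 0 ≤ L / 2 := by
  have hL := h.Lpos
  have hb : ∀ k, -L ≤ σ * x k 0 := by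
    intro k
    have h1 := h.bx _ (hx k).1
    have h2 : |σ * x k 0| ≤ L := by rw [abs_mul, hσ, one_mul]; exact h1
    exact (abs_le.1 h2).1
  have hz : ∀ k, x k 2 ≤ 3 := by
    intro k
    obtain ⟨h1, -, h2, h3⟩ := hx k
    have h4 := hb k
    have h5 : ((k : ℝ) + 1) * x k 1 ≤ 0 := mul_nonpos_of_nonneg_of_nonpos (by positivity) h2.le
    nlinarith
  have hy : ∀ k, -(2 * L) ≤ x k 1 := by
    intro k
    obtain ⟨h1, -, h2, h3⟩ := hx k
    have h4 := hb k
    have h5 := h.bz _ h1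
    have h6 : ((k : ℝ) + 1) * x k 1 ≤ x k 1 := by
      have : (0 : ℝ) ≤ k := Nat.cast_nonneg k
      nlinarith
    nlinarith
  obtain ⟨X, hX⟩ := ultra_bdd (hyperfilter ℕ) x (R := L + 2 * L + 3) (Eventually.of_forall fun k => by
    refine (norm3_le _).trans ?_
    have h1 := h.bx _ (hx k).1
    have h2 : |x k 1| ≤ 2 * L := by
      rw [abs_of_neg (hx k).2.2.1]
      linarith [hy k]
    have h3 : |x k 2| ≤ 3 := by
      rw [abs_of_nonneg (h.bz _ (hx k).1)]
      exact hz k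
    linarith)
  refine ⟨X, h.cl.mem_of_tendsto hX (Eventually.of_forall fun k => (hx k).1), ?_, ?_⟩
  · have h1 : Tendsto (fun k => ⟪v k, x k - pt 0 0 1⟫_ℝ) (hyperfilter ℕ : Filter ℕ)
        (𝓝 ⟪vi, X - pt 0 0 1⟫_ℝ) := hvl.inner (hX.sub_const _)
    refine (tendsto_nhds_unique h1 (tendsto_const_nhds.congr fun k => ?_))
    exact (hx k).2.1.symm
  · refine le_of_tendsto (((cont3 0).tendsto X).comp hX |>.const_mul σ) (Eventually.of_forall
      fun k => ?_)
    obtain ⟨h1, -, h2, h3⟩ := hx k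
    have h5 : ((k : ℝ) + 1) * x k 1 ≤ 0 := mul_nonpos_of_nonneg_of_nonpos (by positivity) h2.le
    have h6 := h.bz _ h1
    change σ * x k 0 ≤ L / 2
    nlinarith

/-- **Four translates.** -/
theorem Fi.cv4 (h : Fi C L) : cv 4 C (pt 0 0 1) := by
  by_contra hcon
  have hL := h.Lpos
  have hbad := fun k : ℕ => h.bad hcon (k := (k : ℝ) + 1) (by positivity)
  choose v hv x₁ x₂ x₃ h₁ h₂ h₃ using hbad
  obtain ⟨r, hr, hrC⟩ := Pool.Agent.H985.Sep.exists_ball h.gi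
  obtain ⟨vi, hvl⟩ := ultra_bdd (hyperfilter ℕ) v (R := 1 / r) (Eventually.of_forall fun k =>
    Pool.Agent.H985.Sep.norm_le_of_mem_polar hr hrC _ (hv k))
  have hvi : vi ∈ polar C (pt 0 0 1) :=
    (Pool.Agent.H985.Sep.isClosed_polar C _).mem_of_tendsto hvl (Eventually.of_forall hv)
  have hv2 : vi 2 ≤ 0 := by
    have := polar_rc (interior_subset h.gi) hvi h.gR
    rw [inner3] at this
    simpa using this
  obtain ⟨X₂, hX₂, hvX₂, hl₂⟩ := h.lim hvl (σ := 1) (by simp) (x := x₂) (fun k => by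
    obtain ⟨h1, h2, h3, h4⟩ := h₂ k
    exact ⟨h1, h2, h3, by rw [one_mul]; exact h4⟩)
  obtain ⟨X₃, hX₃, hvX₃, hl₃⟩ := h.lim hvl (σ := -1) (by simp) (x := x₃) (fun k => by
    obtain ⟨h1, h2, h3, h4⟩ := h₃ k
    exact ⟨h1, h2, h3, by linarith⟩)
  rcases hv2.lt_or_eq with hv2' | hv2'
  · -- the third face point
    rcases ultra (hyperfilter ℕ) (fun k => x₁ k - pt 0 0 1) with ⟨a, ha⟩ | hinf
    · have hX : Tendsto x₁ (hyperfilter ℕ : Filter ℕ) (𝓝 (a + pt 0 0 1)) := by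
        have := ha.add_const (pt 0 0 1)
        simpa using this
      set X : E3 := a + pt 0 0 1 with hXdef
      have hXC : X ∈ C := h.cl.mem_of_tendsto hX (Eventually.of_forall fun k => (h₁ k).1)
      have hvX : ⟪vi, X - pt 0 0 1⟫_ℝ = 1 := by
        have h1 : Tendsto (fun k => ⟪v k, x₁ k - pt 0 0 1⟫_ℝ) (hyperfilter ℕ : Filter ℕ)
            (𝓝 ⟪vi, X - pt 0 0 1⟫_ℝ) := hvl.inner (hX.sub_const _)
        refine (tendsto_nhds_unique h1 (tendsto_const_nhds.congr fun k => ?_))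
        exact (h₁ k).2.1.symm
      have hc2 : Tendsto (fun k => x₁ k 2) (hyperfilter ℕ : Filter ℕ) (𝓝 (X 2)) :=
        ((cont3 2).tendsto X).comp hX
      have hc1 : Tendsto (fun k => x₁ k 1) (hyperfilter ℕ : Filter ℕ) (𝓝 (X 1)) :=
        ((cont3 1).tendsto X).comp hX
      have hX2 : 1 ≤ X 2 := by
        refine ge_of_tendsto hc2 (Eventually.of_forall fun k => ?_)
        obtain ⟨-, -, h2, h3⟩ := h₁ k
        have : ((k : ℝ) + 1) * x₁ k 1 ≤ 0 :=
          mul_nonpos_of_nonneg_of_nonpos (by positivity) h2.le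
        linarith
      have hX1 : X 1 = 0 := by
        refine le_antisymm (le_of_tendsto hc1 (Eventually.of_forall fun k => (h₁ k).2.2.1.le)) ?_
        have h1 : Tendsto (fun k => tk k * (1 - x₁ k 2)) (hyperfilter ℕ : Filter ℕ)
            (𝓝 (0 * (1 - X 2))) := tk_lim.mul (tendsto_const_nhds.sub hc2)
        rw [zero_mul] at h1
        refine le_of_tendsto_of_tendsto h1 hc1 (Eventually.of_forall fun k => ?_)
        obtain ⟨-, -, h2, h3⟩ := h₁ k
        have h4 : 1 - x₁ k 2 ≤ ((k : ℝ) + 1) * x₁ k 1 := by linarith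
        change tk k * (1 - x₁ k 2) ≤ x₁ k 1
        rw [tk, one_div, inv_mul_le_iff₀ (by positivity)]
        exact h4
      have := (h.s1 hvi hv2' hXC hvX hX1 X hXC hvX).2
      linarith
    · obtain ⟨d, hd1, hd⟩ := ultra_dir (hyperfilter ℕ) _ hinf
      have hinv : Tendsto (fun k => ‖x₁ k - pt 0 0 1‖⁻¹) (hyperfilter ℕ : Filter ℕ) (𝓝 0) :=
        tendsto_inv_atTop_zero.comp hinf
      have hdR : d ∈ Rc C := by
        refine Rc_of_lim h.cvx h.cl (l := (hyperfilter ℕ : Filter ℕ)) (x := x₁)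
          (μ := fun k => ‖x₁ k - pt 0 0 1‖⁻¹) hinv
          (Eventually.of_forall fun k => by positivity)
          (Eventually.of_forall fun k => (h₁ k).1) ?_
        have h3 : Tendsto (fun k => ‖x₁ k - pt 0 0 1‖⁻¹ • (x₁ k - pt 0 0 1) +
            ‖x₁ k - pt 0 0 1‖⁻¹ • pt 0 0 1) (hyperfilter ℕ : Filter ℕ)
            (𝓝 (d + (0 : ℝ) • pt 0 0 1)) := hd.add (hinv.smul_const _)
        rw [zero_smul, add_zero] at h3
        refine h3.congr fun k => ?_
        rw [← smul_add, sub_add_cancel]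
      have h4 : ⟪vi, d⟫_ℝ = 0 := by
        have h5 : Tendsto (fun k => ⟪v k, ‖x₁ k - pt 0 0 1‖⁻¹ • (x₁ k - pt 0 0 1)⟫_ℝ)
            (hyperfilter ℕ : Filter ℕ) (𝓝 ⟪vi, d⟫_ℝ) := hvl.inner hd
        refine tendsto_nhds_unique h5 (hinv.congr fun k => ?_)
        rw [real_inner_smul_right, (h₁ k).2.1, mul_one]
      obtain ⟨h5, h6, h7⟩ := h.rc hdR
      rw [inner3, h5, h6] at h4
      have h8 : vi 2 * d 2 = 0 := by linarith
      have h9 : d 2 = 0 := (mul_eq_zero.1 h8).resolve_left hv2'.ne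
      have h10 : d = 0 := ext3 (by simpa using h5) (by simpa using h6) (by simpa using h9)
      rw [h10] at hd1
      simp at hd1
  · have hv1 := h.c2 vi hvi hv2'
    have hs : ∀ s ζ : ℝ, |s| ≤ L → 0 ≤ ζ → vi 0 * s + vi 2 * (ζ - 1) ≤ 1 := by
      intro s ζ h1 h2
      have h3 := hvi _ (h.strip h1 h2)
      rw [val3] at h3
      simpa using h3
    have hp := hs L 1 (by rw [abs_of_pos hL]) zero_le_one
    have hn := hs (-L) 1 (by rw [abs_neg, abs_of_pos hL]) zero_le_one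
    rw [val3, hv1, hv2'] at hvX₂ hvX₃
    have hb₂ := abs_le.1 (h.bx _ hX₂)
    have hb₃ := abs_le.1 (h.bx _ hX₃)
    rcases lt_trichotomy (vi 0) 0 with h0 | h0 | h0
    · have h6 : X₃ 0 = -L := by
        have h7 : vi 0 * (X₃ 0 + L) ≥ 0 := by linarith
        nlinarith
      rw [h6] at hl₃
      linarith
    · rw [h0] at hvX₂
      linarith
    · have h6 : X₂ 0 = L := by
        have h7 : vi 0 * (X₂ 0 - L) ≥ 0 := by linarith
        nlinarith
      rw [h6] at hl₂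
      linarith

/-- **The limit sets have good points.** -/
theorem PP.good (h : PP C L) : Gd 4 C := by
  by_contra hG
  exact hG ⟨_, (h.fi hG).gi, (h.fi hG).cv4⟩

end Pool.Agent.N321.MN
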