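import Pool.Agent.N321.MN.S
import Pool.Agent.R753.SJ.H

set_option autoImplicit false
set_option linter.unusedSectionVars false

/-!
# Every three-dimensional convex body has good interior points
-/

namespace Pool.Agent.N321.MN

open scoped InnerProductSpace Topology
open Metric Module Filter Set
open Pool.Agent.H985.Sep (polar)
open Pool.Agent.R753.SJ (Sepd sepd_of_cover)

variable {E : Type} [NormedAddCommGroup E] [InnerProductSpace ℝ E] [FiniteDimensional ℝ E]

lemma LF_of_compact {K : Set E} (hKc : IsCompact K) (hne : K.Nonempty) : LF K := by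
  obtain ⟨x, hx⟩ := hne
  obtain ⟨R, hR⟩ := hKc.isBounded.exists_norm_le
  intro d hd _
  by_contra hd0
  have hn : 0 < ‖d‖ := norm_pos_iff.2 hd0
  have hRx := hR x hx
  have hR0 : 0 ≤ R := (norm_nonneg x).trans hRx
  have h1 := hR _ (hd x hx ((2 * R + 1) / ‖d‖) (by positivity))
  have h2 : ‖((2 * R + 1) / ‖d‖) • d‖ = 2 * R + 1 := by
    rw [norm_smul, Real.norm_eq_abs, abs_of_pos (by positivity), div_mul_cancel₀ _ hn.ne']
  have h3 : ‖((2 * R + 1) / ‖d‖) • d‖ ≤ ‖x + ((2 * R + 1) / ‖d‖) • d‖ + ‖x‖ := by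
    have := norm_sub_le (x + ((2 * R + 1) / ‖d‖) • d) x
    rwa [add_sub_cancel_left] at this
  linarith

/-- the frame map -/
noncomputable def fr (a b r : E) : E3 →ₗ[ℝ] E where
  toFun z := z 0 • a + z 1 • b + z 2 • r
  map_add' u v := by
    simp only [add3, add_smul]
    abel
  map_smul' s v := by
    simp only [smul3, mul_smul, smul_add, RingHom.id_apply]

lemma fr_apply (a b r : E) (z : E3) : fr a b r z = z 0 • a + z 1 • b + z 2 • r := rfl

/-- **Segments.** -/
theorem Gd_seg (hd : finrank ℝ E = 3) {K : Set E} (hK : Convex ℝ K) (hKc : IsCompact K)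
    (hint : (interior K).Nonempty) {u x y : E} (hu : u ≠ 0) (hx : x ∈ K) (hy : y ∈ K)
    (hmax : ∀ z ∈ K, ⟪u, z⟫_ℝ ≤ ⟪u, x⟫_ℝ) (hxy : ⟪u, y⟫_ℝ = ⟪u, x⟫_ℝ) (hne : y ≠ x)
    (hseg : ∀ z ∈ K, ⟪u, z⟫_ℝ = ⟪u, x⟫_ℝ → ∃ s : ℝ, z - x = s • (y - x)) : Gd 4 K := by
  set e : E := y - x with he
  have he0 : e ≠ 0 := sub_ne_zero.2 hne
  have hen : 0 < ‖e‖ := norm_pos_iff.2 he0
  have hue : ⟪u, e⟫_ℝ = 0 := by rw [he, inner_sub_right, hxy, sub_self]
  -- the end points
  have hcont : Continuous fun s : ℝ => x + s • e := by fun_prop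
  set S : Set ℝ := (fun s : ℝ => x + s • e) ⁻¹' K with hS
  have hSc : IsCompact S := by
    refine Metric.isCompact_of_isClosed_isBounded (hKc.isClosed.preimage hcont) ?_
    obtain ⟨R, hR⟩ := hKc.isBounded.exists_norm_le
    refine (isBounded_iff_forall_norm_le).2 ⟨(R + ‖x‖) / ‖e‖, fun s hs => ?_⟩
    have h1 := hR _ hs
    rw [le_div_iff₀ hen, ← norm_smul]
    have := norm_sub_le (x + s • e) x
    rw [add_sub_cancel_left] at this
    linarith
  have h0S : (0 : ℝ) ∈ S := by
    change x + (0 : ℝ) • e ∈ K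
    simpa using hx
  have h1S : (1 : ℝ) ∈ S := by
    change x + (1 : ℝ) • e ∈ K
    rw [one_smul, he, add_sub_cancel]
    exact hy
  obtain ⟨M, hMS, hM⟩ := hSc.exists_isGreatest ⟨0, h0S⟩
  obtain ⟨m, hmS, hm⟩ := hSc.exists_isLeast ⟨0, h0S⟩
  have hm0 : m ≤ 0 := hm h0S
  have hM1 : 1 ≤ M := hM h1S
  set o : E := x + ((m + M) / 2) • e with ho
  set a : E := ((M - m) / 2) • e with ha
  have hc0 : 0 < (M - m) / 2 := by linarith
  have ha0 : a ≠ 0 := smul_ne_zero hc0.ne' he0
  have hua : ⟪u, a⟫_ℝ = 0 := by rw [ha, real_inner_smul_right, hue, mul_zero]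
  have huo : ⟪u, o⟫_ℝ = ⟪u, x⟫_ℝ := by
    rw [ho, inner_add_right, real_inner_smul_right, hue, mul_zero, add_zero]
  have hoa : o + a = x + M • e := by
    rw [ho, ha, add_assoc, ← add_smul]
    congr 2
    ring
  have hoa' : o - a = x + m • e := by
    rw [ho, ha, add_sub_assoc, ← sub_smul]
    congr 2
    ring
  -- the interior point
  obtain ⟨q, hq⟩ := hint
  set r : E := q - o with hr
  have hur : ⟪u, r⟫_ℝ < 0 := by
    rw [hr, inner_sub_right, huo]
    have h1 : ⟪u, q⟫_ℝ ≤ ⟪u, x⟫_ℝ := hmax q (interior_subset hq)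
    rcases h1.lt_or_eq with h2 | h2
    · linarith
    · exact absurd hq (Pool.Agent.N321.NB.not_int_of_max hu fun z hz => by
        rw [h2]; exact hmax z hz)
  -- the third direction
  obtain ⟨b, hb0, hub, hab⟩ : ∃ b : E, b ≠ 0 ∧ ⟪u, b⟫_ℝ = 0 ∧ ⟪a, b⟫_ℝ = 0 := by
    set W : Submodule ℝ E := Submodule.span ℝ {u, a} with hW
    have h1 : finrank ℝ W ≤ 2 := by
      classical
      have h2 := finrank_span_finset_le_card (R := ℝ) ({u, a} : Finset E)
      have h3 : (({u, a} : Finset E) : Set E) = {u, a} := by simp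
      rw [h3] at h2
      exact h2.trans Finset.card_le_two
    have h2 := Submodule.finrank_add_finrank_orthogonal W
    have h3 : 0 < finrank ℝ Wᗮ := by omega
    obtain ⟨b, hb⟩ := Module.finrank_pos_iff_exists_ne_zero.1 h3
    refine ⟨b, fun h => hb (Subtype.ext h), ?_, ?_⟩
    · exact Submodule.inner_right_of_mem_orthogonal (Submodule.subset_span (by simp)) b.2
    · exact Submodule.inner_right_of_mem_orthogonal (Submodule.subset_span (by simp)) b.2
  have hinj : Function.Injective (fr a b r) := by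
    rw [injective_iff_map_eq_zero]
    intro z hz
    rw [fr_apply] at hz
    have h2 : z 2 = 0 := by
      have h3 := congrArg (fun w => ⟪u, w⟫_ℝ) hz
      simp only [inner_add_right, real_inner_smul_right, hua, hub, mul_zero, zero_add,
        inner_zero_right] at h3
      exact (mul_eq_zero.1 h3).resolve_right hur.ne
    have h1 : z 1 = 0 := by
      have h3 := congrArg (fun w => ⟪b, w⟫_ℝ) hz
      simp only [inner_add_right, real_inner_smul_right, real_inner_comm a b, hab, h2, mul_zero,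
        zero_mul, zero_add, add_zero, inner_zero_right, real_inner_self_eq_norm_sq] at h3
      have h4 : ‖b‖ ^ 2 ≠ 0 := by
        have := norm_pos_iff.2 hb0
        positivity
      exact (mul_eq_zero.1 h3).resolve_right h4
    have h0 : z 0 = 0 := by
      rw [h1, h2, zero_smul, zero_smul, add_zero, add_zero] at hz
      exact (smul_eq_zero.1 hz).resolve_right ha0
    exact ext3 (by simpa using h0) (by simpa using h1) (by simpa using h2)
  set A : E3 ≃ₗ[ℝ] E := LinearMap.linearEquivOfInjective (fr a b r) hinj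
    (by rw [finrank3, hd]) with hA
  have hAz : ∀ z, A z = z 0 • a + z 1 • b + z 2 • r := fun z => rfl
  have hui : ∀ z, ⟪u, o + A z⟫_ℝ = ⟪u, x⟫_ℝ + z 2 * ⟪u, r⟫_ℝ := by
    intro z
    rw [hAz, inner_add_right u o, huo, inner_add_right, inner_add_right,
      real_inner_smul_right u a (z 0), real_inner_smul_right u b (z 1),
      real_inner_smul_right u r (z 2), hua, hub]
    ring
  refine Gd_pre (o := o) (A := A) (seg (L := 1) (h := 1) (pre_convex hK o A) ?_ one_pos one_pos
    (fun z hz => ?_) (fun z hz hz2 => ?_) ?_ ?_ ?_)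
  · have : pre K o A = (A.toContinuousLinearEquiv.toHomeomorph.trans (Homeomorph.addLeft o)) ⁻¹' K :=
      rfl
    rw [this]
    exact (Homeomorph.isCompact_preimage _).2 hKc
  · have h1 := hmax _ hz
    rw [hui] at h1
    nlinarith
  · have h1 : ⟪u, o + A z⟫_ℝ = ⟪u, x⟫_ℝ := by rw [hui, hz2, zero_mul, add_zero]
    obtain ⟨s, hs⟩ := hseg _ hz h1
    have h2 : z 0 • a + z 1 • b = (s - (m + M) / 2) • e := by
      have h3 : o + A z - x = ((m + M) / 2) • e + (z 0 • a + z 1 • b) := by
        rw [hAz, hz2, zero_smul, add_zero, ho]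
        abel
      rw [h3] at hs
      rw [sub_smul, ← hs, add_sub_cancel_left]
    have h3 : z 1 = 0 := by
      have h4 := congrArg (fun w => ⟪b, w⟫_ℝ) h2
      have h5 : ⟪b, e⟫_ℝ = 0 := by
        have h6 : ⟪a, b⟫_ℝ = (M - m) / 2 * ⟪e, b⟫_ℝ := by rw [ha, real_inner_smul_left]
        rw [hab] at h6
        rw [real_inner_comm]
        exact (mul_eq_zero.1 h6.symm).resolve_left hc0.ne'
      simp only [inner_add_right, real_inner_smul_right, real_inner_comm a b, hab, h5, mul_zero,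
        zero_add, real_inner_self_eq_norm_sq] at h4
      have h6 : ‖b‖ ^ 2 ≠ 0 := by
        have := norm_pos_iff.2 hb0
        positivity
      exact (mul_eq_zero.1 h4).resolve_right h6
    refine ⟨h3, ?_⟩
    have h4 : z 0 * ((M - m) / 2) + (m + M) / 2 ∈ S := by
      change x + (z 0 * ((M - m) / 2) + (m + M) / 2) • e ∈ K
      have h5 : x + (z 0 * ((M - m) / 2) + (m + M) / 2) • e = o + A z := by
        rw [hAz, hz2, h3, zero_smul, zero_smul, add_zero, add_zero, ho, ha, add_smul, smul_smul]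
        abel
      rw [h5]
      exact hz
    have h5 := hM h4
    have h6 := hm h4
    rw [abs_le]
    constructor <;> nlinarith
  · change o + A (pt 1 0 0) ∈ K
    rw [hAz, pt0, pt1, pt2, one_smul, zero_smul, zero_smul, add_zero, add_zero, hoa]
    exact hMS
  · change o + A (pt (-1) 0 0) ∈ K
    rw [hAz, pt0, pt1, pt2, neg_smul, one_smul, zero_smul, zero_smul, add_zero, add_zero,
      ← sub_eq_add_neg, hoa']
    exact hmS
  · rw [pre_interior]
    change o + A (pt 0 0 1) ∈ interior K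
    rw [hAz, pt0, pt1, pt2, one_smul, zero_smul, zero_smul, zero_add, zero_add, hr,
      add_sub_cancel]
    exact hq

/-- **Every three-dimensional convex body has a good interior point.** -/
theorem Gd_three (hd : finrank ℝ E = 3) {K : Set E} (hK : Convex ℝ K) (hKc : IsCompact K)
    (hint : (interior K).Nonempty) : Gd 4 K := by
  have : Nontrivial E := Module.nontrivial_of_finrank_pos (R := ℝ) (by omega)
  have hl : LF K := LF_of_compact hKc (hint.mono interior_subset)
  by_cases hs : Ss K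
  · obtain ⟨o, ho⟩ := hint
    have := cv_strict hK hKc.isClosed hl hs ho
    rw [hd] at this
    exact ⟨o, ho, this⟩
  by_cases hF : Fl K
  · exact Gd_face hd hK hKc.isClosed hint hl hF
  unfold Ss at hs
  push Not at hs
  obtain ⟨u, x, y, hu, hx, hy, hmax, hxy, hne⟩ := hs
  refine Gd_seg hd hK hKc hint hu hx hy hmax hxy hne fun z hz hzu => ?_
  by_contra hcon
  push Not at hcon
  exact hF ⟨u, x, y, z, hu, hx, hy, hz, hmax, hxy, hzu, hne, hcon⟩

/-- openness -/
lemma sepd_open {K : Set E} {o : E} {n : ℕ} (h : Sepd n K o) : ∀ᶠ p in 𝓝 o, Sepd n K p := by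
  obtain ⟨H, h1, h2, h3⟩ := h
  have hev : ∀ᶠ p in 𝓝 o, ∀ h ∈ H, ⟪h.1, o⟫_ℝ < h.2 → ⟪h.1, p⟫_ℝ < h.2 := by
    rw [Filter.eventually_all_finset]
    intro h _
    by_cases hh : ⟪h.1, o⟫_ℝ < h.2
    · have hc : Continuous fun p : E => ⟪h.1, p⟫_ℝ := by fun_prop
      filter_upwards [hc.continuousAt.eventually_lt_const hh] with p hp _
      exact hp
    · exact Eventually.of_forall fun p h' => absurd h' hh
  filter_upwards [hev] with p hp
  refine ⟨H, h1, h2, fun u x₀ hu hx₀ hmax => ?_⟩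
  obtain ⟨h, hh, h4, h5⟩ := h3 u x₀ hu hx₀ hmax
  exact ⟨h, hh, hp h hh h4, h5⟩

/-- **The main theorem.** -/
theorem main (hd : finrank ℝ E = 3) {K : Set E} (hK : Convex ℝ K) (hKc : IsCompact K)
    (hint : (interior K).Nonempty) : ∃ U : Set E, IsOpen U ∧ U.Nonempty ∧ U ⊆ interior K ∧
      ∀ o ∈ U, Sepd 4 K o ∧ ∀ n, Sepd n K o → 4 ≤ n := by
  obtain ⟨o, ho, hcv⟩ := Gd_three hd hK hKc hint
  have h1 : Sepd 4 K o := sepd_of_cover ho hcv
  obtain ⟨V, hV, hVo, hoV⟩ := _root_.eventually_nhds_iff.1 (sepd_open h1)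
  refine ⟨V ∩ interior K, hVo.inter isOpen_interior, ⟨o, hoV, ho⟩, inter_subset_right, ?_⟩
  rintro p ⟨hp1, hp2⟩
  refine ⟨hV p hp1, fun n hn => ?_⟩
  have := Pool.Agent.R753.SJ.lower hK hKc hp2 (by omega) hn
  omega

end Pool.Agent.N321.MN
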