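import Pool.Agent.N321.MN.U5
import Pool.Agent.N321.NB.Sharp

set_option autoImplicit false
set_option linter.unusedSectionVars false

/-!
# A body with a boundary point near which `d + 1` hyperplanes do not suffice, for all `d ≥ 4`
-/

namespace Pool.Agent.N321.MN.Neg

open scoped InnerProductSpace Topology
open Metric Module Filter Set
open Pool.Agent.N321.MN
open Pool.Agent.R753.SJ (Sepd)

/-- the space of the simplex -/
abbrev V (n : ℕ) : Type := EuclideanSpace ℝ (Fin n)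

/-- a basis vector -/
noncomputable def ev {n : ℕ} (i : Fin n) : V n := EuclideanSpace.single i 1

/-- the sum of the basis vectors -/
noncomputable def sv (n : ℕ) : V n := WithLp.toLp 2 fun _ => 1

lemma ev_apply {n : ℕ} (i j : Fin n) : (ev i) j = if j = i then (1 : ℝ) else 0 := by
  simp [ev, Pi.single_apply]

lemma sv_apply {n : ℕ} (j : Fin n) : (sv n) j = 1 := by simp [sv]

lemma inner_ev {n : ℕ} (i : Fin n) (x : V n) : ⟪ev i, x⟫_ℝ = x i := by
  simp [ev, EuclideanSpace.inner_single_left]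

lemma inner_sv {n : ℕ} (x : V n) : ⟪sv n, x⟫_ℝ = ∑ i, x i := by
  simp [sv, PiLp.inner_apply]

lemma sum_ev {n : ℕ} (i : Fin n) : ∑ j, (ev i) j = 1 := by
  simp [ev_apply]

lemma sum_sv (n : ℕ) : ∑ j, (sv n) j = n := by
  simp [sv_apply]

/-- the indices of the facets -/
abbrev Ix (n : ℕ) : Type := Fin n ⊕ Fin 4

/-- the normals -/
noncomputable def nu {n : ℕ} : Ix n → EE (V n)
  | Sum.inl i => pv (-(ev i)) 0 0
  | Sum.inr 0 => pv (sv n) 0 0
  | Sum.inr 1 => pv 0 1 0
  | Sum.inr 2 => pv 0 (-1) 0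
  | Sum.inr 3 => pv 0 0 (-1)

lemma nu_l {n : ℕ} (i : Fin n) (z : EE (V n)) : ⟪nu (Sum.inl i), z⟫_ℝ = -(aa z) i := by
  rw [innerv]
  simp [nu, inner_ev]

lemma nu_0 {n : ℕ} (z : EE (V n)) : ⟪nu (Sum.inr 0), z⟫_ℝ = ∑ i, (aa z) i := by
  rw [innerv]
  simp [nu, inner_sv]

lemma nu_1 {n : ℕ} (z : EE (V n)) : ⟪nu (Sum.inr 1), z⟫_ℝ = yy z := by
  rw [innerv]
  simp [nu]

lemma nu_2 {n : ℕ} (z : EE (V n)) : ⟪nu (Sum.inr 2), z⟫_ℝ = -yy z := by
  rw [innerv]
  simp [nu]

lemma nu_3 {n : ℕ} (z : EE (V n)) : ⟪nu (Sum.inr 3), z⟫_ℝ = -zz z := by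
  rw [innerv]
  simp [nu]

/-- the body -/
def KK (n : ℕ) : Set (EE (V n)) := {z | (∀ k, ⟪nu k, z⟫_ℝ ≤ 1) ∧ zz z ≤ 1}

lemma KK_convex (n : ℕ) : Convex ℝ (KK n) := by
  rintro x ⟨hx1, hx2⟩ y ⟨hy1, hy2⟩ a b ha hb hab
  refine ⟨fun k => ?_, ?_⟩
  · rw [inner_add_right, real_inner_smul_right, real_inner_smul_right]
    have h1 := mul_le_mul_of_nonneg_left (hx1 k) ha
    have h2 := mul_le_mul_of_nonneg_left (hy1 k) hb
    linarith
  · rw [zz_add, zz_smul, zz_smul]
    have h1 := mul_le_mul_of_nonneg_left hx2 ha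
    have h2 := mul_le_mul_of_nonneg_left hy2 hb
    linarith

lemma KK_closed (n : ℕ) : IsClosed (KK n) := by
  have : KK n = (⋂ k, {z | ⟪nu k, z⟫_ℝ ≤ 1}) ∩ {z | zz z ≤ 1} := by
    ext z
    simp [KK]
  rw [this]
  refine (isClosed_iInter fun k => isClosed_le (by fun_prop) continuous_const).inter
    (isClosed_le cont_zz continuous_const)

lemma KK_compact (n : ℕ) : IsCompact (KK n) := by
  refine Metric.isCompact_of_isClosed_isBounded (KK_closed n) ?_
  refine (isBounded_iff_forall_norm_le).2 ⟨n * n + 1 + 1, fun z hz => ?_⟩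
  obtain ⟨h1, h2⟩ := hz
  have hl : ∀ i, -1 ≤ (aa z) i := fun i => by
    have := h1 (Sum.inl i)
    rw [nu_l] at this
    linarith
  have h0 := h1 (Sum.inr 0)
  have hy1 := h1 (Sum.inr 1)
  have hy2 := h1 (Sum.inr 2)
  have hz3 := h1 (Sum.inr 3)
  rw [nu_0] at h0
  rw [nu_1] at hy1
  rw [nu_2] at hy2
  rw [nu_3] at hz3
  have hu : ∀ i, |(aa z) i| ≤ n := by
    intro i
    have hn : (1 : ℝ) ≤ n := by
      have : 0 < n := i.pos
      exact_mod_cast this
    rw [abs_le]
    refine ⟨by linarith [hl i], ?_⟩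
    have h3 : ∑ j, ((aa z) j + 1) ≤ 1 + n := by
      rw [Finset.sum_add_distrib]
      simpa using h0
    have h4 : (aa z) i + 1 ≤ ∑ j, ((aa z) j + 1) :=
      Finset.single_le_sum (f := fun j => (aa z) j + 1) (fun j _ => by linarith [hl j])
        (Finset.mem_univ i)
    linarith
  have hx : ‖aa z‖ ≤ n * n := by
    have h3 : aa z = ∑ i, (aa z) i • ev i := by
      ext j
      simp [ev_apply]
    calc ‖aa z‖ = ‖∑ i, (aa z) i • ev i‖ := by rw [← h3]
      _ ≤ ∑ i, ‖(aa z) i • ev i‖ := norm_sum_le _ _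
      _ ≤ ∑ _i : Fin n, (n : ℝ) := by
          refine Finset.sum_le_sum fun i _ => ?_
          rw [norm_smul, Real.norm_eq_abs]
          have : ‖ev i‖ = 1 := by simp [ev]
          rw [this, mul_one]
          exact hu i
      _ = n * n := by simp
  have h5 := normv_le z
  have h6 : |yy z| ≤ 1 := abs_le.2 ⟨by linarith, hy1⟩
  have h7 : |zz z| ≤ 1 := abs_le.2 ⟨by linarith, h2⟩
  linarith

lemma KK_int (n : ℕ) : (interior (KK n)).Nonempty := by
  refine ⟨0, ?_⟩
  rw [mem_interior]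
  have ho : IsOpen {z : EE (V n) | ∀ k, ⟪nu k, z⟫_ℝ < 1} := by
    simp only [setOf_forall]
    exact isOpen_iInter_of_finite fun k => isOpen_lt (by fun_prop) continuous_const
  refine ⟨{z | ∀ k, ⟪nu k, z⟫_ℝ < 1} ∩ {z | zz z < 1}, ?_, ho.inter
    (isOpen_lt cont_zz continuous_const), ?_, ?_⟩
  · rintro z ⟨h1, h2⟩
    have h2' : zz z < 1 := h2
    exact ⟨fun k => (h1 k).le, h2'.le⟩
  · intro k
    rw [inner_zero_right]
    exact one_pos
  · rw [mem_setOf_eq, zz_zero]
    exact one_pos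

/-- the boundary point -/
noncomputable def yb (n : ℕ) : EE (V n) := pv 0 0 (-1)

lemma nu_yb {n : ℕ} {l : Ix n} (hl : l ≠ Sum.inr 3) : ⟪nu l, yb n⟫_ℝ = 0 := by
  rcases l with i | j
  · rw [nu_l]
    simp [yb]
  · fin_cases j
    · change ⟪nu (Sum.inr 0), yb n⟫_ℝ = 0
      rw [nu_0]
      simp [yb]
    · change ⟪nu (Sum.inr 1), yb n⟫_ℝ = 0
      rw [nu_1]
      simp [yb]
    · change ⟪nu (Sum.inr 2), yb n⟫_ℝ = 0
      rw [nu_2]
      simp [yb]
    · exact absurd rfl hl

lemma yb_mem (n : ℕ) : yb n ∈ KK n := by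
  refine ⟨fun k => ?_, by simp [yb]⟩
  by_cases hk : k = Sum.inr 3
  · rw [hk, nu_3]
    simp [yb]
  · rw [nu_yb hk]
    norm_num

lemma nu3_ne (n : ℕ) : (nu (Sum.inr 3) : EE (V n)) ≠ 0 := by
  intro h
  have h1 := nu_3 (yb n)
  rw [h, inner_zero_left] at h1
  simp [yb] at h1

lemma yb_not_int (n : ℕ) : yb n ∉ interior (KK n) := by
  refine Pool.Agent.N321.NB.not_int_of_max (nu3_ne n) fun x hx => ?_
  have h1 := hx.1 (Sum.inr 3)
  have h2 : ⟪nu (Sum.inr 3), yb n⟫_ℝ = 1 := by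
    rw [nu_3]
    simp [yb]
  linarith

/-- the neighbourhood -/
def NN (n : ℕ) : Set (EE (V n)) :=
  {z | ∀ l : Ix n, l ≠ Sum.inr 3 → |⟪nu l, z⟫_ℝ| < 1 / 16} ∩ {z | zz z < -(15 / 16)}

lemma NN_open (n : ℕ) : IsOpen (NN n) := by
  refine IsOpen.inter ?_ (isOpen_lt cont_zz continuous_const)
  simp only [setOf_forall]
  exact isOpen_iInter_of_finite fun k => isOpen_iInter_of_finite fun _ =>
    isOpen_lt (by fun_prop) continuous_const

lemma yb_NN (n : ℕ) : yb n ∈ NN n := by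
  refine ⟨fun l hl => ?_, ?_⟩
  · rw [nu_yb hl]
    norm_num
  · rw [mem_setOf_eq]
    simp [yb]
    norm_num

/-- two facets are joined by a segment through `o` -/
def Pr {n : ℕ} (o : EE (V n)) (k k' : Ix n) : Prop :=
  ∃ p ∈ KK n, ∃ q ∈ KK n, ⟪nu k, p⟫_ℝ = 1 ∧ ⟪nu k', q⟫_ℝ = 1 ∧
    ∃ a b : ℝ, 0 ≤ a ∧ 0 ≤ b ∧ a + b = 1 ∧ a • p + b • q = o

lemma Pr.symm {n : ℕ} {o : EE (V n)} {k k' : Ix n} (h : Pr o k k') : Pr o k' k := by
  obtain ⟨p, hp, q, hq, h1, h2, a, b, ha, hb, hab, h⟩ := h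
  exact ⟨q, hq, p, hp, h2, h1, b, a, hb, ha, by rw [add_comm, hab], by rw [add_comm, h]⟩

lemma two {n : ℕ} {o v : EE (V n)} {k k' : Ix n} {s t : ℝ} (hs : 0 < s) (ht : 0 < t)
    (hp : o + s • v ∈ KK n) (hq : o - t • v ∈ KK n) (h1 : ⟪nu k, o + s • v⟫_ℝ = 1)
    (h2 : ⟪nu k', o - t • v⟫_ℝ = 1) : Pr o k k' := by
  have hst : 0 < s + t := by linarith
  refine ⟨_, hp, _, hq, h1, h2, t / (s + t), s / (s + t), by positivity, by positivity, ?_, ?_⟩
  · rw [← add_div, add_comm, div_self hst.ne']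
  · have e : (t / (s + t)) • (o + s • v) + (s / (s + t)) • (o - t • v) =
        ((t + s) / (s + t)) • o := by
      rw [add_div]
      module
    rw [e, add_comm t s, div_self hst.ne', one_smul]

lemma pairH {n : ℕ} {o v : EE (V n)} {k k' : Ix n} (hk : k ≠ Sum.inr 3) (hk' : k' ≠ Sum.inr 3)
    (hv : zz v = 0) (ho : o ∈ NN n) (hoz : -1 < zz o) (hM : 0 < ⟪nu k, v⟫_ℝ)
    (hM' : ⟪nu k', v⟫_ℝ < 0) (h1 : ∀ l, l ≠ k → ⟪nu l, v⟫_ℝ ≤ 3 / 4 * ⟪nu k, v⟫_ℝ)
    (h2 : ∀ l, l ≠ k' → 3 / 4 * ⟪nu k', v⟫_ℝ ≤ ⟪nu l, v⟫_ℝ) : Pr o k k' := by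
  obtain ⟨ho1, ho2⟩ := ho
  rw [mem_setOf_eq] at ho2
  have hk0 := abs_lt.1 (ho1 k hk)
  have hk0' := abs_lt.1 (ho1 k' hk')
  set M := ⟪nu k, v⟫_ℝ with hMd
  set M' := ⟪nu k', v⟫_ℝ with hMd'
  set s := (1 - ⟪nu k, o⟫_ℝ) / M with hs
  set t := (1 - ⟪nu k', o⟫_ℝ) / (-M') with ht
  have hsM : s * M = 1 - ⟪nu k, o⟫_ℝ := div_mul_cancel₀ _ hM.ne'
  have htM : t * M' = -(1 - ⟪nu k', o⟫_ℝ) := by
    have : t * (-M') = 1 - ⟪nu k', o⟫_ℝ := div_mul_cancel₀ _ (by linarith)
    linarith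
  have hs0 : 0 < s := div_pos (by linarith) hM
  have ht0 : 0 < t := div_pos (by linarith) (by linarith)
  refine two (v := v) hs0 ht0 ⟨fun l => ?_, ?_⟩ ⟨fun l => ?_, ?_⟩ ?_ ?_
  · rw [inner_add_right, real_inner_smul_right]
    by_cases hl : l = k
    · rw [hl, ← hMd, hsM]
      linarith
    · by_cases hl3 : l = Sum.inr 3
      · rw [hl3, nu_3, nu_3, hv]
        linarith
      · have h3 := mul_le_mul_of_nonneg_left (h1 l hl) hs0.le
        have h4 := abs_lt.1 (ho1 l hl3)
        nlinarith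
  · rw [zz_add, zz_smul, hv]
    linarith
  · rw [inner_sub_right, real_inner_smul_right]
    by_cases hl : l = k'
    · rw [hl, ← hMd', htM]
      linarith
    · by_cases hl3 : l = Sum.inr 3
      · rw [hl3, nu_3, nu_3, hv]
        linarith
      · have h3 := mul_le_mul_of_nonneg_left (h2 l hl) ht0.le
        have h4 := abs_lt.1 (ho1 l hl3)
        nlinarith
  · rw [zz_sub, zz_smul, hv]
    linarith
  · rw [inner_add_right, real_inner_smul_right, ← hMd, hsM]
    ring
  · rw [inner_sub_right, real_inner_smul_right, ← hMd', htM]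
    ring

lemma pairV {n : ℕ} {o v : EE (V n)} {k : Ix n} (hk : k ≠ Sum.inr 3)
    (hv : 0 < zz v) (ho : o ∈ NN n) (hoz : -1 < zz o) (hM : ⟪nu k, v⟫_ℝ = zz v)
    (h1 : ∀ l, l ≠ Sum.inr 3 → l ≠ k → ⟪nu l, v⟫_ℝ ≤ 3 / 4 * zz v)
    (h2 : ∀ l, l ≠ Sum.inr 3 → -⟪nu l, v⟫_ℝ ≤ zz v) : Pr o k (Sum.inr 3) := by
  obtain ⟨ho1, ho2⟩ := ho
  rw [mem_setOf_eq] at ho2
  have hk0 := abs_lt.1 (ho1 k hk)
  set s := (1 - ⟪nu k, o⟫_ℝ) / zz v with hs
  set t := (1 + zz o) / zz v with ht
  have hsM : s * zz v = 1 - ⟪nu k, o⟫_ℝ := div_mul_cancel₀ _ hv.ne'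
  have htM : t * zz v = 1 + zz o := div_mul_cancel₀ _ hv.ne'
  have hs0 : 0 < s := div_pos (by linarith) hv
  have ht0 : 0 < t := div_pos (by linarith) hv
  refine two (v := v) hs0 ht0 ⟨fun l => ?_, ?_⟩ ⟨fun l => ?_, ?_⟩ ?_ ?_
  · rw [inner_add_right, real_inner_smul_right]
    by_cases hl : l = k
    · rw [hl, hM, hsM]
      linarith
    · by_cases hl3 : l = Sum.inr 3
      · rw [hl3, nu_3, nu_3]
        nlinarith
      · have h3 := mul_le_mul_of_nonneg_left (h1 l hl3 hl) hs0.le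
        have h4 := abs_lt.1 (ho1 l hl3)
        nlinarith
  · rw [zz_add, zz_smul, hsM]
    linarith
  · rw [inner_sub_right, real_inner_smul_right]
    by_cases hl3 : l = Sum.inr 3
    · rw [hl3, nu_3, nu_3, mul_neg, htM]
      linarith
    · have h3 := mul_le_mul_of_nonneg_left (h2 l hl3) ht0.le
      have h4 := abs_lt.1 (ho1 l hl3)
      nlinarith
  · rw [zz_sub, zz_smul, htM]
    linarith
  · rw [inner_add_right, real_inner_smul_right, hM, hsM]
    ring
  · rw [inner_sub_right, real_inner_smul_right, nu_3, nu_3, mul_neg, htM]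
    ring

section pairs

variable {n : ℕ} {o : EE (V n)}

lemma forall_ix {P : Ix n → Prop} (h : ∀ i, P (Sum.inl i)) (h0 : P (Sum.inr 0))
    (h1 : P (Sum.inr 1)) (h2 : P (Sum.inr 2)) (h3 : P (Sum.inr 3)) : ∀ l, P l := by
  rintro (i | j)
  · exact h i
  · fin_cases j
    · exact h0
    · exact h1
    · exact h2
    · exact h3

lemma p_ll (ho : o ∈ NN n) (hoz : -1 < zz o) {i j : Fin n} (hij : i ≠ j) :
    Pr o (Sum.inl i) (Sum.inl j) := by
  have hs : ∑ l, (-(ev i) + ev j : V n) l = 0 := by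
    have : ∑ l, (-(ev i) + ev j : V n) l = -(∑ l, (ev i) l) + ∑ l, (ev j) l := by
      rw [← Finset.sum_neg_distrib, ← Finset.sum_add_distrib]
      rfl
    rw [this, sum_ev, sum_ev]
    ring
  have hc : ∀ l, (-(ev i) + ev j : V n) l = -(if l = i then 1 else 0) + (if l = j then 1 else 0) := by
    intro l
    rw [← ev_apply, ← ev_apply]
    rfl
  refine pairH (v := pv (-(ev i) + ev j) 0 0) (by simp) (by simp) rfl ho hoz ?_ ?_ ?_ ?_
  · rw [nu_l, aa_pv, hc, if_pos rfl, if_neg hij]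
    norm_num
  · rw [nu_l, aa_pv, hc, if_pos rfl, if_neg hij.symm]
    norm_num
  · rw [nu_l, aa_pv, hc, if_pos rfl, if_neg hij]
    refine forall_ix (fun l hl => ?_) ?_ ?_ ?_ ?_
    · rw [nu_l, aa_pv, hc, if_neg fun h => hl (by rw [h])]
      split_ifs <;> norm_num
    · intro _
      rw [nu_0, aa_pv, hs]
      norm_num
    · intro _
      rw [nu_1, yy_pv]
      norm_num
    · intro _
      rw [nu_2, yy_pv]
      norm_num
    · intro _
      rw [nu_3, zz_pv]
      norm_num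
  · rw [nu_l, aa_pv, hc, if_pos rfl, if_neg hij.symm]
    refine forall_ix (fun l hl => ?_) ?_ ?_ ?_ ?_
    · rw [nu_l, aa_pv, hc, if_neg (c := l = j) fun h => hl (by rw [h])]
      split_ifs <;> norm_num
    · intro _
      rw [nu_0, aa_pv, hs]
      norm_num
    · intro _
      rw [nu_1, yy_pv]
      norm_num
    · intro _
      rw [nu_2, yy_pv]
      norm_num
    · intro _
      rw [nu_3, zz_pv]
      norm_num

lemma p_l0 (ho : o ∈ NN n) (hoz : -1 < zz o) (i : Fin n) : Pr o (Sum.inl i) (Sum.inr 0) := by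
  have hs : ∑ l, (-(ev i) : V n) l = -1 := by
    have : ∑ l, (-(ev i) : V n) l = -(∑ l, (ev i) l) := by
      rw [← Finset.sum_neg_distrib]
      rfl
    rw [this, sum_ev]
  have hc : ∀ l, (-(ev i) : V n) l = -(if l = i then 1 else 0) := by
    intro l
    rw [← ev_apply]
    rfl
  refine pairH (v := pv (-(ev i)) 0 0) (by simp) (by simp) rfl ho hoz ?_ ?_ ?_ ?_
  · rw [nu_l, aa_pv, hc, if_pos rfl]
    norm_num
  · rw [nu_0, aa_pv, hs]
    norm_num
  · rw [nu_l, aa_pv, hc, if_pos rfl]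
    refine forall_ix (fun l hl => ?_) ?_ ?_ ?_ ?_
    · rw [nu_l, aa_pv, hc, if_neg fun h => hl (by rw [h])]
      norm_num
    · intro _
      rw [nu_0, aa_pv, hs]
      norm_num
    · intro _
      rw [nu_1, yy_pv]
      norm_num
    · intro _
      rw [nu_2, yy_pv]
      norm_num
    · intro _
      rw [nu_3, zz_pv]
      norm_num
  · rw [nu_0, aa_pv, hs]
    refine forall_ix (fun l hl => ?_) ?_ ?_ ?_ ?_
    · rw [nu_l, aa_pv, hc]
      split_ifs <;> norm_num
    · intro h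
      exact absurd rfl h
    · intro _
      rw [nu_1, yy_pv]
      norm_num
    · intro _
      rw [nu_2, yy_pv]
      norm_num
    · intro _
      rw [nu_3, zz_pv]
      norm_num

lemma p_l12 (hn : 2 ≤ n) (ho : o ∈ NN n) (hoz : -1 < zz o) (i : Fin n) :
    Pr o (Sum.inl i) (Sum.inr 1) ∧ Pr o (Sum.inl i) (Sum.inr 2) := by
  have hn' : (2 : ℝ) ≤ n := by exact_mod_cast hn
  have hc : ∀ l, (sv n - ((n : ℝ) + 1) • ev i : V n) l = 1 - ((n : ℝ) + 1) * (if l = i then 1 else 0) := by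
    intro l
    rw [← ev_apply, ← sv_apply (n := n) l]
    rfl
  have hs : ∑ l, (sv n - ((n : ℝ) + 1) • ev i : V n) l = -1 := by
    simp only [hc]
    rw [Finset.sum_sub_distrib, ← Finset.mul_sum]
    simp
  constructor
  · refine pairH (v := pv (sv n - ((n : ℝ) + 1) • ev i) (-(3 / 2)) 0) (by simp) (by simp) rfl ho
      hoz ?_ ?_ ?_ ?_
    · rw [nu_l, aa_pv, hc, if_pos rfl]
      linarith
    · rw [nu_1, yy_pv]
      norm_num
    · rw [nu_l, aa_pv, hc, if_pos rfl]
      refine forall_ix (fun l hl => ?_) ?_ ?_ ?_ ?_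
      · rw [nu_l, aa_pv, hc, if_neg fun h => hl (by rw [h])]
        linarith
      · intro _
        rw [nu_0, aa_pv, hs]
        linarith
      · intro _
        rw [nu_1, yy_pv]
        linarith
      · intro _
        rw [nu_2, yy_pv]
        linarith
      · intro _
        rw [nu_3, zz_pv]
        linarith
    · rw [nu_1, yy_pv]
      refine forall_ix (fun l hl => ?_) ?_ ?_ ?_ ?_
      · rw [nu_l, aa_pv, hc]
        split_ifs <;> linarith
      · intro _
        rw [nu_0, aa_pv, hs]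
        linarith
      · intro h
        exact absurd rfl h
      · intro _
        rw [nu_2, yy_pv]
        linarith
      · intro _
        rw [nu_3, zz_pv]
        linarith
  · refine pairH (v := pv (sv n - ((n : ℝ) + 1) • ev i) (3 / 2) 0) (by simp) (by simp) rfl ho
      hoz ?_ ?_ ?_ ?_
    · rw [nu_l, aa_pv, hc, if_pos rfl]
      linarith
    · rw [nu_2, yy_pv]
      norm_num
    · rw [nu_l, aa_pv, hc, if_pos rfl]
      refine forall_ix (fun l hl => ?_) ?_ ?_ ?_ ?_
      · rw [nu_l, aa_pv, hc, if_neg fun h => hl (by rw [h])]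
        linarith
      · intro _
        rw [nu_0, aa_pv, hs]
        linarith
      · intro _
        rw [nu_1, yy_pv]
        linarith
      · intro _
        rw [nu_2, yy_pv]
        linarith
      · intro _
        rw [nu_3, zz_pv]
        linarith
    · rw [nu_2, yy_pv]
      refine forall_ix (fun l hl => ?_) ?_ ?_ ?_ ?_
      · rw [nu_l, aa_pv, hc]
        split_ifs <;> linarith
      · intro _
        rw [nu_0, aa_pv, hs]
        linarith
      · intro _
        rw [nu_1, yy_pv]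
        linarith
      · intro h
        exact absurd rfl h
      · intro _
        rw [nu_3, zz_pv]
        linarith

lemma p_012 (hn : 2 ≤ n) (ho : o ∈ NN n) (hoz : -1 < zz o) :
    Pr o (Sum.inr 0) (Sum.inr 1) ∧ Pr o (Sum.inr 0) (Sum.inr 2) := by
  have hn' : (2 : ℝ) ≤ n := by exact_mod_cast hn
  constructor
  · refine pairH (v := pv (sv n) (-(3 / 2)) 0) (by simp) (by simp) rfl ho hoz ?_ ?_ ?_ ?_
    · rw [nu_0, aa_pv, sum_sv]
      linarith
    · rw [nu_1, yy_pv]
      norm_num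
    · rw [nu_0, aa_pv, sum_sv]
      refine forall_ix (fun l hl => ?_) ?_ ?_ ?_ ?_
      · rw [nu_l, aa_pv, sv_apply]
        linarith
      · intro h
        exact absurd rfl h
      · intro _
        rw [nu_1, yy_pv]
        linarith
      · intro _
        rw [nu_2, yy_pv]
        linarith
      · intro _
        rw [nu_3, zz_pv]
        linarith
    · rw [nu_1, yy_pv]
      refine forall_ix (fun l hl => ?_) ?_ ?_ ?_ ?_
      · rw [nu_l, aa_pv, sv_apply]
        linarith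
      · intro _
        rw [nu_0, aa_pv, sum_sv]
        linarith
      · intro h
        exact absurd rfl h
      · intro _
        rw [nu_2, yy_pv]
        linarith
      · intro _
        rw [nu_3, zz_pv]
        linarith
  · refine pairH (v := pv (sv n) (3 / 2) 0) (by simp) (by simp) rfl ho hoz ?_ ?_ ?_ ?_
    · rw [nu_0, aa_pv, sum_sv]
      linarith
    · rw [nu_2, yy_pv]
      norm_num
    · rw [nu_0, aa_pv, sum_sv]
      refine forall_ix (fun l hl => ?_) ?_ ?_ ?_ ?_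
      · rw [nu_l, aa_pv, sv_apply]
        linarith
      · intro h
        exact absurd rfl h
      · intro _
        rw [nu_1, yy_pv]
        linarith
      · intro _
        rw [nu_2, yy_pv]
        linarith
      · intro _
        rw [nu_3, zz_pv]
        linarith
    · rw [nu_2, yy_pv]
      refine forall_ix (fun l hl => ?_) ?_ ?_ ?_ ?_
      · rw [nu_l, aa_pv, sv_apply]
        linarith
      · intro _
        rw [nu_0, aa_pv, sum_sv]
        linarith
      · intro _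
        rw [nu_1, yy_pv]
        linarith
      · intro h
        exact absurd rfl h
      · intro _
        rw [nu_3, zz_pv]
        linarith

lemma sum_zero' : ∑ i, (0 : V n) i = 0 := by simp

lemma p_12 (ho : o ∈ NN n) (hoz : -1 < zz o) : Pr o (Sum.inr 1) (Sum.inr 2) := by
  refine pairH (v := pv 0 1 0) (by simp) (by simp) rfl ho hoz ?_ ?_ ?_ ?_
  · rw [nu_1, yy_pv]
    norm_num
  · rw [nu_2, yy_pv]
    norm_num
  · rw [nu_1, yy_pv]
    refine forall_ix (fun l hl => ?_) ?_ ?_ ?_ ?_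
    · rw [nu_l, aa_pv]
      simp <;> norm_num
    · intro _
      rw [nu_0, aa_pv, sum_zero']
      norm_num
    · intro h
      exact absurd rfl h
    · intro _
      rw [nu_2, yy_pv]
      norm_num
    · intro _
      rw [nu_3, zz_pv]
      norm_num
  · rw [nu_2, yy_pv]
    refine forall_ix (fun l hl => ?_) ?_ ?_ ?_ ?_
    · rw [nu_l, aa_pv]
      simp <;> norm_num
    · intro _
      rw [nu_0, aa_pv, sum_zero']
      norm_num
    · intro _
      rw [nu_1, yy_pv]
      norm_num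
    · intro h
      exact absurd rfl h
    · intro _
      rw [nu_3, zz_pv]
      norm_num

lemma p_l3 (ho : o ∈ NN n) (hoz : -1 < zz o) (i : Fin n) : Pr o (Sum.inl i) (Sum.inr 3) := by
  have hs : ∑ l, (-(ev i) : V n) l = -1 := by
    have : ∑ l, (-(ev i) : V n) l = -(∑ l, (ev i) l) := by
      rw [← Finset.sum_neg_distrib]
      rfl
    rw [this, sum_ev]
  have hc : ∀ l, (-(ev i) : V n) l = -(if l = i then 1 else 0) := by
    intro l
    rw [← ev_apply]
    rfl
  refine pairV (v := pv (-(ev i)) 0 1) (by simp) one_pos ho hoz ?_ ?_ ?_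
  · rw [nu_l, aa_pv, hc, if_pos rfl, zz_pv]
    norm_num
  · rw [zz_pv]
    refine forall_ix (fun l _ hl => ?_) ?_ ?_ ?_ ?_
    · rw [nu_l, aa_pv, hc, if_neg fun h => hl (by rw [h])]
      norm_num
    · intro _ _
      rw [nu_0, aa_pv, hs]
      norm_num
    · intro _ _
      rw [nu_1, yy_pv]
      norm_num
    · intro _ _
      rw [nu_2, yy_pv]
      norm_num
    · intro h
      exact absurd rfl h
  · rw [zz_pv]
    refine forall_ix (fun l _ => ?_) ?_ ?_ ?_ ?_
    · rw [nu_l, aa_pv, hc]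
      split_ifs <;> norm_num
    · intro _
      rw [nu_0, aa_pv, hs]
      norm_num
    · intro _
      rw [nu_1, yy_pv]
      norm_num
    · intro _
      rw [nu_2, yy_pv]
      norm_num
    · intro h
      exact absurd rfl h

lemma p_03 (hn : 2 ≤ n) (ho : o ∈ NN n) (hoz : -1 < zz o) : Pr o (Sum.inr 0) (Sum.inr 3) := by
  have hn' : (2 : ℝ) ≤ n := by exact_mod_cast hn
  refine pairV (v := pv (sv n) 0 n) (by simp) (by rw [zz_pv]; linarith) ho hoz ?_ ?_ ?_
  · rw [nu_0, aa_pv, sum_sv, zz_pv]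
  · rw [zz_pv]
    refine forall_ix (fun l _ hl => ?_) ?_ ?_ ?_ ?_
    · rw [nu_l, aa_pv, sv_apply]
      linarith
    · intro _ h
      exact absurd rfl h
    · intro _ _
      rw [nu_1, yy_pv]
      linarith
    · intro _ _
      rw [nu_2, yy_pv]
      linarith
    · intro h
      exact absurd rfl h
  · rw [zz_pv]
    refine forall_ix (fun l _ => ?_) ?_ ?_ ?_ ?_
    · rw [nu_l, aa_pv, sv_apply]
      linarith
    · intro _
      rw [nu_0, aa_pv, sum_sv]
      linarith
    · intro _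
      rw [nu_1, yy_pv]
      linarith
    · intro _
      rw [nu_2, yy_pv]
      linarith
    · intro h
      exact absurd rfl h

lemma p_13 (ho : o ∈ NN n) (hoz : -1 < zz o) : Pr o (Sum.inr 1) (Sum.inr 3) := by
  refine pairV (v := pv 0 1 1) (by simp) one_pos ho hoz ?_ ?_ ?_
  · rw [nu_1, yy_pv, zz_pv]
  · rw [zz_pv]
    refine forall_ix (fun l _ hl => ?_) ?_ ?_ ?_ ?_
    · rw [nu_l, aa_pv]
      simp <;> norm_num
    · intro _ _
      rw [nu_0, aa_pv, sum_zero']
      norm_num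
    · intro _ h
      exact absurd rfl h
    · intro _ _
      rw [nu_2, yy_pv]
      norm_num
    · intro h
      exact absurd rfl h
  · rw [zz_pv]
    refine forall_ix (fun l _ => ?_) ?_ ?_ ?_ ?_
    · rw [nu_l, aa_pv]
      simp <;> norm_num
    · intro _
      rw [nu_0, aa_pv, sum_zero']
      norm_num
    · intro _
      rw [nu_1, yy_pv]
      norm_num
    · intro _
      rw [nu_2, yy_pv]
      norm_num
    · intro h
      exact absurd rfl h

lemma p_23 (ho : o ∈ NN n) (hoz : -1 < zz o) : Pr o (Sum.inr 2) (Sum.inr 3) := by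
  refine pairV (v := pv 0 (-1) 1) (by simp) one_pos ho hoz ?_ ?_ ?_
  · rw [nu_2, yy_pv, zz_pv]
    norm_num
  · rw [zz_pv]
    refine forall_ix (fun l _ hl => ?_) ?_ ?_ ?_ ?_
    · rw [nu_l, aa_pv]
      simp <;> norm_num
    · intro _ _
      rw [nu_0, aa_pv, sum_zero']
      norm_num
    · intro _ _
      rw [nu_1, yy_pv]
      norm_num
    · intro _ h
      exact absurd rfl h
    · intro h
      exact absurd rfl h
  · rw [zz_pv]
    refine forall_ix (fun l _ => ?_) ?_ ?_ ?_ ?_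
    · rw [nu_l, aa_pv]
      simp <;> norm_num
    · intro _
      rw [nu_0, aa_pv, sum_zero']
      norm_num
    · intro _
      rw [nu_1, yy_pv]
      norm_num
    · intro _
      rw [nu_2, yy_pv]
      norm_num
    · intro h
      exact absurd rfl h

/-- all pairs -/
lemma pairs (hn : 2 ≤ n) (ho : o ∈ NN n) (hoz : -1 < zz o) : ∀ k k' : Ix n, k ≠ k' → Pr o k k' := by
  refine forall_ix (fun i => ?_) ?_ ?_ ?_ ?_
  · refine forall_ix (fun j hij => ?_) ?_ ?_ ?_ ?_
    · exact p_ll ho hoz fun h => hij (by rw [h])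
    · exact fun _ => p_l0 ho hoz i
    · exact fun _ => (p_l12 hn ho hoz i).1
    · exact fun _ => (p_l12 hn ho hoz i).2
    · exact fun _ => p_l3 ho hoz i
  · refine forall_ix (fun j _ => ?_) ?_ ?_ ?_ ?_
    · exact (p_l0 ho hoz j).symm
    · exact fun h => absurd rfl h
    · exact fun _ => (p_012 hn ho hoz).1
    · exact fun _ => (p_012 hn ho hoz).2
    · exact fun _ => p_03 hn ho hoz
  · refine forall_ix (fun j _ => ?_) ?_ ?_ ?_ ?_
    · exact (p_l12 hn ho hoz j).1.symm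
    · exact fun _ => (p_012 hn ho hoz).1.symm
    · exact fun h => absurd rfl h
    · exact fun _ => p_12 ho hoz
    · exact fun _ => p_13 ho hoz
  · refine forall_ix (fun j _ => ?_) ?_ ?_ ?_ ?_
    · exact (p_l12 hn ho hoz j).2.symm
    · exact fun _ => (p_012 hn ho hoz).2.symm
    · exact fun _ => (p_12 ho hoz).symm
    · exact fun h => absurd rfl h
    · exact fun _ => p_23 ho hoz
  · refine forall_ix (fun j _ => ?_) ?_ ?_ ?_ ?_
    · exact (p_l3 ho hoz j).symm
    · exact fun _ => (p_03 hn ho hoz).symm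
    · exact fun _ => (p_13 ho hoz).symm
    · exact fun _ => (p_23 ho hoz).symm
    · exact fun h => absurd rfl h

/-- **`d + 2` hyperplanes are needed near the boundary point.** -/
theorem needed (hn : 2 ≤ n) (ho : o ∈ NN n) (hoi : o ∈ interior (KK n)) {m : ℕ}
    (hs : Sepd m (KK n) o) : finrank ℝ (EE (V n)) + 2 ≤ m := by
  have hoz : -1 < zz o := by
    by_contra hcon
    push Not at hcon
    refine Pool.Agent.N321.NB.not_int_of_max (nu3_ne n) (fun x hx => ?_) hoi
    have h1 := hx.1 (Sum.inr 3)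
    rw [nu_3 o]
    linarith
  have hp := pairs hn ho hoz
  have hx : ∀ k : Ix n, ∃ p ∈ KK n, ⟪nu k, p⟫_ℝ = 1 := by
    intro k
    by_cases hk : k = Sum.inr 3
    · obtain ⟨-, -, q, hq, -, h, -⟩ := hp (Sum.inr 2) k (by
        rw [hk]
        intro h
        exact absurd (Sum.inr.inj h) (by decide))
      exact ⟨q, hq, h⟩
    · obtain ⟨p, hp', -, -, h, -⟩ := hp k (Sum.inr 3) hk
      exact ⟨p, hp', h⟩
  choose x₀ hx₀ hx₁ using hx
  have h1 := Pool.Agent.N321.NB.lower_of_faces (K := KK n) (o := o) (nu : Ix n → EE (V n)) x₀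
    (fun k h => by
      have := hx₁ k
      rw [h, inner_zero_left] at this
      exact zero_ne_one this) hx₀ (fun k y hy => by rw [hx₁]; exact hy.1 k)
    (fun k k' hkk => by
      obtain ⟨p, hp', q, hq, h1, h2, h3⟩ := hp k k' hkk
      exact ⟨p, hp', q, hq, by rw [hx₁, h1], by rw [hx₁, h2], h3⟩) hs
  rw [finrankv, finrank_euclideanSpace, Fintype.card_fin]
  rw [Fintype.card_sum, Fintype.card_fin, Fintype.card_fin] at h1
  omega

end pairs

end Pool.Agent.N321.MN.Neg
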