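import Pool.Agent.N321.MN.G
import Pool.Agent.N321.NB.Three

set_option autoImplicit false
set_option linter.unusedSectionVars false

/-!
# Projective maps, and good points in planar sets
-/

namespace Pool.Agent.N321.MN

open scoped InnerProductSpace Topology
open Metric Module Filter Set
open Pool.Agent.H985.Sep (polar)

variable {E : Type} [NormedAddCommGroup E] [InnerProductSpace ℝ E] [FiniteDimensional ℝ E]

/-- the set of good points -/
def G (n : ℕ) (C : Set E) : Set E := {o | o ∈ interior C ∧ cv n C o}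

lemma cover_affine {P Q : Set E} (A : E ≃ₗ[ℝ] E) (c : E) (h : ∀ v, v ∈ P ↔ A v + c ∈ Q) {n : ℕ}
    (hcov : ∃ T : Finset E, T.card ≤ n ∧ Q ⊆ ⋃ t ∈ T, (fun x => t + x) '' interior Q) :
    ∃ T : Finset E, T.card ≤ n ∧ P ⊆ ⋃ t ∈ T, (fun x => t + x) '' interior P := by
  classical
  obtain ⟨T, hT, hcov⟩ := hcov
  have hP : P = (A.toContinuousLinearEquiv.toHomeomorph.trans (Homeomorph.addRight c)) ⁻¹' Q := by
    ext v
    exact h v
  have hPi : ∀ v, v ∈ interior P ↔ A v + c ∈ interior Q := by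
    intro v
    rw [hP, ← Homeomorph.preimage_interior]
    rfl
  refine ⟨T.image A.symm, Finset.card_image_le.trans hT, fun v hv => ?_⟩
  have h1 := hcov ((h v).1 hv)
  simp only [mem_iUnion] at h1 ⊢
  obtain ⟨t, ht, y, hy, hvy⟩ := h1
  refine ⟨A.symm t, Finset.mem_image_of_mem _ ht, A.symm (y - c), ?_, ?_⟩
  · rw [hPi, A.apply_symm_apply, sub_add_cancel]
    exact hy
  · simp only at hvy ⊢
    rw [← map_add, ← add_sub_assoc, hvy, add_sub_cancel_right, A.symm_apply_apply]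

/-- the bipolar theorem -/
lemma bipolar {C : Set E} (hC : Convex ℝ C) (hcl : IsClosed C) (h0 : (0 : E) ∈ C) {x : E}
    (h : ∀ v ∈ polar C 0, ⟪v, x⟫_ℝ ≤ 1) : x ∈ C := by
  by_contra hx
  obtain ⟨f, u, h1, h2⟩ := geometric_hahn_banach_closed_point hC hcl hx
  set g : E := (InnerProductSpace.toDual ℝ E).symm f with hg
  have hgf : ∀ x, ⟪g, x⟫_ℝ = f x := fun x => InnerProductSpace.toDual_symm_apply
  have hu : 0 < u := by simpa using h1 0 h0
  have h3 := h (u⁻¹ • g) (fun y hy => by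
    rw [sub_zero, real_inner_smul_left, hgf, inv_mul_le_iff₀ hu, mul_one]
    exact (h1 y hy).le)
  rw [real_inner_smul_left, hgf, inv_mul_le_iff₀ hu, mul_one] at h3
  linarith

/-- **Projective maps.** -/
theorem proj [Nontrivial E] {C : Set E} (hC : Convex ℝ C) (hcl : IsClosed C) (hl : LF C)
    (h0 : (0 : E) ∈ interior C) : ∃ (C' : Set E) (p : E), Convex ℝ C' ∧ IsCompact C' ∧
      (0 : E) ∈ interior C' ∧
      (∀ x ∈ C, 0 < 1 - ⟪p, x⟫_ℝ) ∧
      (∀ (n : ℕ), ∀ o' ∈ G n C', 0 < 1 + ⟪p, o'⟫_ℝ ∧ (1 + ⟪p, o'⟫_ℝ)⁻¹ • o' ∈ G n C) ∧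
      ∀ x ∈ interior C, (1 - ⟪p, x⟫_ℝ)⁻¹ • x ∈ interior C' := by
  obtain ⟨e, c, he, hc, hec⟩ := hl.pointed hcl
  obtain ⟨ε, hε, hp⟩ := cv_point hC hcl (interior_subset h0) (zero_mem_polar C 0) (w := e)
    (fun x hx h => by simp at h) (fun d hd hd0 _ => by
      have := hec d hd
      have h2 : 0 < c * ‖d‖ := mul_pos hc (norm_pos_iff.2 hd0)
      linarith)
  set p : E := 0 - ε • e with hpdef
  set P := polar C 0 with hP
  have h0C := interior_subset h0
  have hPc : IsCompact P := Pool.Agent.H985.Sep.isCompact_polar h0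
  obtain ⟨r, hr, hrP⟩ := Metric.nhds_basis_closedBall.mem_iff.1 (mem_interior_iff_mem_nhds.1 hp)
  set C' : Set E := {x | ∀ v ∈ P, ⟪v, x⟫_ℝ ≤ 1 + ⟪p, x⟫_ℝ} with hC'
  have hC'v : Convex ℝ C' := by
    intro x hx y hy a b ha hb hab v hv
    have h1 := hx v hv
    have h2 := hy v hv
    rw [inner_add_right, inner_add_right, real_inner_smul_right, real_inner_smul_right,
      real_inner_smul_right, real_inner_smul_right]
    nlinarith
  have hC'cl : IsClosed C' := by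
    have : C' = ⋂ v ∈ P, {x | ⟪v, x⟫_ℝ ≤ 1 + ⟪p, x⟫_ℝ} := by
      ext x
      simp [hC']
    rw [this]
    exact isClosed_biInter fun v _ => isClosed_le (by fun_prop) (by fun_prop)
  have hC'b : ∀ x ∈ C', ‖x‖ ≤ 1 / r := by
    intro x hx
    rcases eq_or_ne x 0 with rfl | hx0
    · simp; positivity
    have hn : 0 < ‖x‖ := norm_pos_iff.2 hx0
    have h1 := hx (p + (r / ‖x‖) • x) (hrP (by
      rw [mem_closedBall, dist_eq_norm, add_sub_cancel_left, norm_smul, Real.norm_eq_abs,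
        abs_of_pos (by positivity), div_mul_cancel₀ _ hn.ne']))
    rw [inner_add_left, real_inner_smul_left, real_inner_self_eq_norm_sq] at h1
    have h2 : r / ‖x‖ * ‖x‖ ^ 2 = r * ‖x‖ := by field_simp
    rw [le_div_iff₀ hr]
    linarith
  have hC'c : IsCompact C' := Metric.isCompact_of_isClosed_isBounded hC'cl
    (isBounded_iff_forall_norm_le.2 ⟨1 / r, hC'b⟩)
  have hnn : ∀ x ∈ C', 0 ≤ 1 + ⟪p, x⟫_ℝ := by
    intro x hx
    have := hx 0 (zero_mem_polar C 0)
    rwa [inner_zero_left] at this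
  have h0C' : (0 : E) ∈ interior C' := by
    obtain ⟨R, hR⟩ := hPc.isBounded.exists_norm_le
    have hR0 : 0 ≤ R := (norm_nonneg _).trans (hR 0 (zero_mem_polar C 0))
    rw [mem_interior_iff_mem_nhds]
    refine Filter.mem_of_superset (ball_mem_nhds (0 : E)
      (show 0 < 1 / (R + ‖p‖ + 1) by positivity)) fun x hx v hv => ?_
    rw [mem_ball_zero_iff] at hx
    have h1 : ⟪v - p, x⟫_ℝ ≤ ‖v - p‖ * ‖x‖ := real_inner_le_norm _ _
    have h2 : ‖v - p‖ ≤ R + ‖p‖ := (norm_sub_le _ _).trans (by linarith [hR v hv])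
    have h3 : ‖v - p‖ * ‖x‖ ≤ (R + ‖p‖ + 1) * (1 / (R + ‖p‖ + 1)) :=
      mul_le_mul (by linarith) hx.le (norm_nonneg _) (by positivity)
    rw [mul_one_div_cancel (by positivity)] at h3
    rw [inner_sub_left] at h1
    linarith
  have hpos : ∀ x ∈ C, 0 < 1 - ⟪p, x⟫_ℝ := by
    intro x hx
    rcases eq_or_ne x 0 with rfl | hx0
    · simp
    have hn : 0 < ‖x‖ := norm_pos_iff.2 hx0
    have h1 := (hrP (show p + (r / ‖x‖) • x ∈ closedBall p r by
      rw [mem_closedBall, dist_eq_norm, add_sub_cancel_left, norm_smul, Real.norm_eq_abs,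
        abs_of_pos (by positivity), div_mul_cancel₀ _ hn.ne'])) x hx
    rw [sub_zero, inner_add_left, real_inner_smul_left, real_inner_self_eq_norm_sq] at h1
    have h2 : r / ‖x‖ * ‖x‖ ^ 2 = r * ‖x‖ := by field_simp
    have h3 : 0 < r * ‖x‖ := by positivity
    linarith
  have hdn : ∀ x ∈ C', 0 < 1 + ⟪p, x⟫_ℝ → (1 + ⟪p, x⟫_ℝ)⁻¹ • x ∈ C := by
    intro x hx hs
    refine bipolar hC hcl h0C fun v hv => ?_
    rw [real_inner_smul_right, inv_mul_le_iff₀ hs, mul_one]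
    exact hx v hv
  have hup : ∀ x ∈ C, (1 - ⟪p, x⟫_ℝ)⁻¹ • x ∈ C' := by
    intro x hx v hv
    have hs := hpos x hx
    have h1 := hv x hx
    rw [sub_zero] at h1
    rw [real_inner_smul_right, real_inner_smul_right]
    have h2 : 1 + (1 - ⟪p, x⟫_ℝ)⁻¹ * ⟪p, x⟫_ℝ = (1 - ⟪p, x⟫_ℝ)⁻¹ := by
      field_simp
      ring
    rw [h2]
    exact mul_le_of_le_one_right (by positivity) h1
  refine ⟨C', p, hC'v, hC'c, h0C', hpos, fun n o' ho' => ?_, fun x hx => ?_⟩
  · obtain ⟨hoi, hcv⟩ := ho'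
    have hs' : 0 < 1 + ⟪p, o'⟫_ℝ := by
      rcases (hnn o' (interior_subset hoi)).lt_or_eq with h | h
      · exact h
      · exfalso
        have hp0 : p ≠ 0 := by
          intro h1
          rw [h1, inner_zero_left] at h
          linarith
        refine Pool.Agent.N321.NB.not_int_of_max (u := -p) (by rwa [neg_ne_zero])
          (fun x hx => ?_) hoi
        have := hnn x hx
        rw [inner_neg_left, inner_neg_left]
        linarith
    obtain ⟨s', hs'def⟩ : ∃ s', s' = 1 + ⟪p, o'⟫_ℝ := ⟨_, rfl⟩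
    rw [← hs'def] at hs' ⊢
    obtain ⟨o, ho⟩ : ∃ o : E, o = s'⁻¹ • o' := ⟨_, rfl⟩
    rw [← ho]
    have hpo' : 1 - ⟪p, o⟫_ℝ = s'⁻¹ := by
      rw [ho, real_inner_smul_right]
      have : ⟪p, o'⟫_ℝ = s' - 1 := by rw [hs'def]; ring
      rw [this]
      field_simp
      ring
    obtain ⟨σ, hσ⟩ : ∃ σ, σ = 1 - ⟪p, o⟫_ℝ := ⟨_, rfl⟩
    have hpo : σ = s'⁻¹ := by rw [hσ, hpo']
    have hσ0 : 0 < σ := by rw [hpo]; positivity
    have ho' : o' = σ⁻¹ • o := by
      rw [hpo, inv_inv, ho, smul_smul, mul_inv_cancel₀ hs'.ne', one_smul]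
    have hoC : o ∈ C := by
      have := hdn o' (interior_subset hoi) (by rw [← hs'def]; exact hs')
      rwa [← hs'def, ← ho] at this
    refine ⟨hs', ?_, ?_⟩
    · rw [mem_interior_iff_mem_nhds]
      have hcont : ContinuousAt (fun x : E => (1 - ⟪p, x⟫_ℝ)⁻¹ • x) o := by
        refine ContinuousAt.smul (ContinuousAt.inv₀ (by fun_prop) (by rw [← hσ]; exact hσ0.ne'))
          continuousAt_id
      have h1 : ∀ᶠ x in 𝓝 o, (1 - ⟪p, x⟫_ℝ)⁻¹ • x ∈ interior C' := by
        refine hcont.eventually (isOpen_interior.mem_nhds ?_)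
        change (1 - ⟪p, o⟫_ℝ)⁻¹ • o ∈ interior C'
        rw [← hσ, ← ho']
        exact hoi
      have h2 : ∀ᶠ x in 𝓝 o, 0 < 1 - ⟪p, x⟫_ℝ := by
        have hc : Continuous fun x : E => 1 - ⟪p, x⟫_ℝ := by fun_prop
        exact hc.continuousAt.eventually_const_lt (by
          change 0 < 1 - ⟪p, o⟫_ℝ
          rw [← hσ]
          exact hσ0)
      filter_upwards [h1, h2] with x hx1 hx2
      have h3 : 1 + ⟪p, (1 - ⟪p, x⟫_ℝ)⁻¹ • x⟫_ℝ = (1 - ⟪p, x⟫_ℝ)⁻¹ := by
        rw [real_inner_smul_right]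
        field_simp
        ring
      have h4 := hdn _ (interior_subset hx1) (by rw [h3]; positivity)
      rw [h3, inv_inv, smul_smul, mul_inv_cancel₀ hx2.ne', one_smul] at h4
      exact h4
    · -- the affine map
      set Λ : E →ₗ[ℝ] E := σ • (LinearMap.id - ((innerₛₗ ℝ o : E →ₗ[ℝ] ℝ).smulRight p)) with hΛ
      have hΛa : ∀ v, Λ v = σ • (v - ⟪v, o⟫_ℝ • p) := by
        intro v
        simp [hΛ, real_inner_comm]
      have hinj : Function.Injective Λ := by
        rw [injective_iff_map_eq_zero]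
        intro v hv
        rw [hΛa, smul_eq_zero] at hv
        have h1 : v = ⟪v, o⟫_ℝ • p := sub_eq_zero.1 (hv.resolve_left hσ0.ne')
        have h2 : ⟪v, o⟫_ℝ * σ = 0 := by
          have h3 : ⟪v, o⟫_ℝ = ⟪v, o⟫_ℝ * ⟪p, o⟫_ℝ := by
            nth_rewrite 1 [h1]
            rw [real_inner_smul_left]
          rw [hσ]
          linarith
        have h3 : ⟪v, o⟫_ℝ = 0 := (mul_eq_zero.1 h2).resolve_right hσ0.ne'
        rw [h1, h3, zero_smul]
      have key : ∀ v x', 1 - ⟪Λ v + -(σ • p), x' - o'⟫_ℝ =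
          σ * ((1 + ⟪v, o⟫_ℝ) * (1 + ⟪p, x'⟫_ℝ) - ⟪v, x'⟫_ℝ) := by
        intro v x'
        rw [hΛa, ho', inner_add_left, inner_neg_left, real_inner_smul_left, real_inner_smul_left,
          inner_sub_left, real_inner_smul_left, inner_sub_right, inner_sub_right,
          real_inner_smul_right, real_inner_smul_right]
        have h1 : ⟪p, o⟫_ℝ = 1 - σ := by rw [hσ]; ring
        rw [h1]
        field_simp
        ring
      refine cover_affine (P := polar C o) (Q := polar C' o')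
        (LinearMap.linearEquivOfInjective Λ hinj rfl) (-(σ • p)) (fun v => ?_) hcv
      change v ∈ polar C o ↔ Λ v + -(σ • p) ∈ polar C' o'
      constructor
      · intro hv x' hx'
        have hgen : ∀ x' ∈ C', 0 < 1 + ⟪p, x'⟫_ℝ →
            0 ≤ (1 + ⟪v, o⟫_ℝ) * (1 + ⟪p, x'⟫_ℝ) - ⟪v, x'⟫_ℝ := by
          intro x' hx' hs
          have h1 := hv _ (hdn x' hx' hs)
          rw [inner_sub_right, real_inner_smul_right] at h1
          have h2 : (1 + ⟪p, x'⟫_ℝ) * ((1 + ⟪p, x'⟫_ℝ)⁻¹ * ⟪v, x'⟫_ℝ) = ⟪v, x'⟫_ℝ := by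
            rw [← mul_assoc, mul_inv_cancel₀ hs.ne', one_mul]
          nlinarith
        have h3 : 0 ≤ (1 + ⟪v, o⟫_ℝ) * (1 + ⟪p, x'⟫_ℝ) - ⟪v, x'⟫_ℝ := by
          rcases (hnn x' hx').lt_or_eq with hs | hs
          · exact hgen x' hx' hs
          · have hlim : Tendsto (fun t : ℝ => (1 + ⟪v, o⟫_ℝ) * (1 + ⟪p, t • x'⟫_ℝ) -
                ⟪v, t • x'⟫_ℝ) (𝓝[<] 1) (𝓝 ((1 + ⟪v, o⟫_ℝ) * (1 + ⟪p, (1 : ℝ) • x'⟫_ℝ) -
                ⟪v, (1 : ℝ) • x'⟫_ℝ)) := by
              refine Tendsto.mono_left (Continuous.tendsto ?_ _) nhdsWithin_le_nhds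
              fun_prop
            rw [one_smul] at hlim
            refine ge_of_tendsto hlim ?_
            have hev : ∀ᶠ t : ℝ in 𝓝[<] 1, 0 < t ∧ t < 1 :=
              (((eventually_gt_nhds (show (0 : ℝ) < 1 by norm_num)).filter_mono
                nhdsWithin_le_nhds).and self_mem_nhdsWithin)
            filter_upwards [hev] with t ht
            refine hgen _ ?_ ?_
            · have h4 := hC'v hx' (interior_subset h0C') (a := t) (b := 1 - t) ht.1.le
                (by linarith [ht.2]) (by ring)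
              rwa [smul_zero, add_zero] at h4
            · rw [real_inner_smul_right]
              nlinarith [ht.2]
        have h4 := key v x'
        have h5 : 0 ≤ 1 - ⟪Λ v + -(σ • p), x' - o'⟫_ℝ := by
          rw [h4]
          exact mul_nonneg hσ0.le h3
        linarith
      · intro hv x hx
        have h1 := hv _ (hup x hx)
        have h2 := key v ((1 - ⟪p, x⟫_ℝ)⁻¹ • x)
        have hs := hpos x hx
        have h3 : 0 ≤ σ * ((1 + ⟪v, o⟫_ℝ) * (1 + ⟪p, (1 - ⟪p, x⟫_ℝ)⁻¹ • x⟫_ℝ) -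
            ⟪v, (1 - ⟪p, x⟫_ℝ)⁻¹ • x⟫_ℝ) := by
          rw [← h2]
          linarith
        have h4 := nonneg_of_mul_nonneg_right h3 hσ0
        rw [real_inner_smul_right, real_inner_smul_right] at h4
        have h5 : 1 + (1 - ⟪p, x⟫_ℝ)⁻¹ * ⟪p, x⟫_ℝ = (1 - ⟪p, x⟫_ℝ)⁻¹ := by
          field_simp
          ring
        rw [h5] at h4
        have h6 : 0 ≤ (1 - ⟪p, x⟫_ℝ)⁻¹ * (1 - ⟪v, x - o⟫_ℝ) := by
          rw [inner_sub_right]
          linarith
        have h7 := nonneg_of_mul_nonneg_right h6 (inv_pos.2 hs)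
        linarith
  · have hs := hpos x (interior_subset hx)
    rw [mem_interior_iff_mem_nhds]
    set z : E := (1 - ⟪p, x⟫_ℝ)⁻¹ • x with hz
    have hsz : 1 + ⟪p, z⟫_ℝ = (1 - ⟪p, x⟫_ℝ)⁻¹ := by
      rw [hz, real_inner_smul_right]
      field_simp
      ring
    have hsz0 : 0 < 1 + ⟪p, z⟫_ℝ := by rw [hsz]; positivity
    have hcont : ContinuousAt (fun y : E => (1 + ⟪p, y⟫_ℝ)⁻¹ • y) z := by
      refine ContinuousAt.smul (ContinuousAt.inv₀ (by fun_prop) hsz0.ne') continuousAt_id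
    have h1 : ∀ᶠ y in 𝓝 z, (1 + ⟪p, y⟫_ℝ)⁻¹ • y ∈ interior C := by
      refine hcont.eventually (isOpen_interior.mem_nhds ?_)
      change (1 + ⟪p, z⟫_ℝ)⁻¹ • z ∈ interior C
      rw [hsz, inv_inv, hz, smul_smul, mul_inv_cancel₀ hs.ne', one_smul]
      exact hx
    have h2 : ∀ᶠ y in 𝓝 z, 0 < 1 + ⟪p, y⟫_ℝ := by
      have hc : Continuous fun y : E => 1 + ⟪p, y⟫_ℝ := by fun_prop
      exact hc.continuousAt.eventually_const_lt hsz0
    filter_upwards [h1, h2] with y hy1 hy2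
    have h3 : 1 - ⟪p, (1 + ⟪p, y⟫_ℝ)⁻¹ • y⟫_ℝ = (1 + ⟪p, y⟫_ℝ)⁻¹ := by
      rw [real_inner_smul_right]
      field_simp
      ring
    have h4 := hup _ (interior_subset hy1)
    rw [h3, inv_inv, smul_smul, mul_inv_cancel₀ hy2.ne', one_smul] at h4
    exact h4

end Pool.Agent.N321.MN
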