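import Pool.Agent.N321.MN.Neg

set_option autoImplicit false
set_option linter.unusedSectionVars false

/-!
# Limits of points with the least possible value
-/

namespace Pool.Agent.N321.MN

open scoped InnerProductSpace Topology
open Metric Module Filter Set
open Pool.Agent.R753.SJ (Sepd sepd_of_cover)

variable {E : Type} [NormedAddCommGroup E] [InnerProductSpace ℝ E] [FiniteDimensional ℝ E]

lemma Ss_line (hd : finrank ℝ E = 1) (C : Set E) : Ss C := by
  intro u x y hu _ _ _ hxy
  obtain ⟨s, hs⟩ := (finrank_eq_one_iff_of_nonzero' u hu).1 hd (y - x)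
  have h1 : ⟪u, y - x⟫_ℝ = 0 := by rw [inner_sub_right, hxy, sub_self]
  rw [← hs, real_inner_smul_right] at h1
  have h3 : s = 0 := (mul_eq_zero.1 h1).resolve_right (inner_self_ne_zero.2 hu)
  rw [h3, zero_smul] at hs
  exact sub_eq_zero.1 hs.symm

/-- **Dimension at most three.** -/
theorem near_low (hd : finrank ℝ E ≤ 3) {K : Set E} (hK : Convex ℝ K) (hKc : IsCompact K)
    (hint : (interior K).Nonempty) {y : E} (hy : y ∈ frontier K) :
    y ∈ closure (G (finrank ℝ E + 1) K) := by
  rw [frontier, hKc.isClosed.closure_eq] at hy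
  obtain ⟨hyK, hyi⟩ := hy
  have hl := LF_of_compact hKc ⟨y, hyK⟩
  interval_cases hd' : finrank ℝ E
  · exfalso
    have : Subsingleton E := Module.finrank_zero_iff.1 hd'
    obtain ⟨z, hz⟩ := hint
    rw [Subsingleton.elim z y] at hz
    exact hyi hz
  · have : Nontrivial E := Module.nontrivial_of_finrank_pos (R := ℝ) (by omega)
    have h1 : y ∈ closure (interior K) := by
      rw [hK.closure_interior_eq_closure_of_nonempty_interior hint]
      exact subset_closure hyK
    refine closure_mono (fun o ho => ?_) h1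
    have h2 := cv_strict hK hKc.isClosed hl (Ss_line hd' K) ho
    rw [hd'] at h2
    exact ⟨ho, h2⟩
  · rw [_root_.mem_closure_iff]
    intro U hU hyU
    obtain ⟨q, hq1, hq2⟩ := dense_plane hd' hK hKc.isClosed hl hint hyK hU hyU
    exact ⟨q, hq1, hq2⟩
  · exact near_boundary hd' hK hKc hint hyK hyi

lemma G_sepd {K : Set E} {o : E} {n : ℕ} (h : o ∈ G n K) : Sepd n K o := sepd_of_cover h.1 h.2

end Pool.Agent.N321.MN
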