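import Pool.Agent.N321.MN.P
import Pool.Agent.N321.MN.M

set_option autoImplicit false
set_option linter.unusedSectionVars false

/-!
# Good points are dense in planar sets, and exist in three-dimensional sets without lines
-/

namespace Pool.Agent.N321.MN

open scoped InnerProductSpace Topology
open Metric Module Filter Set
open Pool.Agent.H985.Sep (polar)
open Pool.Agent.N321.NB (Dg plane_three)

variable {E : Type} [NormedAddCommGroup E] [InnerProductSpace ℝ E] [FiniteDimensional ℝ E]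

lemma polar_shift' (F : Set E) (o q : E) : polar {l | o + l ∈ F} q = polar F (o + q) := by
  ext v
  constructor
  · intro h x hx
    have := h (x - o) (by
      change o + (x - o) ∈ F
      rwa [add_sub_cancel])
    rwa [← sub_sub]
  · intro h l hl
    have := h _ hl
    rwa [add_sub_add_left_eq_sub] at this

lemma G_shift {n : ℕ} {F : Set E} {o q : E} : q ∈ G n {l | o + l ∈ F} ↔ o + q ∈ G n F := by
  unfold G cv
  rw [mem_setOf_eq, mem_setOf_eq, shift_interior, polar_shift']

lemma shift_convex {F : Set E} (hF : Convex ℝ F) (o : E) : Convex ℝ {l | o + l ∈ F} := by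
  intro x hx y hy a b ha hb hab
  have h := hF hx hy ha hb hab
  have h2 : o + (a • x + b • y) = a • (o + x) + b • (o + y) := by
    rw [smul_add, smul_add]
    have : a • o + b • o = o := by rw [← add_smul, hab, one_smul]
    nth_rewrite 1 [← this]
    abel
  rw [mem_setOf_eq, h2]
  exact h

lemma shift_closed {F : Set E} (hF : IsClosed F) (o : E) : IsClosed {l | o + l ∈ F} :=
  hF.preimage (continuous_const.add continuous_id)

lemma shift_compact {F : Set E} (hF : IsCompact F) (o : E) : IsCompact {l | o + l ∈ F} := by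
  have : {l | o + l ∈ F} = (Homeomorph.addLeft o) ⁻¹' F := rfl
  rw [this]
  exact (Homeomorph.isCompact_preimage _).2 hF

lemma shift_lf {F : Set E} (hF : LF F) (o : E) : LF {l | o + l ∈ F} := by
  have h : ∀ d, d ∈ Rc {l | o + l ∈ F} → d ∈ Rc F := by
    intro d hd x hx t ht
    have h1 := hd (x - o) (by
      change o + (x - o) ∈ F
      rwa [add_sub_cancel]) t ht
    change o + (x - o + t • d) ∈ F at h1
    rwa [← add_assoc, add_sub_cancel] at h1
  intro d h1 h2
  exact hF d (h d h1) (h _ h2)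

lemma Rc_compact {K : Set E} (hKc : IsCompact K) (hne : K.Nonempty) {d : E} (hd : d ∈ Rc K) :
    d = 0 := by
  obtain ⟨x, hx⟩ := hne
  obtain ⟨R, hR⟩ := hKc.isBounded.exists_norm_le
  by_contra hd0
  have hn : 0 < ‖d‖ := norm_pos_iff.2 hd0
  have hRx := hR x hx
  have hR0 : 0 ≤ R := (norm_nonneg x).trans hRx
  have h1 := hR _ (hd x hx ((2 * R + 1) / ‖d‖) (by positivity))
  have h2 : ‖((2 * R + 1) / ‖d‖) • d‖ = 2 * R + 1 := by
    rw [norm_smul, Real.norm_eq_abs, abs_of_pos (by positivity), div_mul_cancel₀ _ hn.ne']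
  have h3 : ‖((2 * R + 1) / ‖d‖) • d‖ ≤ ‖x + ((2 * R + 1) / ‖d‖) • d‖ + ‖x‖ := by
    have := norm_sub_le (x + ((2 * R + 1) / ‖d‖) • d) x
    rwa [add_sub_cancel_left] at this
  linarith

/-- quadrilaterals -/
lemma quad (hV : finrank ℝ E = 2) {C : Set E} (hC : Convex ℝ C) (hCc : IsCompact C)
    (h0 : (0 : E) ∈ interior C) {v w : E} {s t : ℝ} (hli : LinearIndependent ℝ ![v, w])
    (hs : 0 < s) (ht : 0 < t) (hCe : C = convexHull ℝ {v, -(s • v), w, -(t • w)}) {ε : ℝ}
    (hε : 0 < ε) (hε2 : ε < 1 / 2) (hq : ε • (v + w) ∈ interior C) :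
    cv 3 C (ε • (v + w)) := by
  classical
  set b := basisOfLinearIndependentOfCardEqFinrank hli (by rw [hV]; simp) with hb
  have hb0 : b 0 = v := by simp [hb]
  have hb1 : b 1 = w := by simp [hb]
  set φ : E := (InnerProductSpace.toDual ℝ E).symm (b.coord 0).toContinuousLinearMap with hφ
  set ψ : E := (InnerProductSpace.toDual ℝ E).symm (b.coord 1).toContinuousLinearMap with hψ
  have hφx : ∀ x, ⟪φ, x⟫_ℝ = b.coord 0 x := fun x => InnerProductSpace.toDual_symm_apply
  have hψx : ∀ x, ⟪ψ, x⟫_ℝ = b.coord 1 x := fun x => InnerProductSpace.toDual_symm_apply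
  have hφv : ⟪φ, v⟫_ℝ = 1 := by rw [hφx, ← hb0]; simp
  have hφw : ⟪φ, w⟫_ℝ = 0 := by rw [hφx, ← hb1]; simp
  have hψv : ⟪ψ, v⟫_ℝ = 0 := by rw [hψx, ← hb0]; simp
  have hψw : ⟪ψ, w⟫_ℝ = 1 := by rw [hψx, ← hb1]; simp
  set q : E := ε • (v + w) with hqdef
  have hφq : ⟪φ, q⟫_ℝ = ε := by rw [hqdef, real_inner_smul_right, inner_add_right, hφv, hφw]; ring
  have hψq : ⟪ψ, q⟫_ℝ = ε := by rw [hqdef, real_inner_smul_right, inner_add_right, hψv, hψw]; ring
  have hmemv : v ∈ C := by rw [hCe]; exact subset_convexHull ℝ _ (by simp)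
  have hmems : -(s • v) ∈ C := by rw [hCe]; exact subset_convexHull ℝ _ (by simp)
  have hmemw : w ∈ C := by rw [hCe]; exact subset_convexHull ℝ _ (by simp)
  have hmemt : -(t • w) ∈ C := by rw [hCe]; exact subset_convexHull ℝ _ (by simp)
  have hcard : ({-ψ, -φ, φ + ψ} : Finset E).card ≤ 3 := Finset.card_le_three
  refine (cv_of_dirs hC hCc.isClosed hq _ fun u hu => ?_).mono hcard
  have hrec : ∀ ω : E, ∀ d ∈ Rc C, d ≠ 0 → ⟪u, d⟫_ℝ = 0 → 0 < ⟪ω, d⟫_ℝ := fun ω d hd hd0 _ =>
    absurd (Rc_compact hCc ⟨_, hmemv⟩ hd) hd0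
  -- the value at the origin
  have hu0 : ⟪u, 0 - q⟫_ℝ < 1 := by
    rcases (hu 0 (interior_subset h0)).lt_or_eq with h | h
    · exact h
    · exfalso
      rcases eq_or_ne u 0 with hu0 | hu0
      · rw [hu0] at h; simp at h
      · refine Pool.Agent.N321.NB.not_int_of_max hu0 (fun x hx => ?_) h0
        have h1 := hu x hx
        rw [inner_sub_right] at h1 h
        linarith
  -- the convex set
  have key : ∀ ω : E, (∀ x ∈ ({v, -(s • v), w, -(t • w)} : Set E),
      ⟪u, x - q⟫_ℝ < 1 ∨ 0 < ⟪ω, x - q⟫_ℝ) → ∀ x ∈ C, ⟪u, x - q⟫_ℝ = 1 → 0 < ⟪ω, x - q⟫_ℝ := by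
    intro ω hω
    have hA : Convex ℝ {x : E | ⟪u, x - q⟫_ℝ < 1 ∨ (⟪u, x - q⟫_ℝ ≤ 1 ∧ 0 < ⟪ω, x - q⟫_ℝ)} := by
      intro x hx y hy a b ha hb hab
      have e1 : a • x + b • y - q = a • (x - q) + b • (y - q) := by
        rw [smul_sub, smul_sub]
        have : a • q + b • q = q := by rw [← add_smul, hab, one_smul]
        nth_rewrite 1 [← this]
        abel
      simp only [mem_setOf_eq] at hx hy ⊢
      rw [e1, inner_add_right, inner_add_right, real_inner_smul_right, real_inner_smul_right,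
        real_inner_smul_right, real_inner_smul_right]
      rcases ha.eq_or_lt with ha0 | ha0
      · have : b = 1 := by linarith
        rw [← ha0, this]
        simpa using hy
      rcases hb.eq_or_lt with hb0 | hb0
      · have : a = 1 := by linarith
        rw [← hb0, this]
        simpa using hx
      rcases hx with hx | hx <;> rcases hy with hy | hy
      · left; nlinarith
      · left; nlinarith [hy.1]
      · left; nlinarith [hx.1]
      · right
        have m1 := mul_pos ha0 hx.2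
        have m2 := mul_pos hb0 hy.2
        exact ⟨by nlinarith [hx.1, hy.1], by linarith⟩
    have hsub : C ⊆ {x : E | ⟪u, x - q⟫_ℝ < 1 ∨ (⟪u, x - q⟫_ℝ ≤ 1 ∧ 0 < ⟪ω, x - q⟫_ℝ)} := by
      rw [hCe]
      refine convexHull_min (fun x hx => ?_) hA
      rcases hω x hx with h | h
      · exact Or.inl h
      · refine Or.inr ⟨hu x ?_, h⟩
        rw [hCe]
        exact subset_convexHull ℝ _ hx
    intro x hx hx1
    rcases hsub hx with h | h
    · rw [hx1] at h
      exact absurd h (lt_irrefl _)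
    · exact h.2
  -- opposite vertices
  have hopp : ∀ (z : E) (r : ℝ), 0 < r → ⟪u, z - q⟫_ℝ ≤ 1 → ⟪u, -(r • z) - q⟫_ℝ = 1 →
      ⟪u, z - q⟫_ℝ < 1 := by
    intro z r hr h1 h2
    by_contra h3
    have h4 : ⟪u, z - q⟫_ℝ = 1 := le_antisymm h1 (not_lt.1 h3)
    rw [inner_sub_right] at h4 h2 hu0
    rw [inner_neg_right, real_inner_smul_right] at h2
    rw [inner_zero_right] at hu0
    have h5 : ⟪u, z⟫_ℝ = 1 + ⟪u, q⟫_ℝ := by linarith
    rw [h5] at h2
    nlinarith
  by_cases h1 : ⟪u, -(s • v) - q⟫_ℝ = 1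
  · have h2 := hopp v s hs (hu v hmemv) h1
    refine ⟨-φ, by simp, key _ ?_, hrec _⟩
    intro x hx
    rcases hx with rfl | rfl | rfl | rfl
    · exact Or.inl h2
    · right
      rw [inner_neg_left, inner_sub_right, inner_neg_right, real_inner_smul_right, hφv, hφq]
      linarith
    · right
      rw [inner_neg_left, inner_sub_right, hφw, hφq]
      linarith
    · right
      rw [inner_neg_left, inner_sub_right, inner_neg_right, real_inner_smul_right, hφw, hφq]
      linarith
  by_cases h2 : ⟪u, -(t • w) - q⟫_ℝ = 1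
  · have h3 := hopp w t ht (hu w hmemw) h2
    refine ⟨-ψ, by simp, key _ ?_, hrec _⟩
    intro x hx
    rcases hx with rfl | rfl | rfl | rfl
    · right
      rw [inner_neg_left, inner_sub_right, hψv, hψq]
      linarith
    · right
      rw [inner_neg_left, inner_sub_right, inner_neg_right, real_inner_smul_right, hψv, hψq]
      linarith
    · exact Or.inl h3
    · right
      rw [inner_neg_left, inner_sub_right, inner_neg_right, real_inner_smul_right, hψw, hψq]
      linarith
  · refine ⟨φ + ψ, by simp, key _ ?_, hrec _⟩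
    intro x hx
    rcases hx with rfl | rfl | rfl | rfl
    · right
      rw [inner_add_left, inner_sub_right, inner_sub_right, hφv, hφq, hψv, hψq]
      linarith
    · exact Or.inl (lt_of_le_of_ne (hu _ hmems) h1)
    · right
      rw [inner_add_left, inner_sub_right, inner_sub_right, hφw, hφq, hψw, hψq]
      linarith
    · exact Or.inl (lt_of_le_of_ne (hu _ hmemt) h2)

/-- density in compact planar sets -/
lemma dense_compact (hV : finrank ℝ E = 2) {C : Set E} (hC : Convex ℝ C) (hCc : IsCompact C)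
    (h0 : (0 : E) ∈ interior C) {U : Set E} (hU : U ∈ 𝓝 (0 : E)) : ∃ q ∈ U, q ∈ G 3 C := by
  rcases plane_three hV hC hCc h0 with h | ⟨v, w, s, t, hli, hs, ht, hCe⟩
  · exact ⟨0, mem_of_mem_nhds hU, h0,
      Pool.Agent.R753.SJ.cover hCc h0 (by norm_num) h⟩
  · have hcont : Continuous fun ε : ℝ => ε • (v + w) := by fun_prop
    have h1 : ∀ᶠ ε : ℝ in 𝓝 0, ε • (v + w) ∈ U ∩ interior C := by
      refine hcont.continuousAt.eventually ?_
      change ∀ᶠ y in 𝓝 ((0 : ℝ) • (v + w)), y ∈ U ∩ interior C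
      rw [zero_smul]
      exact Filter.inter_mem hU (isOpen_interior.mem_nhds h0)
    have h2 : ∀ᶠ ε : ℝ in 𝓝 0, ε < 1 / 2 := eventually_lt_nhds (by norm_num)
    obtain ⟨ε, ⟨h3, h4⟩, h5⟩ := (((h1.and h2).filter_mono
      (nhdsWithin_le_nhds (s := Set.Ioi 0))).and self_mem_nhdsWithin).exists
    exact ⟨_, h3.1, h3.2, quad hV hC hCc h0 hli hs ht hCe h5 h4 h3.2⟩

/-- **Good points are dense in planar sets.** -/
theorem dense_plane (hV : finrank ℝ E = 2) {C : Set E} (hC : Convex ℝ C) (hcl : IsClosed C)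
    (hl : LF C) (hint : (interior C).Nonempty) {z : E} (hz : z ∈ C) {U : Set E} (hU : IsOpen U)
    (hzU : z ∈ U) : ∃ q ∈ U, q ∈ G 3 C := by
  have : Nontrivial E := Module.nontrivial_of_finrank_pos (R := ℝ) (by omega)
  obtain ⟨z₁, hz₁U, hz₁⟩ : ∃ z₁ ∈ U, z₁ ∈ interior C := by
    have h1 : z ∈ closure (interior C) := by
      rw [hC.closure_interior_eq_closure_of_nonempty_interior hint]
      exact subset_closure hz
    obtain ⟨z₁, h2, h3⟩ := mem_closure_iff.1 h1 U hU hzU
    exact ⟨z₁, h2, h3⟩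
  obtain ⟨C', p, h1, h2, h3, h4, h5, -⟩ := proj (shift_convex hC z₁) (shift_closed hcl z₁)
    (shift_lf hl z₁) (by rw [shift_interior, add_zero]; exact hz₁)
  have hcont : ContinuousAt (fun y : E => z₁ + (1 + ⟪p, y⟫_ℝ)⁻¹ • y) 0 := by
    refine continuousAt_const.add (ContinuousAt.smul (ContinuousAt.inv₀ (by fun_prop) ?_)
      continuousAt_id)
    simp
  have hN : (fun y : E => z₁ + (1 + ⟪p, y⟫_ℝ)⁻¹ • y) ⁻¹' U ∈ 𝓝 (0 : E) := by
    refine hcont.preimage_mem_nhds (hU.mem_nhds ?_)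
    simpa using hz₁U
  obtain ⟨q, hqU, hqG⟩ := dense_compact hV h1 h2 h3 hN
  obtain ⟨-, h6⟩ := h5 3 q hqG
  exact ⟨_, hqU, G_shift.1 h6⟩

/-- **Good points of three-dimensional sets without lines.** -/
theorem Gd_three_closed (hd : finrank ℝ E = 3) {C : Set E} (hC : Convex ℝ C) (hcl : IsClosed C)
    (hl : LF C) (hint : (interior C).Nonempty) : (G 4 C).Nonempty := by
  have : Nontrivial E := Module.nontrivial_of_finrank_pos (R := ℝ) (by omega)
  obtain ⟨z₁, hz₁⟩ := hint
  obtain ⟨C', p, h1, h2, h3, h4, h5, -⟩ := proj (shift_convex hC z₁) (shift_closed hcl z₁)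
    (shift_lf hl z₁) (by rw [shift_interior, add_zero]; exact hz₁)
  obtain ⟨q, hq1, hq2⟩ := Gd_three hd h1 h2 ⟨0, h3⟩
  obtain ⟨-, h6⟩ := h5 4 q ⟨hq1, hq2⟩
  exact ⟨_, G_shift.1 h6⟩

end Pool.Agent.N321.MN
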