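import Pool.Agent.N321.MN.I

set_option autoImplicit false
set_option linter.unusedSectionVars false

/-!
# Zooming at a segment
-/

namespace Pool.Agent.N321.MN

open scoped InnerProductSpace Topology
open Metric Module Filter Set
open Pool.Agent.H985.Sep (polar)

section gen

variable {E : Type} [NormedAddCommGroup E] [InnerProductSpace ℝ E] [FiniteDimensional ℝ E]

lemma int_of_sep {C : Set E} (hC : Convex ℝ C) (h : ∀ u : E, u ≠ 0 → ∃ z ∈ C, 0 < ⟪z, u⟫_ℝ)
    (hne : C.Nonempty) : (0 : E) ∈ interior C := by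
  classical
  obtain ⟨W, hWC, hcov⟩ := (isCompact_sphere (0 : E) 1).elim_finite_subcover_image (b := C)
    (c := fun z => {u : E | 0 < ⟪z, u⟫_ℝ}) (fun z _ => isOpen_lt continuous_const (by fun_prop))
    (fun u hu => by
      have hu0 : u ≠ 0 := by
        rintro rfl
        simp at hu
      obtain ⟨z, hz, hzu⟩ := h u hu0
      exact mem_iUnion₂.2 ⟨z, hz, hzu⟩)
  obtain ⟨z₀, hz₀⟩ := hne
  set W' : Finset E := insert z₀ hcov.1.toFinset with hW'
  have hW'C : ∀ w ∈ W', w ∈ C := by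
    intro w hw
    rcases Finset.mem_insert.1 hw with rfl | h1
    · exact hz₀
    · exact hWC (by simpa using h1)
  have hW'n : W'.Nonempty := ⟨z₀, Finset.mem_insert_self _ _⟩
  obtain ⟨c, hc, hcW⟩ : ∃ c : ℝ, 0 < c ∧ ∀ v : E, ∃ w ∈ W', c * ‖v‖ ≤ ⟪w, v⟫_ℝ := by
    rcases (sphere (0 : E) 1).eq_empty_or_nonempty with hS | hS
    · refine ⟨1, one_pos, fun v => ⟨z₀, Finset.mem_insert_self _ _, ?_⟩⟩
      rcases eq_or_ne v 0 with rfl | hv
      · simp
      · exfalso
        have hn : 0 < ‖v‖ := norm_pos_iff.2 hv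
        have : ‖v‖⁻¹ • v ∈ sphere (0 : E) 1 := by
          rw [mem_sphere_zero_iff_norm, norm_smul, norm_inv, norm_norm, inv_mul_cancel₀ hn.ne']
        rw [hS] at this
        exact this
    · obtain ⟨u₀, hu₀, hmin⟩ := (isCompact_sphere (0 : E) 1).exists_isMinOn hS
        (f := fun u => W'.sup' hW'n fun w => ⟪w, u⟫_ℝ)
        (Continuous.continuousOn (Continuous.finset_sup'_apply hW'n fun t _ => by fun_prop))
      have hpos : 0 < W'.sup' hW'n fun w => ⟪w, u₀⟫_ℝ := by
        obtain ⟨z, hz, hzu⟩ := mem_iUnion₂.1 (hcov.2 hu₀)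
        rw [Finset.lt_sup'_iff]
        exact ⟨z, Finset.mem_insert_of_mem (by simpa using hz), hzu⟩
      refine ⟨_, hpos, fun v => ?_⟩
      rcases eq_or_ne v 0 with rfl | hv
      · exact ⟨z₀, Finset.mem_insert_self _ _, by simp⟩
      have hn : 0 < ‖v‖ := norm_pos_iff.2 hv
      have h1 : ‖v‖⁻¹ • v ∈ sphere (0 : E) 1 := by
        rw [mem_sphere_zero_iff_norm, norm_smul, norm_inv, norm_norm, inv_mul_cancel₀ hn.ne']
      obtain ⟨w, hw, hwe⟩ := W'.exists_mem_eq_sup' hW'n fun w => ⟪w, ‖v‖⁻¹ • v⟫_ℝ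
      refine ⟨w, hw, ?_⟩
      have h2 : (W'.sup' hW'n fun w => ⟪w, u₀⟫_ℝ) ≤ W'.sup' hW'n fun w => ⟪w, ‖v‖⁻¹ • v⟫_ℝ :=
        hmin h1
      rw [hwe, real_inner_smul_right, inv_mul_eq_div, le_div_iff₀ hn] at h2
      exact h2
  rw [mem_interior_iff_mem_nhds]
  refine Filter.mem_of_superset (closedBall_mem_nhds (0 : E) (show 0 < c / 2 by positivity)) ?_
  exact ball_of_near hC hcW (z := 0) (a := 1) one_pos (η := 0) (by linarith)
    fun w hw => ⟨w, hW'C w hw, by simp⟩

lemma int_add_rc {C : Set E} {z d : E} (hz : z ∈ interior C) (hd : d ∈ Rc C) {t : ℝ} (ht : 0 ≤ t) :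
    z + t • d ∈ interior C := by
  rw [mem_interior]
  refine ⟨(Homeomorph.addRight (t • d)) '' interior C, ?_,
    (Homeomorph.addRight (t • d)).isOpenMap _ isOpen_interior, ⟨z, hz, rfl⟩⟩
  rintro _ ⟨x, hx, rfl⟩
  exact hd x (interior_subset hx) t ht

lemma ulim_seq {𝒰 : Ultrafilter ℕ} (h𝒰 : Tendsto tk 𝒰 (𝓝 0)) {K : ℕ → Set E}
    (hne : ∀ k, (K k).Nonempty) {z : E} (hz : z ∈ ulim 𝒰 K) :
    ∃ x : ℕ → E, (∀ k, x k ∈ K k) ∧ Tendsto x 𝒰 (𝓝 z) := by
  have hex : ∀ k, ∃ x ∈ K k, dist z x < infDist z (K k) + tk k := fun k =>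
    (infDist_lt_iff (hne k)).1 (by linarith [tk_pos k])
  choose x hx hxd using hex
  refine ⟨x, hx, ?_⟩
  rw [Metric.tendsto_nhds]
  intro ε hε
  filter_upwards [hz (ε / 2) (by positivity), h𝒰.eventually_lt_const (show 0 < ε / 2 by
    positivity)] with k h1 h2
  obtain ⟨y, hy, hyz⟩ := h1
  have h3 : infDist z (K k) ≤ dist z y := infDist_le_dist_of_mem hy
  rw [dist_comm, dist_eq_norm] at h3
  rw [dist_comm]
  linarith [hxd k]

end gen

lemma pt_eq (x y z : ℝ) : pt x y z = x • pt 1 0 0 + y • pt 0 1 0 + z • pt 0 0 1 :=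
  ext3 (by simp) (by simp) (by simp)

lemma pt_lim {ι : Type*} {l : Filter ι} {x y z : ι → ℝ} {a b c : ℝ} (hx : Tendsto x l (𝓝 a))
    (hy : Tendsto y l (𝓝 b)) (hz : Tendsto z l (𝓝 c)) :
    Tendsto (fun k => pt (x k) (y k) (z k)) l (𝓝 (pt a b c)) := by
  rw [pt_eq a b c]
  refine (((hx.smul_const (pt 1 0 0)).add (hy.smul_const (pt 0 1 0))).add
    (hz.smul_const (pt 0 0 1))).congr fun k => ?_
  rw [← pt_eq]

/-- diagonal maps -/
noncomputable def dg {β t : ℝ} (hβ : β ≠ 0) (ht : t ≠ 0) : E3 ≃ₗ[ℝ] E3 where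
  toFun z := pt (z 0) (β * z 1) (t * z 2)
  invFun z := pt (z 0) (β⁻¹ * z 1) (t⁻¹ * z 2)
  map_add' u v := ext3 (by simp) (by simp; ring) (by simp; ring)
  map_smul' a v := ext3 (by simp) (by simp; ring) (by simp; ring)
  left_inv v := ext3 (by simp) (by simp; field_simp) (by simp; field_simp)
  right_inv v := ext3 (by simp) (by simp; field_simp) (by simp; field_simp)

lemma dg_apply {β t : ℝ} (hβ : β ≠ 0) (ht : t ≠ 0) (z : E3) :
    dg hβ ht z = pt (z 0) (β * z 1) (t * z 2) := rfl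

/-- a slice -/
lemma slice {K : Set E3} (hK : Convex ℝ K) (hKc : IsCompact K) (h0 : pt 0 0 0 ∈ K) {h t : ℝ}
    (hi : pt 0 0 h ∈ interior K) (ht0 : 0 < t) (hth : t ≤ h) :
    ∃ m M : ℝ, m < 0 ∧ 0 < M ∧ pt 0 m t ∈ K ∧ pt 0 M t ∈ K ∧
      ∀ η : ℝ, pt 0 η t ∈ K → m ≤ η ∧ η ≤ M := by
  have hh : 0 < h := by linarith
  have hti : pt 0 0 t ∈ interior K := by
    have h1 := hK.combo_self_interior_mem_interior h0 hi (a := 1 - t / h) (b := t / h) (by
      rw [sub_nonneg, div_le_one hh]; exact hth) (by positivity) (by ring)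
    convert h1 using 1
    refine ext3 (by simp) (by simp) ?_
    simp only [add3, smul3, pt2]
    field_simp
    ring
  have hcont : Continuous fun η : ℝ => pt 0 η t := by
    have : (fun η : ℝ => pt 0 η t) = fun η : ℝ => (0 : ℝ) • pt 1 0 0 + η • pt 0 1 0 +
        t • pt 0 0 1 := by
      funext η
      rw [← pt_eq]
    rw [this]
    fun_prop
  set S : Set ℝ := (fun η : ℝ => pt 0 η t) ⁻¹' K with hS
  have hSc : IsCompact S := by
    refine Metric.isCompact_of_isClosed_isBounded (hKc.isClosed.preimage hcont) ?_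
    obtain ⟨R, hR⟩ := hKc.isBounded.exists_norm_le
    refine (isBounded_iff_forall_norm_le).2 ⟨R, fun η hη => ?_⟩
    have h1 := hR _ hη
    have h2 := norm3_sq (pt 0 η t)
    simp only [pt0, pt1, pt2] at h2
    rw [Real.norm_eq_abs]
    have h3 : |η| ≤ ‖pt 0 η t‖ := by
      apply abs_le_of_sq_le_sq
      · rw [h2]; nlinarith [sq_nonneg t]
      · exact norm_nonneg _
    linarith
  have hS0 : (0 : ℝ) ∈ interior S := by
    rw [mem_interior]
    refine ⟨(fun η : ℝ => pt 0 η t) ⁻¹' interior K, fun η hη => ?_,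
      isOpen_interior.preimage hcont, hti⟩
    exact interior_subset (s := K) hη
  have hSn : S.Nonempty := ⟨0, interior_subset hS0⟩
  obtain ⟨M, hMS, hM⟩ := hSc.exists_isGreatest hSn
  obtain ⟨m, hmS, hm⟩ := hSc.exists_isLeast hSn
  obtain ⟨ε, hε, hεS⟩ := Metric.nhds_basis_closedBall.mem_iff.1 (mem_interior_iff_mem_nhds.1 hS0)
  have h1 : ε ∈ S := hεS (by rw [mem_closedBall, dist_zero_right, Real.norm_eq_abs,
    abs_of_pos hε])
  have h2 : -ε ∈ S := hεS (by rw [mem_closedBall, dist_zero_right, Real.norm_eq_abs, abs_neg,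
    abs_of_pos hε])
  exact ⟨m, M, by linarith [hm h2], by linarith [hM h1], hmS, hMS, fun η hη => ⟨hm hη, hM hη⟩⟩

/-- recentring the limit set -/
lemma seg_fin {C : Set E3} (hCv : Convex ℝ C) (hCcl : IsClosed C) {L κ : ℝ} (hL : 0 < L)
    (hCs : ∀ s : ℝ, |s| ≤ L → pt s (-κ) (-1) ∈ C) (hCz : ∀ Z : ℝ, -1 ≤ Z → pt 0 (-κ) Z ∈ C)
    (hCbd : ∀ z ∈ C, |z 0| ≤ L ∧ -1 ≤ z 2) (hint : (interior C).Nonempty)
    (hnb : pt 0 1 0 ∉ Rc C) : Gd 4 C := by
  have key : ∀ x y z : ℝ, pt 0 (-κ) (-1) + pt x y z = pt x (y - κ) (z - 1) := fun x y z =>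
    ext3 (by simp) (by simp; ring) (by simp; ring)
  have hPP : PP {w | pt 0 (-κ) (-1) + w ∈ C} L := by
    refine ⟨fun x hx y hy a b ha hb hab => ?_, ?_, hL, fun p hp => ?_, fun p hp => ?_, ?_, ?_,
      fun Z hZ => ?_, ?_, fun hh => hnb ?_⟩
    · have h := hCv hx hy ha hb hab
      have h2 : pt 0 (-κ) (-1) + (a • x + b • y) =
          a • (pt 0 (-κ) (-1) + x) + b • (pt 0 (-κ) (-1) + y) := by
        rw [smul_add, smul_add]
        have : a • pt 0 (-κ) (-1) + b • pt 0 (-κ) (-1) = pt 0 (-κ) (-1) := by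
          rw [← add_smul, hab, one_smul]
        nth_rewrite 1 [← this]
        abel
      rw [mem_setOf_eq, h2]
      exact h
    · exact hCcl.preimage (continuous_const.add continuous_id)
    · have := (hCbd _ hp).1
      simpa using this
    · have := (hCbd _ hp).2
      simpa using this
    · rw [mem_setOf_eq, key, zero_sub, zero_sub]
      exact hCs L (by rw [abs_of_pos hL])
    · rw [mem_setOf_eq, key, zero_sub, zero_sub]
      exact hCs (-L) (by rw [abs_neg, abs_of_pos hL])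
    · rw [mem_setOf_eq, key, zero_sub]
      exact hCz _ (by linarith)
    · obtain ⟨p, hp⟩ := hint
      refine ⟨p - pt 0 (-κ) (-1), ?_⟩
      rw [shift_interior, add_sub_cancel]
      exact hp
    · intro x hx t ht
      have h1 := hh.1 (x - pt 0 (-κ) (-1)) (by
        rw [mem_setOf_eq, add_sub_cancel]
        exact hx) t ht
      rwa [mem_setOf_eq, ← add_assoc, add_sub_cancel] at h1
  have hG := hPP.good
  exact Gd_pre (A := LinearEquiv.refl ℝ E3) hG

/-- **Zooming at a segment.** -/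
theorem seg {K : Set E3} (hK : Convex ℝ K) (hKc : IsCompact K) {L h : ℝ} (hL : 0 < L) (hh : 0 < h)
    (k0 : ∀ p ∈ K, 0 ≤ p 2) (k1 : ∀ p ∈ K, p 2 = 0 → p 1 = 0 ∧ |p 0| ≤ L)
    (kp : pt L 0 0 ∈ K) (kn : pt (-L) 0 0 ∈ K) (hi : pt 0 0 h ∈ interior K) : Gd 4 K := by
  have hfl : ∀ s : ℝ, |s| ≤ L → pt s 0 0 ∈ K := by
    intro s hs
    rw [abs_le] at hs
    have h1 := hK kp kn (a := (L + s) / (2 * L)) (b := (L - s) / (2 * L))
      (div_nonneg (by linarith) (by linarith)) (div_nonneg (by linarith) (by linarith))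
      (by field_simp; ring)
    convert h1 using 1
    refine ext3 ?_ (by simp) (by simp)
    simp only [add3, smul3, pt0]
    field_simp
    ring
  have h00 : pt 0 0 0 ∈ K := hfl 0 (by simpa using hL.le)
  have hz : ∀ τ : ℝ, 0 ≤ τ → τ ≤ h → pt 0 0 τ ∈ K := by
    intro τ h1 h2
    have h3 := hK h00 (interior_subset hi) (a := 1 - τ / h) (b := τ / h) (by
      rw [sub_nonneg, div_le_one hh]; exact h2) (by positivity) (by ring)
    convert h3 using 1
    refine ext3 (by simp) (by simp) ?_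
    simp only [add3, smul3, pt2]
    field_simp
    ring
  set t : ℕ → ℝ := fun k => h * tk k with ht
  have ht0 : ∀ k, 0 < t k := fun k => mul_pos hh (tk_pos k)
  have hth : ∀ k, t k ≤ h := by
    intro k
    have : tk k ≤ 1 := by
      rw [tk, div_le_one (by positivity)]
      have : (0 : ℝ) ≤ k := Nat.cast_nonneg k
      linarith
    simp only [ht]
    nlinarith
  have htl : Tendsto t (hyperfilter ℕ : Filter ℕ) (𝓝 0) := by
    have := tk_lim.const_mul h
    rwa [mul_zero] at this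
  choose m M hm0 hM0 hmK hMK hmM using fun k => slice hK hKc h00 hi (ht0 k) (hth k)
  set β : ℕ → ℝ := fun k => (M k - m k) / 2 with hβ
  set c : ℕ → ℝ := fun k => (M k + m k) / 2 with hc
  have hβ0 : ∀ k, 0 < β k := fun k => by
    have := hm0 k
    have := hM0 k
    simp only [hβ]
    linarith
  have hcβ : ∀ k, c k + β k = M k := fun k => by simp only [hc, hβ]; ring
  have hcβ' : ∀ k, c k - β k = m k := fun k => by simp only [hc, hβ]; ring
  -- limits
  obtain ⟨R, hR⟩ := hKc.isBounded.exists_norm_le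
  have hlim0 : ∀ f : ℕ → ℝ, (∀ k, pt 0 (f k) (t k) ∈ K) →
      Tendsto f (hyperfilter ℕ : Filter ℕ) (𝓝 0) := by
    intro f hf
    have hfb : ∀ k, |f k| ≤ R := by
      intro k
      have h1 := hR _ (hf k)
      have h2 := norm3_sq (pt 0 (f k) (t k))
      simp only [pt0, pt1, pt2] at h2
      have h3 : |f k| ≤ ‖pt 0 (f k) (t k)‖ := by
        apply abs_le_of_sq_le_sq
        · rw [h2]; nlinarith [sq_nonneg (t k)]
        · exact norm_nonneg _
      linarith
    obtain ⟨a, ha⟩ : ∃ a, Tendsto f (hyperfilter ℕ : Filter ℕ) (𝓝 a) := by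
      rcases ultra (hyperfilter ℕ) f with h1 | h1
      · exact h1
      · obtain ⟨k, hk⟩ := (h1.eventually_gt_atTop R).exists
        have := hfb k
        rw [Real.norm_eq_abs] at hk
        linarith
    have h1 : pt 0 a 0 ∈ K := hKc.isClosed.mem_of_tendsto
      (pt_lim tendsto_const_nhds ha htl) (Eventually.of_forall hf)
    have h2 := (k1 _ h1 (by simp)).1
    rw [pt1] at h2
    rwa [h2] at ha
  have hMl := hlim0 M hMK
  have hml := hlim0 m hmK
  have hβl : Tendsto β (hyperfilter ℕ : Filter ℕ) (𝓝 0) := by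
    have := (hMl.sub hml).div_const 2
    simpa using this
  have hcl : Tendsto c (hyperfilter ℕ : Filter ℕ) (𝓝 0) := by
    have := (hMl.add hml).div_const 2
    simpa using this
  -- the zooms
  set Kk : ℕ → Set E3 := fun k => pre K (pt 0 (c k) (t k)) (dg (hβ0 k).ne' (ht0 k).ne') with hKk
  have hmem : ∀ k z, z ∈ Kk k ↔ pt (z 0) (c k + β k * z 1) (t k * (1 + z 2)) ∈ K := by
    intro k z
    change pt 0 (c k) (t k) + dg (hβ0 k).ne' (ht0 k).ne' z ∈ K ↔ _
    have : pt 0 (c k) (t k) + dg (hβ0 k).ne' (ht0 k).ne' z =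
        pt (z 0) (c k + β k * z 1) (t k * (1 + z 2)) := by
      rw [dg_apply]
      exact ext3 (by simp) (by simp) (by simp; ring)
    rw [this]
  set C : Set E3 := ulim (hyperfilter ℕ) Kk with hC
  have hcv : ∀ᶠ k in (hyperfilter ℕ : Filter ℕ), Convex ℝ (Kk k) :=
    Eventually.of_forall fun k => pre_convex hK _ _
  have hlo : LoU (hyperfilter ℕ) C Kk := ulim_lo hcv
  have hCv : Convex ℝ C := ulim_convex hcv
  have hCcl : IsClosed C := ulim_closed _ _
  -- the slope
  set κ' : ℕ → ℝ := fun k => c k / β k with hκ'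
  have hκ1 : ∀ k, |κ' k| ≤ 1 := by
    intro k
    have h1 := hm0 k
    have h2 := hM0 k
    have h3 := hcβ k
    have h4 := hcβ' k
    simp only [hκ']
    rw [abs_div, abs_of_pos (hβ0 k), div_le_one (hβ0 k), abs_le]
    constructor <;> linarith
  obtain ⟨κ, hκ⟩ : ∃ a, Tendsto κ' (hyperfilter ℕ : Filter ℕ) (𝓝 a) := by
    rcases ultra (hyperfilter ℕ) κ' with h1 | h1
    · exact h1
    · obtain ⟨k, hk⟩ := (h1.eventually_gt_atTop 1).exists
      have := hκ1 k
      rw [Real.norm_eq_abs] at hk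
      linarith
  have hκβ : ∀ k, β k * κ' k = c k := fun k => by
    simp only [hκ']
    exact mul_div_cancel₀ _ (hβ0 k).ne'
  -- points of `C`
  have hCb : pt 0 1 0 ∈ C := hlo.out (fun _ => pt 0 1 0) _ (Eventually.of_forall fun k => by
    rw [hmem]
    simp only [pt0, pt1, pt2, mul_one, add_zero]
    rw [hcβ]
    exact hMK k) tendsto_const_nhds
  have hCb' : pt 0 (-1) 0 ∈ C := hlo.out (fun _ => pt 0 (-1) 0) _ (Eventually.of_forall fun k => by
    rw [hmem]
    simp only [pt0, pt1, pt2, mul_one, add_zero, mul_neg]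
    rw [← sub_eq_add_neg, hcβ']
    exact hmK k) tendsto_const_nhds
  have hCs : ∀ s : ℝ, |s| ≤ L → pt s (-κ) (-1) ∈ C := by
    intro s hs
    refine hlo.out (fun k => pt s (-κ' k) (-1)) _ (Eventually.of_forall fun k => ?_)
      (pt_lim tendsto_const_nhds hκ.neg tendsto_const_nhds)
    rw [hmem]
    simp only [pt0, pt1, pt2, mul_neg]
    rw [hκβ, add_neg_cancel, add_neg_cancel, mul_zero]
    exact hfl s hs
  have hCz : ∀ Z : ℝ, -1 ≤ Z → pt 0 (-κ) Z ∈ C := by
    intro Z hZ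
    refine hlo.out (fun k => pt 0 (-κ' k) Z) _ ?_
      (pt_lim tendsto_const_nhds hκ.neg tendsto_const_nhds)
    have h1 : Tendsto (fun k => t k * (1 + Z)) (hyperfilter ℕ : Filter ℕ) (𝓝 0) := by
      have := htl.mul_const (1 + Z)
      rwa [zero_mul] at this
    filter_upwards [h1.eventually_lt_const hh] with k hk
    rw [hmem]
    simp only [pt0, pt1, pt2, mul_neg]
    rw [hκβ, add_neg_cancel]
    exact hz _ (mul_nonneg (ht0 k).le (by linarith)) hk.le
  -- bounds
  have hCbd : ∀ z ∈ C, |z 0| ≤ L ∧ -1 ≤ z 2 := by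
    intro z hz
    obtain ⟨x, hx, hxz⟩ := ulim_seq tk_lim (K := Kk) (fun k => ⟨pt 0 1 0, by
      rw [hmem]
      simp only [pt0, pt1, pt2, mul_one, add_zero]
      rw [hcβ]
      exact hMK k⟩) hz
    have hx0 : Tendsto (fun k => x k 0) (hyperfilter ℕ : Filter ℕ) (𝓝 (z 0)) :=
      ((cont3 0).tendsto z).comp hxz
    have hx1 : Tendsto (fun k => x k 1) (hyperfilter ℕ : Filter ℕ) (𝓝 (z 1)) :=
      ((cont3 1).tendsto z).comp hxz
    have hx2 : Tendsto (fun k => x k 2) (hyperfilter ℕ : Filter ℕ) (𝓝 (z 2)) :=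
      ((cont3 2).tendsto z).comp hxz
    constructor
    · have h1 : Tendsto (fun k => pt (x k 0) (c k + β k * x k 1) (t k * (1 + x k 2)))
          (hyperfilter ℕ : Filter ℕ) (𝓝 (pt (z 0) (0 + 0 * z 1) (0 * (1 + z 2)))) :=
        pt_lim hx0 (hcl.add (hβl.mul hx1)) (htl.mul (hx2.const_add 1))
      have h2 := hKc.isClosed.mem_of_tendsto h1 (Eventually.of_forall fun k => (hmem k _).1 (hx k))
      have h3 := (k1 _ h2 (by simp)).2
      simpa using h3
    · refine ge_of_tendsto hx2 (Eventually.of_forall fun k => ?_)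
      have h1 := k0 _ ((hmem k _).1 (hx k))
      rw [pt2] at h1
      have h2 := nonneg_of_mul_nonneg_right h1 (ht0 k)
      linarith
  -- the interior
  have h0i : (0 : E3) ∈ interior C := by
    refine int_of_sep hCv (fun u hu => ?_) ⟨_, hCb⟩
    by_cases h1 : u 1 = 0
    · rcases lt_trichotomy (u 2) 0 with h2 | h2 | h2
      · refine ⟨_, hCz (-1) le_rfl, ?_⟩
        rw [inner3]
        simp only [pt0, pt1, pt2, h1]
        linarith
      · have h3 : u 0 ≠ 0 := by
          intro h3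
          exact hu (ext3 (by simpa using h3) (by simpa using h1) (by simpa using h2))
        rcases lt_or_gt_of_ne h3 with h3 | h3
        · refine ⟨_, hCs (-L) (by rw [abs_neg, abs_of_pos hL]), ?_⟩
          rw [inner3]
          simp only [pt0, pt1, pt2, h1, h2]
          nlinarith
        · refine ⟨_, hCs L (by rw [abs_of_pos hL]), ?_⟩
          rw [inner3]
          simp only [pt0, pt1, pt2, h1, h2]
          nlinarith
      · refine ⟨_, hCz 1 (by norm_num), ?_⟩
        rw [inner3]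
        simp only [pt0, pt1, pt2, h1]
        linarith
    · rcases lt_or_gt_of_ne h1 with h1 | h1
      · refine ⟨_, hCb', ?_⟩
        rw [inner3]
        simp only [pt0, pt1, pt2]
        linarith
      · refine ⟨_, hCb, ?_⟩
        rw [inner3]
        simp only [pt0, pt1, pt2]
        linarith
  -- no line
  have hnb : pt 0 1 0 ∉ Rc C := by
    intro hd
    have h1 := int_add_rc h0i hd (t := 2) (by norm_num)
    obtain ⟨k, hk⟩ := (hlo.inn _ h1).exists
    rw [hmem] at hk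
    simp only [add3, smul3, zero3, pt0, pt1, pt2, zero_add, mul_one, mul_zero, add_zero] at hk
    have h2 := (hmM k _ hk).2
    have h3 := hcβ k
    have h4 := hβ0 k
    linarith
  exact Gd_lim hCv (seg_fin hCv hCcl hL hCs hCz hCbd ⟨0, h0i⟩ hnb)
    (fun k => pt 0 (c k) (t k)) (fun k => dg (hβ0 k).ne' (ht0 k).ne') hlo

end Pool.Agent.N321.MN
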