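import Pool.Agent.N321.MN.Z

set_option autoImplicit false
set_option linter.unusedSectionVars false

/-!
# Zooming at exposed points
-/

namespace Pool.Agent.N321.MN

open scoped InnerProductSpace Topology
open Metric Module Filter Set
open Pool.Agent.H985.Sep (polar)
open Pool.Agent.N321.NB (inner_orth)

variable {E : Type} [NormedAddCommGroup E] [InnerProductSpace ℝ E] [FiniteDimensional ℝ E]

/-- the standard basis -/
noncomputable abbrev bb (E : Type) [NormedAddCommGroup E] [InnerProductSpace ℝ E]
    [FiniteDimensional ℝ E] : OrthonormalBasis (Fin (finrank ℝ E)) ℝ E := stdOrthonormalBasis ℝ E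

lemma det_cont : Continuous fun v : Fin (finrank ℝ E) → E => (bb E).toBasis.det v := by
  have h : (fun v : Fin (finrank ℝ E) → E => (bb E).toBasis.det v) =
      fun v => Matrix.det ((bb E).toBasis.toMatrix v) := by
    funext v
    rw [Basis.det_apply]
  rw [h]
  refine Continuous.matrix_det ?_
  refine continuous_matrix fun i j => ?_
  have h1 : (fun v : Fin (finrank ℝ E) → E => (bb E).toBasis.toMatrix v i j) =
      fun v => ⟪bb E i, v j⟫_ℝ := by
    funext v
    rw [Basis.toMatrix_apply, OrthonormalBasis.coe_toBasis_repr_apply,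
      OrthonormalBasis.repr_apply_apply]
  rw [h1]
  fun_prop

/-- **A normalising position.** -/
theorem position {Q : Set E} (hQc : IsCompact Q) (hQi : (interior Q).Nonempty) :
    ∃ (x₀ : E) (A : E ≃ₗ[ℝ] E), x₀ ∈ Q ∧ (∀ i, x₀ + A (bb E i) ∈ Q) ∧
      ∀ z, x₀ + A z ∈ Q → ∀ i, |⟪bb E i, z⟫_ℝ| ≤ 1 := by
  classical
  set b := (bb E).toBasis with hb
  set 𝒮 : Set (E × (Fin (finrank ℝ E) → E)) := Q ×ˢ (univ.pi fun _ => Q) with h𝒮
  have h𝒮c : IsCompact 𝒮 := hQc.prod (isCompact_univ_pi fun _ => hQc)
  obtain ⟨p, hp⟩ := hQi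
  have hf : Continuous fun s : E × (Fin (finrank ℝ E) → E) => |b.det fun i => s.2 i - s.1| := by
    refine Continuous.abs (det_cont.comp ?_)
    fun_prop
  obtain ⟨⟨x₀, v⟩, ⟨hx₀, hv⟩, hmax⟩ := h𝒮c.exists_isMaxOn
    ⟨(p, fun _ => p), interior_subset hp, fun _ _ => interior_subset hp⟩ hf.continuousOn
  have hv' : ∀ i, v i ∈ Q := fun i => hv i trivial
  have hx₀' : x₀ ∈ Q := hx₀
  set w : Fin (finrank ℝ E) → E := fun i => v i - x₀ with hw
  have hmax' : ∀ y ∈ Q, ∀ v' : Fin (finrank ℝ E) → E, (∀ i, v' i ∈ Q) →
      |b.det fun i => v' i - y| ≤ |b.det w| := fun y hy v' hv' => hmax (a := (y, v')) ⟨hy,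
        fun i _ => hv' i⟩
  have hdet : b.det w ≠ 0 := by
    obtain ⟨ε, hε, hεQ⟩ : ∃ ε : ℝ, 0 < ε ∧ ∀ i, p + ε • bb E i ∈ Q := by
      obtain ⟨ε, hε, h1⟩ := pos_dirs hp (Finset.univ.image (bb E))
      exact ⟨ε, hε, fun i => interior_subset (h1 _ (Finset.mem_image_of_mem _
        (Finset.mem_univ i)))⟩
    have h1 := hmax' p (interior_subset hp) (fun i => p + ε • bb E i) hεQ
    have h2 : (fun i => p + ε • bb E i - p) = fun i => ε • b i := by
      funext i
      rw [add_sub_cancel_left, hb, OrthonormalBasis.coe_toBasis]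
    rw [h2] at h1
    have h3 : b.det (fun i => ε • b i) = ε ^ finrank ℝ E := by
      have := b.det.map_smul_univ (fun _ => ε) b
      rw [this, Basis.det_self]
      simp
    rw [h3] at h1
    intro h4
    rw [h4, abs_zero] at h1
    have : 0 < |ε ^ finrank ℝ E| := by
      rw [abs_of_pos (by positivity)]
      positivity
    linarith
  obtain ⟨hli, hsp⟩ := (Basis.is_basis_iff_det b).2 (isUnit_iff_ne_zero.2 hdet)
  set B : Basis (Fin (finrank ℝ E)) ℝ E := Basis.mk hli hsp.ge with hB
  have hBw : ∀ i, B i = w i := fun i => by rw [hB, Basis.mk_apply]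
  have hBw' : (B : Fin (finrank ℝ E) → E) = w := funext hBw
  set A : E ≃ₗ[ℝ] E := b.equiv B (Equiv.refl _) with hA
  have hAb : ∀ i, A (bb E i) = w i := by
    intro i
    have h1 : bb E i = b i := by rw [hb, OrthonormalBasis.coe_toBasis]
    rw [h1, hA, Basis.equiv_apply, Equiv.refl_apply, hBw]
  refine ⟨x₀, A, hx₀', fun i => ?_, fun z hz i => ?_⟩
  · rw [hAb, hw]
    simpa using hv' i
  · have h1 := hmax' x₀ hx₀' (Function.update v i (x₀ + A z)) (fun j => by
      by_cases hj : j = i
      · subst hj
        rw [Function.update_self]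
        exact hz
      · rw [Function.update_of_ne hj]
        exact hv' j)
    have h2 : (fun j => Function.update v i (x₀ + A z) j - x₀) = Function.update w i (A z) := by
      funext j
      by_cases hj : j = i
      · subst hj
        rw [Function.update_self, Function.update_self, add_sub_cancel_left]
      · rw [Function.update_of_ne hj, Function.update_of_ne hj]
    rw [h2] at h1
    have h3 : b.det = b.det B • B.det := AlternatingMap.eq_smul_basis_det B b.det
    have h4 : b.det (Function.update w i (A z)) = b.det w * ⟪bb E i, z⟫_ℝ := by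
      rw [h3, AlternatingMap.smul_apply, AlternatingMap.smul_apply, ← hBw', Basis.det_self,
        smul_eq_mul, smul_eq_mul, mul_one]
      congr 1
      rw [Basis.det_apply, Basis.toMatrix_update, Basis.toMatrix_self, ← Matrix.cramer_apply,
        Matrix.cramer_one]
      change B.repr (A z) i = _
      have h5 : B.repr (A z) = b.repr z := by
        rw [hA]
        ext j
        have h6 : z = ∑ k, b.repr z k • b k := (b.sum_repr z).symm
        conv_lhs => rw [h6]
        rw [map_sum]
        simp only [map_smul, Basis.equiv_apply, Equiv.refl_apply]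
        rw [← B.equivFun_symm_apply, ← Basis.equivFun_apply, LinearEquiv.apply_symm_apply]
      rw [h5, hb, OrthonormalBasis.coe_toBasis_repr_apply, OrthonormalBasis.repr_apply_apply]
    rw [h4, abs_mul] at h1
    have h5 : 0 < |b.det w| := abs_pos.2 hdet
    by_contra h6
    push Not at h6
    nlinarith

end Pool.Agent.N321.MN
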