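import Pool.Agent.N321.MN.T

set_option autoImplicit false
set_option linter.unusedSectionVars false

/-!
# Good points near exposed points, and near the whole boundary in dimension three
-/

namespace Pool.Agent.N321.MN

open scoped InnerProductSpace Topology
open Metric Module Filter Set
open Pool.Agent.H985.Sep (polar)
open Pool.Agent.N321.NB (inner_orth)

variable {E : Type} [NormedAddCommGroup E] [InnerProductSpace ℝ E] [FiniteDimensional ℝ E]

lemma norm_bb_le {z : E} {c : ℝ} (hc : 0 ≤ c) (h : ∀ i, |⟪bb E i, z⟫_ℝ| ≤ c) :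
    ‖z‖ ≤ finrank ℝ E * c := by
  have h1 : z = ∑ i, ⟪bb E i, z⟫_ℝ • bb E i := ((bb E).sum_repr' z).symm
  calc ‖z‖ = ‖∑ i, ⟪bb E i, z⟫_ℝ • bb E i‖ := by rw [← h1]
    _ ≤ ∑ i, ‖⟪bb E i, z⟫_ℝ • bb E i‖ := norm_sum_le _ _
    _ ≤ ∑ _i : Fin (finrank ℝ E), c := by
        refine Finset.sum_le_sum fun i _ => ?_
        rw [norm_smul, (bb E).norm_eq_one, mul_one, Real.norm_eq_abs]
        exact h i
    _ = finrank ℝ E * c := by simp

lemma ultra_lim (y : ℕ → E) {R : ℝ} (hy : ∀ k, ‖y k‖ ≤ R) :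
    ∃ a, Tendsto y (hyperfilter ℕ : Filter ℕ) (𝓝 a) := by
  rcases ultra (hyperfilter ℕ) y with h1 | h1
  · exact h1
  · obtain ⟨k, h3⟩ := (h1.eventually_gt_atTop R).exists
    exact absurd (hy k) (not_le.2 h3)

lemma ultra_real (y : ℕ → ℝ) {R : ℝ} (hy : ∀ k, |y k| ≤ R) :
    ∃ a, Tendsto y (hyperfilter ℕ : Filter ℕ) (𝓝 a) := by
  rcases ultra (hyperfilter ℕ) y with h1 | h1
  · exact h1
  · obtain ⟨k, h3⟩ := (h1.eventually_gt_atTop R).exists
    exact absurd (hy k) (not_le.2 h3)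

/-- **Good points near exposed points.** -/
theorem exposed {n : ℕ} (hA : ∀ C : Set E, Convex ℝ C → IsClosed C → LF C →
    (interior C).Nonempty → (G n C).Nonempty) {K : Set E} (hK : Convex ℝ K) (hKc : IsCompact K)
    (hint : (interior K).Nonempty) {u y : E} (hu : u ≠ 0) (hy : y ∈ K)
    (hmax : ∀ z ∈ K, ⟪u, z⟫_ℝ ≤ ⟪u, y⟫_ℝ) (hexp : ∀ z ∈ K, ⟪u, z⟫_ℝ = ⟪u, y⟫_ℝ → z = y) :
    y ∈ closure (G n K) := by
  obtain ⟨q, hq⟩ := hint
  have hqy : ⟪u, q⟫_ℝ < ⟪u, y⟫_ℝ := by
    rcases (hmax q (interior_subset hq)).lt_or_eq with h | h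
    · exact h
    · exact absurd hq (Pool.Agent.N321.NB.not_int_of_max hu fun z hz => by
        rw [h]; exact hmax z hz)
  set Q : ℕ → Set E := fun k => K ∩ {x | ⟪u, y⟫_ℝ - ⟪u, x⟫_ℝ ≤ tk k} with hQ
  have hQc : ∀ k, IsCompact (Q k) := fun k =>
    hKc.inter_right (isClosed_le (by fun_prop) continuous_const)
  have hQi : ∀ k, (interior (Q k)).Nonempty := by
    intro k
    have hcont : Continuous fun s : ℝ => y + s • (q - y) := by fun_prop
    set δ := ⟪u, y⟫_ℝ - ⟪u, q⟫_ℝ with hδ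
    have hδ0 : 0 < δ := by linarith
    set s : ℝ := min 1 (tk k / (2 * δ)) with hs
    have hs0 : 0 < s := lt_min one_pos (by have := tk_pos k; positivity)
    have hs1 : s ≤ 1 := min_le_left _ _
    have hp : y + s • (q - y) ∈ interior K := by
      have := hK.combo_self_interior_mem_interior hy hq (a := 1 - s) (b := s) (by linarith) hs0
        (by ring)
      convert this using 1
      module
    refine ⟨y + s • (q - y), ?_⟩
    rw [mem_interior]
    refine ⟨interior K ∩ {x | ⟪u, y⟫_ℝ - ⟪u, x⟫_ℝ < tk k}, ?_,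
      isOpen_interior.inter (isOpen_lt (by fun_prop) continuous_const), hp, ?_⟩
    · rintro x ⟨h1, h2⟩
      rw [mem_setOf_eq] at h2
      exact ⟨interior_subset h1, h2.le⟩
    · rw [mem_setOf_eq, inner_add_right, real_inner_smul_right, inner_sub_right]
      have h1 : s * δ ≤ tk k / 2 := by
        have h2 : s ≤ tk k / (2 * δ) := min_le_right _ _
        have h3 : tk k / (2 * δ) * δ = tk k / 2 := by field_simp
        nlinarith
      have h2 := tk_pos k
      have h3 : ⟪u, y⟫_ℝ - (⟪u, y⟫_ℝ + s * (⟪u, q⟫_ℝ - ⟪u, y⟫_ℝ)) = s * δ := by rw [hδ]; ring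
      rw [h3]
      linarith
  choose x₀ A hx₀ hxA hbox using fun k => position (hQc k) (hQi k)
  -- points of the caps converge to `y`
  obtain ⟨R, hR⟩ := hKc.isBounded.exists_norm_le
  have hconv : ∀ z : ℕ → E, (∀ k, z k ∈ Q k) → Tendsto z (hyperfilter ℕ : Filter ℕ) (𝓝 y) := by
    intro z hz
    obtain ⟨a, ha⟩ := ultra_lim z (fun k => hR _ (hz k).1)
    have haK : a ∈ K := hKc.isClosed.mem_of_tendsto ha (Eventually.of_forall fun k => (hz k).1)
    have h1 : ⟪u, y⟫_ℝ - ⟪u, a⟫_ℝ ≤ 0 :=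
      le_of_tendsto_of_tendsto (tendsto_const_nhds.sub (tendsto_const_nhds.inner ha)) tk_lim
        (Eventually.of_forall fun k => (hz k).2)
    have h2 := hmax a haK
    rwa [hexp a haK (by linarith)] at ha
  set Kk : ℕ → Set E := fun k => pre K (x₀ k) (A k) with hKk
  set C : Set E := ulim (hyperfilter ℕ) Kk with hC
  have hcv : ∀ᶠ k in (hyperfilter ℕ : Filter ℕ), Convex ℝ (Kk k) :=
    Eventually.of_forall fun k => pre_convex hK _ _
  have hlo : LoU (hyperfilter ℕ) C Kk := ulim_lo hcv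
  have hCv : Convex ℝ C := ulim_convex hcv
  have hCcl : IsClosed C := ulim_closed _ _
  have hne : ∀ k, (Kk k).Nonempty := fun k => ⟨0, by
    change x₀ k + A k 0 ∈ K
    rw [map_zero, add_zero]
    exact (hx₀ k).1⟩
  have h0C : (0 : E) ∈ C := hlo.out (fun _ => 0) _ (Eventually.of_forall fun k => by
    change x₀ k + A k 0 ∈ K
    rw [map_zero, add_zero]
    exact (hx₀ k).1) tendsto_const_nhds
  have hbC : ∀ i, bb E i ∈ C := fun i => hlo.out (fun _ => bb E i) _
    (Eventually.of_forall fun k => (hxA k i).1) tendsto_const_nhds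
  have hCi : (interior C).Nonempty := by
    refine int_of_perp hCv h0C fun m hm => ?_
    have h1 : m = ∑ i, ⟪bb E i, m⟫_ℝ • bb E i := ((bb E).sum_repr' m).symm
    rw [h1]
    refine Finset.sum_eq_zero fun i _ => ?_
    rw [real_inner_comm, hm _ (hbC i), zero_smul]
  -- the functionals
  set α : ℕ → ℝ := fun k => (⟪u, y⟫_ℝ - ⟪u, x₀ k⟫_ℝ) / tk k with hα
  set ν : ℕ → E := fun k => -((tk k)⁻¹ • adj (A k) u) with hν
  have hla : ∀ k z, α k + ⟪ν k, z⟫_ℝ = (⟪u, y⟫_ℝ - ⟪u, x₀ k + A k z⟫_ℝ) / tk k := by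
    intro k z
    simp only [hα, hν]
    rw [inner_neg_left, real_inner_smul_left, adj_inner, inner_add_right]
    have := (tk_pos k).ne'
    field_simp
    ring
  have hla0 : ∀ k, ∀ z ∈ Kk k, 0 ≤ α k + ⟪ν k, z⟫_ℝ := by
    intro k z hz
    rw [hla]
    exact div_nonneg (by linarith [hmax _ hz]) (tk_pos k).le
  have hlaQ : ∀ k, ∀ z ∈ Kk k, α k + ⟪ν k, z⟫_ℝ ≤ 1 → x₀ k + A k z ∈ Q k := by
    intro k z hz h1
    rw [hla, div_le_one (tk_pos k)] at h1
    exact ⟨hz, h1⟩
  have hla1 : ∀ k z, x₀ k + A k z ∈ Q k → α k + ⟪ν k, z⟫_ℝ ≤ 1 := by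
    intro k z hz
    rw [hla, div_le_one (tk_pos k)]
    exact hz.2
  have hα01 : ∀ k, |α k| ≤ 1 := by
    intro k
    have h1 := hla0 k 0 (by
      change x₀ k + A k 0 ∈ K
      rw [map_zero, add_zero]
      exact (hx₀ k).1)
    have h2 := hla1 k 0 (by rw [map_zero, add_zero]; exact hx₀ k)
    rw [inner_zero_right, add_zero] at h1 h2
    rw [abs_le]
    constructor <;> linarith
  have hνb : ∀ k i, |⟪bb E i, ν k⟫_ℝ| ≤ 2 := by
    intro k i
    have h1 := hla0 k (bb E i) (hxA k i).1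
    have h2 := hla1 k (bb E i) (hxA k i)
    have h3 := abs_le.1 (hα01 k)
    rw [real_inner_comm, abs_le]
    constructor <;> linarith [h3.1, h3.2]
  obtain ⟨α', hαl⟩ := ultra_real α hα01
  obtain ⟨ν', hνl⟩ := ultra_lim ν (fun k => norm_bb_le (by norm_num) (hνb k))
  have hlimC : ∀ z ∈ C, ∃ x : ℕ → E, (∀ k, x k ∈ Kk k) ∧
      Tendsto x (hyperfilter ℕ : Filter ℕ) (𝓝 z) ∧
      Tendsto (fun k => α k + ⟪ν k, x k⟫_ℝ) (hyperfilter ℕ : Filter ℕ) (𝓝 (α' + ⟪ν', z⟫_ℝ)) := by
    intro z hz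
    obtain ⟨x, hx, hxz⟩ := ulim_seq tk_lim hne hz
    exact ⟨x, hx, hxz, hαl.add (hνl.inner hxz)⟩
  have hC0 : ∀ z ∈ C, 0 ≤ α' + ⟪ν', z⟫_ℝ := by
    intro z hz
    obtain ⟨x, hx, -, hl⟩ := hlimC z hz
    exact ge_of_tendsto hl (Eventually.of_forall fun k => hla0 k _ (hx k))
  have hCb : ∀ z ∈ C, α' + ⟪ν', z⟫_ℝ < 1 → ‖z‖ ≤ finrank ℝ E * 1 := by
    intro z hz hz1
    obtain ⟨x, hx, hxz, hl⟩ := hlimC z hz
    refine le_of_tendsto hxz.norm ?_
    filter_upwards [hl.eventually_lt_const hz1] with k hk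
    exact norm_bb_le zero_le_one (hbox k _ (hlaQ k _ (hx k) hk.le))
  -- the point corresponding to `y`
  have hyk : ∀ k, x₀ k + A k ((A k).symm (y - x₀ k)) = y := fun k => by
    rw [LinearEquiv.apply_symm_apply, add_sub_cancel]
  have hyQ : ∀ k, y ∈ Q k := fun k => ⟨hy, by
    rw [mem_setOf_eq, sub_self]
    exact (tk_pos k).le⟩
  obtain ⟨y', hy'⟩ := ultra_lim (fun k => (A k).symm (y - x₀ k))
    (fun k => norm_bb_le zero_le_one (hbox k _ (by rw [hyk]; exact hyQ k)))
  have hy'C : y' ∈ C := hlo.out _ _ (Eventually.of_forall fun k => by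
    change x₀ k + A k ((A k).symm (y - x₀ k)) ∈ K
    rw [hyk]
    exact hy) hy'
  have hy'0 : α' + ⟪ν', y'⟫_ℝ = 0 := by
    have h1 : Tendsto (fun k => α k + ⟪ν k, (A k).symm (y - x₀ k)⟫_ℝ) (hyperfilter ℕ : Filter ℕ)
        (𝓝 (α' + ⟪ν', y'⟫_ℝ)) := hαl.add (hνl.inner hy')
    refine tendsto_nhds_unique h1 (tendsto_const_nhds.congr fun k => ?_)
    rw [hla, hyk, sub_self, zero_div]
  have hlf : LF C := by
    intro d hd1 hd2
    have hline : ∀ s : ℝ, y' + s • d ∈ C := by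
      intro s
      rcases le_total 0 s with hs | hs
      · exact hd1 _ hy'C s hs
      · have := hd2 _ hy'C (-s) (by linarith)
        rwa [neg_smul_neg] at this
    have hνd : ⟪ν', d⟫_ℝ = 0 := by
      have h1 := hC0 _ (hline 1)
      have h2 := hC0 _ (hline (-1))
      rw [inner_add_right, real_inner_smul_right] at h1 h2
      linarith
    by_contra hd0
    have hn : 0 < ‖d‖ := norm_pos_iff.2 hd0
    have h1 := hCb _ (hline ((finrank ℝ E * 1 + ‖y'‖ + 1) / ‖d‖)) (by
      rw [inner_add_right, real_inner_smul_right, hνd, mul_zero, add_zero, hy'0]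
      exact one_pos)
    have h2 : ‖((finrank ℝ E * 1 + ‖y'‖ + 1) / ‖d‖) • d‖ = finrank ℝ E * 1 + ‖y'‖ + 1 := by
      rw [norm_smul, Real.norm_eq_abs, abs_of_nonneg (by positivity), div_mul_cancel₀ _ hn.ne']
    have h3 := norm_sub_le (y' + ((finrank ℝ E * 1 + ‖y'‖ + 1) / ‖d‖) • d) y'
    rw [add_sub_cancel_left, h2] at h3
    linarith
  obtain ⟨p, hp⟩ := hA C hCv hCcl hlf hCi
  have h1 := G_lim (K := K) (o := x₀) (A := A) hCv hp hlo
  refine mem_closure_of_tendsto (f := fun k => x₀ k + A k p) (b := (hyperfilter ℕ : Filter ℕ)) ?_ h1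
  have hx₀l := hconv x₀ hx₀
  have h2 : ∀ i, Tendsto (fun k => A k (bb E i)) (hyperfilter ℕ : Filter ℕ) (𝓝 0) := by
    intro i
    have h3 := (hconv _ fun k => hxA k i).sub hx₀l
    simpa using h3
  have h3 : ∀ k, A k p = ∑ i, ⟪bb E i, p⟫_ℝ • A k (bb E i) := by
    intro k
    have h4 : p = ∑ i, ⟪bb E i, p⟫_ℝ • bb E i := ((bb E).sum_repr' p).symm
    conv_lhs => rw [h4]
    rw [map_sum]
    simp only [map_smul]
  have h4 : Tendsto (fun k => A k p) (hyperfilter ℕ : Filter ℕ) (𝓝 0) := by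
    have h5 : Tendsto (fun k => ∑ i, ⟪bb E i, p⟫_ℝ • A k (bb E i)) (hyperfilter ℕ : Filter ℕ)
        (𝓝 (∑ i : Fin (finrank ℝ E), ⟪bb E i, p⟫_ℝ • (0 : E))) :=
      tendsto_finset_sum _ fun i _ => (h2 i).const_smul _
    simp only [smul_zero, Finset.sum_const_zero] at h5
    exact h5.congr fun k => (h3 k).symm
  have h5 := hx₀l.add h4
  rwa [add_zero] at h5

/-- **Good points near every boundary point in dimension three.** -/
theorem near_boundary (hd : finrank ℝ E = 3) {K : Set E} (hK : Convex ℝ K) (hKc : IsCompact K)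
    (hint : (interior K).Nonempty) {y : E} (hy : y ∈ K) (hyi : y ∉ interior K) :
    y ∈ closure (G 4 K) := by
  obtain ⟨f, hf⟩ := geometric_hahn_banach_open_point hK.interior isOpen_interior hyi
  set u : E := (InnerProductSpace.toDual ℝ E).symm f with hudef
  have huf : ∀ x, ⟪u, x⟫_ℝ = f x := fun x => InnerProductSpace.toDual_symm_apply
  have hu : u ≠ 0 := by
    intro h0
    obtain ⟨p, hp⟩ := hint
    have := hf p hp
    rw [← huf, ← huf, h0, inner_zero_left, inner_zero_left] at this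
    exact lt_irrefl _ this
  have hmax : ∀ z ∈ K, ⟪u, z⟫_ℝ ≤ ⟪u, y⟫_ℝ := by
    intro x hx
    have hxc : x ∈ closure (interior K) := by
      rw [hK.closure_interior_eq_closure_of_nonempty_interior hint]
      exact subset_closure hx
    refine closure_minimal (t := {x | ⟪u, x⟫_ℝ ≤ ⟪u, y⟫_ℝ}) (fun z hz => ?_)
      (isClosed_le (by fun_prop) continuous_const) hxc
    have := hf z hz
    rw [← huf, ← huf] at this
    exact this.le
  have hn : 0 < ‖u‖ := norm_pos_iff.2 hu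
  set e : E := -(‖u‖⁻¹ • u) with he
  have he1 : ‖e‖ = 1 := by
    rw [he, norm_neg, norm_smul, norm_inv, norm_norm, inv_mul_cancel₀ hn.ne']
  have he0 : e ≠ 0 := by rintro h; rw [h] at he1; simp at he1
  have hei : ∀ z, ⟪e, z - y⟫_ℝ = ‖u‖⁻¹ * (⟪u, y⟫_ℝ - ⟪u, z⟫_ℝ) := by
    intro z
    rw [he, inner_neg_left, real_inner_smul_left, inner_sub_right]
    ring
  by_cases hFi : (interior (Fc e y K)).Nonempty
  · refine near_facet hd hK hKc hint he1 hy (fun z hz => ?_) hFi
    rw [hei]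
    have := hmax z hz
    exact mul_nonneg (by positivity) (by linarith)
  by_cases hseg : ∃ z ∈ K, ⟪u, z⟫_ℝ = ⟪u, y⟫_ℝ ∧ z ≠ y
  · obtain ⟨z, hz, hzu, hzy⟩ := hseg
    refine near_segment hd hK hKc hint hu hy hmax (e := z - y) (sub_ne_zero.2 hzy)
      (by rw [inner_sub_right, hzu, sub_self]) (by rwa [add_sub_cancel]) fun w hw hwu => ?_
    by_contra hcon
    push Not at hcon
    apply hFi
    have hf : finrank ℝ (Hp e) = 2 := by
      have := Hp_finrank he0
      omega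
    have hmz : z - y ∈ Hp e := by
      rw [Submodule.mem_orthogonal_singleton_iff_inner_right, hei, hzu, sub_self, mul_zero]
    have hmw : w - y ∈ Hp e := by
      rw [Submodule.mem_orthogonal_singleton_iff_inner_right, hei, hwu, sub_self, mul_zero]
    have h0 : (0 : Hp e) ∈ Fc e y K := by
      change y + ((0 : Hp e) : E) ∈ K
      simpa using hy
    refine int_of_span (Fc_convex hK) h0 ?_
    have hli : LinearIndependent ℝ ![(⟨z - y, hmz⟩ : Hp e), ⟨w - y, hmw⟩] := by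
      rw [LinearIndependent.pair_iff]
      intro s t hst
      have h1 : s • (z - y) + t • (w - y) = 0 := by
        have := Subtype.ext_iff.1 hst
        simpa using this
      rcases eq_or_ne t 0 with ht | ht
      · rw [ht, zero_smul, add_zero, smul_eq_zero] at h1
        rcases h1 with h1 | h1
        · exact ⟨h1, ht⟩
        · exact absurd (sub_eq_zero.1 h1) hzy
      · exfalso
        apply hcon (-(t⁻¹ * s))
        have h2 : t • (w - y) = -(s • (z - y)) := by
          rw [eq_neg_iff_add_eq_zero, add_comm]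
          exact h1
        calc w - y = t⁻¹ • (t • (w - y)) := by rw [smul_smul, inv_mul_cancel₀ ht, one_smul]
          _ = (-(t⁻¹ * s)) • (z - y) := by rw [h2, smul_neg, smul_smul, neg_smul]
    have hsp := hli.span_eq_top_of_card_eq_finrank (by rw [hf]; simp)
    rw [eq_top_iff, ← hsp]
    refine Submodule.span_mono ?_
    rintro v ⟨i, rfl⟩
    fin_cases i
    · change y + (z - y) ∈ K
      rwa [add_sub_cancel]
    · change y + (w - y) ∈ K
      rwa [add_sub_cancel]
  · push Not at hseg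
    exact exposed (fun C h1 h2 h3 h4 => Gd_three_closed hd h1 h2 h3 h4) hK hKc hint hu hy hmax hseg

end Pool.Agent.N321.MN
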