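import Pool.Agent.N321.MN.TT

set_option autoImplicit false
set_option linter.unusedSectionVars false

/-!
# Three-dimensional closed sets, and faces of dimension two and three in dimension four
-/

namespace Pool.Agent.N321.MN

open scoped InnerProductSpace Topology
open Metric Module Filter Set
open Pool.Agent.H985.Sep (polar)
open Pool.Agent.N321.NB (inner_orth)

section gen

variable {E : Type} [NormedAddCommGroup E] [InnerProductSpace ℝ E] [FiniteDimensional ℝ E]

lemma zero_int_polar {C : Set E} {R : ℝ} (hR : ∀ x ∈ C, ‖x‖ ≤ R) (o : E) :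
    (0 : E) ∈ interior (polar C o) := by
  rw [mem_interior_iff_mem_nhds]
  have hRp : 0 < |R| + ‖o‖ + 1 := by positivity
  refine Filter.mem_of_superset (ball_mem_nhds (0 : E)
    (show 0 < 1 / (|R| + ‖o‖ + 1) by positivity)) fun v hv x hx => ?_
  rw [mem_ball_zero_iff, lt_div_iff₀ hRp] at hv
  have h1 := real_inner_le_norm v (x - o)
  have h2 : ‖x - o‖ ≤ |R| + ‖o‖ + 1 := by
    have := norm_sub_le x o
    have := hR x hx
    have := le_abs_self R
    linarith
  have h3 : ‖v‖ * ‖x - o‖ ≤ ‖v‖ * (|R| + ‖o‖ + 1) := mul_le_mul_of_nonneg_left h2 (norm_nonneg _)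
  linarith

lemma cv_fin {C : Set E} (hC : IsCompact C) {o : E} (ho : o ∈ interior C) : ∃ n, cv n C o := by
  obtain ⟨R, hR⟩ := hC.isBounded.exists_norm_le
  have h0 := zero_int_polar hR o
  obtain ⟨T, -, hT⟩ := (Pool.Agent.H985.Sep.isCompact_polar ho).elim_nhds_subcover
    (fun t => (fun x => t + x) '' interior (polar C o)) fun t _ => by
      have h1 : IsOpen ((fun x => t + x) '' interior (polar C o)) :=
        (Homeomorph.addLeft t).isOpenMap _ isOpen_interior
      exact h1.mem_nhds ⟨0, h0, add_zero t⟩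
  exact ⟨T.card, T, le_rfl, hT⟩

/-- **Good points near the boundary of three-dimensional closed sets without lines.** -/
theorem near_boundary_closed (hd : finrank ℝ E = 3) {C : Set E} (hC : Convex ℝ C)
    (hcl : IsClosed C) (hl : LF C) (hint : (interior C).Nonempty) {z : E} (hz : z ∈ C)
    (hzi : z ∉ interior C) : z ∈ closure (G 4 C) := by
  have : Nontrivial E := Module.nontrivial_of_finrank_pos (R := ℝ) (by omega)
  obtain ⟨z₁, hz₁⟩ := hint
  obtain ⟨C', p, h1, h2, h3, h4, h5, h6⟩ := proj (shift_convex hC z₁) (shift_closed hcl z₁)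
    (shift_lf hl z₁) (by rw [shift_interior, add_zero]; exact hz₁)
  set x : E := z - z₁ with hx
  have hxC : x ∈ {l | z₁ + l ∈ C} := by
    change z₁ + (z - z₁) ∈ C
    rwa [add_sub_cancel]
  have hpx := h4 x hxC
  set y : E := (1 - ⟪p, x⟫_ℝ)⁻¹ • x with hy
  have hpy : 1 + ⟪p, y⟫_ℝ = (1 - ⟪p, x⟫_ℝ)⁻¹ := by
    rw [hy, real_inner_smul_right]
    field_simp
    ring
  have hyx : (1 + ⟪p, y⟫_ℝ)⁻¹ • y = x := by
    rw [hpy, hy, inv_inv, smul_smul, mul_inv_cancel₀ hpx.ne', one_smul]
  have hyC : y ∈ C' := by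
    have h7 : x ∈ closure (interior {l | z₁ + l ∈ C}) := by
      rw [(shift_convex hC z₁).closure_interior_eq_closure_of_nonempty_interior
        ⟨0, by rw [shift_interior, add_zero]; exact hz₁⟩]
      exact subset_closure hxC
    have hcont : ContinuousAt (fun x : E => (1 - ⟪p, x⟫_ℝ)⁻¹ • x) x :=
      ContinuousAt.smul (ContinuousAt.inv₀ (by fun_prop) hpx.ne') continuousAt_id
    have h8 : y ∈ closure C' := by
      rw [_root_.mem_closure_iff_frequently] at h7 ⊢
      refine hcont.tendsto.frequently (h7.mono fun w hw => ?_)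
      exact interior_subset (h6 w hw)
    rwa [h2.isClosed.closure_eq] at h8
  have hyi : y ∉ interior C' := by
    intro hyi
    obtain ⟨n, hn⟩ := cv_fin h2 hyi
    obtain ⟨-, h7⟩ := h5 n y ⟨hyi, hn⟩
    rw [hyx] at h7
    have h8 := (G_shift.1 h7).1
    rw [hx, add_sub_cancel] at h8
    exact hzi h8
  have h7 := near_boundary hd h1 h2 ⟨0, h3⟩ hyC hyi
  have hcont : ContinuousAt (fun y : E => z₁ + (1 + ⟪p, y⟫_ℝ)⁻¹ • y) y := by
    refine continuousAt_const.add (ContinuousAt.smul (ContinuousAt.inv₀ (by fun_prop) ?_)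
      continuousAt_id)
    rw [hpy]
    positivity
  have h8 : z₁ + (1 + ⟪p, y⟫_ℝ)⁻¹ • y ∈ closure (G 4 C) := by
    rw [_root_.mem_closure_iff_frequently] at h7 ⊢
    refine hcont.tendsto.frequently (h7.mono fun w hw => ?_)
    exact G_shift.1 (h5 4 w hw).2
  rwa [hyx, hx, add_sub_cancel] at h8

end gen

section V

variable {V : Type} [NormedAddCommGroup V] [InnerProductSpace ℝ V] [FiniteDimensional ℝ V]

/-- the hypothesis holds in dimension four, with the place -/
lemma HH_four_gen (hV : finrank ℝ V = 2) {U : Set V} (hU : IsOpen U) : HH 4 U := by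
  intro e he D hD hcl hl hint z hz hzU
  have he0 : e ≠ 0 := by rintro rfl; simp at he
  have hf : finrank ℝ (Hp e) = 3 := by
    have h1 := Hp_finrank he0
    rw [finrankv, hV] at h1
    omega
  -- a direction of the fibre
  obtain ⟨d, hd0, hda⟩ : ∃ d : Hp e, d ≠ 0 ∧ aa (d : EE V) = 0 := by
    let φ : Hp e →ₗ[ℝ] V :=
      { toFun := fun l => aa (l : EE V)
        map_add' := fun _ _ => rfl
        map_smul' := fun _ _ => rfl }
    have h1 : 0 < finrank ℝ (LinearMap.ker φ) := by
      have h2 := LinearMap.finrank_range_add_finrank_ker φ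
      have h3 := Submodule.finrank_le (LinearMap.range φ)
      omega
    obtain ⟨d, hd⟩ := Module.finrank_pos_iff_exists_ne_zero.1 h1
    refine ⟨d, fun h => hd (Subtype.ext h), ?_⟩
    exact LinearMap.mem_ker.1 d.2
  obtain ⟨z', hz'D, hz'i, hz'U⟩ : ∃ z' ∈ D, z' ∉ interior D ∧ aa (z' : EE V) ∈ U := by
    have hex : ∃ s : ℝ, z + s • d ∉ D := by
      by_contra hcon
      push Not at hcon
      refine hd0 (hl d (Rc_of_ray hD hcl fun t _ => hcon t) (Rc_of_ray hD hcl (y := z)
        fun t _ => ?_))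
      have := hcon (-t)
      rwa [neg_smul, ← smul_neg] at this
    obtain ⟨s, hs⟩ := hex
    have hcont : Continuous fun s : ℝ => z + s • d := by fun_prop
    have hScl : IsClosed ((fun s : ℝ => z + s • d) ⁻¹' D) := hcl.preimage hcont
    obtain ⟨t, ht⟩ := (nonempty_frontier_iff (s := (fun s : ℝ => z + s • d) ⁻¹' D)).2
      ⟨⟨0, by simpa using hz⟩, fun h => hs (by
        have : s ∈ (fun s : ℝ => z + s • d) ⁻¹' D := h ▸ mem_univ s
        exact this)⟩
    rw [frontier, hScl.closure_eq] at ht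
    have hw : z + t • d ∈ D ∧ z + t • d ∉ interior D := ⟨ht.1, fun h => ht.2
      (mem_interior.2 ⟨(fun s : ℝ => z + s • d) ⁻¹' interior D, preimage_mono interior_subset,
        isOpen_interior.preimage hcont, h⟩)⟩
    refine ⟨_, hw.1, hw.2, ?_⟩
    simp only [Submodule.coe_add, Submodule.coe_smul, aa_add, aa_smul, hda, smul_zero, add_zero]
    exact hzU
  have h1 := near_boundary_closed hf hD hcl hl hint hz'D hz'i
  obtain ⟨o, ho1, ho2⟩ := mem_closure_iff.1 h1 {l : Hp e | aa (l : EE V) ∈ U}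
    (hU.preimage (cont_aa.comp continuous_subtype_val)) hz'U
  exact ⟨o, ho2, ho1⟩

end V

variable {E : Type} [NormedAddCommGroup E] [InnerProductSpace ℝ E] [FiniteDimensional ℝ E]

lemma slice_compact {K : Set E} (hKc : IsCompact K) (x : E) (L : Submodule ℝ E) :
    IsCompact {l : L | x + (l : E) ∈ K} := by
  refine Metric.isCompact_of_isClosed_isBounded
    (hKc.isClosed.preimage (by fun_prop : Continuous fun l : L => x + (l : E))) ?_
  obtain ⟨R, hR⟩ := hKc.isBounded.exists_norm_le
  refine (isBounded_iff_forall_norm_le).2 ⟨R + ‖x‖, fun l hl => ?_⟩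
  have h1 := hR _ hl
  have h2 := norm_sub_le (x + (l : E)) x
  rw [add_sub_cancel_left] at h2
  change ‖(l : E)‖ ≤ _
  linarith

/-- **Points of a two-dimensional face in dimension four.** -/
theorem near_face_two (hd : finrank ℝ E = 4) {K : Set E} (hK : Convex ℝ K) (hKc : IsCompact K)
    (hint : (interior K).Nonempty) {u y : E} (hu : u ≠ 0) (hy : y ∈ K)
    (hmax : ∀ z ∈ K, ⟪u, z⟫_ℝ ≤ ⟪u, y⟫_ℝ) {L : Submodule ℝ E} (hL : finrank ℝ L = 2)
    (huL : ∀ l ∈ L, ⟪u, l⟫_ℝ = 0) (hface : ∀ z ∈ K, ⟪u, z⟫_ℝ = ⟪u, y⟫_ℝ → z - y ∈ L)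
    (hF : (interior {l : L | y + (l : E) ∈ K}).Nonempty) : y ∈ closure (G 5 K) := by
  set F : Set L := {l : L | y + (l : E) ∈ K} with hFdef
  have hFv : Convex ℝ F := sub_convex hK y L
  have hFc : IsCompact F := slice_compact hKc y L
  have h0 : (0 : L) ∈ F := by
    change y + ((0 : L) : E) ∈ K
    simpa using hy
  have hlf := LF_of_compact hFc ⟨0, h0⟩
  rw [← closure_closure, _root_.mem_closure_iff]
  intro W hW hyW
  have hcont : Continuous fun l : L => y + (l : E) := by fun_prop
  obtain ⟨q, hqW, hq1, hq2⟩ := dense_plane hL hFv hFc.isClosed hlf hF h0 (hW.preimage hcont)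
    (by simpa using hyW)
  set x : E := y + (q : E) with hx
  have hux : ⟪u, x⟫_ℝ = ⟪u, y⟫_ℝ := by rw [hx, inner_add_right, huL _ q.2, add_zero]
  have hsh : {l : L | x + (l : E) ∈ K} = {l : L | q + l ∈ F} := by
    ext l
    change x + (l : E) ∈ K ↔ y + ((q + l : L) : E) ∈ K
    rw [Submodule.coe_add, hx, add_assoc]
  have hcont2 : Continuous fun l : L => x + (l : E) := by fun_prop
  obtain ⟨l, hlU, hl⟩ := codim_two hK hKc hint hu (x := x) (fun z hz => by
      rw [hux]; exact hmax z hz) (L := L) (by rw [hL, hd]) huL (fun z hz hzu => by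
      have h1 := hface z hz (by rw [hzu, hux])
      have : z - x = z - y - (q : E) := by rw [hx]; abel
      rw [this]
      exact L.sub_mem h1 q.2) (by
      rw [hsh, shift_interior, add_zero]
      exact hq1) (n := 3) (by
      rw [hsh]
      exact cv_shift.2 hq2) (N := 4) le_rfl (U := (fun l : L => x + (l : E)) ⁻¹' W)
    (hW.preimage hcont2) (by simpa using hqW) (HH_four_gen hL (hW.preimage hcont2))
  exact ⟨_, hlU, hl⟩

/-- **Relative boundary points of a three-dimensional face in dimension four.** -/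
theorem near_face_three (hd : finrank ℝ E = 4) {K : Set E} (hK : Convex ℝ K) (hKc : IsCompact K)
    (hint : (interior K).Nonempty) {e y : E} (he : ‖e‖ = 1) (hy : y ∈ K)
    (hpos : ∀ z ∈ K, 0 ≤ ⟪e, z - y⟫_ℝ) (hF : (interior (Fc e y K)).Nonempty)
    (h0 : (0 : Hp e) ∉ interior (Fc e y K)) : y ∈ closure (G 5 K) := by
  have he0 : e ≠ 0 := by rintro rfl; simp at he
  have hf : finrank ℝ (Hp e) = 3 := by
    have := Hp_finrank he0
    omega
  have hl := LF_of_compact hKc ⟨y, hy⟩
  have h0' : (0 : Hp e) ∈ Fc e y K := by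
    change y + ((0 : Hp e) : E) ∈ K
    simpa using hy
  have h1 : (0 : Hp e) ∈ closure (G 4 (Fc e y K)) :=
    near_boundary_closed hf (Fc_convex hK) (Fc_closed hKc.isClosed)
      (Fc_lf hK hKc.isClosed hy hl) hF h0' h0
  have hcont : Continuous fun l : Hp e => y + (l : E) := by fun_prop
  have h2 := map_mem_closure hcont h1 (t := closure (G 5 K)) fun o ho =>
    facet_G he hK hKc.isClosed hpos hint ho
  rw [closure_closure] at h2
  simpa using h2

end Pool.Agent.N321.MN
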