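import Pool.Agent.N321.MN.R

set_option autoImplicit false
set_option linter.unusedSectionVars false

/-!
# The space `V × ℝ × ℝ`
-/

namespace Pool.Agent.N321.MN

open scoped InnerProductSpace Topology
open Metric Module Filter Set
open Pool.Agent.H985.Sep (polar)

variable {V : Type} [NormedAddCommGroup V] [InnerProductSpace ℝ V] [FiniteDimensional ℝ V]

/-- the space -/
abbrev EE (V : Type) [NormedAddCommGroup V] [InnerProductSpace ℝ V] : Type :=
  WithLp 2 (V × WithLp 2 (ℝ × ℝ))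

/-- a point -/
def pv (l : V) (y z : ℝ) : EE V := WithLp.toLp 2 (l, WithLp.toLp 2 (y, z))

/-- the coordinates -/
def aa (p : EE V) : V := p.fst
/-- the second coordinate -/
def yy (p : EE V) : ℝ := p.snd.fst
/-- the third coordinate -/
def zz (p : EE V) : ℝ := p.snd.snd

@[simp] lemma aa_pv (l : V) (y z : ℝ) : aa (pv l y z) = l := rfl
@[simp] lemma yy_pv (l : V) (y z : ℝ) : yy (pv l y z) = y := rfl
@[simp] lemma zz_pv (l : V) (y z : ℝ) : zz (pv l y z) = z := rfl
@[simp] lemma aa_add (p q : EE V) : aa (p + q) = aa p + aa q := rfl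
@[simp] lemma yy_add (p q : EE V) : yy (p + q) = yy p + yy q := rfl
@[simp] lemma zz_add (p q : EE V) : zz (p + q) = zz p + zz q := rfl
@[simp] lemma aa_sub (p q : EE V) : aa (p - q) = aa p - aa q := rfl
@[simp] lemma yy_sub (p q : EE V) : yy (p - q) = yy p - yy q := rfl
@[simp] lemma zz_sub (p q : EE V) : zz (p - q) = zz p - zz q := rfl
@[simp] lemma aa_neg (p : EE V) : aa (-p) = -aa p := rfl
@[simp] lemma yy_neg (p : EE V) : yy (-p) = -yy p := rfl
@[simp] lemma zz_neg (p : EE V) : zz (-p) = -zz p := rfl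
@[simp] lemma aa_smul (s : ℝ) (p : EE V) : aa (s • p) = s • aa p := rfl
@[simp] lemma yy_smul (s : ℝ) (p : EE V) : yy (s • p) = s * yy p := rfl
@[simp] lemma zz_smul (s : ℝ) (p : EE V) : zz (s • p) = s * zz p := rfl
@[simp] lemma aa_zero : aa (0 : EE V) = 0 := rfl
@[simp] lemma yy_zero : yy (0 : EE V) = 0 := rfl
@[simp] lemma zz_zero : zz (0 : EE V) = 0 := rfl

lemma extv {p q : EE V} (h1 : aa p = aa q) (h2 : yy p = yy q) (h3 : zz p = zz q) : p = q := by
  have e1 : p = pv (aa p) (yy p) (zz p) := rfl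
  have e2 : q = pv (aa q) (yy q) (zz q) := rfl
  rw [e1, e2, h1, h2, h3]

lemma innerv (u v : EE V) : ⟪u, v⟫_ℝ = ⟪aa u, aa v⟫_ℝ + yy u * yy v + zz u * zz v := by
  rw [WithLp.prod_inner_apply, WithLp.prod_inner_apply]
  simp only [RCLike.inner_apply, conj_trivial, aa, yy, zz, WithLp.fst, WithLp.snd]
  ring

lemma normv_sq (v : EE V) : ‖v‖ ^ 2 = ‖aa v‖ ^ 2 + yy v ^ 2 + zz v ^ 2 := by
  rw [← real_inner_self_eq_norm_sq, innerv, real_inner_self_eq_norm_sq]
  ring

lemma normv_le (v : EE V) : ‖v‖ ≤ ‖aa v‖ + |yy v| + |zz v| := by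
  have h := normv_sq v
  have h0 := norm_nonneg (aa v)
  have h1 := abs_nonneg (yy v)
  have h2 := abs_nonneg (zz v)
  refine le_of_sq_le_sq ?_ (by positivity) |> fun h => h
  rw [h, ← sq_abs (yy v), ← sq_abs (zz v)]
  nlinarith [mul_nonneg h0 h1, mul_nonneg h0 h2, mul_nonneg h1 h2]

lemma cont_aa : Continuous (aa : EE V → V) := by unfold aa; fun_prop
lemma cont_yy : Continuous (yy : EE V → ℝ) := by unfold yy; fun_prop
lemma cont_zz : Continuous (zz : EE V → ℝ) := by unfold zz; fun_prop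

lemma cont_pv {ι : Type*} [TopologicalSpace ι] {l : ι → V} {y z : ι → ℝ} (hl : Continuous l)
    (hy : Continuous y) (hz : Continuous z) : Continuous fun i => pv (l i) (y i) (z i) := by
  unfold pv
  fun_prop

lemma pv_lim {ι : Type*} {F : Filter ι} {l : ι → V} {y z : ι → ℝ} {a : V} {b c : ℝ}
    (hl : Tendsto l F (𝓝 a)) (hy : Tendsto y F (𝓝 b)) (hz : Tendsto z F (𝓝 c)) :
    Tendsto (fun k => pv (l k) (y k) (z k)) F (𝓝 (pv a b c)) := by
  have h : Continuous fun q : V × ℝ × ℝ => pv q.1 q.2.1 q.2.2 :=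
    cont_pv (by fun_prop) (by fun_prop) (by fun_prop)
  exact (h.tendsto (a, b, c)).comp (hl.prodMk_nhds (hy.prodMk_nhds hz))

lemma finrankv : finrank ℝ (EE V) = finrank ℝ V + 2 := by
  rw [LinearEquiv.finrank_eq (WithLp.linearEquiv 2 ℝ (V × WithLp 2 (ℝ × ℝ))),
    Module.finrank_prod, LinearEquiv.finrank_eq (WithLp.linearEquiv 2 ℝ (ℝ × ℝ)),
    Module.finrank_prod]
  simp

end Pool.Agent.N321.MN
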