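import Pool.Agent.N321.MN.V

set_option autoImplicit false
set_option linter.unusedSectionVars false

/-!
# The limit set of a zoom at a face of codimension two
-/

namespace Pool.Agent.N321.MN

open scoped InnerProductSpace Topology
open Metric Module Filter Set
open Pool.Agent.H985.Sep (polar)

variable {V : Type} [NormedAddCommGroup V] [InnerProductSpace ℝ V] [FiniteDimensional ℝ V]

/-- the structure of the limit set -/
structure PV (C : Set (EE V)) (F : Set V) : Prop where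
  cvx : Convex ℝ C
  cl : IsClosed C
  Fc : IsCompact F
  F0 : (0 : V) ∈ interior F
  bF : ∀ p ∈ C, aa p ∈ F
  bz : ∀ p ∈ C, 0 ≤ zz p
  st : ∀ l ∈ F, ∀ ζ : ℝ, 0 ≤ ζ → pv l 0 ζ ∈ C
  int : (interior C).Nonempty
  nb : ¬ (pv 0 1 0 ∈ Rc C ∧ pv 0 (-1) 0 ∈ Rc C)

/-- the final situation -/
structure FV (C : Set (EE V)) (F : Set V) : Prop extends PV C F where
  zy : ∀ p ∈ C, zz p = 0 → yy p = 0
  gi : pv 0 0 1 ∈ interior C
  c2 : ∀ v ∈ polar C (pv 0 0 1), zz v = 0 → yy v = 0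

variable {C : Set (EE V)} {F : Set V}

lemma valv (v x : EE V) : ⟪v, x - pv 0 0 1⟫_ℝ =
    ⟪aa v, aa x⟫_ℝ + yy v * yy x + zz v * (zz x - 1) := by
  rw [innerv]
  simp only [aa_sub, yy_sub, zz_sub, aa_pv, yy_pv, zz_pv, sub_zero]

lemma PV.z0 (h : PV C F) : pv 0 0 0 ∈ C := h.st 0 (interior_subset h.F0) 0 le_rfl

lemma PV.rca (h : PV C F) {d : EE V} (hd : d ∈ Rc C) : aa d = 0 := by
  obtain ⟨R, hR⟩ := h.Fc.isBounded.exists_norm_le
  by_contra hd0
  have hn : 0 < ‖aa d‖ := norm_pos_iff.2 hd0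
  have hR0 : 0 ≤ R := (norm_nonneg _).trans (hR 0 (interior_subset h.F0))
  have h1 := hR _ (h.bF _ (hd _ h.z0 ((R + 1) / ‖aa d‖) (by positivity)))
  simp only [aa_add, aa_smul, aa_pv, zero_add] at h1
  rw [norm_smul, Real.norm_eq_abs, abs_of_pos (by positivity), div_mul_cancel₀ _ hn.ne'] at h1
  linarith

lemma PV.rcz (h : PV C F) {d : EE V} (hd : d ∈ Rc C) : 0 ≤ zz d := by
  have h1 := h.bz _ (hd _ h.z0 1 zero_le_one)
  simpa using h1

lemma PV.lf (h : PV C F) : LF C := by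
  intro d h1 h2
  have h3 := h.rca h1
  have h4 := h.rcz h1
  have h5 := h.rcz h2
  rw [zz_neg] at h5
  have h6 : zz d = 0 := by linarith
  by_contra hd
  have h7 : yy d ≠ 0 := by
    intro h7
    exact hd (extv (by simpa using h3) (by simpa using h7) (by simpa using h6))
  have h8 : ∀ s : ℝ, pv 0 (s * yy d) 0 ∈ Rc C := by
    intro s
    rcases le_total 0 s with hs | hs
    · convert Rc_smul h1 hs using 1
      exact extv (by simp [h3]) (by simp) (by simp [h6])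
    · convert Rc_smul h2 (neg_nonneg.2 hs) using 1
      exact extv (by simp [h3]) (by simp) (by simp [h6])
  refine h.nb ⟨?_, ?_⟩
  · have := h8 (yy d)⁻¹
    rwa [inv_mul_cancel₀ h7] at this
  · have := h8 (-(yy d)⁻¹)
    rwa [neg_mul, inv_mul_cancel₀ h7] at this

lemma PV.gR (h : PV C F) : pv 0 0 1 ∈ Rc C := by
  refine Rc_of_ray h.cvx h.cl (y := pv 0 0 0) fun t ht => ?_
  convert h.st 0 (interior_subset h.F0) t ht using 1
  exact extv (by simp) (by simp) (by simp)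

lemma FV.rc (h : FV C F) {d : EE V} (hd : d ∈ Rc C) (hd0 : d ≠ 0) : aa d = 0 ∧ 0 < zz d := by
  refine ⟨h.rca hd, lt_of_le_of_ne (h.rcz hd) fun h1 => hd0 ?_⟩
  have h2 := h.zy _ (hd _ h.z0 1 zero_le_one) (by simp [← h1])
  exact extv (by simpa using h.rca hd) (by simpa using h2) (by simpa using h1.symm)

lemma lt_of_int {P : Set V} {F : Set V} (hP : ∀ v ∈ P, ∀ x ∈ F, ⟪v, x⟫_ℝ ≤ 1) {v x : V}
    (hv : v ∈ interior P) (hx : x ∈ F) : ⟪v, x⟫_ℝ < 1 := by
  rcases (hP v (interior_subset hv) x hx).lt_or_eq with h | h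
  · exact h
  · exfalso
    rcases eq_or_ne x 0 with rfl | hx0
    · rw [inner_zero_right] at h
      exact one_ne_zero h.symm
    · refine Pool.Agent.N321.NB.not_int_of_max hx0 (fun z hz => ?_) hv
      rw [real_inner_comm z x, real_inner_comm v x, h]
      exact hP z hz x hx

/-- a uniform gap -/
lemma unif (hF : IsCompact F) (F0 : (0 : V) ∈ interior F) {T : Finset V}
    (hcov : polar F 0 ⊆ ⋃ t ∈ T, (fun x => t + x) '' interior (polar F 0)) :
    ∃ δ : ℝ, 0 < δ ∧ ∀ u ∈ polar F 0, ∃ t ∈ T, ∀ x ∈ F, ⟪u, x⟫_ℝ = 1 → δ ≤ ⟪t, x⟫_ℝ := by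
  by_contra hcon
  push Not at hcon
  choose u hu hbad using fun k : ℕ => hcon (tk k) (tk_pos k)
  obtain ⟨a, haP, ha⟩ := (Pool.Agent.H985.Sep.isCompact_polar F0).ultrafilter_le_nhds
    ((hyperfilter ℕ).map u) (by
      rw [le_principal_iff]
      exact Eventually.of_forall (p := fun k => u k ∈ polar F 0) hu)
  have ha' : Tendsto u (hyperfilter ℕ : Filter ℕ) (𝓝 a) := ha
  obtain ⟨t, ht, p, hp, hpt⟩ := mem_iUnion₂.1 (hcov haP)
  choose x hx hux htx using fun k => hbad k t ht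
  obtain ⟨b, hbF, hb⟩ := hF.ultrafilter_le_nhds ((hyperfilter ℕ).map x) (by
      rw [le_principal_iff]
      exact Eventually.of_forall (p := fun k => x k ∈ F) hx)
  have hb' : Tendsto x (hyperfilter ℕ : Filter ℕ) (𝓝 b) := hb
  have h1 : ⟪a, b⟫_ℝ = 1 :=
    tendsto_nhds_unique (ha'.inner hb') (tendsto_const_nhds.congr fun k => (hux k).symm)
  have h2 : ⟪t, b⟫_ℝ ≤ 0 := by
    refine le_of_tendsto_of_tendsto (tendsto_const_nhds.inner hb') tk_lim
      (Eventually.of_forall fun k => (htx k).le)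
  have h3 : ⟪p, b⟫_ℝ < 1 := lt_of_int (P := polar F 0) (F := F) (fun v hv x hx => by
    have := hv x hx
    rwa [sub_zero] at this) hp hbF
  simp only at hpt
  rw [← hpt, inner_add_left] at h1
  linarith

/-- the bad situation for one `ε` -/
lemma FV.bad (h : FV C F) {n : ℕ} {T : Finset V} (hT : T.card ≤ n)
    {δ γ : ℝ} (hγ : 0 < γ) (hγδ : γ < δ)
    (hTn : T.Nonempty)
    (hδ : ∀ u ∈ polar F 0, ∃ t ∈ T, ∀ x ∈ F, ⟪u, x⟫_ℝ = 1 → δ ≤ ⟪t, x⟫_ℝ)
    (hcon : ¬ cv (n + 2) C (pv 0 0 1)) {ε : ℝ} (hε : 0 < ε) :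
    ∃ v ∈ polar C (pv 0 0 1), zz v < 0 ∧
      (∀ t ∈ T, ∃ x ∈ C, ⟪v, x - pv 0 0 1⟫_ℝ = 1 ∧ ⟪t, aa x⟫_ℝ + γ * (zz x - 1) ≤ 0) ∧
      ∃ x ∈ C, ⟪v, x - pv 0 0 1⟫_ℝ = 1 ∧ |yy x| ≤ 2 * ε * (zz x - 1) := by
  classical
  set W : Finset (EE V) := insert (pv 0 1 (-ε)) (insert (pv 0 (-1) (-ε))
    (T.image fun t => pv t 0 γ)) with hW
  have hcard : W.card ≤ n + 2 :=
    (Finset.card_insert_le _ _).trans (Nat.succ_le_succ ((Finset.card_insert_le _ _).trans
      (Nat.succ_le_succ (Finset.card_image_le.trans hT))))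
  have hneg : ¬ ∀ v ∈ polar C (pv 0 0 1), ∃ w ∈ W,
      (∀ x ∈ C, ⟪v, x - pv 0 0 1⟫_ℝ = 1 → 0 < ⟪w, x - pv 0 0 1⟫_ℝ) ∧
      ∀ d ∈ Rc C, d ≠ 0 → ⟪v, d⟫_ℝ = 0 → 0 < ⟪w, d⟫_ℝ := fun hW' =>
    hcon ((cv_of_dirs h.cvx h.cl h.gi _ hW').mono hcard)
  push Not at hneg
  obtain ⟨v, hv, hbad⟩ := hneg
  have hvz : zz v ≤ 0 := by
    have := polar_rc (interior_subset h.gi) hv h.gR
    rw [innerv] at this
    simpa using this
  have hBt : ∀ t ∈ T, ∀ d ∈ Rc C, d ≠ 0 → 0 < ⟪pv t 0 γ, d⟫_ℝ := by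
    intro t _ d hd hd0
    obtain ⟨h1, h2⟩ := h.rc hd hd0
    rw [innerv, h1]
    simp only [aa_pv, yy_pv, zz_pv, inner_zero_right, zero_mul, zero_add]
    positivity
  have hex : ∀ t ∈ T, ∃ x ∈ C, ⟪v, x - pv 0 0 1⟫_ℝ = 1 ∧ ⟪t, aa x⟫_ℝ + γ * (zz x - 1) ≤ 0 := by
    intro t ht
    by_contra hc
    push Not at hc
    obtain ⟨d, hd, hd0, hvd, hwd⟩ := hbad (pv t 0 γ) (Finset.mem_insert_of_mem
      (Finset.mem_insert_of_mem (Finset.mem_image_of_mem _ ht))) (fun x hx hvx => by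
        rw [valv]
        simp only [aa_pv, yy_pv, zz_pv, zero_mul, add_zero]
        exact hc x hx hvx)
    exact absurd (hBt t ht d hd hd0) (not_lt.2 hwd)
  have hvz' : zz v < 0 := by
    refine lt_of_le_of_ne hvz fun hv0 => ?_
    have hv1 := h.c2 v hv hv0
    obtain ⟨t, ht, htF⟩ := hδ (aa v) (fun l hl => by
      have := hv _ (h.st l hl 1 zero_le_one)
      rw [valv, hv1, hv0] at this
      simpa using this)
    obtain ⟨x, hx, hvx, hwx⟩ := hex t ht
    rw [valv, hv1, hv0] at hvx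
    have h1 := htF (aa x) (h.bF x hx) (by linarith)
    have h2 := h.bz x hx
    nlinarith
  -- the face is on one side
  have hcross : ∀ x ∈ C, ∀ x' ∈ C, ⟪v, x - pv 0 0 1⟫_ℝ = 1 → ⟪v, x' - pv 0 0 1⟫_ℝ = 1 →
      yy x < 0 → 0 < yy x' → False := by
    intro x hx x' hx' hvx hvx' h1 h2
    have hden : 0 < yy x' - yy x := by linarith
    set α := yy x' / (yy x' - yy x) with hα
    set β := -(yy x) / (yy x' - yy x) with hβ
    have hα0 : 0 < α := div_pos h2 hden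
    have hβ0 : 0 < β := div_pos (by linarith) hden
    have hαβ : α + β = 1 := by
      rw [hα, hβ, ← add_div, div_eq_one_iff_eq hden.ne']
      ring
    have h3 := h.cvx hx hx' hα0.le hβ0.le hαβ
    set p := α • x + β • x' with hp
    have hyp : yy p = 0 := by
      rw [hp, yy_add, yy_smul, yy_smul, hα, hβ]
      field_simp
      ring
    have hvp : ⟪v, p - pv 0 0 1⟫_ℝ = 1 := by
      have e1 : p - pv 0 0 1 = α • (x - pv 0 0 1) + β • (x' - pv 0 0 1) := by
        rw [smul_sub, smul_sub, hp]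
        have : α • (pv 0 0 1 : EE V) + β • (pv 0 0 1 : EE V) = pv 0 0 1 := by
          rw [← add_smul, hαβ, one_smul]
        nth_rewrite 1 [← this]
        abel
      rw [e1, inner_add_right, real_inner_smul_right, real_inner_smul_right, hvx, hvx']
      linarith
    have h4 := hv _ (h.st (aa p) (h.bF p h3) 0 le_rfl)
    rw [valv] at h4 hvp
    simp only [aa_pv, yy_pv, zz_pv, mul_zero, add_zero, hyp] at h4 hvp
    have h5 := h.bz p h3
    have h6 : zz v * zz p ≥ 0 := by linarith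
    have h7 : zz p = 0 := by nlinarith
    have h8 : zz x = 0 := by
      have h9 := h.bz x hx
      have h10 := h.bz x' hx'
      rw [hp, zz_add, zz_smul, zz_smul] at h7
      have h11 : 0 ≤ α * zz x := by positivity
      have h12 : 0 ≤ β * zz x' := by positivity
      have h13 : α * zz x = 0 := by linarith
      exact (mul_eq_zero.1 h13).resolve_left hα0.ne'
    have h9 := h.zy x hx h8
    linarith
  obtain ⟨σ, hσ, hside⟩ : ∃ σ : ℝ, (σ = 1 ∨ σ = -1) ∧ ∀ x ∈ C, ⟪v, x - pv 0 0 1⟫_ℝ = 1 →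
      0 ≤ σ * yy x := by
    by_cases hs : ∃ x₀ ∈ C, ⟪v, x₀ - pv 0 0 1⟫_ℝ = 1 ∧ yy x₀ < 0
    · obtain ⟨x₀, hx₀, hv₀, hy₀⟩ := hs
      refine ⟨-1, Or.inr rfl, fun x hx hvx => ?_⟩
      by_contra hc
      exact hcross x₀ hx₀ x hx hv₀ hvx hy₀ (by linarith)
    · push Not at hs
      exact ⟨1, Or.inl rfl, fun x hx hvx => by rw [one_mul]; exact hs x hx hvx⟩
  have hσabs : ∀ y : ℝ, 0 ≤ σ * y → |y| = σ * y := by
    intro y hy
    rcases hσ with rfl | rfl
    · rw [one_mul] at hy ⊢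
      exact abs_of_nonneg hy
    · rw [abs_of_nonpos (by linarith)]
      ring
  refine ⟨v, hv, hvz', hex, ?_⟩
  by_contra hc
  push Not at hc
  have hwW : pv 0 σ (-ε) ∈ W := by
    rcases hσ with rfl | rfl
    · exact Finset.mem_insert_self _ _
    · exact Finset.mem_insert_of_mem (Finset.mem_insert_self _ _)
  obtain ⟨d, hd, hd0, hvd, hwd⟩ := hbad (pv 0 σ (-ε)) hwW (fun x hx hvx => by
    rw [valv]
    simp only [aa_pv, yy_pv, zz_pv, inner_zero_left, zero_add]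
    have h1 := hside x hx hvx
    have h2 := hc x hx hvx
    rw [hσabs _ h1] at h2
    by_contra h3
    push Not at h3
    have h4 : 0 ≤ ε * (zz x - 1) := by linarith
    linarith)
  obtain ⟨h1, h2⟩ := h.rc hd hd0
  rw [innerv, h1] at hwd
  simp only [aa_pv, yy_pv, zz_pv, inner_zero_right, zero_add] at hwd
  obtain ⟨t, ht⟩ := hTn
  obtain ⟨x, hx, hvx, -⟩ := hex t ht
  have hxs : ∀ s : ℝ, 0 ≤ s → x + s • d ∈ C ∧ ⟪v, x + s • d - pv 0 0 1⟫_ℝ = 1 := by
    intro s hs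
    refine ⟨hd x hx s hs, ?_⟩
    rw [add_sub_right_comm, inner_add_right, real_inner_smul_right, hvd, hvx]
    ring
  have hyd : 0 ≤ σ * yy d := by
    by_contra h3
    push Not at h3
    have hs0 : 0 ≤ (σ * yy x + 1) / -(σ * yy d) := by
      have := hside x hx hvx
      exact div_nonneg (by linarith) (by linarith)
    obtain ⟨h4, h5⟩ := hxs _ hs0
    have h6 := hside _ h4 h5
    rw [yy_add, yy_smul] at h6
    have h7 : (σ * yy x + 1) / -(σ * yy d) * (σ * yy d) = -(σ * yy x + 1) := by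
      rw [div_neg, neg_mul, div_mul_cancel₀ _ h3.ne]
    have h8 : σ * (yy x + (σ * yy x + 1) / -(σ * yy d) * yy d) =
        σ * yy x + (σ * yy x + 1) / -(σ * yy d) * (σ * yy d) := by ring
    rw [h8, h7] at h6
    linarith
  set s : ℝ := (|yy x| + 2 * ε * (1 + |zz x|)) / (ε * zz d) with hs
  have hs0 : 0 ≤ s := by positivity
  obtain ⟨h4, h5⟩ := hxs s hs0
  have h6 := hc _ h4 h5
  rw [yy_add, yy_smul, zz_add, zz_smul] at h6
  have h7 : |yy x + s * yy d| ≤ |yy x| + s * |yy d| := by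
    refine (abs_add_le _ _).trans ?_
    rw [abs_mul, abs_of_nonneg hs0]
  rw [hσabs _ hyd] at h7
  have h8 : s * (ε * zz d) = |yy x| + 2 * ε * (1 + |zz x|) := by
    rw [hs]
    field_simp
  have h9 : s * (σ * yy d) ≤ s * (ε * zz d) := mul_le_mul_of_nonneg_left (by linarith) hs0
  have h10 := neg_abs_le (zz x)
  nlinarith

/-- **`n + 2` translates.** -/
theorem FV.cvn (h : FV C F) {n : ℕ} (hcv : cv n F 0) : cv (n + 2) C (pv 0 0 1) := by
  by_contra hcon
  obtain ⟨T, hT, hcov⟩ := hcv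
  obtain ⟨δ, hδ, hδF⟩ := unif h.Fc h.F0 hcov
  have hTn : T.Nonempty := by
    obtain ⟨t, ht, -⟩ := mem_iUnion₂.1 (hcov (zero_mem_polar F 0))
    exact ⟨t, ht⟩
  have hbad := fun k : ℕ => h.bad hT (γ := δ / 2) (by positivity) (by linarith) hTn hδF hcon
    (tk_pos k)
  choose v hv hvz hvt x hx hvx hyx using hbad
  obtain ⟨r, hr, hrC⟩ := Pool.Agent.H985.Sep.exists_ball h.gi
  have hbdd : ∀ (y : ℕ → EE V) (R : ℝ), (∀ k, ‖y k‖ ≤ R) →
      ∃ a, Tendsto y (hyperfilter ℕ : Filter ℕ) (𝓝 a) := by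
    intro y R hy
    rcases ultra (hyperfilter ℕ) y with h1 | h1
    · exact h1
    · obtain ⟨k, h3⟩ := (h1.eventually_gt_atTop R).exists
      exact absurd (hy k) (not_le.2 h3)
  obtain ⟨vi, hvl⟩ := hbdd v (1 / r) fun k =>
    Pool.Agent.H985.Sep.norm_le_of_mem_polar hr hrC _ (hv k)
  have hvi : vi ∈ polar C (pv 0 0 1) :=
    (Pool.Agent.H985.Sep.isClosed_polar C _).mem_of_tendsto hvl (Eventually.of_forall hv)
  have hviz : zz vi ≤ 0 := by
    have := polar_rc (interior_subset h.gi) hvi h.gR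
    rw [innerv] at this
    simpa using this
  -- directions of unbounded sequences
  have hdir : ∀ y : ℕ → EE V, (∀ k, y k ∈ C) → (∀ k, ⟪v k, y k - pv 0 0 1⟫_ℝ = 1) →
      Tendsto (fun k => ‖y k - pv 0 0 1‖) (hyperfilter ℕ : Filter ℕ) atTop →
      ∃ d ∈ Rc C, d ≠ 0 ∧ ⟪vi, d⟫_ℝ = 0 ∧
        Tendsto (fun k => ‖y k - pv 0 0 1‖⁻¹ • (y k - pv 0 0 1)) (hyperfilter ℕ : Filter ℕ)
          (𝓝 d) := by
    intro y hy hvy hinf
    obtain ⟨d, hd1, hd⟩ := ultra_dir (hyperfilter ℕ) _ hinf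
    have hinv : Tendsto (fun k => ‖y k - pv 0 0 1‖⁻¹) (hyperfilter ℕ : Filter ℕ) (𝓝 0) :=
      tendsto_inv_atTop_zero.comp hinf
    refine ⟨d, ?_, ?_, ?_, hd⟩
    · refine Rc_of_lim h.cvx h.cl (l := (hyperfilter ℕ : Filter ℕ)) (x := y)
        (μ := fun k => ‖y k - pv 0 0 1‖⁻¹) hinv
        (Eventually.of_forall fun k => by positivity) (Eventually.of_forall hy) ?_
      have h3 : Tendsto (fun k => ‖y k - pv 0 0 1‖⁻¹ • (y k - pv 0 0 1) +
          ‖y k - pv 0 0 1‖⁻¹ • (pv 0 0 1 : EE V)) (hyperfilter ℕ : Filter ℕ)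
          (𝓝 (d + (0 : ℝ) • (pv 0 0 1 : EE V))) := hd.add (hinv.smul_const _)
      rw [zero_smul, add_zero] at h3
      refine h3.congr fun k => ?_
      rw [← smul_add, sub_add_cancel]
    · rintro rfl
      simp at hd1
    · have h5 : Tendsto (fun k => ⟪v k, ‖y k - pv 0 0 1‖⁻¹ • (y k - pv 0 0 1)⟫_ℝ)
          (hyperfilter ℕ : Filter ℕ) (𝓝 ⟪vi, d⟫_ℝ) := hvl.inner hd
      refine tendsto_nhds_unique h5 (hinv.congr fun k => ?_)
      rw [real_inner_smul_right, hvy, mul_one]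
  have hvizz : zz vi < 0 := by
    refine lt_of_le_of_ne hviz fun hv0 => ?_
    have hv1 := h.c2 vi hvi hv0
    obtain ⟨t, ht, htF⟩ := hδF (aa vi) (fun l hl => by
      have := hvi _ (h.st l hl 1 zero_le_one)
      rw [valv, hv1, hv0] at this
      simpa using this)
    choose y hy hvy hwy using fun k => hvt k t ht
    obtain ⟨R, hR⟩ := h.Fc.isBounded.exists_norm_le
    have hzb : ∀ k, zz (y k) ≤ 1 + ‖t‖ * R / (δ / 2) := by
      intro k
      have h1 := hwy k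
      have h2 : -(‖t‖ * R) ≤ ⟪t, aa (y k)⟫_ℝ := by
        have h3 := abs_real_inner_le_norm t (aa (y k))
        have h4 := neg_abs_le ⟪t, aa (y k)⟫_ℝ
        have h5 : ‖t‖ * ‖aa (y k)‖ ≤ ‖t‖ * R :=
          mul_le_mul_of_nonneg_left (hR _ (h.bF _ (hy k))) (norm_nonneg _)
        linarith
      have h3 : zz (y k) - 1 ≤ ‖t‖ * R / (δ / 2) := by
        rw [le_div_iff₀ (by positivity)]
        linarith
      linarith
    rcases ultra (hyperfilter ℕ) (fun k => y k - pv 0 0 1) with ⟨a, ha⟩ | hinf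
    · have hX : Tendsto y (hyperfilter ℕ : Filter ℕ) (𝓝 (a + pv 0 0 1)) := by
        have := ha.add_const (pv 0 0 1 : EE V)
        simpa using this
      set X : EE V := a + pv 0 0 1 with hXdef
      have hXC : X ∈ C := h.cl.mem_of_tendsto hX (Eventually.of_forall hy)
      have hvX : ⟪vi, X - pv 0 0 1⟫_ℝ = 1 := by
        have h1 : Tendsto (fun k => ⟪v k, y k - pv 0 0 1⟫_ℝ) (hyperfilter ℕ : Filter ℕ)
            (𝓝 ⟪vi, X - pv 0 0 1⟫_ℝ) := hvl.inner (hX.sub_const _)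
        exact tendsto_nhds_unique h1 (tendsto_const_nhds.congr fun k => (hvy k).symm)
      rw [valv, hv1, hv0] at hvX
      have h1 := htF (aa X) (h.bF X hXC) (by linarith)
      have h2 : ⟪t, aa X⟫_ℝ + δ / 2 * (zz X - 1) ≤ 0 := by
        have h3 : Tendsto (fun k => ⟪t, aa (y k)⟫_ℝ + δ / 2 * (zz (y k) - 1))
            (hyperfilter ℕ : Filter ℕ) (𝓝 (⟪t, aa X⟫_ℝ + δ / 2 * (zz X - 1))) :=
          (tendsto_const_nhds.inner ((cont_aa.tendsto X).comp hX)).add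
            ((((cont_zz.tendsto X).comp hX).sub_const 1).const_mul _)
        exact le_of_tendsto h3 (Eventually.of_forall hwy)
      have h3 := h.bz X hXC
      nlinarith
    · obtain ⟨d, hdR, hd0, -, hd⟩ := hdir y hy hvy hinf
      have hz : zz d ≤ 0 := by
        have h1 : Tendsto (fun k => zz (‖y k - pv 0 0 1‖⁻¹ • (y k - pv 0 0 1)))
            (hyperfilter ℕ : Filter ℕ) (𝓝 (zz d)) := (cont_zz.tendsto d).comp hd
        have hinv : Tendsto (fun k => ‖y k - pv 0 0 1‖⁻¹ * (‖t‖ * R / (δ / 2)))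
            (hyperfilter ℕ : Filter ℕ) (𝓝 (0 * (‖t‖ * R / (δ / 2)))) :=
          (tendsto_inv_atTop_zero.comp hinf).mul_const _
        rw [zero_mul] at hinv
        refine le_of_tendsto_of_tendsto h1 hinv (Eventually.of_forall fun k => ?_)
        simp only [zz_smul, zz_sub, zz_pv]
        exact mul_le_mul_of_nonneg_left (by linarith [hzb k]) (by positivity)
      linarith [(h.rc hdR hd0).2]
  -- the last point
  have hz1 : ∀ k, 1 ≤ zz (x k) := by
    intro k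
    have h1 := (abs_nonneg _).trans (hyx k)
    have h2 : 0 < 2 * tk k := by linarith [tk_pos k]
    have := nonneg_of_mul_nonneg_right h1 h2
    linarith
  rcases ultra (hyperfilter ℕ) (fun k => x k - pv 0 0 1) with ⟨a, ha⟩ | hinf
  · have hX : Tendsto x (hyperfilter ℕ : Filter ℕ) (𝓝 (a + pv 0 0 1)) := by
      have := ha.add_const (pv 0 0 1 : EE V)
      simpa using this
    set X : EE V := a + pv 0 0 1 with hXdef
    have hXC : X ∈ C := h.cl.mem_of_tendsto hX (Eventually.of_forall hx)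
    have hvX : ⟪vi, X - pv 0 0 1⟫_ℝ = 1 := by
      have h1 : Tendsto (fun k => ⟪v k, x k - pv 0 0 1⟫_ℝ) (hyperfilter ℕ : Filter ℕ)
          (𝓝 ⟪vi, X - pv 0 0 1⟫_ℝ) := hvl.inner (hX.sub_const _)
      exact tendsto_nhds_unique h1 (tendsto_const_nhds.congr fun k => (hvx k).symm)
    have hcz : Tendsto (fun k => zz (x k)) (hyperfilter ℕ : Filter ℕ) (𝓝 (zz X)) :=
      (cont_zz.tendsto X).comp hX
    have hcy : Tendsto (fun k => |yy (x k)|) (hyperfilter ℕ : Filter ℕ) (𝓝 |yy X|) :=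
      ((cont_yy.tendsto X).comp hX).abs
    have hXz : 1 ≤ zz X := ge_of_tendsto hcz (Eventually.of_forall hz1)
    have hXy : yy X = 0 := by
      have h1 : Tendsto (fun k => 2 * tk k * (zz (x k) - 1)) (hyperfilter ℕ : Filter ℕ)
          (𝓝 (2 * 0 * (zz X - 1))) := (tk_lim.const_mul 2).mul (hcz.sub_const 1)
      rw [mul_zero, zero_mul] at h1
      have h2 : |yy X| ≤ 0 := le_of_tendsto_of_tendsto hcy h1 (Eventually.of_forall hyx)
      exact abs_eq_zero.1 (le_antisymm h2 (abs_nonneg _))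
    have h1 := hvi _ (h.st (aa X) (h.bF X hXC) 0 le_rfl)
    rw [valv] at h1 hvX
    simp only [aa_pv, yy_pv, zz_pv, mul_zero, add_zero, hXy] at h1 hvX
    nlinarith
  · obtain ⟨d, hdR, hd0, hvd, hd⟩ := hdir x hx hvx hinf
    have hy : |yy d| ≤ 0 := by
      have h1 : Tendsto (fun k => |yy (‖x k - pv 0 0 1‖⁻¹ • (x k - pv 0 0 1))|)
          (hyperfilter ℕ : Filter ℕ) (𝓝 |yy d|) := ((cont_yy.tendsto d).comp hd).abs
      have h2 : Tendsto (fun k => 2 * tk k * zz (‖x k - pv 0 0 1‖⁻¹ • (x k - pv 0 0 1)))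
          (hyperfilter ℕ : Filter ℕ) (𝓝 (2 * 0 * zz d)) :=
        (tk_lim.const_mul 2).mul ((cont_zz.tendsto d).comp hd)
      rw [mul_zero, zero_mul] at h2
      refine le_of_tendsto_of_tendsto h1 h2 (Eventually.of_forall fun k => ?_)
      simp only [yy_smul, zz_smul, yy_sub, zz_sub, yy_pv, zz_pv, sub_zero]
      rw [abs_mul, abs_of_nonneg (by positivity : 0 ≤ ‖x k - pv 0 0 1‖⁻¹)]
      have h3 := mul_le_mul_of_nonneg_left (hyx k)
        (by positivity : 0 ≤ ‖x k - pv 0 0 1‖⁻¹)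
      linarith
    obtain ⟨h1, h2⟩ := h.rc hdR hd0
    have h3 : yy d = 0 := abs_eq_zero.1 (le_antisymm hy (abs_nonneg _))
    rw [innerv, h1, h3, inner_zero_right, mul_zero, zero_add, zero_add] at hvd
    have := mul_neg_of_neg_of_pos hvizz h2
    linarith

end Pool.Agent.N321.MN
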