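import Pool.Agent.N321.MN.W

set_option autoImplicit false
set_option linter.unusedSectionVars false

/-!
# Good points of the limit sets
-/

namespace Pool.Agent.N321.MN

open scoped InnerProductSpace Topology
open Metric Module Filter Set
open Pool.Agent.H985.Sep (polar)
open Pool.Agent.N321.NB (inner_orth)

section gen

variable {E : Type} [NormedAddCommGroup E] [InnerProductSpace ℝ E] [FiniteDimensional ℝ E]
variable {E' : Type} [NormedAddCommGroup E'] [InnerProductSpace ℝ E'] [FiniteDimensional ℝ E']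

lemma G_mono {n m : ℕ} {C : Set E} (hnm : n ≤ m) {o : E} (ho : o ∈ G n C) : o ∈ G m C :=
  ⟨ho.1, ho.2.mono hnm⟩

/-- **Zooming, with the place.** -/
theorem G_lim {ι : Type*} {𝒰 : Ultrafilter ι} {C : Set E'} {K : Set E} {n : ℕ} (hC : Convex ℝ C)
    {p : E'} (hp : p ∈ G n C) {o : ι → E} {A : ι → E' ≃ₗ[ℝ] E}
    (h : LoU 𝒰 C (fun k => pre K (o k) (A k))) :
    ∀ᶠ k in (𝒰 : Filter ι), o k + A k p ∈ G n K := by
  filter_upwards [semiU hC h hp.1 hp.2] with k hk
  refine ⟨?_, cv_pre hk.2⟩
  have := hk.1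
  rw [pre_interior] at this
  exact this

theorem facet_G {e : E} (he : ‖e‖ = 1) {C : Set E} (hC : Convex ℝ C) (hcl : IsClosed C) {x : E}
    (hpos : ∀ z ∈ C, 0 ≤ ⟪e, z - x⟫_ℝ) (hint : (interior C).Nonempty) {n : ℕ} {o : Hp e}
    (ho : o ∈ G n (Fc e x C)) : x + (o : E) ∈ closure (G (n + 1) C) := by
  have hF : ∀ l : Hp e, l ∈ {l | o + l ∈ Fc e x C} ↔ x + (o : E) + (l : E) ∈ C := by
    intro l
    change x + ((o + l : Hp e) : E) ∈ C ↔ _
    rw [Submodule.coe_add, add_assoc]
  have h0 : (0 : Hp e) ∈ interior {l | o + l ∈ Fc e x C} := by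
    rw [shift_interior, add_zero]
    exact ho.1
  have h1 := G_lim (Cyl_convex (Fconv hC hF))
    (p := 0) ⟨Cyl_zero h0, cv_cyl he h0 (cv_shift.2 ho.2)⟩
    (facet_lo he hC hcl (q := x + (o : E)) (fun z hz => by
      rw [← sub_sub, inner_sub_right, inner_orth, sub_zero]
      exact hpos z hz) hint hF)
  refine mem_closure_of_tendsto (f := fun k => x + (o : E) + tk k • e)
    (b := (hyperfilter ℕ : Filter ℕ)) ?_ ?_
  · have := (tk_lim.smul_const e).const_add (x + (o : E))
    rwa [zero_smul, add_zero] at this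
  · filter_upwards [h1] with k hk
    rwa [map_zero, add_zero] at hk

theorem up_G {e : E} (he : ‖e‖ = 1) {C : Set E} (hC : Convex ℝ C) (hcl : IsClosed C)
    (hint : (interior C).Nonempty) (hlf : LF C) (heR : e ∈ Rc C) {n : ℕ} {q : Hp e}
    (hq : q ∈ G n (closure (prj e '' C))) :
    ∀ᶠ k in (hyperfilter ℕ : Filter ℕ), (q : E) + (tk k)⁻¹ • e ∈ G (n + 1) C := by
  have hDc : Convex ℝ (prj e '' C) := hC.linear_image (prj e).toLinearMap
  have h0 : (0 : Hp e) ∈ interior {l | q + l ∈ closure (prj e '' C)} := by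
    rw [shift_interior, add_zero]
    exact hq.1
  have h1 := G_lim (Cyl_convex (shift_conv hDc.closure q)) (p := 0)
    ⟨Cyl_zero h0, cv_cyl he h0 (cv_shift.2 hq.2)⟩ (up_lo he hC hcl hint hlf heR q)
  filter_upwards [h1] with k hk
  rwa [map_zero, add_zero] at hk

lemma int_of_perp {F : Set E} (hF : Convex ℝ F) (h0 : (0 : E) ∈ F)
    (h : ∀ n : E, (∀ l ∈ F, ⟪n, l⟫_ℝ = 0) → n = 0) : (interior F).Nonempty := by
  refine int_of_span hF h0 ?_
  rw [← Submodule.orthogonal_eq_bot_iff, Submodule.eq_bot_iff]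
  intro n hn
  refine h n fun l hl => ?_
  rw [real_inner_comm]
  exact (Submodule.mem_orthogonal _ n).1 hn l (Submodule.subset_span hl)

lemma zero_of_int {F : Set E} (F0 : (0 : E) ∈ interior F) {n : E} (h : ∀ l ∈ F, ⟪n, l⟫_ℝ ≤ 0) :
    n = 0 := by
  by_contra hn
  obtain ⟨y, hy, hpos⟩ := Pool.Agent.R753.SJ.exists_pos F0 hn
  rw [sub_zero] at hpos
  exact absurd (h y hy) (not_le.2 hpos)

end gen

variable {V : Type} [NormedAddCommGroup V] [InnerProductSpace ℝ V] [FiniteDimensional ℝ V]
variable {C : Set (EE V)} {F : Set V}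

/-- the hypothesis on sets of codimension one -/
def HH (N : ℕ) (U : Set V) : Prop := ∀ e : EE V, ‖e‖ = 1 → ∀ D : Set (Hp e), Convex ℝ D →
  IsClosed D → LF D → (interior D).Nonempty → ∀ z ∈ D, aa (z : EE V) ∈ U →
    ∃ o ∈ G N D, aa (o : EE V) ∈ U

lemma norm_pv {y z : ℝ} (h : y ^ 2 + z ^ 2 = 1) : ‖(pv 0 y z : EE V)‖ = 1 := by
  have h1 := normv_sq (pv 0 y z : EE V)
  simp only [aa_pv, yy_pv, zz_pv, norm_zero] at h1
  have h2 := norm_nonneg (pv 0 y z : EE V)
  nlinarith

/-- a facet through the origin gives good points -/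
lemma PV.facet (h : PV C F) {N : ℕ} {U : Set V} (hU : IsOpen U) (h0U : (0 : V) ∈ U)
    (hH : HH N U) {e : EE V} (he : ‖e‖ = 1) (hpos : ∀ z ∈ C, 0 ≤ ⟪e, z⟫_ℝ)
    (hperp : ∀ n : EE V, ⟪e, n⟫_ℝ = 0 → (∀ l ∈ C, ⟪e, l⟫_ℝ = 0 → ⟪n, l⟫_ℝ = 0) → n = 0) :
    ∃ o ∈ G (N + 1) C, aa o ∈ U := by
  have h0C : (0 : EE V) ∈ C := h.z0
  have h0D : (0 : Hp e) ∈ MN.Fc e 0 C := by
    change (0 : EE V) + ((0 : Hp e) : EE V) ∈ C
    simpa using h0C
  have hint : (interior (MN.Fc e 0 C)).Nonempty := by
    refine int_of_perp (Fc_convex h.cvx) h0D fun n hn => ?_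
    have h1 := hperp (n : EE V) (inner_orth n) fun l hl hel => by
      have := hn ⟨l, by rw [Submodule.mem_orthogonal_singleton_iff_inner_right]; exact hel⟩ (by
        change (0 : EE V) + l ∈ C
        rwa [zero_add])
      rwa [Submodule.coe_inner] at this
    exact Subtype.ext h1
  obtain ⟨o, ho, hoU⟩ := hH e he _ (Fc_convex h.cvx) (Fc_closed h.cl) (Fc_lf h.cvx h.cl h0C h.lf)
    hint 0 h0D (by simpa using h0U)
  have h1 := facet_G he h.cvx h.cl (x := 0) (fun z hz => by rw [sub_zero]; exact hpos z hz)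
    h.int ho
  rw [zero_add] at h1
  obtain ⟨o', h2, h3⟩ := mem_closure_iff.1 h1 (aa ⁻¹' U) (hU.preimage cont_aa) hoU
  exact ⟨o', h3, h2⟩

/-- **Good points of the limit set.** -/
theorem PV.good (h : PV C F) {n N : ℕ} (hcv : cv n F 0) (hnN : n + 2 ≤ N + 1) {U : Set V}
    (hU : IsOpen U) (h0U : (0 : V) ∈ U) (hH : HH N U) : ∃ o ∈ G (N + 1) C, aa o ∈ U := by
  by_contra hno
  push Not at hno
  have hfac : ∀ {e : EE V}, ‖e‖ = 1 → (∀ z ∈ C, 0 ≤ ⟪e, z⟫_ℝ) →
      ¬ (∀ n : EE V, ⟪e, n⟫_ℝ = 0 → (∀ l ∈ C, ⟪e, l⟫_ℝ = 0 → ⟪n, l⟫_ℝ = 0) → n = 0) := by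
    intro e he hpos hperp
    obtain ⟨o, ho, hoU⟩ := h.facet hU h0U hH he hpos hperp
    exact hno o ho hoU
  have hg1 : ‖(pv 0 0 1 : EE V)‖ = 1 := norm_pv (by norm_num)
  have hfi : FV C F := by
    refine { h with zy := ?_, gi := ?_, c2 := ?_ }
    · intro p hp hpz
      by_contra hpy
      refine hfac hg1 (fun z hz => ?_) fun n hn hl => ?_
      · rw [innerv]
        simpa using h.bz z hz
      · rw [innerv] at hn
        simp only [aa_pv, yy_pv, zz_pv, inner_zero_left, zero_mul, zero_add, one_mul] at hn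
        have h1 : aa n = 0 := zero_of_int h.F0 fun l hl' => by
          have := hl _ (h.st l hl' 0 le_rfl) (by rw [innerv]; simp)
          rw [innerv] at this
          simp only [aa_pv, yy_pv, zz_pv, mul_zero, add_zero] at this
          exact this.le
        have h2 := hl p hp (by rw [innerv]; simp [hpz])
        rw [innerv, h1, hpz, inner_zero_left, mul_zero, zero_add, add_zero] at h2
        exact extv (by simpa using h1) (by simpa using (mul_eq_zero.1 h2).resolve_right hpy)
          (by simpa using hn)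
    · by_contra hgi
      obtain ⟨f, hf⟩ := geometric_hahn_banach_open_point h.cvx.interior isOpen_interior hgi
      set v : EE V := (InnerProductSpace.toDual ℝ (EE V)).symm f with hv
      have hvf : ∀ x, ⟪v, x⟫_ℝ = f x := fun x => InnerProductSpace.toDual_symm_apply
      have hv0 : v ≠ 0 := by
        intro h0
        obtain ⟨p, hp⟩ := h.int
        have := hf p hp
        rw [← hvf, ← hvf, h0, inner_zero_left, inner_zero_left] at this
        exact lt_irrefl _ this
      have hle : ∀ x ∈ C, ⟪v, x⟫_ℝ ≤ ⟪v, pv 0 0 1⟫_ℝ := by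
        intro x hx
        have hxc : x ∈ closure (interior C) := by
          rw [h.cvx.closure_interior_eq_closure_of_nonempty_interior h.int]
          exact subset_closure hx
        refine closure_minimal (t := {x | ⟪v, x⟫_ℝ ≤ ⟪v, pv 0 0 1⟫_ℝ}) (fun z hz => ?_)
          (isClosed_le (by fun_prop) continuous_const) hxc
        have := hf z hz
        rw [← hvf, ← hvf] at this
        exact this.le
      have hs : ∀ l ∈ F, ∀ ζ : ℝ, 0 ≤ ζ → ⟪aa v, l⟫_ℝ + zz v * ζ ≤ zz v := by
        intro l hl ζ h2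
        have h3 := hle _ (h.st l hl ζ h2)
        rw [innerv, innerv] at h3
        simpa using h3
      have h3 := hs 0 (interior_subset h.F0) 0 le_rfl
      have h4 := hs 0 (interior_subset h.F0) 2 (by norm_num)
      rw [inner_zero_right] at h3 h4
      have h5 : zz v = 0 := by linarith
      have h6 : aa v = 0 := zero_of_int h.F0 fun l hl => by
        have := hs l hl 0 le_rfl
        rw [h5] at this
        linarith
      have h7 : yy v ≠ 0 := by
        intro h7
        exact hv0 (extv (by simpa using h6) (by simpa using h7) (by simpa using h5))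
      have h8 : 0 < |yy v| := abs_pos.2 h7
      refine hfac (e := pv 0 (-(yy v / |yy v|)) 0) (norm_pv ?_) (fun z hz => ?_) fun n hn hl => ?_
      · rw [neg_sq, div_pow, sq_abs, div_self (by positivity)]
        norm_num
      · have := hle z hz
        rw [innerv v z, innerv v, h5, h6] at this
        rw [innerv]
        simp only [aa_pv, yy_pv, zz_pv, inner_zero_left, zero_mul, mul_zero, zero_add,
          add_zero] at this ⊢
        have h9 : -(yy v / |yy v|) * yy z = -(yy v * yy z) / |yy v| := by ring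
        rw [h9]
        exact div_nonneg (by linarith) h8.le
      · rw [innerv] at hn
        simp only [aa_pv, yy_pv, zz_pv, inner_zero_left, zero_mul, zero_add, add_zero] at hn
        have hn' : yy n = 0 := by
          exact (mul_eq_zero.1 hn).resolve_left (neg_ne_zero.2 (div_ne_zero h7 h8.ne'))
        have h1 : aa n = 0 := zero_of_int h.F0 fun l hl' => by
          have := hl _ (h.st l hl' 0 le_rfl) (by rw [innerv]; simp)
          rw [innerv] at this
          simp only [aa_pv, yy_pv, zz_pv, mul_zero, add_zero] at this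
          exact this.le
        have h2 := hl _ (h.st 0 (interior_subset h.F0) 1 zero_le_one) (by rw [innerv]; simp)
        rw [innerv] at h2
        simp only [aa_pv, yy_pv, zz_pv, inner_zero_right, mul_zero, mul_one, zero_add] at h2
        exact extv (by simpa using h1) (by simpa using hn') (by simpa using h2)
    · intro v hv hvz
      have hpc : ∀ x : EE V, ((prj (pv 0 0 1) x : Hp (pv 0 0 1 : EE V)) : EE V) =
          pv (aa x) (yy x) 0 := by
        intro x
        rw [prj_coe hg1, innerv]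
        exact extv (by simp) (by simp) (by simp)
      have hDc : Convex ℝ (prj (pv 0 0 1 : EE V) '' C) :=
        h.cvx.linear_image (prj (pv 0 0 1 : EE V)).toLinearMap
      have hm : prj (pv 0 0 1 : EE V) (pv 0 0 0) ∈ closure (prj (pv 0 0 1 : EE V) '' C) :=
        subset_closure ⟨_, h.z0, rfl⟩
      have hnl : ¬ LF (closure (prj (pv 0 0 1 : EE V) '' C)) := by
        intro hl
        obtain ⟨o, ho, hoU⟩ := hH _ hg1 _ hDc.closure isClosed_closure hl (by
          have hsurj : Function.Surjective (prj (pv 0 0 1 : EE V)) := fun l => ⟨l, prj_self l⟩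
          obtain ⟨p, hp⟩ := h.int
          refine ⟨prj (pv 0 0 1 : EE V) p, ?_⟩
          rw [mem_interior]
          exact ⟨prj (pv 0 0 1 : EE V) '' interior C,
            (image_mono interior_subset).trans subset_closure,
            (prj (pv 0 0 1 : EE V)).isOpenMap hsurj _ isOpen_interior,
            mem_image_of_mem _ hp⟩) _ hm (by
          rw [hpc]
          simpa using h0U)
        obtain ⟨k, hk⟩ := (up_G hg1 h.cvx h.cl h.int h.lf h.gR ho).exists
        refine hno _ hk ?_
        simpa using hoU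
      unfold LF at hnl
      push Not at hnl
      obtain ⟨d, hd1, hd2, hd0⟩ := hnl
      set D := closure (prj (pv 0 0 1 : EE V) '' C) with hD
      obtain ⟨R, hR⟩ := h.Fc.isBounded.exists_norm_le
      have hR0 : 0 ≤ R := (norm_nonneg _).trans (hR 0 (interior_subset h.F0))
      have h1 : ∀ l ∈ D, ‖aa (l : EE V)‖ ≤ R := by
        intro l hl
        refine closure_minimal (t := {l : Hp (pv 0 0 1 : EE V) | ‖aa (l : EE V)‖ ≤ R}) ?_ ?_ hl
        · rintro _ ⟨x, hx, rfl⟩
          change ‖aa ((prj (pv 0 0 1) x : Hp (pv 0 0 1 : EE V)) : EE V)‖ ≤ R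
          rw [hpc, aa_pv]
          exact hR _ (h.bF x hx)
        · exact isClosed_le (cont_aa.comp continuous_subtype_val).norm continuous_const
      have h2 : ∀ l ∈ D, ⟪v, (l : EE V)⟫_ℝ ≤ 1 := by
        intro l hl
        refine closure_minimal (t := {l : Hp (pv 0 0 1 : EE V) | ⟪v, (l : EE V)⟫_ℝ ≤ 1}) ?_ ?_ hl
        · rintro _ ⟨x, hx, rfl⟩
          change ⟪v, ((prj (pv 0 0 1) x : Hp (pv 0 0 1 : EE V)) : EE V)⟫_ℝ ≤ 1
          have h3 := hv x hx
          rw [valv, hvz] at h3
          rw [hpc, innerv, hvz]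
          simp only [aa_pv, yy_pv, zz_pv]
          linarith
        · exact isClosed_le (by fun_prop) continuous_const
      have hk : ∀ d : Hp (pv 0 0 1 : EE V), d ∈ Rc D →
          (∀ t : ℝ, 0 ≤ t → ‖t • aa (d : EE V)‖ ≤ R) ∧
          ∀ t : ℝ, 0 ≤ t → t * ⟪v, (d : EE V)⟫_ℝ ≤ 1 := by
        intro d hd
        refine ⟨fun t ht => ?_, fun t ht => ?_⟩
        · have h3 := h1 _ (hd _ hm t ht)
          rw [Submodule.coe_add, Submodule.coe_smul, hpc] at h3
          simpa using h3
        · have h3 := h2 _ (hd _ hm t ht)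
          rw [Submodule.coe_add, Submodule.coe_smul, hpc, inner_add_right,
            real_inner_smul_right] at h3
          have h4 : ⟪v, (pv (aa (pv 0 0 0 : EE V)) (yy (pv 0 0 0 : EE V)) 0 : EE V)⟫_ℝ = 0 := by
            rw [innerv]; simp
          linarith
      have hda : aa (d : EE V) = 0 := by
        by_contra hne
        have hn : 0 < ‖aa (d : EE V)‖ := norm_pos_iff.2 hne
        have h3 := (hk d hd1).1 ((R + 1) / ‖aa (d : EE V)‖) (by positivity)
        rw [norm_smul, Real.norm_eq_abs, abs_of_pos (by positivity),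
          div_mul_cancel₀ _ hn.ne'] at h3
        linarith
      have hdz : zz (d : EE V) = 0 := by
        have h3 : ⟪(pv 0 0 1 : EE V), (d : EE V)⟫_ℝ = 0 := inner_orth d
        rw [innerv] at h3
        simpa using h3
      have hdy : yy (d : EE V) ≠ 0 := by
        intro h3
        apply hd0
        apply Subtype.ext
        exact extv (by simpa using hda) (by simpa using h3) (by simpa using hdz)
      have hle : ∀ d : Hp (pv 0 0 1 : EE V), d ∈ Rc D → ⟪v, (d : EE V)⟫_ℝ ≤ 0 := by
        intro d hd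
        by_contra hcon
        push Not at hcon
        have h3 := (hk d hd).2 (2 / ⟪v, (d : EE V)⟫_ℝ) (by positivity)
        rw [div_mul_cancel₀ _ hcon.ne'] at h3
        norm_num at h3
      have h3 := hle d hd1
      have h4 := hle (-d) hd2
      rw [Submodule.coe_neg, inner_neg_right] at h4
      have h5 : ⟪v, (d : EE V)⟫_ℝ = 0 := by linarith
      rw [innerv, hda, hdz, inner_zero_right, mul_zero, zero_add, add_zero] at h5
      exact (mul_eq_zero.1 h5).resolve_right hdy
  exact hno _ (G_mono hnN ⟨hfi.gi, hfi.cvn hcv⟩) (by simpa using h0U)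

end Pool.Agent.N321.MN
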