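import Pool.Agent.N321.MN.X

set_option autoImplicit false
set_option linter.unusedSectionVars false

/-!
# Zooming at a face of codimension two
-/

namespace Pool.Agent.N321.MN

open scoped InnerProductSpace Topology
open Metric Module Filter Set
open Pool.Agent.H985.Sep (polar)

variable {V : Type} [NormedAddCommGroup V] [InnerProductSpace ℝ V] [FiniteDimensional ℝ V]

/-- diagonal maps -/
noncomputable def dgv {β t : ℝ} (hβ : β ≠ 0) (ht : t ≠ 0) : EE V ≃ₗ[ℝ] EE V where
  toFun z := pv (aa z) (β * yy z) (t * zz z)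
  invFun z := pv (aa z) (β⁻¹ * yy z) (t⁻¹ * zz z)
  map_add' u v := extv (by simp) (by simp; ring) (by simp; ring)
  map_smul' a v := extv (by simp) (by simp; ring) (by simp; ring)
  left_inv v := extv (by simp) (by simp; field_simp) (by simp; field_simp)
  right_inv v := extv (by simp) (by simp; field_simp) (by simp; field_simp)

lemma dgv_apply {β t : ℝ} (hβ : β ≠ 0) (ht : t ≠ 0) (z : EE V) :
    dgv hβ ht z = pv (aa z) (β * yy z) (t * zz z) := rfl

/-- a slice -/
lemma slicev {K : Set (EE V)} (hK : Convex ℝ K) (hKc : IsCompact K) (h0 : pv 0 0 0 ∈ K) {h t : ℝ}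
    (hi : pv 0 0 h ∈ interior K) (ht0 : 0 < t) (hth : t ≤ h) :
    ∃ m M : ℝ, m < 0 ∧ 0 < M ∧ pv 0 m t ∈ K ∧ pv 0 M t ∈ K ∧
      ∀ η : ℝ, pv 0 η t ∈ K → m ≤ η ∧ η ≤ M := by
  have hh : 0 < h := by linarith
  have hti : pv 0 0 t ∈ interior K := by
    have h1 := hK.combo_self_interior_mem_interior h0 hi (a := 1 - t / h) (b := t / h) (by
      rw [sub_nonneg, div_le_one hh]; exact hth) (by positivity) (by ring)
    convert h1 using 1
    refine extv (by simp) (by simp) ?_
    simp only [zz_add, zz_smul, zz_pv]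
    field_simp
    ring
  have hcont : Continuous fun η : ℝ => (pv 0 η t : EE V) :=
    cont_pv continuous_const continuous_id continuous_const
  set S : Set ℝ := (fun η : ℝ => (pv 0 η t : EE V)) ⁻¹' K with hS
  have hSc : IsCompact S := by
    refine Metric.isCompact_of_isClosed_isBounded (hKc.isClosed.preimage hcont) ?_
    obtain ⟨R, hR⟩ := hKc.isBounded.exists_norm_le
    refine (isBounded_iff_forall_norm_le).2 ⟨R, fun η hη => ?_⟩
    have h1 := hR _ hη
    have h2 := normv_sq (pv 0 η t : EE V)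
    simp only [aa_pv, yy_pv, zz_pv, norm_zero] at h2
    rw [Real.norm_eq_abs]
    have h3 : |η| ≤ ‖(pv 0 η t : EE V)‖ := by
      apply abs_le_of_sq_le_sq
      · rw [h2]; nlinarith [sq_nonneg t]
      · exact norm_nonneg _
    linarith
  have hS0 : (0 : ℝ) ∈ interior S := by
    rw [mem_interior]
    refine ⟨(fun η : ℝ => (pv 0 η t : EE V)) ⁻¹' interior K, fun η hη => ?_,
      isOpen_interior.preimage hcont, hti⟩
    exact interior_subset (s := K) hη
  have hSn : S.Nonempty := ⟨0, interior_subset hS0⟩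
  obtain ⟨M, hMS, hM⟩ := hSc.exists_isGreatest hSn
  obtain ⟨m, hmS, hm⟩ := hSc.exists_isLeast hSn
  obtain ⟨ε, hε, hεS⟩ := Metric.nhds_basis_closedBall.mem_iff.1 (mem_interior_iff_mem_nhds.1 hS0)
  have h1 : ε ∈ S := hεS (by rw [mem_closedBall, dist_zero_right, Real.norm_eq_abs,
    abs_of_pos hε])
  have h2 : -ε ∈ S := hεS (by rw [mem_closedBall, dist_zero_right, Real.norm_eq_abs, abs_neg,
    abs_of_pos hε])
  exact ⟨m, M, by linarith [hm h2], by linarith [hM h1], hmS, hMS, fun η hη => ⟨hm hη, hM hη⟩⟩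

/-- recentring the limit set -/
lemma zoom_fin {C : Set (EE V)} (hCv : Convex ℝ C) (hCcl : IsClosed C) {F : Set V} {κ : ℝ}
    (hF : IsCompact F) (F0 : (0 : V) ∈ interior F)
    (hCs : ∀ s ∈ F, pv s (-κ) (-1) ∈ C) (hCz : ∀ Z : ℝ, -1 ≤ Z → pv 0 (-κ) Z ∈ C)
    (hCbd : ∀ z ∈ C, aa z ∈ F ∧ -1 ≤ zz z) (hint : (interior C).Nonempty)
    (hnb : pv 0 1 0 ∉ Rc C) : PV {w | pv 0 (-κ) (-1) + w ∈ C} F := by
  have key : ∀ (x : V) (y z : ℝ), pv 0 (-κ) (-1) + pv x y z = pv x (y - κ) (z - 1) := fun x y z =>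
    extv (by simp) (by simp; ring) (by simp; ring)
  refine ⟨shift_conv hCv _, shift_closed hCcl _, hF, F0, fun p hp => ?_, fun p hp => ?_,
    fun l hl ζ hζ => ?_, ?_, fun hh => hnb ?_⟩
  · have := (hCbd _ hp).1
    simpa using this
  · have := (hCbd _ hp).2
    simpa using this
  · rw [mem_setOf_eq, key, zero_sub]
    have hg : pv 0 0 1 ∈ Rc C := by
      refine Rc_of_ray hCv hCcl (y := pv 0 (-κ) (-1)) fun t ht => ?_
      convert hCz (-1 + t) (by linarith) using 1
      exact extv (by simp) (by simp) (by simp)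
    convert hg _ (hCs l hl) ζ hζ using 1
    exact extv (by simp) (by simp) (by simp; ring)
  · obtain ⟨p, hp⟩ := hint
    refine ⟨p - pv 0 (-κ) (-1), ?_⟩
    rw [shift_interior, add_sub_cancel]
    exact hp
  · intro x hx t ht
    have h1 := hh.1 (x - pv 0 (-κ) (-1)) (by
      rw [mem_setOf_eq, add_sub_cancel]
      exact hx) t ht
    rwa [mem_setOf_eq, ← add_assoc, add_sub_cancel] at h1

/-- **Zooming at a face of codimension two.** -/
theorem zoom {K : Set (EE V)} (hK : Convex ℝ K) (hKc : IsCompact K) {F : Set V}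
    (hF : ∀ l, l ∈ F ↔ pv l 0 0 ∈ K) {h : ℝ} (hh : 0 < h)
    (k0 : ∀ p ∈ K, 0 ≤ zz p) (k1 : ∀ p ∈ K, zz p = 0 → yy p = 0)
    (F0 : (0 : V) ∈ interior F) (hi : pv 0 0 h ∈ interior K) {n N : ℕ} (hcvF : cv n F 0)
    (hnN : n + 2 ≤ N + 1) {U : Set V} (hU : IsOpen U) (h0U : (0 : V) ∈ U) (hH : HH N U) :
    ∃ x ∈ U, pv x 0 0 ∈ closure (G (N + 1) K) := by
  have hcF : Continuous fun l : V => (pv l 0 0 : EE V) :=
    cont_pv continuous_id continuous_const continuous_const
  obtain ⟨R, hR⟩ := hKc.isBounded.exists_norm_le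
  have hFpre : F = (fun l : V => (pv l 0 0 : EE V)) ⁻¹' K := by
    ext l
    exact hF l
  have hFc : IsCompact F := by
    rw [hFpre]
    refine Metric.isCompact_of_isClosed_isBounded (hKc.isClosed.preimage hcF) ?_
    refine (isBounded_iff_forall_norm_le).2 ⟨R, fun l hl => ?_⟩
    have h1 := hR _ hl
    have h2 := normv_sq (pv l 0 0 : EE V)
    simp only [aa_pv, yy_pv, zz_pv] at h2
    have h3 := norm_nonneg l
    have h4 := norm_nonneg (pv l 0 0 : EE V)
    nlinarith
  have hfl : ∀ s ∈ F, pv s 0 0 ∈ K := fun s hs => (hF s).1 hs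
  have h00 : pv 0 0 0 ∈ K := hfl 0 (interior_subset F0)
  have hz : ∀ τ : ℝ, 0 ≤ τ → τ ≤ h → pv 0 0 τ ∈ K := by
    intro τ h1 h2
    have h3 := hK h00 (interior_subset hi) (a := 1 - τ / h) (b := τ / h) (by
      rw [sub_nonneg, div_le_one hh]; exact h2) (by positivity) (by ring)
    convert h3 using 1
    refine extv (by simp) (by simp) ?_
    simp only [zz_add, zz_smul, zz_pv]
    field_simp
    ring
  set t : ℕ → ℝ := fun k => h * tk k with ht
  have ht0 : ∀ k, 0 < t k := fun k => mul_pos hh (tk_pos k)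
  have hth : ∀ k, t k ≤ h := by
    intro k
    have : tk k ≤ 1 := by
      rw [tk, div_le_one (by positivity)]
      have : (0 : ℝ) ≤ k := Nat.cast_nonneg k
      linarith
    simp only [ht]
    nlinarith
  have htl : Tendsto t (hyperfilter ℕ : Filter ℕ) (𝓝 0) := by
    have := tk_lim.const_mul h
    rwa [mul_zero] at this
  choose m M hm0 hM0 hmK hMK hmM using fun k => slicev hK hKc h00 hi (ht0 k) (hth k)
  set β : ℕ → ℝ := fun k => (M k - m k) / 2 with hβ
  set c : ℕ → ℝ := fun k => (M k + m k) / 2 with hc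
  have hβ0 : ∀ k, 0 < β k := fun k => by
    have := hm0 k
    have := hM0 k
    simp only [hβ]
    linarith
  have hcβ : ∀ k, c k + β k = M k := fun k => by simp only [hc, hβ]; ring
  have hcβ' : ∀ k, c k - β k = m k := fun k => by simp only [hc, hβ]; ring
  -- limits
  have hlim0 : ∀ f : ℕ → ℝ, (∀ k, pv 0 (f k) (t k) ∈ K) →
      Tendsto f (hyperfilter ℕ : Filter ℕ) (𝓝 0) := by
    intro f hf
    have hfb : ∀ k, |f k| ≤ R := by
      intro k
      have h1 := hR _ (hf k)
      have h2 := normv_sq (pv 0 (f k) (t k) : EE V)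
      simp only [aa_pv, yy_pv, zz_pv, norm_zero] at h2
      have h3 : |f k| ≤ ‖(pv 0 (f k) (t k) : EE V)‖ := by
        apply abs_le_of_sq_le_sq
        · rw [h2]; nlinarith [sq_nonneg (t k)]
        · exact norm_nonneg _
      linarith
    obtain ⟨a, ha⟩ : ∃ a, Tendsto f (hyperfilter ℕ : Filter ℕ) (𝓝 a) := by
      rcases ultra (hyperfilter ℕ) f with h1 | h1
      · exact h1
      · obtain ⟨k, hk⟩ := (h1.eventually_gt_atTop R).exists
        have := hfb k
        rw [Real.norm_eq_abs] at hk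
        linarith
    have h1 : pv 0 a 0 ∈ K := hKc.isClosed.mem_of_tendsto
      (pv_lim tendsto_const_nhds ha htl) (Eventually.of_forall hf)
    have h2 := k1 _ h1 (by simp)
    rw [yy_pv] at h2
    rwa [h2] at ha
  have hMl := hlim0 M hMK
  have hml := hlim0 m hmK
  have hβl : Tendsto β (hyperfilter ℕ : Filter ℕ) (𝓝 0) := by
    have := (hMl.sub hml).div_const 2
    simpa using this
  have hcl : Tendsto c (hyperfilter ℕ : Filter ℕ) (𝓝 0) := by
    have := (hMl.add hml).div_const 2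
    simpa using this
  -- the zooms
  set Kk : ℕ → Set (EE V) := fun k => pre K (pv 0 (c k) (t k)) (dgv (hβ0 k).ne' (ht0 k).ne')
    with hKk
  have hok : ∀ (k : ℕ) (z : EE V), (pv 0 (c k) (t k) : EE V) + dgv (hβ0 k).ne' (ht0 k).ne' z =
        pv (aa z) (c k + β k * yy z) (t k * (1 + zz z)) := by
    intro k z
    rw [dgv_apply]
    exact extv (by simp) (by simp) (by simp; ring)
  have hmem : ∀ (k : ℕ) (z : EE V), z ∈ Kk k ↔ pv (aa z) (c k + β k * yy z) (t k * (1 + zz z)) ∈ K := by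
    intro k z
    change pv 0 (c k) (t k) + dgv (hβ0 k).ne' (ht0 k).ne' z ∈ K ↔ _
    rw [hok]
  set C : Set (EE V) := ulim (hyperfilter ℕ) Kk with hC
  have hcv : ∀ᶠ k in (hyperfilter ℕ : Filter ℕ), Convex ℝ (Kk k) :=
    Eventually.of_forall fun k => pre_convex hK _ _
  have hlo : LoU (hyperfilter ℕ) C Kk := ulim_lo hcv
  have hCv : Convex ℝ C := ulim_convex hcv
  have hCcl : IsClosed C := ulim_closed _ _
  -- the slope
  set κ' : ℕ → ℝ := fun k => c k / β k with hκ'
  have hκ1 : ∀ k, |κ' k| ≤ 1 := by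
    intro k
    have h1 := hm0 k
    have h2 := hM0 k
    have h3 := hcβ k
    have h4 := hcβ' k
    simp only [hκ']
    rw [abs_div, abs_of_pos (hβ0 k), div_le_one (hβ0 k), abs_le]
    constructor <;> linarith
  obtain ⟨κ, hκ⟩ : ∃ a, Tendsto κ' (hyperfilter ℕ : Filter ℕ) (𝓝 a) := by
    rcases ultra (hyperfilter ℕ) κ' with h1 | h1
    · exact h1
    · obtain ⟨k, hk⟩ := (h1.eventually_gt_atTop 1).exists
      have := hκ1 k
      rw [Real.norm_eq_abs] at hk
      linarith
  have hκβ : ∀ k, β k * κ' k = c k := fun k => by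
    simp only [hκ']
    exact mul_div_cancel₀ _ (hβ0 k).ne'
  -- points of `C`
  have hCb : pv 0 1 0 ∈ C := hlo.out (fun _ => pv 0 1 0) _ (Eventually.of_forall fun k => by
    rw [hmem]
    simp only [aa_pv, yy_pv, zz_pv, mul_one, add_zero]
    rw [hcβ]
    exact hMK k) tendsto_const_nhds
  have hCb' : pv 0 (-1) 0 ∈ C := hlo.out (fun _ => pv 0 (-1) 0) _ (Eventually.of_forall fun k => by
    rw [hmem]
    simp only [aa_pv, yy_pv, zz_pv, mul_one, add_zero, mul_neg]
    rw [← sub_eq_add_neg, hcβ']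
    exact hmK k) tendsto_const_nhds
  have hCs : ∀ s ∈ F, pv s (-κ) (-1) ∈ C := by
    intro s hs
    refine hlo.out (fun k => pv s (-κ' k) (-1)) _ (Eventually.of_forall fun k => ?_)
      (pv_lim tendsto_const_nhds hκ.neg tendsto_const_nhds)
    rw [hmem]
    simp only [aa_pv, yy_pv, zz_pv, mul_neg]
    rw [hκβ, add_neg_cancel, add_neg_cancel, mul_zero]
    exact hfl s hs
  have hCz : ∀ Z : ℝ, -1 ≤ Z → pv 0 (-κ) Z ∈ C := by
    intro Z hZ
    refine hlo.out (fun k => pv 0 (-κ' k) Z) _ ?_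
      (pv_lim tendsto_const_nhds hκ.neg tendsto_const_nhds)
    have h1 : Tendsto (fun k => t k * (1 + Z)) (hyperfilter ℕ : Filter ℕ) (𝓝 0) := by
      have := htl.mul_const (1 + Z)
      rwa [zero_mul] at this
    filter_upwards [h1.eventually_lt_const hh] with k hk
    rw [hmem]
    simp only [aa_pv, yy_pv, zz_pv, mul_neg]
    rw [hκβ, add_neg_cancel]
    exact hz _ (mul_nonneg (ht0 k).le (by linarith)) hk.le
  -- bounds
  have hCbd : ∀ z ∈ C, aa z ∈ F ∧ -1 ≤ zz z := by
    intro z hz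
    obtain ⟨x, hx, hxz⟩ := ulim_seq tk_lim (K := Kk) (fun k => ⟨pv 0 1 0, by
      rw [hmem]
      simp only [aa_pv, yy_pv, zz_pv, mul_one, add_zero]
      rw [hcβ]
      exact hMK k⟩) hz
    have hx0 : Tendsto (fun k => aa (x k)) (hyperfilter ℕ : Filter ℕ) (𝓝 (aa z)) :=
      (cont_aa.tendsto z).comp hxz
    have hx1 : Tendsto (fun k => yy (x k)) (hyperfilter ℕ : Filter ℕ) (𝓝 (yy z)) :=
      (cont_yy.tendsto z).comp hxz
    have hx2 : Tendsto (fun k => zz (x k)) (hyperfilter ℕ : Filter ℕ) (𝓝 (zz z)) :=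
      (cont_zz.tendsto z).comp hxz
    constructor
    · have h1 : Tendsto (fun k => (pv (aa (x k)) (c k + β k * yy (x k))
          (t k * (1 + zz (x k))) : EE V))
          (hyperfilter ℕ : Filter ℕ) (𝓝 (pv (aa z) (0 + 0 * yy z) (0 * (1 + zz z)))) :=
        pv_lim hx0 (hcl.add (hβl.mul hx1)) (htl.mul (hx2.const_add 1))
      have h2 := hKc.isClosed.mem_of_tendsto h1 (Eventually.of_forall fun k => (hmem k _).1 (hx k))
      rw [hF]
      simpa using h2
    · refine ge_of_tendsto hx2 (Eventually.of_forall fun k => ?_)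
      have h1 := k0 _ ((hmem k _).1 (hx k))
      rw [zz_pv] at h1
      have h2 := nonneg_of_mul_nonneg_right h1 (ht0 k)
      linarith
  -- the interior
  have h0i : (0 : EE V) ∈ interior C := by
    refine int_of_sep hCv (fun u hu => ?_) ⟨_, hCb⟩
    by_cases h1 : yy u = 0
    · rcases lt_trichotomy (zz u) 0 with h2 | h2 | h2
      · refine ⟨_, hCz (-1) le_rfl, ?_⟩
        rw [innerv]
        simp only [aa_pv, yy_pv, zz_pv, h1, inner_zero_left]
        linarith
      · have h3 : aa u ≠ 0 := by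
          intro h3
          exact hu (extv (by simpa using h3) (by simpa using h1) (by simpa using h2))
        obtain ⟨l, hl, hlu⟩ := Pool.Agent.R753.SJ.exists_pos F0 h3
        refine ⟨_, hCs l hl, ?_⟩
        rw [sub_zero] at hlu
        rw [innerv]
        simp only [aa_pv, yy_pv, zz_pv, h1, h2]
        rw [real_inner_comm]
        linarith
      · refine ⟨_, hCz 1 (by norm_num), ?_⟩
        rw [innerv]
        simp only [aa_pv, yy_pv, zz_pv, h1, inner_zero_left]
        linarith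
    · rcases lt_or_gt_of_ne h1 with h1 | h1
      · refine ⟨_, hCb', ?_⟩
        rw [innerv]
        simp only [aa_pv, yy_pv, zz_pv, inner_zero_left]
        linarith
      · refine ⟨_, hCb, ?_⟩
        rw [innerv]
        simp only [aa_pv, yy_pv, zz_pv, inner_zero_left]
        linarith
  -- no line
  have hnb : pv 0 1 0 ∉ Rc C := by
    intro hd
    have h1 := int_add_rc h0i hd (t := 2) (by norm_num)
    obtain ⟨k, hk⟩ := (hlo.inn _ h1).exists
    rw [hmem] at hk
    simp only [aa_add, yy_add, zz_add, aa_smul, yy_smul, zz_smul, aa_zero, yy_zero, zz_zero,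
      aa_pv, yy_pv, zz_pv, zero_add, mul_one, mul_zero, add_zero, smul_zero] at hk
    have h2 := (hmM k _ hk).2
    have h3 := hcβ k
    have h4 := hβ0 k
    linarith
  have hPV := zoom_fin hCv hCcl hFc F0 hCs hCz hCbd ⟨0, h0i⟩ hnb
  obtain ⟨p, hp, hpU⟩ := hPV.good hcvF hnN hU h0U hH
  rw [G_shift] at hp
  set p' : EE V := pv 0 (-κ) (-1) + p with hp'
  have hp'a : aa p' = aa p := by simp [hp']
  have h1 := G_lim (K := K) (o := fun k => pv 0 (c k) (t k))
    (A := fun k => dgv (hβ0 k).ne' (ht0 k).ne') hCv hp hlo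
  refine ⟨aa p, hpU, mem_closure_of_tendsto (f := fun k => (pv (aa p) (c k + β k * yy p')
    (t k * (1 + zz p')) : EE V)) (b := (hyperfilter ℕ : Filter ℕ)) ?_ ?_⟩
  · have h2 : Tendsto (fun k => (pv (aa p) (c k + β k * yy p') (t k * (1 + zz p')) : EE V))
        (hyperfilter ℕ : Filter ℕ) (𝓝 (pv (aa p) (0 + 0 * yy p') (0 * (1 + zz p')))) :=
      pv_lim tendsto_const_nhds (hcl.add (hβl.mul_const _)) (htl.mul_const _)
    simpa using h2
  · filter_upwards [h1] with k hk
    rwa [hok, hp'a] at hk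

end Pool.Agent.N321.MN
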