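import Pool.Agent.N321.MN.Y

set_option autoImplicit false
set_option linter.unusedSectionVars false

/-!
# Faces of codimension two and one
-/

namespace Pool.Agent.N321.MN

open scoped InnerProductSpace Topology
open Metric Module Filter Set
open Pool.Agent.H985.Sep (polar)
open Pool.Agent.N321.NB (inner_orth)

variable {E : Type} [NormedAddCommGroup E] [InnerProductSpace ℝ E] [FiniteDimensional ℝ E]

/-- the frame map -/
noncomputable def frv (L : Submodule ℝ E) (b r : E) : EE L →ₗ[ℝ] E where
  toFun z := ((aa z : L) : E) + yy z • b + zz z • r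
  map_add' u v := by
    simp only [aa_add, yy_add, zz_add, add_smul, Submodule.coe_add]
    abel
  map_smul' s v := by
    simp only [aa_smul, yy_smul, zz_smul, mul_smul, smul_add, RingHom.id_apply,
      Submodule.coe_smul]

lemma frv_apply (L : Submodule ℝ E) (b r : E) (z : EE L) :
    frv L b r z = ((aa z : L) : E) + yy z • b + zz z • r := rfl

lemma G_pre {E' : Type} [NormedAddCommGroup E'] [InnerProductSpace ℝ E'] [FiniteDimensional ℝ E']
    {K : Set E} {o : E} {A : E' ≃ₗ[ℝ] E} {n : ℕ} {p : E'} (hp : p ∈ G n (pre K o A)) :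
    o + A p ∈ G n K := by
  refine ⟨?_, cv_pre hp.2⟩
  have := hp.1
  rw [pre_interior] at this
  exact this

/-- **Faces of codimension two.** -/
theorem codim_two {K : Set E} (hK : Convex ℝ K) (hKc : IsCompact K)
    (hint : (interior K).Nonempty) {u x : E} (hu : u ≠ 0)
    (hmax : ∀ z ∈ K, ⟪u, z⟫_ℝ ≤ ⟪u, x⟫_ℝ) {L : Submodule ℝ E} (hL : finrank ℝ L + 2 = finrank ℝ E)
    (huL : ∀ l ∈ L, ⟪u, l⟫_ℝ = 0) (hface : ∀ z ∈ K, ⟪u, z⟫_ℝ = ⟪u, x⟫_ℝ → z - x ∈ L)
    (h0 : (0 : L) ∈ interior {l : L | x + (l : E) ∈ K}) {n N : ℕ}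
    (hcv : cv n {l : L | x + (l : E) ∈ K} 0) (hnN : n + 2 ≤ N + 1) {U : Set L} (hU : IsOpen U)
    (h0U : (0 : L) ∈ U) (hH : HH N U) : ∃ l ∈ U, x + (l : E) ∈ closure (G (N + 1) K) := by
  -- the interior point
  obtain ⟨q, hq⟩ := hint
  set r : E := q - x with hr
  have hur : ⟪u, r⟫_ℝ < 0 := by
    rw [hr, inner_sub_right]
    have h1 : ⟪u, q⟫_ℝ ≤ ⟪u, x⟫_ℝ := hmax q (interior_subset hq)
    rcases h1.lt_or_eq with h2 | h2
    · linarith
    · exact absurd hq (Pool.Agent.N321.NB.not_int_of_max hu fun z hz => by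
        rw [h2]; exact hmax z hz)
  -- the third direction
  obtain ⟨b, hb0, hub, hbL⟩ : ∃ b : E, b ≠ 0 ∧ ⟪u, b⟫_ℝ = 0 ∧ ∀ l ∈ L, ⟪b, l⟫_ℝ = 0 := by
    set W : Submodule ℝ E := L ⊔ Submodule.span ℝ {u} with hW
    have h1 : finrank ℝ W ≤ finrank ℝ L + 1 := by
      refine (Submodule.finrank_add_le_finrank_add_finrank _ _).trans ?_
      rw [finrank_span_singleton hu]
    have h2 := Submodule.finrank_add_finrank_orthogonal W
    have h3 : 0 < finrank ℝ Wᗮ := by omega
    obtain ⟨b, hb⟩ := Module.finrank_pos_iff_exists_ne_zero.1 h3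
    refine ⟨b, fun h => hb (Subtype.ext h), ?_, fun l hl => ?_⟩
    · exact Submodule.inner_right_of_mem_orthogonal
        (Submodule.mem_sup_right (Submodule.mem_span_singleton_self u)) b.2
    · exact Submodule.inner_left_of_mem_orthogonal (Submodule.mem_sup_left hl) b.2
  have hbb : ⟪b, b⟫_ℝ ≠ 0 := inner_self_ne_zero.2 hb0
  have hinj : Function.Injective (frv L b r) := by
    rw [injective_iff_map_eq_zero]
    intro z hz
    rw [frv_apply] at hz
    have h2 : zz z = 0 := by
      have h3 := congrArg (fun w => ⟪u, w⟫_ℝ) hz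
      simp only [inner_add_right, real_inner_smul_right, huL _ (aa z).2, hub, mul_zero, zero_add,
        inner_zero_right] at h3
      exact (mul_eq_zero.1 h3).resolve_right hur.ne
    have h1 : yy z = 0 := by
      have h3 := congrArg (fun w => ⟪b, w⟫_ℝ) hz
      simp only [inner_add_right, real_inner_smul_right, hbL _ (aa z).2, h2, zero_mul, zero_add,
        add_zero, inner_zero_right] at h3
      exact (mul_eq_zero.1 h3).resolve_right hbb
    have h0 : aa z = 0 := by
      rw [h1, h2, zero_smul, zero_smul, add_zero, add_zero] at hz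
      exact_mod_cast hz
    exact extv (by simpa using h0) (by simpa using h1) (by simpa using h2)
  set A : EE L ≃ₗ[ℝ] E := LinearMap.linearEquivOfInjective (frv L b r) hinj
    (by rw [finrankv, hL]) with hA
  have hAz : ∀ z, A z = ((aa z : L) : E) + yy z • b + zz z • r := fun z => rfl
  have hui : ∀ z, ⟪u, x + A z⟫_ℝ = ⟪u, x⟫_ℝ + zz z * ⟪u, r⟫_ℝ := by
    intro z
    rw [hAz, inner_add_right, inner_add_right, inner_add_right, real_inner_smul_right,
      real_inner_smul_right, huL _ (aa z).2, hub]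
    ring
  obtain ⟨l, hlU, hl⟩ := zoom (K := pre K x A) (pre_convex hK x A) (by
      have : pre K x A =
          (A.toContinuousLinearEquiv.toHomeomorph.trans (Homeomorph.addLeft x)) ⁻¹' K := rfl
      rw [this]
      exact (Homeomorph.isCompact_preimage _).2 hKc)
    (F := {l : L | x + (l : E) ∈ K}) (fun l => by
      change x + (l : E) ∈ K ↔ x + A (pv l 0 0) ∈ K
      rw [hAz, aa_pv, yy_pv, zz_pv, zero_smul, zero_smul, add_zero, add_zero]) one_pos
    (fun z hz => by
      have h1 := hmax _ hz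
      rw [hui] at h1
      nlinarith)
    (fun z hz hz2 => by
      have h1 : ⟪u, x + A z⟫_ℝ = ⟪u, x⟫_ℝ := by rw [hui, hz2, zero_mul, add_zero]
      have h2 := hface _ hz h1
      rw [add_sub_cancel_left, hAz, hz2, zero_smul, add_zero] at h2
      have h3 := hbL _ h2
      rw [inner_add_right, real_inner_smul_right, hbL _ (aa z).2, zero_add] at h3
      exact (mul_eq_zero.1 h3).resolve_right hbb)
    h0 (by
      rw [pre_interior]
      change x + A (pv 0 0 1) ∈ interior K
      rw [hAz, aa_pv, yy_pv, zz_pv, one_smul, zero_smul, Submodule.coe_zero, zero_add, zero_add,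
        hr, add_sub_cancel]
      exact hq) hcv hnN hU h0U hH
  refine ⟨l, hlU, ?_⟩
  have hcont : Continuous fun p : EE L => x + A p :=
    continuous_const.add A.toContinuousLinearEquiv.continuous
  have h1 := map_mem_closure hcont hl (t := G (N + 1) K) fun p hp => G_pre hp
  change x + A (pv l 0 0) ∈ _ at h1
  rwa [hAz, aa_pv, yy_pv, zz_pv, zero_smul, zero_smul, add_zero, add_zero] at h1

/-- the hypothesis holds in dimension three -/
lemma HH_three {V : Type} [NormedAddCommGroup V] [InnerProductSpace ℝ V] [FiniteDimensional ℝ V]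
    (hV : finrank ℝ V = 1) {U : Set V} (hU : IsOpen U) : HH 3 U := by
  intro e he D hD hcl hl hint z hz hzU
  have he0 : e ≠ 0 := by rintro rfl; simp at he
  have hf : finrank ℝ (Hp e) = 2 := by
    have h1 := Hp_finrank he0
    rw [finrankv, hV] at h1
    omega
  obtain ⟨o, hoU, ho⟩ := dense_plane hf hD hcl hl hint hz
    (U := {l : Hp e | aa (l : EE V) ∈ U})
    (hU.preimage (cont_aa.comp continuous_subtype_val)) hzU
  exact ⟨o, ho, hoU⟩

/-- the hypothesis holds in dimension four -/
lemma HH_four {V : Type} [NormedAddCommGroup V] [InnerProductSpace ℝ V] [FiniteDimensional ℝ V]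
    (hV : finrank ℝ V = 2) : HH 4 (univ : Set V) := by
  intro e he D hD hcl hl hint z hz hzU
  have he0 : e ≠ 0 := by rintro rfl; simp at he
  have hf : finrank ℝ (Hp e) = 3 := by
    have h1 := Hp_finrank he0
    rw [finrankv, hV] at h1
    omega
  obtain ⟨o, ho⟩ := Gd_three_closed hf hD hcl hl hint
  exact ⟨o, ho, mem_univ _⟩

/-- good points near a face of codimension one in dimension three -/
theorem near_facet (hd : finrank ℝ E = 3) {K : Set E} (hK : Convex ℝ K) (hKc : IsCompact K)
    (hint : (interior K).Nonempty) {e y : E} (he : ‖e‖ = 1) (hy : y ∈ K)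
    (hpos : ∀ z ∈ K, 0 ≤ ⟪e, z - y⟫_ℝ) (hF : (interior (Fc e y K)).Nonempty) :
    y ∈ closure (G 4 K) := by
  have he0 : e ≠ 0 := by rintro rfl; simp at he
  have hf : finrank ℝ (Hp e) = 2 := by
    have := Hp_finrank he0
    omega
  have hl := LF_of_compact hKc ⟨y, hy⟩
  have h0 : (0 : Hp e) ∈ Fc e y K := by
    change y + ((0 : Hp e) : E) ∈ K
    simpa using hy
  have h1 : (0 : Hp e) ∈ closure (G 3 (Fc e y K)) := by
    rw [_root_.mem_closure_iff]
    intro U hU h0U
    obtain ⟨q, hq1, hq2⟩ := dense_plane hf (Fc_convex hK) (Fc_closed hKc.isClosed)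
      (Fc_lf hK hKc.isClosed hy hl) hF h0 hU h0U
    exact ⟨q, hq1, hq2⟩
  have hcont : Continuous fun l : Hp e => y + (l : E) := by fun_prop
  have h2 := map_mem_closure hcont h1 (t := closure (G 4 K)) fun o ho =>
    facet_G he hK hKc.isClosed hpos hint ho
  rw [closure_closure] at h2
  simpa using h2

lemma sub_convex {K : Set E} (hK : Convex ℝ K) (x : E) (L : Submodule ℝ E) :
    Convex ℝ {l : L | x + (l : E) ∈ K} := by
  intro l hl m hm a b ha hb hab
  have h := hK hl hm ha hb hab
  have h2 : x + ((a • l + b • m : L) : E) = a • (x + (l : E)) + b • (x + (m : E)) := by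
    rw [smul_add, smul_add, Submodule.coe_add, Submodule.coe_smul, Submodule.coe_smul]
    have : a • x + b • x = x := by rw [← add_smul, hab, one_smul]
    nth_rewrite 1 [← this]
    abel
  change x + ((a • l + b • m : L) : E) ∈ K
  rwa [h2]

/-- good points near a segment in dimension three -/
theorem near_segment (hd : finrank ℝ E = 3) {K : Set E} (hK : Convex ℝ K) (hKc : IsCompact K)
    (hint : (interior K).Nonempty) {u y e : E} (hu : u ≠ 0) (hy : y ∈ K)
    (hmax : ∀ z ∈ K, ⟪u, z⟫_ℝ ≤ ⟪u, y⟫_ℝ) (he0 : e ≠ 0) (hue : ⟪u, e⟫_ℝ = 0) (hye : y + e ∈ K)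
    (hseg : ∀ z ∈ K, ⟪u, z⟫_ℝ = ⟪u, y⟫_ℝ → ∃ s : ℝ, z - y = s • e) :
    y ∈ closure (G 4 K) := by
  have hen : 0 < ‖e‖ := norm_pos_iff.2 he0
  set L : Submodule ℝ E := Submodule.span ℝ {e} with hLdef
  have hL1 : finrank ℝ L = 1 := finrank_span_singleton he0
  have huL : ∀ l ∈ L, ⟪u, l⟫_ℝ = 0 := by
    intro l hl
    obtain ⟨s, rfl⟩ := Submodule.mem_span_singleton.1 hl
    rw [real_inner_smul_right, hue, mul_zero]
  have key : ∀ s : ℝ, 0 < s → s < 1 → y + s • e ∈ closure (G 4 K) := by
    intro s hs0 hs1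
    set x : E := y + s • e with hx
    have hux : ⟪u, x⟫_ℝ = ⟪u, y⟫_ℝ := by
      rw [hx, inner_add_right, real_inner_smul_right, hue, mul_zero, add_zero]
    have hxK : x ∈ K := by
      have := hK hy hye (a := 1 - s) (b := s) (by linarith) hs0.le (by ring)
      convert this using 1
      rw [hx, smul_add, sub_smul, one_smul]
      abel
    have h0 : (0 : L) ∈ interior {l : L | x + (l : E) ∈ K} := by
      rw [mem_interior_iff_mem_nhds]
      refine Filter.mem_of_superset (ball_mem_nhds (0 : L)
        (show 0 < min s (1 - s) * ‖e‖ from mul_pos (lt_min hs0 (by linarith)) hen)) fun l hl => ?_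
      rw [mem_ball_zero_iff] at hl
      obtain ⟨τ, hτ⟩ := Submodule.mem_span_singleton.1 l.2
      have h1 : ‖l‖ = |τ| * ‖e‖ := by
        have : ‖l‖ = ‖(l : E)‖ := rfl
        rw [this, ← hτ, norm_smul, Real.norm_eq_abs]
      rw [h1] at hl
      have h2 : |τ| < min s (1 - s) := lt_of_mul_lt_mul_right hl hen.le
      have h3 := lt_of_lt_of_le h2 (min_le_left _ _)
      have h4 := lt_of_lt_of_le h2 (min_le_right _ _)
      rw [abs_lt] at h3 h4
      have := hK hy hye (a := 1 - (s + τ)) (b := s + τ) (by linarith) (by linarith) (by ring)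
      change x + (l : E) ∈ K
      convert this using 1
      rw [← hτ, hx]
      module
    have hFv : Convex ℝ {l : L | x + (l : E) ∈ K} := sub_convex hK x L
    have hFcl : IsClosed {l : L | x + (l : E) ∈ K} :=
      hKc.isClosed.preimage (by fun_prop : Continuous fun l : L => x + (l : E))
    have hFc : IsCompact {l : L | x + (l : E) ∈ K} := by
      refine Metric.isCompact_of_isClosed_isBounded hFcl ?_
      obtain ⟨R, hR⟩ := hKc.isBounded.exists_norm_le
      refine (isBounded_iff_forall_norm_le).2 ⟨R + ‖x‖, fun l hl => ?_⟩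
      have h1 := hR _ hl
      have h2 := norm_sub_le (x + (l : E)) x
      rw [add_sub_cancel_left] at h2
      change ‖(l : E)‖ ≤ _
      linarith
    have : Nontrivial L := Module.nontrivial_of_finrank_pos (R := ℝ) (by omega)
    have hSs : Ss {l : L | x + (l : E) ∈ K} := by
      intro v a b hv _ _ _ hab
      obtain ⟨c, hc⟩ := (finrank_eq_one_iff_of_nonzero' v hv).1 hL1 (b - a)
      have h1 : ⟪v, b - a⟫_ℝ = 0 := by rw [inner_sub_right, hab, sub_self]
      rw [← hc, real_inner_smul_right] at h1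
      have h3 : c = 0 := (mul_eq_zero.1 h1).resolve_right (inner_self_ne_zero.2 hv)
      rw [h3, zero_smul] at hc
      exact (sub_eq_zero.1 hc.symm)
    have hcv : cv 2 {l : L | x + (l : E) ∈ K} 0 := by
      have := cv_strict hFv hFcl (LF_of_compact hFc ⟨0, interior_subset h0⟩) hSs h0
      rwa [hL1] at this
    rw [← closure_closure, _root_.mem_closure_iff]
    intro W hW hxW
    have hcont : Continuous fun l : L => x + (l : E) := by fun_prop
    obtain ⟨l, hlU, hl⟩ := codim_two hK hKc hint hu (x := x) (fun z hz => by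
        rw [hux]; exact hmax z hz) (L := L) (by rw [hL1, hd]) huL (fun z hz hzu => by
        obtain ⟨τ, hτ⟩ := hseg z hz (by rw [hzu, hux])
        have : z - x = (τ - s) • e := by
          rw [hx, ← sub_sub, hτ, sub_smul]
        rw [this]
        exact Submodule.smul_mem _ _ (Submodule.mem_span_singleton_self e)) h0 hcv
      (N := 3) le_rfl (U := (fun l : L => x + (l : E)) ⁻¹' W) (hW.preimage hcont)
      (by simpa using hxW) (HH_three hL1 (hW.preimage hcont))
    exact ⟨_, hlU, hl⟩
  rw [← closure_closure]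
  refine mem_closure_of_tendsto (f := fun s : ℝ => y + s • e) (b := 𝓝[>] 0) ?_ ?_
  · have hcont : Continuous fun s : ℝ => y + s • e := by fun_prop
    have := (hcont.tendsto 0).mono_left (nhdsWithin_le_nhds (s := Set.Ioi 0))
    simpa using this
  · have hev : ∀ᶠ s : ℝ in 𝓝[>] 0, s < 1 :=
      (eventually_lt_nhds (show (0 : ℝ) < 1 by norm_num)).filter_mono nhdsWithin_le_nhds
    filter_upwards [hev, self_mem_nhdsWithin] with s hs1 hs0
    exact key s hs0 hs1

end Pool.Agent.N321.MN
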